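import Mathlib

-- part Pool.Agent.P.MP_37e2d5_al.PBW
section

/-! The Poincare-Birkhoff-Witt theorem for finite dimensional Lie algebras over a field. -/

namespace Pool.Agent.P.MP_37e2d5_al

open UniversalEnvelopingAlgebra Module

attribute [local instance 100] LieRing.ofAssociativeRing
attribute [-simp] UniversalEnvelopingAlgebra.ι_apply

noncomputable section

/-- ordered monomial -/
def mono {R : Type*} [Monoid R] {n : ℕ} (y : Fin n → R) (a : Fin n → ℕ) : R :=
  (List.ofFn fun i => y i ^ a i).prod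

/-- total degree -/
def deg {n : ℕ} (a : Fin n → ℕ) : ℕ := ∑ i, a i

lemma deg_add {n : ℕ} (a b : Fin n → ℕ) : deg (a + b) = deg a + deg b := by
  simp [deg, Finset.sum_add_distrib]

lemma deg_single {n : ℕ} (i : Fin n) (k : ℕ) : deg (Pi.single i k : Fin n → ℕ) = k := by
  simp [deg]

@[simp] lemma deg_zero {n : ℕ} : deg (0 : Fin n → ℕ) = 0 := by simp [deg]

lemma deg_eq_zero {n : ℕ} {a : Fin n → ℕ} (h : deg a = 0) : a = 0 := by
  funext i
  exact (Finset.sum_eq_zero_iff.mp h) i (Finset.mem_univ i)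

lemma sub_single_add {n : ℕ} {a : Fin n → ℕ} {i : Fin n} (h : a i ≠ 0) :
    a - Pi.single i 1 + Pi.single i 1 = a := by
  funext j
  by_cases hj : j = i
  · subst hj; simp; omega
  · simp [Pi.single_eq_of_ne hj]

lemma deg_sub_single {n : ℕ} {a : Fin n → ℕ} {i : Fin n} (h : a i ≠ 0) :
    deg (a - Pi.single i 1) + 1 = deg a := by
  conv_rhs => rw [← sub_single_add h, deg_add, deg_single]

@[simp] lemma mono_zero {R : Type*} [Monoid R] {n : ℕ} (y : Fin n → R) : mono y 0 = 1 := by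
  simp [mono]

lemma mono_succ {R : Type*} [Monoid R] {n : ℕ} (y : Fin (n + 1) → R) (a : Fin (n + 1) → ℕ) :
    mono y a = y 0 ^ a 0 * mono (fun i => y i.succ) (fun i => a i.succ) := by
  simp [mono, List.ofFn_succ]

lemma mono_add_single {R : Type*} [Monoid R] {n : ℕ} (y : Fin n → R) (a : Fin n → ℕ) (μ : Fin n)
    (h : ∀ i < μ, a i = 0) : mono y (a + Pi.single μ 1) = y μ * mono y a := by
  induction n with
  | zero => exact μ.elim0
  | succ n ih =>
    rw [mono_succ, mono_succ y a]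
    refine Fin.cases (motive := fun μ => (∀ i < μ, a i = 0) →
      y 0 ^ (a + Pi.single μ 1 : Fin (n + 1) → ℕ) 0 * mono (fun i => y i.succ)
        (fun i => (a + Pi.single μ 1 : Fin (n + 1) → ℕ) i.succ) = y μ * (y 0 ^ a 0 *
          mono (fun i => y i.succ) (fun i => a i.succ))) ?_ ?_ μ h
    · intro _
      simp [pow_succ', mul_assoc]
    · intro ν hν
      have h0 : a 0 = 0 := hν 0 (Fin.succ_pos ν)
      have := ih (fun i => y i.succ) (fun i => a i.succ) ν
        (fun i hi => hν i.succ (Fin.succ_lt_succ_iff.mpr hi))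
      have e : (fun i : Fin n => (a + Pi.single ν.succ 1 : Fin (n + 1) → ℕ) i.succ) =
          (fun i : Fin n => a i.succ) + Pi.single ν 1 := by
        funext i
        simp [Pi.single_apply]
      rw [e, this]
      simp [h0, (Fin.succ_ne_zero ν).symm]

lemma map_mono {R S : Type*} [Monoid R] [Monoid S] {n : ℕ} {G : Type*} [FunLike G R S]
    [MonoidHomClass G R S] (f : G) (y : Fin n → R) (a : Fin n → ℕ) :
    f (mono y a) = mono (fun i => f (y i)) a := by
  simp [mono, map_list_prod, List.map_ofFn, Function.comp_def]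

/-- least index in the support -/
def lo {n : ℕ} (a : Fin n → ℕ) (h : ∃ μ, a μ ≠ 0) : Fin n :=
  (Finset.univ.filter fun i => a i ≠ 0).min' (by obtain ⟨μ, hμ⟩ := h; exact ⟨μ, by simpa⟩)

lemma lo_ne {n : ℕ} (a : Fin n → ℕ) (h : ∃ μ, a μ ≠ 0) : a (lo a h) ≠ 0 := by
  have := Finset.min'_mem (Finset.univ.filter fun i => a i ≠ 0)
    (by obtain ⟨μ, hμ⟩ := h; exact ⟨μ, by simpa⟩)
  simpa [lo] using this

lemma lo_le {n : ℕ} (a : Fin n → ℕ) (h : ∃ μ, a μ ≠ 0) {i : Fin n} (hi : a i ≠ 0) :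
    lo a h ≤ i := Finset.min'_le _ _ (by simpa)

lemma lo_min {n : ℕ} (a : Fin n → ℕ) (h : ∃ μ, a μ ≠ 0) {i : Fin n} (hi : i < lo a h) :
    a i = 0 := by
  by_contra hc
  exact absurd (lo_le a h hc) (not_le.mpr hi)

variable {F : Type*} [Field F] {L : Type*} [LieRing L] [LieAlgebra F L] {n : ℕ}

/-- the recursive action on monomials -/
def act (x : Basis (Fin n) F L) (l : Fin n) (a : Fin n → ℕ) : (Fin n → ℕ) →₀ F :=
  if h : ∃ μ, μ < l ∧ a μ ≠ 0 then
    Finsupp.single (a + Pi.single l 1) 1 +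
      (act x l (a - Pi.single (lo a (h.imp fun _ => And.right)) 1) -
        Finsupp.single (a - Pi.single (lo a (h.imp fun _ => And.right)) 1 + Pi.single l 1) 1).sum
        (fun a' c => if _h' : deg a' < deg a then
          c • act x (lo a (h.imp fun _ => And.right)) a' else 0) +
      ∑ ν, x.repr ⁅x l, x (lo a (h.imp fun _ => And.right))⁆ ν •
        act x ν (a - Pi.single (lo a (h.imp fun _ => And.right)) 1)
  else Finsupp.single (a + Pi.single l 1) 1
termination_by deg a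
decreasing_by
  · have := deg_sub_single (lo_ne a (h.imp fun _ => And.right)); omega
  · assumption
  · have := deg_sub_single (lo_ne a (h.imp fun _ => And.right)); omega

/-- degree filtration on the polynomial space -/
def SF (F : Type*) [Field F] (n d : ℕ) : Submodule F ((Fin n → ℕ) →₀ F) :=
  Finsupp.supported F F {a | deg a ≤ d}

lemma SF_mono {d d' : ℕ} (h : d ≤ d') : SF F n d ≤ SF F n d' :=
  Finsupp.supported_mono fun _ ha => le_trans ha h

lemma single_mem_SF {d : ℕ} {a : Fin n → ℕ} (h : deg a ≤ d) (c : F) :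
    Finsupp.single a c ∈ SF F n d := Finsupp.single_mem_supported _ _ h

lemma act_sub_mem (x : Basis (Fin n) F L) (l : Fin n) (a : Fin n → ℕ) :
    act x l a - Finsupp.single (a + Pi.single l 1) 1 ∈ SF F n (deg a) := by
  induction hd : deg a using Nat.strong_induction_on generalizing a l with
  | _ d ih =>
    have key : ∀ (l : Fin n) (a' : Fin n → ℕ), deg a' < d → act x l a' ∈ SF F n d := by
      intro l a' ha'
      have h1 := SF_mono (F := F) (n := n) ha'.le (ih _ ha' l a' rfl)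
      have h2 : Finsupp.single (a' + Pi.single l 1) (1 : F) ∈ SF F n d :=
        single_mem_SF (by rw [deg_add, deg_single]; omega) _
      simpa using add_mem h1 h2
    rw [act]
    split_ifs with h
    · rw [add_assoc, add_sub_cancel_left]
      refine add_mem (Submodule.sum_mem _ fun a' _ => ?_) (Submodule.sum_mem _ fun ν _ => ?_)
      · dsimp only
        split_ifs with h'
        · exact Submodule.smul_mem _ _ (key _ _ (hd ▸ h'))
        · exact zero_mem _
      · refine Submodule.smul_mem _ _ (key _ _ ?_)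
        have := deg_sub_single (lo_ne a (h.imp fun _ => And.right)); omega
    · simp

lemma act_mem (x : Basis (Fin n) F L) (l : Fin n) (a : Fin n → ℕ) :
    act x l a ∈ SF F n (deg a + 1) := by
  have h1 := SF_mono (F := F) (n := n) (Nat.le_succ _) (act_sub_mem x l a)
  have h2 : Finsupp.single (a + Pi.single l 1) (1 : F) ∈ SF F n (deg a + 1) :=
    single_mem_SF (by rw [deg_add, deg_single]) _
  simpa using add_mem h1 h2

/-- the action as a bilinear map -/
def G (x : Basis (Fin n) F L) : L →ₗ[F] Module.End F ((Fin n → ℕ) →₀ F) :=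
  x.constr F fun l => Finsupp.linearCombination F (act x l)

lemma G_basis (x : Basis (Fin n) F L) (l : Fin n) (a : Fin n → ℕ) :
    G x (x l) (Finsupp.single a 1) = act x l a := by
  simp [G]

lemma G_apply_single (x : Basis (Fin n) F L) (y : L) (a : Fin n → ℕ) :
    G x y (Finsupp.single a 1) = ∑ ν, x.repr y ν • act x ν a := by
  conv_lhs => rw [← x.sum_repr y]
  rw [map_sum, LinearMap.sum_apply]
  simp only [map_smul, LinearMap.smul_apply, G_basis]

lemma SF_induction {d : ℕ} {P : ((Fin n → ℕ) →₀ F) → Prop} (h0 : P 0)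
    (hadd : ∀ u v, P u → P v → P (u + v)) (hsmul : ∀ (c : F) u, P u → P (c • u))
    (hs : ∀ a, deg a ≤ d → P (Finsupp.single a 1)) {u} (hu : u ∈ SF F n d) : P u := by
  rw [SF, Finsupp.supported_eq_span_single] at hu
  induction hu using Submodule.span_induction with
  | mem v hv => obtain ⟨a, ha, rfl⟩ := hv; exact hs a ha
  | zero => exact h0
  | add u v _ _ hu hv => exact hadd u v hu hv
  | smul c u _ hu => exact hsmul c u hu

lemma act_of_le (x : Basis (Fin n) F L) (l : Fin n) (a : Fin n → ℕ) (h : ∀ i < l, a i = 0) :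
    act x l a = Finsupp.single (a + Pi.single l 1) 1 := by
  rw [act, dif_neg]
  rintro ⟨μ, h1, h2⟩
  exact h2 (h μ h1)

lemma act_rec (x : Basis (Fin n) F L) (l μ : Fin n) (T : Fin n → ℕ) (hT : ∀ i < μ, T i = 0)
    (hμ : μ < l) : act x l (T + Pi.single μ 1) =
      G x (x μ) (G x (x l) (Finsupp.single T 1)) + G x ⁅x l, x μ⁆ (Finsupp.single T 1) := by
  have h : ∃ ν, ν < l ∧ (T + Pi.single μ 1 : Fin n → ℕ) ν ≠ 0 := ⟨μ, hμ, by simp⟩
  have hlo : lo (T + Pi.single μ 1) (h.imp fun _ => And.right) = μ := by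
    apply le_antisymm (lo_le _ _ (by simp))
    by_contra hc
    push Not at hc
    have := lo_ne (T + Pi.single μ 1) (h.imp fun _ => And.right)
    apply this
    simp [hT _ hc, Pi.single_eq_of_ne hc.ne]
  rw [act, dif_pos h]
  simp only [hlo, add_tsub_cancel_right]
  rw [G_apply_single x ⁅x l, x μ⁆, G_basis]
  congr 1
  have e1 : G x (x μ) (Finsupp.single (T + Pi.single l 1) 1) =
      Finsupp.single (T + Pi.single μ 1 + Pi.single l 1) 1 := by
    rw [G_basis, act_of_le, add_right_comm]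
    intro i hi
    simp [hT i hi, Pi.single_eq_of_ne (hi.trans hμ).ne]
  have hw := act_sub_mem x l T
  set w := act x l T - Finsupp.single (T + Pi.single l 1) 1 with hwdef
  have e2 : act x l T = Finsupp.single (T + Pi.single l 1) 1 + w := by simp [hwdef]
  rw [e2, map_add, e1]
  congr 1
  simp only [G, Basis.constr_basis, Finsupp.linearCombination_apply]
  refine Finsupp.sum_congr fun a' ha' => ?_
  have : deg a' ≤ deg T := hw ha'
  rw [dif_pos]
  rw [deg_add, deg_single]; omega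

lemma G_comm_aux (x : Basis (Fin n) F L) (w : (Fin n → ℕ) →₀ F)
    (h : ∀ l μ, G x (x l) (G x (x μ) w) - G x (x μ) (G x (x l) w) = G x ⁅x l, x μ⁆ w) (y y' : L) :
    G x y (G x y' w) - G x y' (G x y w) = G x ⁅y, y'⁆ w := by
  let B1 : L →ₗ[F] L →ₗ[F] ((Fin n → ℕ) →₀ F) := LinearMap.mk₂ F
    (fun y y' => G x y (G x y' w) - G x y' (G x y w))
    (by intros; simp; abel) (by intros; simp [smul_sub]) (by intros; simp; abel)
    (by intros; simp [smul_sub])
  let B2 : L →ₗ[F] L →ₗ[F] ((Fin n → ℕ) →₀ F) := LinearMap.mk₂ F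
    (fun y y' => G x ⁅y, y'⁆ w)
    (by intros; simp) (by intros; simp) (by intros; simp) (by intros; simp)
  have : B1 = B2 := LinearMap.ext_basis x x h
  exact LinearMap.congr_fun₂ this y y'

lemma G_comm (x : Basis (Fin n) F L) (d : ℕ) : ∀ w ∈ SF F n d, ∀ y y' : L,
    G x y (G x y' w) - G x y' (G x y w) = G x ⁅y, y'⁆ w := by
  induction d using Nat.strong_induction_on with
  | _ d ih =>
    intro w hw
    refine G_comm_aux x w ?_
    intro l μ
    refine SF_induction (P := fun w => G x (x l) (G x (x μ) w) - G x (x μ) (G x (x l) w) =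
      G x ⁅x l, x μ⁆ w) (by simp) ?_ ?_ ?_ hw
    · intro u v hu hv
      simp only [map_add, ← hu, ← hv]; abel
    · intro c u hu
      simp only [map_smul, ← hu, smul_sub]
    intro T hT
    have first : ∀ (l μ : Fin n) (T : Fin n → ℕ), (∀ i < μ, T i = 0) → μ < l →
        G x (x l) (G x (x μ) (Finsupp.single T 1)) - G x (x μ) (G x (x l) (Finsupp.single T 1)) =
          G x ⁅x l, x μ⁆ (Finsupp.single T 1) := by
      intro l μ T hT hμ
      rw [G_basis x μ, act_of_le x μ T hT, G_basis, act_rec x l μ T hT hμ]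
      abel
    wlog hlt : μ < l generalizing l μ
    · rcases (not_lt.mp hlt).eq_or_lt with h | h
      · subst h; simp
      · have := this μ l h
        rw [← lie_skew, map_neg, LinearMap.neg_apply, ← this]; abel
    by_cases hc : ∀ i < μ, T i = 0
    · exact first l μ T hc hlt
    push Not at hc
    obtain ⟨i, hi, hTi⟩ := hc
    have hex : ∃ μ, T μ ≠ 0 := ⟨i, hTi⟩
    set ν := lo T hex
    have hνμ : ν < μ := lt_of_le_of_lt (lo_le T hex hTi) hi
    have hνl : ν < l := hνμ.trans hlt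
    set Ψ := T - Pi.single ν 1 with hΨ
    have hΨ0 : ∀ i < ν, Ψ i = 0 := fun i hi => by simp [hΨ, lo_min T hex hi]
    have hTΨ : Finsupp.single T (1 : F) = G x (x ν) (Finsupp.single Ψ 1) := by
      rw [G_basis, act_of_le x ν Ψ hΨ0, hΨ, sub_single_add (lo_ne T hex)]
    have hd : deg Ψ < d := by
      have : deg Ψ + 1 = deg T := deg_sub_single (lo_ne T hex)
      omega
    have ih' := ih _ hd
    have hz : Finsupp.single Ψ (1 : F) ∈ SF F n (deg Ψ) := single_mem_SF le_rfl _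
    have three : ∀ l μ : Fin n, ν < l → ν < μ →
        G x (x l) (G x (x ν) (G x (x μ) (Finsupp.single Ψ 1))) =
          G x (x ν) (G x (x l) (G x (x μ) (Finsupp.single Ψ 1))) +
            G x ⁅x l, x ν⁆ (G x (x μ) (Finsupp.single Ψ 1)) := by
      intro l μ hl hμ
      have hw := act_sub_mem x μ Ψ
      set w := act x μ Ψ - Finsupp.single (Ψ + Pi.single μ 1) 1 with hwdef
      have e2 : act x μ Ψ = Finsupp.single (Ψ + Pi.single μ 1) 1 + w := by simp [hwdef]
      have a1 := first l ν (Ψ + Pi.single μ 1) (fun i hi => by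
        simp [hΨ0 i hi, Pi.single_eq_of_ne (hi.trans hμ).ne]) hl
      have a2 := ih' w hw (x l) (x ν)
      rw [G_basis x μ, e2]
      simp only [map_add]
      rw [← a1, ← a2]; abel
    rw [hTΨ]
    set z := Finsupp.single Ψ (1 : F)
    have b1 : G x (x μ) (G x (x ν) z) = G x (x ν) (G x (x μ) z) + G x ⁅x μ, x ν⁆ z := by
      rw [← ih' z hz]; abel
    have b2 : G x (x l) (G x (x ν) z) = G x (x ν) (G x (x l) z) + G x ⁅x l, x ν⁆ z := by
      rw [← ih' z hz]; abel
    have b3 := ih' z hz (x l) (x μ)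
    have b4 := ih' z hz ⁅x l, x ν⁆ (x μ)
    have b5 := ih' z hz (x l) ⁅x μ, x ν⁆
    have b6 := ih' z hz ⁅x l, x μ⁆ (x ν)
    have jac : ⁅⁅x l, x μ⁆, x ν⁆ = ⁅⁅x l, x ν⁆, x μ⁆ + ⁅x l, ⁅x μ, x ν⁆⁆ := by
      rw [lie_lie, ← lie_skew ⁅x l, x ν⁆ (x μ)]
      abel
    rw [b1, b2, map_add, map_add, three l μ hνl hνμ, three μ l hνμ hνl]
    rw [jac, map_add, LinearMap.add_apply, ← b4, ← b5] at b6
    have b7 : G x (x ν) (G x (x l) (G x (x μ) z)) - G x (x ν) (G x (x μ) (G x (x l) z)) =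
      G x (x ν) (G x ⁅x l, x μ⁆ z) := by rw [← b3, map_sub]
    linear_combination (norm := abel) b7 - b6

lemma mem_SF_exists (w : (Fin n → ℕ) →₀ F) : ∃ d, w ∈ SF F n d :=
  ⟨w.support.sup deg, fun _ ha => Finset.le_sup (f := deg) ha⟩

/-- the action as a Lie algebra morphism -/
def Grep (x : Basis (Fin n) F L) : L →ₗ⁅F⁆ Module.End F ((Fin n → ℕ) →₀ F) :=
  { G x with
    map_lie' := fun {y y'} => by
      ext1 w
      ext1
      obtain ⟨d, hd⟩ := mem_SF_exists (Finsupp.single w (1 : F))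
      simpa [LieRing.of_associative_ring_bracket] using (G_comm x d _ hd y y').symm }

/-- enveloping algebra -/
abbrev U (F L : Type*) [CommRing F] [LieRing L] [LieAlgebra F L] := UniversalEnvelopingAlgebra F L

/-- evaluation on the vacuum -/
def ev (x : Basis (Fin n) F L) : U F L →ₗ[F] ((Fin n → ℕ) →₀ F) :=
  (LinearMap.applyₗ (Finsupp.single (0 : Fin n → ℕ) (1 : F))) ∘ₗ (lift F (Grep x)).toLinearMap

lemma ev_one (x : Basis (Fin n) F L) : ev x 1 = Finsupp.single 0 1 := by simp [ev]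

lemma ev_ι_mul (x : Basis (Fin n) F L) (y : L) (u : U F L) :
    ev x (ι F y * u) = G x y (ev x u) := by
  simp [ev, lift_ι_apply]
  rfl

lemma ev_mono (x : Basis (Fin n) F L) (a : Fin n → ℕ) :
    ev x (mono (fun i => ι F (x i)) a) = Finsupp.single a 1 := by
  induction hd : deg a using Nat.strong_induction_on generalizing a with
  | _ d ih =>
    by_cases h : ∃ μ, a μ ≠ 0
    · have h0 : ∀ i < lo a h, (a - Pi.single (lo a h) 1 : Fin n → ℕ) i = 0 :=
        fun i hi => by simp [lo_min a h hi]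
      have h1 := deg_sub_single (lo_ne a h)
      rw [← sub_single_add (lo_ne a h), mono_add_single _ _ _ h0, ev_ι_mul,
        ih _ (by omega) _ rfl, G_basis, act_of_le _ _ _ h0]
    · push Not at h
      obtain rfl : a = 0 := funext h
      simp [ev_one]

/-- the linear map from polynomials to the enveloping algebra -/
def sg (x : Basis (Fin n) F L) : ((Fin n → ℕ) →₀ F) →ₗ[F] U F L :=
  Finsupp.linearCombination F (mono fun i => ι F (x i))

lemma sg_single (x : Basis (Fin n) F L) (a : Fin n → ℕ) :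
    sg x (Finsupp.single a 1) = mono (fun i => ι F (x i)) a := by simp [sg]

lemma ι_comm (y y' : L) : ι F y * ι F y' = ι F y' * ι F y + ι F ⁅y, y'⁆ := by
  rw [LieHom.map_lie, LieRing.of_associative_ring_bracket]; abel

lemma sg_G (x : Basis (Fin n) F L) (d : ℕ) : ∀ w ∈ SF F n d, ∀ y : L,
    sg x (G x y w) = ι F y * sg x w := by
  induction d using Nat.strong_induction_on with
  | _ d ih =>
    intro w hw y
    suffices H : ∀ l, sg x (G x (x l) w) = ι F (x l) * sg x w by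
      rw [← x.sum_repr y]
      simp only [map_sum, LinearMap.sum_apply, map_smul, LinearMap.smul_apply, H,
        Finset.sum_mul, smul_mul_assoc]
    intro l
    refine SF_induction (P := fun w => sg x (G x (x l) w) = ι F (x l) * sg x w) (by simp)
      ?_ ?_ ?_ hw
    · intro u v hu hv
      simp only [map_add, hu, hv, mul_add]
    · intro c u hu
      simp only [map_smul, hu, mul_smul_comm]
    intro a ha
    have first : ∀ (l : Fin n) (a : Fin n → ℕ), (∀ i < l, a i = 0) →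
        sg x (G x (x l) (Finsupp.single a 1)) = ι F (x l) * sg x (Finsupp.single a 1) := by
      intro l a h
      rw [G_basis, act_of_le _ _ _ h, sg_single, sg_single, mono_add_single _ _ _ h]
    by_cases hc : ∀ i < l, a i = 0
    · exact first l a hc
    push Not at hc
    obtain ⟨i, hi, hai⟩ := hc
    have hex : ∃ μ, a μ ≠ 0 := ⟨i, hai⟩
    set μ := lo a hex
    have hμ : μ < l := lt_of_le_of_lt (lo_le a hex hai) hi
    set T := a - Pi.single μ 1 with hT
    have hT0 : ∀ i < μ, T i = 0 := fun i hi => by simp [hT, lo_min a hex hi]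
    have hd : deg T < d := by
      have : deg T + 1 = deg a := deg_sub_single (lo_ne a hex)
      omega
    have ha' : a = T + Pi.single μ 1 := (sub_single_add (lo_ne a hex)).symm
    have hz : Finsupp.single T (1 : F) ∈ SF F n (deg T) := single_mem_SF le_rfl _
    have hw := act_sub_mem x l T
    set w := act x l T - Finsupp.single (T + Pi.single l 1) 1 with hwdef
    have e2 : act x l T = Finsupp.single (T + Pi.single l 1) 1 + w := by simp [hwdef]
    have a1 := first μ (T + Pi.single l 1) (fun i hi => by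
      simp [hT0 i hi, Pi.single_eq_of_ne (hi.trans hμ).ne])
    have a2 := ih _ hd w hw (x μ)
    have a3 := ih _ hd _ hz (x l)
    rw [ha', G_basis, act_rec x l μ T hT0 hμ, map_add, ih _ hd _ hz, G_basis, e2, map_add,
      map_add, a1, a2, ← mul_add, ← map_add, ← e2, ← G_basis, a3, sg_single, sg_single,
      mono_add_single _ _ _ hT0, ← mul_assoc, ← add_mul, ← ι_comm, mul_assoc]

lemma U_induction {P : U F L → Prop} (h1 : P 1) (hadd : ∀ u v, P u → P v → P (u + v))
    (hsmul : ∀ (c : F) u, P u → P (c • u)) (hmul : ∀ y u, P u → P (ι F y * u)) (u : U F L) :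
    P u := by
  have h0 : P 0 := by simpa using hsmul 0 1 h1
  suffices H : ∀ t : TensorAlgebra F L, ∀ v, P v → P (mkAlgHom F L t * v) by
    obtain ⟨t, rfl⟩ := RingCon.mkₐ_surjective (α := F) (ringCon F L) u
    have := H t 1 h1
    rw [mul_one] at this
    exact this
  intro t
  induction t using TensorAlgebra.induction with
  | algebraMap r => intro v hv; rw [AlgHom.commutes, ← Algebra.smul_def]; exact hsmul _ _ hv
  | ι y => intro v hv; exact hmul y v hv
  | mul a b ha hb => intro v hv; rw [map_mul, mul_assoc]; exact ha _ (hb _ hv)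
  | add a b ha hb => intro v hv; rw [map_add, add_mul]; exact hadd _ _ (ha _ hv) (hb _ hv)

lemma sg_ev (x : Basis (Fin n) F L) (u : U F L) : sg x (ev x u) = u := by
  induction u using U_induction with
  | h1 => rw [ev_one, sg_single, mono_zero]
  | hadd u v hu hv => rw [map_add, map_add, hu, hv]
  | hsmul c u hu => rw [map_smul, map_smul, hu]
  | hmul y u hu =>
    obtain ⟨d, hd⟩ := mem_SF_exists (ev x u)
    rw [ev_ι_mul, sg_G x d _ hd, hu]

lemma ev_sg (x : Basis (Fin n) F L) (w : (Fin n → ℕ) →₀ F) : ev x (sg x w) = w := by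
  have : ev x ∘ₗ sg x = LinearMap.id := by
    ext1 a
    ext1
    simp [sg_single, ev_mono]
  exact LinearMap.congr_fun this w

/-- The PBW basis. -/
def pbw (x : Basis (Fin n) F L) : Basis (Fin n → ℕ) F (U F L) :=
  Basis.ofRepr (LinearEquiv.ofLinearMap (ev x) (sg x) (LinearMap.ext (ev_sg x))
    (LinearMap.ext (sg_ev x)))

lemma pbw_apply (x : Basis (Fin n) F L) (a : Fin n → ℕ) :
    pbw x a = mono (fun i => ι F (x i)) a := by
  simp [pbw, sg_single]

/-- degree filtration -/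
def fil (F : Type*) [Field F] {R I : Type*} [AddCommGroup R] [Module F R] (m : I → R) (ω : I → ℕ)
    (d : ℕ) : Submodule F R := Submodule.span F (m '' {a | ω a < d})

lemma ι_mul_pbw (x : Basis (Fin n) F L) (l : Fin n) (a : Fin n → ℕ) :
    ι F (x l) * pbw x a - pbw x (a + Pi.single l 1) ∈ fil F (pbw x) deg (deg a + 1) := by
  have h := act_sub_mem x l a
  have e : ι F (x l) * pbw x a - pbw x (a + Pi.single l 1) =
      sg x (act x l a - Finsupp.single (a + Pi.single l 1) 1) := by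
    rw [map_sub, ← G_basis, sg_G x _ _ (single_mem_SF le_rfl _), sg_single, sg_single, pbw_apply,
      pbw_apply]
  rw [e]
  refine SF_induction (P := fun w => sg x w ∈ fil F (pbw x) deg (deg a + 1)) (by simp)
    ?_ ?_ ?_ h
  · intro u v hu hv; rw [map_add]; exact add_mem hu hv
  · intro c u hu; rw [map_smul]; exact Submodule.smul_mem _ _ hu
  · intro b hb
    rw [sg_single, ← pbw_apply]
    exact Submodule.subset_span ⟨b, Nat.lt_succ_of_le hb, rfl⟩

end

end Pool.Agent.P.MP_37e2d5_al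
end

-- part Pool.Agent.P.MP_37e2d5_al.Basic
section

/-! Functoriality, augmentation, twists, antipode, filtrations. -/

namespace Pool.Agent.P.MP_37e2d5_al

open UniversalEnvelopingAlgebra Module Polynomial

attribute [local instance 100] LieRing.ofAssociativeRing
attribute [-simp] UniversalEnvelopingAlgebra.ι_apply

noncomputable section

variable {F : Type*} [Field F] {L L' L'' : Type*} [LieRing L] [LieAlgebra F L]
  [LieRing L'] [LieAlgebra F L'] [LieRing L''] [LieAlgebra F L'']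

lemma U_ext {A : Type*} [Ring A] [Algebra F A] {g h : U F L →ₐ[F] A}
    (H : ∀ x, g (ι F x) = h (ι F x)) : g = h := by
  apply hom_ext
  ext x
  exact H x

/-- functoriality -/
def Umap (f : L →ₗ⁅F⁆ L') : U F L →ₐ[F] U F L' := lift F ((ι F).comp f)

@[simp] lemma Umap_ι (f : L →ₗ⁅F⁆ L') (x : L) : Umap f (ι F x) = ι F (f x) := lift_ι_apply _ _ _

lemma Umap_Umap (f : L →ₗ⁅F⁆ L') (g : L' →ₗ⁅F⁆ L'') (u : U F L) :
    Umap g (Umap f u) = Umap (g.comp f) u := by
  have : (Umap g).comp (Umap f) = Umap (g.comp f) := U_ext (by simp)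
  exact AlgHom.congr_fun this u

lemma Umap_id (u : U F L) : Umap (LieHom.id : L →ₗ⁅F⁆ L) u = u := by
  have : Umap (LieHom.id : L →ₗ⁅F⁆ L) = AlgHom.id F _ := U_ext (by simp)
  exact AlgHom.congr_fun this u

/-- augmentation -/
def eps (F L : Type*) [Field F] [LieRing L] [LieAlgebra F L] : U F L →ₐ[F] F := lift F 0

@[simp] lemma eps_ι (x : L) : eps F L (ι F x) = 0 := lift_ι_apply _ _ _

@[simp] lemma eps_Umap (f : L →ₗ⁅F⁆ L') (u : U F L) : eps F L' (Umap f u) = eps F L u := by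
  have : (eps F L').comp (Umap f) = eps F L := U_ext (by simp)
  exact AlgHom.congr_fun this u

/-- characters -/
@[ext] structure Ch (F L : Type*) [Field F] [LieRing L] [LieAlgebra F L] where
  /-- the linear form -/
  val : L →ₗ[F] F
  lie : ∀ x y : L, val ⁅x, y⁆ = 0

namespace Ch

instance : Zero (Ch F L) := ⟨⟨0, by simp⟩⟩
instance : Add (Ch F L) := ⟨fun a b => ⟨a.1 + b.1, fun x y => by simp [a.2, b.2]⟩⟩
instance : Neg (Ch F L) := ⟨fun a => ⟨-a.1, fun x y => by simp [a.2]⟩⟩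
instance : Sub (Ch F L) := ⟨fun a b => ⟨a.1 - b.1, fun x y => by simp [a.2, b.2]⟩⟩
instance {S : Type*} [Monoid S] [DistribMulAction S F] [SMulCommClass F S F] :
    SMul S (Ch F L) := ⟨fun c a => ⟨c • a.1, fun x y => by simp [a.2]⟩⟩

@[simp] lemma zero_val : (0 : Ch F L).1 = 0 := rfl
@[simp] lemma add_val (a b : Ch F L) : (a + b).1 = a.1 + b.1 := rfl
@[simp] lemma neg_val (a : Ch F L) : (-a).1 = -a.1 := rfl
@[simp] lemma sub_val (a b : Ch F L) : (a - b).1 = a.1 - b.1 := rfl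
@[simp] lemma smul_val {S : Type*} [Monoid S] [DistribMulAction S F] [SMulCommClass F S F]
    (c : S) (a : Ch F L) : (c • a).1 = c • a.1 := rfl

lemma val_injective : Function.Injective (Ch.val : Ch F L → L →ₗ[F] F) := fun _ _ h => Ch.ext h

instance : AddCommGroup (Ch F L) :=
  val_injective.addCommGroup _ rfl add_val neg_val sub_val (fun _ _ => rfl) (fun _ _ => rfl)

/-- the underlying form as an additive map -/
def valHom : Ch F L →+ (L →ₗ[F] F) := ⟨⟨Ch.val, rfl⟩, add_val⟩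

instance {S : Type*} [Semiring S] [Module S F] [SMulCommClass F S F] : Module S (Ch F L) :=
  val_injective.module S valHom (fun _ _ => rfl)

lemma exists_ne {a : Ch F L} (h : a ≠ 0) : ∃ c, a.1 c ≠ 0 := by
  by_contra hc
  push Not at hc
  exact h (Ch.ext (LinearMap.ext hc))

end Ch

/-- pull back of characters -/
def Ch.comap (f : L →ₗ⁅F⁆ L') (χ : Ch F L') : Ch F L :=
  ⟨χ.1 ∘ₗ (f : L →ₗ[F] L'), fun x y => by simpa using χ.2 (f x) (f y)⟩

@[simp] lemma Ch.comap_apply (f : L →ₗ⁅F⁆ L') (χ : Ch F L') (x : L) :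
    (Ch.comap f χ).1 x = χ.1 (f x) := rfl

/-- twist of a Lie morphism to an associative algebra -/
def tw {A : Type*} [Ring A] [Algebra F A] (κ : L →ₗ⁅F⁆ A) (χ : Ch F L) : L →ₗ⁅F⁆ A :=
  { (κ : L →ₗ[F] A) + (Algebra.linearMap F A) ∘ₗ χ.1 with
    map_lie' := fun {x y} => by
      simp [χ.2 x y, LieRing.of_associative_ring_bracket, mul_add, add_mul,
        Algebra.commutes, ← map_mul, mul_comm]
      abel }

lemma tw_apply {A : Type*} [Ring A] [Algebra F A] (κ : L →ₗ⁅F⁆ A) (χ : Ch F L) (x : L) :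
    tw κ χ x = κ x + algebraMap F A (χ.1 x) := rfl

/-- twist automorphism -/
def tau (χ : Ch F L) : U F L →ₐ[F] U F L := lift F (tw (ι F) χ)

@[simp] lemma tau_ι (χ : Ch F L) (x : L) : tau χ (ι F x) = ι F x + algebraMap F _ (χ.1 x) :=
  lift_ι_apply _ _ _

lemma tau_tau (χ χ' : Ch F L) (u : U F L) : tau χ (tau χ' u) = tau (χ + χ') u := by
  have : (tau χ).comp (tau χ') = tau (χ + χ') := U_ext (by simp [add_assoc])
  exact AlgHom.congr_fun this u

@[simp] lemma tau_zero (u : U F L) : tau (0 : Ch F L) u = u := by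
  have : tau (0 : Ch F L) = AlgHom.id F _ := U_ext (by simp)
  exact AlgHom.congr_fun this u

lemma tau_neg_tau (χ : Ch F L) (u : U F L) : tau (-χ) (tau χ u) = u := by
  rw [tau_tau, neg_add_cancel, tau_zero]

lemma tau_tau_neg (χ : Ch F L) (u : U F L) : tau χ (tau (-χ) u) = u := by
  rw [tau_tau, add_neg_cancel, tau_zero]

lemma tau_Umap (f : L →ₗ⁅F⁆ L') (χ : Ch F L') (u : U F L) :
    tau χ (Umap f u) = Umap f (tau (Ch.comap f χ) u) := by
  have : (tau χ).comp (Umap f) = (Umap f).comp (tau (Ch.comap f χ)) := U_ext (by simp)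
  exact AlgHom.congr_fun this u

/-- central elements -/
def Cen {A : Type*} [Mul A] (z : A) : Prop := ∀ a, a * z = z * a

lemma cen_of_ι {z : U F L} (h : ∀ x, ι F x * z = z * ι F x) : Cen z := by
  intro a
  induction a using U_induction with
  | h1 => simp
  | hadd u v hu hv => rw [add_mul, mul_add, hu, hv]
  | hsmul c u hu => rw [smul_mul_assoc, mul_smul_comm, hu]
  | hmul y u hu => rw [mul_assoc, hu, ← mul_assoc, h, mul_assoc]

lemma Cen.map_surj {A B : Type*} [Ring A] [Ring B] {G : Type*} [FunLike G A B]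
    [MulHomClass G A B] {z : A} (hz : Cen z) (f : G) (hf : Function.Surjective f) : Cen (f z) := by
  intro b
  obtain ⟨a, rfl⟩ := hf b
  rw [← map_mul, hz, map_mul]

lemma Cen.tau {z : U F L} (hz : Cen z) (χ : Ch F L) : Cen (tau χ z) :=
  hz.map_surj _ fun u => ⟨_, tau_tau_neg χ u⟩

/-- antipode, to the opposite algebra -/
def antiOp : U F L →ₐ[F] (U F L)ᵐᵒᵖ := lift F
  { toFun := fun x => MulOpposite.op (-ι F x)
    map_add' := fun x y => by simp [add_comm]
    map_smul' := fun c x => by simp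
    map_lie' := fun {x y} => by
      simp [LieRing.of_associative_ring_bracket, ← MulOpposite.op_mul, ← MulOpposite.op_sub] }

/-- antipode -/
def anti : U F L →ₗ[F] U F L :=
  (MulOpposite.opLinearEquiv F).symm.toLinearMap ∘ₗ (antiOp (F := F) (L := L)).toLinearMap

@[simp] lemma anti_ι (x : L) : anti (ι F x) = -ι F x := by
  simp [anti, antiOp, lift_ι_apply]

@[simp] lemma anti_one : anti (1 : U F L) = 1 := by simp [anti]

lemma anti_mul (a b : U F L) : anti (a * b) = anti b * anti a := by simp [anti]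

lemma anti_pow (a : U F L) (k : ℕ) : anti (a ^ k) = anti a ^ k := by
  induction k with
  | zero => simp
  | succ k ih => rw [pow_succ, anti_mul, ih, pow_succ']

@[simp] lemma anti_anti (a : U F L) : anti (anti a) = a := by
  induction a using U_induction with
  | h1 => simp
  | hadd u v hu hv => rw [map_add, map_add, hu, hv]
  | hsmul c u hu => rw [map_smul, map_smul, hu]
  | hmul y u hu => simp [anti_mul, hu]

lemma anti_Umap (f : L →ₗ⁅F⁆ L') (a : U F L) : anti (Umap f a) = Umap f (anti a) := by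
  induction a using U_induction with
  | h1 => simp
  | hadd u v hu hv => simp only [map_add, hu, hv]
  | hsmul c u hu => simp only [map_smul, hu]
  | hmul y u hu => simp [anti_mul, hu]

section filt

variable {V I : Type*} [AddCommGroup V] [Module F V]

lemma fil_mono (m : I → V) (ω : I → ℕ) {d d' : ℕ} (h : d ≤ d') : fil F m ω d ≤ fil F m ω d' :=
  Submodule.span_mono (Set.image_mono fun _ ha => lt_of_lt_of_le ha h)

lemma mem_fil (m : I → V) (ω : I → ℕ) {d : ℕ} {i : I} (h : ω i < d) : m i ∈ fil F m ω d :=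
  Submodule.subset_span ⟨i, h, rfl⟩

lemma fil_le {m : I → V} {ω : I → ℕ} {d : ℕ} {P : Submodule F V} (h : ∀ i, ω i < d → m i ∈ P) :
    fil F m ω d ≤ P := Submodule.span_le.mpr (by rintro _ ⟨i, hi, rfl⟩; exact h i hi)

lemma fil_map_mem {V' : Type*} [AddCommGroup V'] [Module F V'] {m : I → V} {ω : I → ℕ} {d : ℕ}
    (f : V →ₗ[F] V') {P : Submodule F V'} (h : ∀ i, ω i < d → f (m i) ∈ P) {v : V}
    (hv : v ∈ fil F m ω d) : f v ∈ P :=
  (fil_le (P := P.comap f) h) hv

lemma mem_fil_basis (e : Basis I F V) (ω : I → ℕ) {d : ℕ} {v : V} :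
    v ∈ fil F e ω d ↔ ∀ i, e.repr v i ≠ 0 → ω i < d := by
  rw [fil, Basis.mem_span_image]
  simp [Set.subset_def]

lemma exists_mem_fil (e : Basis I F V) (ω : I → ℕ) (v : V) : ∃ d, v ∈ fil F e ω d :=
  ⟨(e.repr v).support.sup ω + 1, (mem_fil_basis e ω).mpr fun i hi =>
    Nat.lt_succ_of_le (Finset.le_sup (f := ω) (by simpa))⟩

lemma fil_eq_of_tri (e : I → V) (ω : I → ℕ) (E : I → V) (h : ∀ i, E i - e i ∈ fil F e ω (ω i))
    (d : ℕ) : fil F E ω d = fil F e ω d := by
  induction d using Nat.strong_induction_on with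
  | _ d ih =>
    apply le_antisymm
    · refine fil_le fun i hi => ?_
      simpa using add_mem (fil_mono e ω hi.le (h i)) (mem_fil (F := F) e ω hi)
    · refine fil_le fun i hi => ?_
      have h1 := h i
      rw [← ih _ hi] at h1
      simpa using sub_mem (mem_fil (F := F) E ω hi) (fil_mono E ω hi.le h1)

lemma li_of_tri (e : Basis I F V) (ω : I → ℕ) (E : I → V)
    (h : ∀ i, E i - e i ∈ fil F e ω (ω i)) : LinearIndependent F E := by
  classical
  rw [linearIndependent_iff]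
  intro l hl
  by_contra hne
  obtain ⟨i, hi, hmax⟩ := l.support.exists_max_image ω (Finsupp.support_nonempty_iff.mpr hne)
  have h0 := congrArg (fun v => e.repr v i) hl
  simp only [Finsupp.linearCombination_apply, Finsupp.sum, map_sum, map_smul, map_zero,
    Finsupp.finsetSum_apply, Finsupp.smul_apply, Finsupp.zero_apply, smul_eq_mul] at h0
  rw [Finset.sum_eq_single i] at h0
  · have h1 : e.repr (E i - e i) i = 0 := by
      by_contra hc
      exact lt_irrefl _ ((mem_fil_basis e ω).mp (h i) i hc)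
    simp only [map_sub, Finsupp.sub_apply, Basis.repr_self, Finsupp.single_eq_same,
      sub_eq_zero] at h1
    rw [h1, mul_one] at h0
    exact Finsupp.mem_support_iff.mp hi h0
  · intro j hj hji
    have h1 : e.repr (E j - e j) i = 0 := by
      by_contra hc
      exact absurd ((mem_fil_basis e ω).mp (h j) i hc) (not_lt.mpr (hmax j hj))
    simp only [map_sub, Finsupp.sub_apply, Basis.repr_self, Finsupp.single_eq_of_ne hji.symm,
      sub_zero] at h1
    rw [h1, mul_zero]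
  · intro hc; exact absurd hi hc

/-- a unitriangular family is a basis -/
def triBasis (e : Basis I F V) (ω : I → ℕ) (E : I → V)
    (h : ∀ i, E i - e i ∈ fil F e ω (ω i)) : Basis I F V :=
  Basis.mk (li_of_tri e ω E h) (by
    intro v _
    obtain ⟨d, hd⟩ := exists_mem_fil e ω v
    rw [← fil_eq_of_tri e ω E h] at hd
    exact Submodule.span_mono (Set.image_subset_range _ _) hd)

@[simp] lemma triBasis_apply (e : Basis I F V) (ω : I → ℕ) (E : I → V)
    (h : ∀ i, E i - e i ∈ fil F e ω (ω i)) (i : I) : triBasis e ω E h i = E i := by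
  simp [triBasis]

end filt

variable {n : ℕ}

lemma ι_mul_fil (x : Basis (Fin n) F L) (l : Fin n) {d : ℕ} {u : U F L}
    (hu : u ∈ fil F (pbw x) deg d) : ι F (x l) * u ∈ fil F (pbw x) deg (d + 1) := by
  refine fil_map_mem (LinearMap.mulLeft F (ι F (x l))) (fun a ha => ?_) hu
  have h1 := fil_mono _ _ (by omega : deg a + 1 ≤ d + 1) (ι_mul_pbw x l a)
  have h2 : pbw x (a + Pi.single l 1) ∈ fil F (pbw x) deg (d + 1) :=
    mem_fil _ _ (by rw [deg_add, deg_single]; omega)
  simpa using add_mem h1 h2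

lemma pbw_mul (x : Basis (Fin n) F L) (a b : Fin n → ℕ) :
    pbw x a * pbw x b - pbw x (a + b) ∈ fil F (pbw x) deg (deg a + deg b) := by
  induction hd : deg a using Nat.strong_induction_on generalizing a with
  | _ d ih =>
    by_cases h : ∃ μ, a μ ≠ 0
    · have h0 : ∀ i < lo a h, (a - Pi.single (lo a h) 1 : Fin n → ℕ) i = 0 :=
        fun i hi => by simp [lo_min a h hi]
      have h1 := deg_sub_single (lo_ne a h)
      set T := a - Pi.single (lo a h) 1
      have ha : a = T + Pi.single (lo a h) 1 := (sub_single_add (lo_ne a h)).symm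
      have e1 : pbw x a = ι F (x (lo a h)) * pbw x T := by
        rw [pbw_apply, pbw_apply, ← mono_add_single (fun i => ι F (x i)) _ _ h0, ← ha]
      have h2 := ι_mul_fil x (lo a h) (ih _ (by omega) T rfl)
      have h3 := ι_mul_pbw x (lo a h) (T + b)
      rw [deg_add, add_right_comm T b, ← ha] at h3
      have := add_mem h2 h3
      rw [mul_sub, sub_add_sub_cancel, ← mul_assoc, ← e1] at this
      convert this using 2
      omega
    · push Not at h
      obtain rfl : a = 0 := funext h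
      simp [pbw_apply]

lemma pbw_single (x : Basis (Fin n) F L) (i : Fin n) : pbw x (Pi.single i 1) = ι F (x i) := by
  have := mono_add_single (fun i => ι F (x i)) 0 i (by simp)
  simpa [pbw_apply] using this

lemma ι_injective [Module.Finite F L] : Function.Injective (ι F : L → U F L) := by
  let x := Module.finBasis F L
  have h := (pbw x).linearIndependent.comp (fun i => (Pi.single i 1 : Fin _ → ℕ))
    (fun i j hij => by
      by_contra hne
      have := congrFun hij i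
      simp [Pi.single_eq_of_ne hne] at this)
  have h2 : LinearIndependent F (((ι F : L →ₗ⁅F⁆ U F L) : L →ₗ[F] U F L) ∘ x) := by
    convert h using 1
    funext i
    simp [pbw_single]
  exact LinearMap.injective_of_linearIndependent x.span_eq h2

section poly

variable {V A : Type*} [AddCommGroup V] [Module F V] [Ring A] [Algebra F A]

lemma vp (s : Finset ℕ) (v : ℕ → V) (S : Set F) (hS : S.Infinite)
    (h : ∀ t ∈ S, ∑ j ∈ s, t ^ j • v j = 0) : ∀ j ∈ s, v j = 0 := by
  intro j hj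
  rw [← forall_dual_apply_eq_zero_iff F]
  intro φ
  have : (∑ j ∈ s, monomial j (φ (v j)) : F[X]) = 0 := by
    apply eq_zero_of_infinite_isRoot
    refine hS.mono fun t ht => ?_
    have := congrArg φ (h t ht)
    simpa [eval_finsetSum, mul_comm] using this
  have := congrArg (fun p => coeff p j) this
  simpa [coeff_monomial, hj] using this

/-- evaluation at a scalar -/
def evT (t : F) : A[X] →ₐ[F] A :=
  eval₂AlgHom (AlgHom.id F A) (algebraMap F A t) (fun a => (Algebra.commutes t a).symm)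

lemma evT_C (t : F) (a : A) : evT t (C a) = a := by simp [evT]

lemma evT_X (t : F) : evT t (X : A[X]) = algebraMap F A t := by simp [evT]

lemma evT_eq (t : F) (p : A[X]) {N : ℕ} (hN : p.natDegree < N) :
    evT t p = ∑ j ∈ Finset.range N, t ^ j • p.coeff j := by
  conv_lhs => rw [p.as_sum_range_C_mul_X_pow' hN]
  simp only [map_sum, map_mul, map_pow, evT_C, evT_X]
  refine Finset.sum_congr rfl fun j _ => ?_
  rw [← map_pow, ← Algebra.commutes, Algebra.smul_def]

lemma poly_vp (p : A[X]) (f : A →ₗ[F] V) (S : Set F) (hS : S.Infinite) (a b : V)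
    (h : ∀ t ∈ S, f (evT t p) = a + t • b) :
    f (p.coeff 0) = a ∧ f (p.coeff 1) = b ∧ ∀ j, 2 ≤ j → f (p.coeff j) = 0 := by
  have key := vp (Finset.range (p.natDegree + 2))
    (fun j => f (p.coeff j) - (if j = 0 then a else 0) - (if j = 1 then b else 0)) S hS (by
      intro t ht
      have := h t ht
      rw [evT_eq t p (by omega : p.natDegree < p.natDegree + 2)] at this
      simp only [map_sum, map_smul] at this
      simp [smul_sub, Finset.sum_sub_distrib, this])
  refine ⟨by simpa [sub_eq_zero] using key 0 (by simp),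
    by simpa [sub_eq_zero] using key 1 (by simp), fun j hj => ?_⟩
  by_cases hj' : j < p.natDegree + 2
  · have := key j (by simpa)
    rwa [if_neg (by omega), if_neg (by omega), sub_zero, sub_zero] at this
  · rw [coeff_eq_zero_of_natDegree_lt (by omega), map_zero]

end poly

lemma tau_periodic [CharZero F] (χ : Ch F L) (u : U F L) (h : tau χ u = u) (t : F) :
    tau (t • χ) u = u := by
  let θ : L →ₗ⁅F⁆ (U F L)[X] :=
    { toFun := fun x => C (ι F x) + χ.1 x • X
      map_add' := fun x y => by simp [add_smul]; abel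
      map_smul' := fun c x => by simp [smul_smul, smul_C]
      map_lie' := fun {x y} => by
        simp [χ.2 x y, LieRing.of_associative_ring_bracket, mul_add, add_mul, X_mul_C, smul_smul,
          mul_comm]
        abel }
  have hθ : ∀ t : F, evT t (lift F θ u) = tau (t • χ) u := by
    intro t
    have : (evT t).comp (lift F θ) = tau (t • χ) := U_ext (by
      intro x
      simp only [AlgHom.comp_apply, lift_ι_apply, tau_ι]
      change evT t (C (ι F x) + χ.1 x • X) = _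
      rw [map_add, map_smul, evT_C, evT_X, Algebra.smul_def, ← map_mul, mul_comm]
      rfl)
    exact AlgHom.congr_fun this u
  have hn : ∀ k : ℕ, tau ((k : F) • χ) u = u := by
    intro k
    induction k with
    | zero => simp
    | succ k ih => rw [Nat.cast_succ, add_smul, one_smul, ← tau_tau, h, ih]
  obtain ⟨h0, h1, h2⟩ := poly_vp (lift F θ u) LinearMap.id (Set.range (Nat.cast : ℕ → F))
    (Set.infinite_range_of_injective Nat.cast_injective) u 0 (by
      rintro _ ⟨k, rfl⟩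
      simp [hθ, hn])
  rw [← hθ, evT_eq t _ (Nat.lt_succ_self _), Finset.sum_range_succ']
  simp only [LinearMap.id_apply] at h0 h1 h2
  rw [Finset.sum_eq_zero, h0]
  · simp
  · intro j _
    rcases j with _ | j
    · simp [h1]
    · simp [h2 (j + 1 + 1) (by omega)]

end

end Pool.Agent.P.MP_37e2d5_al
end

-- part Pool.Agent.P.MP_37e2d5_al.Lin
section

/-! The linear part of an element of the enveloping algebra (via symmetrisation). -/

namespace Pool.Agent.P.MP_37e2d5_al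

open UniversalEnvelopingAlgebra Module Polynomial

attribute [local instance 100] LieRing.ofAssociativeRing
attribute [-simp] UniversalEnvelopingAlgebra.ι_apply

noncomputable section

/-- sum of all words with given content -/
def sw {R : Type*} [Semiring R] {n : ℕ} (y : Fin n → R) (a : Fin n → ℕ) : R :=
  if a = 0 then 1 else ∑ i, if _h : a i ≠ 0 then y i * sw y (a - Pi.single i 1) else 0
termination_by deg a
decreasing_by have := deg_sub_single _h; omega

lemma sw_zero {R : Type*} [Semiring R] {n : ℕ} (y : Fin n → R) : sw y 0 = 1 := by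
  rw [sw, if_pos rfl]

lemma mem_AD {n k : ℕ} {a : Fin n → ℕ} :
    a ∈ Finset.piAntidiag Finset.univ k ↔ deg a = k := by
  simp [deg]

variable {F : Type*} [Field F] {L L' : Type*} [LieRing L] [LieAlgebra F L]
  [LieRing L'] [LieAlgebra F L'] {n : ℕ}

lemma sum_pow_eq {R : Type*} [Ring R] [Algebra F R] (y : Fin n → R) (t : Fin n → F) (k : ℕ) :
    (∑ i, t i • y i) ^ k =
      ∑ a ∈ Finset.piAntidiag Finset.univ k, (∏ i, t i ^ a i) • sw y a := by
  induction k with
  | zero => simp [sw_zero]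
  | succ k ih =>
    have e : ∀ b ∈ Finset.piAntidiag (Finset.univ : Finset (Fin n)) (k + 1),
        (∏ i, t i ^ b i) • sw y b = ∑ i, if b i ≠ 0 then
          (∏ i, t i ^ b i) • (y i * sw y (b - Pi.single i 1)) else 0 := by
      intro b hb
      have hb0 : b ≠ 0 := by rintro rfl; simp at hb
      rw [sw, if_neg hb0, Finset.smul_sum]
      refine Finset.sum_congr rfl fun i _ => ?_
      split_ifs <;> simp
    rw [Finset.sum_congr rfl e, Finset.sum_comm, pow_succ', ih, Finset.sum_mul]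
    refine Finset.sum_congr rfl fun i _ => ?_
    rw [← Finset.sum_filter, Finset.mul_sum]
    refine Finset.sum_nbij' (fun a => a + Pi.single i 1) (fun b => b - Pi.single i 1)
      ?_ ?_ ?_ ?_ ?_
    · intro a ha
      simp only [mem_AD, Finset.mem_filter] at ha ⊢
      exact ⟨by rw [deg_add, deg_single, ha], by simp⟩
    · intro b hb
      simp only [mem_AD, Finset.mem_filter] at hb ⊢
      have := deg_sub_single hb.2
      omega
    · intro a _; simp
    · intro b hb
      simp only [Finset.mem_filter] at hb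
      exact sub_single_add hb.2
    · intro a _
      have : ∏ j, t j ^ (a + Pi.single i 1 : Fin n → ℕ) j = t i * ∏ j, t j ^ a j := by
        simp only [Pi.add_apply, pow_add, Finset.prod_mul_distrib]
        rw [mul_comm, Finset.prod_eq_single i] <;> simp +contextual
      rw [this, add_tsub_cancel_right, smul_mul_smul_comm]

lemma sw_tri (x : Basis (Fin n) F L) (a : Fin n → ℕ) : ∃ c : ℕ, 0 < c ∧
    sw (fun i => ι F (x i)) a - (c : F) • pbw x a ∈ fil F (pbw x) deg (deg a) := by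
  induction hd : deg a using Nat.strong_induction_on generalizing a with
  | _ d ih =>
    by_cases h0 : a = 0
    · subst h0
      exact ⟨1, one_pos, by simp [sw_zero, pbw_apply]⟩
    have : ∀ i, ∃ c : ℕ, (a i ≠ 0 → 0 < c) ∧ (if _h : a i ≠ 0 then ι F (x i) *
        sw (fun i => ι F (x i)) (a - Pi.single i 1) else 0) - (c : F) • pbw x a ∈
          fil F (pbw x) deg d := by
      intro i
      by_cases h : a i ≠ 0
      · have h1 := deg_sub_single h
        obtain ⟨c, hc, hc'⟩ := ih _ (by omega) (a - Pi.single i 1) rfl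
        refine ⟨c, fun _ => hc, ?_⟩
        have h2 := ι_mul_fil x i hc'
        have h3 := Submodule.smul_mem _ (c : F) (ι_mul_pbw x i (a - Pi.single i 1))
        rw [sub_single_add h] at h3
        have := add_mem h2 h3
        rw [h1, hd] at this
        rw [dif_pos h]
        convert this using 1
        simp [mul_sub, smul_sub]
      · exact ⟨0, fun h' => absurd h' h, by simp [h]⟩
    choose c hc hc' using this
    refine ⟨∑ i, c i, ?_, ?_⟩
    · obtain ⟨i, hi⟩ := Function.ne_iff.mp h0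
      exact lt_of_lt_of_le (hc i hi) (Finset.single_le_sum (f := c) (by simp) (Finset.mem_univ i))
    · rw [sw, if_neg h0, Nat.cast_sum, Finset.sum_smul, ← Finset.sum_sub_distrib]
      exact Submodule.sum_mem _ fun i _ => hc' i

lemma exists_sw_basis [CharZero F] (x : Basis (Fin n) F L) :
    ∃ (b : Basis (Fin n → ℕ) F (U F L)) (c : (Fin n → ℕ) → F), (∀ a, c a ≠ 0) ∧
      ∀ a, sw (fun i => ι F (x i)) a = c a • b a := by
  choose c hc hc' using sw_tri x
  have hc0 : ∀ a, (c a : F) ≠ 0 := fun a => Nat.cast_ne_zero.mpr (hc a).ne'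
  refine ⟨triBasis (pbw x) deg (fun a => (c a : F)⁻¹ • sw (fun i => ι F (x i)) a) ?_,
    fun a => c a, hc0, fun a => ?_⟩
  · intro a
    have := Submodule.smul_mem _ (c a : F)⁻¹ (hc' a)
    simpa [smul_sub, smul_smul, hc0] using this
  · simp [smul_smul, hc0]

lemma ι_pow_eq (x : Basis (Fin n) F L) (y : L) (k : ℕ) : ι F y ^ k =
    ∑ a ∈ Finset.piAntidiag Finset.univ k,
      (∏ i, x.repr y i ^ a i) • sw (fun i => ι F (x i)) a := by
  rw [← sum_pow_eq]
  conv_lhs => rw [← x.sum_repr y, map_sum]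
  simp only [map_smul]

lemma pow_ext [CharZero F] [Module.Finite F L] {V : Type*} [AddCommGroup V] [Module F V]
    {f g : U F L →ₗ[F] V} (h : ∀ y k, f (ι F y ^ k) = g (ι F y ^ k)) : f = g := by
  let x := Module.finBasis F L
  obtain ⟨b, c, hc, hb⟩ := exists_sw_basis x
  rw [← sub_eq_zero]
  refine b.ext fun a => ?_
  rw [LinearMap.zero_apply, ← forall_dual_apply_eq_zero_iff F]
  intro φ
  set ψ := φ ∘ₗ (f - g)
  have hψ : ∀ y k, ψ (ι F y ^ k) = 0 := fun y k => by simp [ψ, h]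
  let p : MvPolynomial (Fin (finrank F L)) F :=
    ∑ a' ∈ Finset.piAntidiag Finset.univ (deg a), MvPolynomial.monomial
      (Finsupp.equivFunOnFinite.symm a') (ψ (sw (fun i => ι F (x i)) a'))
  have hp : p = 0 := by
    apply MvPolynomial.funext
    intro t
    have := hψ (x.equivFun.symm t) (deg a)
    rw [ι_pow_eq x] at this
    simp only [map_sum, map_smul, smul_eq_mul] at this
    simp only [p, map_sum, MvPolynomial.eval_monomial, map_zero]
    rw [← this]
    refine Finset.sum_congr rfl fun a' _ => ?_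
    rw [mul_comm, Finsupp.prod_fintype _ _ (by simp)]
    have : ∀ i, x.repr (x.equivFun.symm t) i = t i := fun i => by
      rw [← Basis.equivFun_apply, LinearEquiv.apply_symm_apply]
    simp only [this]
    rfl
  have := congrArg (MvPolynomial.coeff (Finsupp.equivFunOnFinite.symm a)) hp
  simp only [p, MvPolynomial.coeff_sum, MvPolynomial.coeff_monomial,
    EmbeddingLike.apply_eq_iff_eq, Finset.sum_ite_eq', MvPolynomial.coeff_zero] at this
  rw [if_pos (by simp [deg]), hb, map_smul, smul_eq_mul, mul_eq_zero] at this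
  exact this.resolve_left (hc a)

lemma exists_lin (F L : Type*) [Field F] [LieRing L] [LieAlgebra F L] [CharZero F]
    [Module.Finite F L] :
    ∃ lin : U F L →ₗ[F] L, ∀ y k, lin (ι F y ^ k) = if k = 1 then y else 0 := by
  let x := Module.finBasis F L
  obtain ⟨b, c, hc, hb⟩ := exists_sw_basis x
  obtain ⟨r, hr⟩ := LinearMap.exists_leftInverse_of_injective
    ((ι F : L →ₗ⁅F⁆ U F L) : L →ₗ[F] U F L) (LinearMap.ker_eq_bot.mpr ι_injective)
  let P : U F L →ₗ[F] U F L := b.constr F fun a => if deg a = 1 then b a else 0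
  have hP : ∀ y k, P (ι F y ^ k) = if k = 1 then ι F y else 0 := by
    intro y k
    have : P (ι F y ^ k) = if k = 1 then ι F y ^ k else 0 := by
      rw [ι_pow_eq x]
      simp only [map_sum, map_smul, hb, P, Basis.constr_basis]
      split_ifs with hk
      · refine Finset.sum_congr rfl fun a ha => ?_
        rw [if_pos ((mem_AD.mp ha).trans hk)]
      · refine Finset.sum_eq_zero fun a ha => ?_
        rw [if_neg (by rwa [mem_AD.mp ha])]
        simp
    rw [this]
    split_ifs with hk <;> simp [hk]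
  refine ⟨r ∘ₗ P, fun y k => ?_⟩
  rw [LinearMap.comp_apply, hP]
  split_ifs
  · exact LinearMap.congr_fun hr y
  · simp

variable [CharZero F] [Module.Finite F L] [Module.Finite F L']

/-- the linear part -/
def lin : U F L →ₗ[F] L := (exists_lin F L).choose

lemma lin_pow (y : L) (k : ℕ) : lin (ι F y ^ k) = if k = 1 then y else 0 :=
  (exists_lin F L).choose_spec y k

@[simp] lemma lin_ι (y : L) : lin (ι F y) = y := by simpa using lin_pow (F := F) y 1

@[simp] lemma lin_one : lin (1 : U F L) = 0 := by simpa using lin_pow (F := F) (0 : L) 0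

@[simp] lemma lin_algebraMap (c : F) : lin (algebraMap F (U F L) c) = 0 := by
  rw [Algebra.algebraMap_eq_smul_one, map_smul, lin_one, smul_zero]

lemma lin_Umap (f : L →ₗ⁅F⁆ L') (u : U F L) : lin (Umap f u) = f (lin u) := by
  have : lin ∘ₗ (Umap f).toLinearMap = (f : L →ₗ[F] L') ∘ₗ lin := pow_ext (by
    intro y k
    simp only [LinearMap.comp_apply, AlgHom.toLinearMap_apply, map_pow, Umap_ι, lin_pow]
    split_ifs <;> simp)
  exact LinearMap.congr_fun this u

lemma coeff_lin_pow {A : Type*} [Ring A] (y x : A) (k : ℕ) :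
    ((C x + C (y * x - x * y) * X) ^ k).coeff 0 = x ^ k ∧
      ((C x + C (y * x - x * y) * X) ^ k).coeff 1 = y * x ^ k - x ^ k * y := by
  induction k with
  | zero => simp [coeff_one]
  | succ k ih =>
    obtain ⟨h0, h1⟩ := ih
    constructor
    · rw [pow_succ, mul_coeff_zero, h0]; simp [pow_succ]
    · rw [pow_succ, mul_add, coeff_add, coeff_mul_C, h1, ← mul_assoc, coeff_mul_X, coeff_mul_C,
        h0, pow_succ]
      noncomm_ring

lemma lin_ad (y : L) (u : U F L) : lin (ι F y * u - u * ι F y) = ⁅y, lin u⁆ := by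
  have : lin ∘ₗ (LinearMap.mulLeft F (ι F y) - LinearMap.mulRight F (ι F y)) =
      LieAlgebra.ad F L y ∘ₗ lin := pow_ext (by
    intro x k
    have key := poly_vp ((C (ι F x) + C (ι F y * ι F x - ι F x * ι F y) * X) ^ k)
      (lin : U F L →ₗ[F] L) Set.univ Set.infinite_univ (if k = 1 then x else 0)
      (if k = 1 then ⁅y, x⁆ else 0) (by
        intro t _
        have : evT t (C (ι F x) + C (ι F y * ι F x - ι F x * ι F y) * X) =
            ι F (x + t • ⁅y, x⁆) := by
          rw [map_add, map_mul, evT_C, evT_C, evT_X, map_add, map_smul, ι_comm y x,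
            Algebra.smul_def, Algebra.commutes]
          simp
        rw [map_pow, this, lin_pow]
        split_ifs <;> simp)
    rw [(coeff_lin_pow _ _ k).2] at key
    simp only [LinearMap.comp_apply, LinearMap.sub_apply, LinearMap.mulLeft_apply,
      LinearMap.mulRight_apply, key.2.1, lin_pow, LieAlgebra.ad_apply]
    split_ifs <;> simp)
  exact LinearMap.congr_fun this u

lemma Cen.lie_lin {z : U F L} (hz : Cen z) (y : L) : ⁅y, lin z⁆ = 0 := by
  rw [← lin_ad, hz, sub_self, map_zero]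

end

end Pool.Agent.P.MP_37e2d5_al
end

-- part Pool.Agent.P.MP_37e2d5_al.Free
section

/-! Freeness of the enveloping algebra over the enveloping algebra of a subalgebra. -/

namespace Pool.Agent.P.MP_37e2d5_al

open UniversalEnvelopingAlgebra Module

attribute [local instance 100] LieRing.ofAssociativeRing
attribute [-simp] UniversalEnvelopingAlgebra.ι_apply

noncomputable section

variable {F : Type*} [Field F] {L B N : Type*} [LieRing L] [LieAlgebra F L]
  [LieRing B] [LieAlgebra F B] [LieRing N] [LieAlgebra F N]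

/-- range as a submodule -/
def rg (f : B →ₗ⁅F⁆ L) : Submodule F L := LinearMap.range (f : B →ₗ[F] L)

@[simp] lemma mem_rg {f : B →ₗ⁅F⁆ L} {x : L} : x ∈ rg f ↔ ∃ b, f b = x := Iff.rfl

/-- closed under brackets -/
def Sub (a : Submodule F L) : Prop := ∀ x ∈ a, ∀ y ∈ a, ⁅x, y⁆ ∈ a

/-- normalises -/
def Nrm (x : L) (a : Submodule F L) : Prop := ∀ y ∈ a, ⁅x, y⁆ ∈ a

/-- the subalgebra -/
def Sub.toLie {a : Submodule F L} (h : Sub a) : LieSubalgebra F L :=
  { a with lie_mem' := fun hx hy => h _ hx _ hy }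

@[simp] lemma Sub.mem_toLie {a : Submodule F L} (h : Sub a) {x : L} : x ∈ h.toLie ↔ x ∈ a :=
  Iff.rfl

lemma Sub.rg_incl {a : Submodule F L} (h : Sub a) : rg h.toLie.incl = a := by
  ext x
  exact ⟨by rintro ⟨b, rfl⟩; exact b.2, fun hx => ⟨⟨x, hx⟩, rfl⟩⟩

lemma Sub.incl_inj {a : Submodule F L} (h : Sub a) : Function.Injective h.toLie.incl :=
  Subtype.val_injective

lemma sub_rg (f : B →ₗ⁅F⁆ L) : Sub (rg f) := by
  rintro _ ⟨a, rfl⟩ _ ⟨b, rfl⟩
  exact ⟨⁅a, b⁆, f.map_lie a b⟩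

lemma Sub.sup_span {a : Submodule F L} (h : Sub a) {x : L} (hx : Nrm x a) : Sub (a ⊔ F ∙ x) := by
  intro u hu v hv
  obtain ⟨u1, hu1, _, hu2, rfl⟩ := Submodule.mem_sup.mp hu
  obtain ⟨v1, hv1, _, hv2, rfl⟩ := Submodule.mem_sup.mp hv
  obtain ⟨s, rfl⟩ := Submodule.mem_span_singleton.mp hu2
  obtain ⟨t, rfl⟩ := Submodule.mem_span_singleton.mp hv2
  apply Submodule.mem_sup_left
  have e : ⁅u1 + s • x, v1 + t • x⁆ = ⁅u1, v1⁆ - t • ⁅x, u1⁆ + s • ⁅x, v1⁆ := by
    simp only [add_lie, lie_add, smul_lie, lie_smul, lie_self, smul_zero, ← lie_skew u1 x]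
    module
  rw [e]
  exact add_mem (sub_mem (h _ hu1 _ hv1) (a.smul_mem _ (hx _ hu1))) (a.smul_mem _ (hx _ hv1))

lemma mem_sup_span {V : Type*} [AddCommGroup V] [Module F V] {a : Submodule F V} {x u : V} :
    u ∈ a ⊔ F ∙ x ↔ ∃ y ∈ a, ∃ t : F, u = y + t • x := by
  simp only [Submodule.mem_sup, Submodule.mem_span_singleton]
  constructor
  · rintro ⟨y, hy, _, ⟨t, rfl⟩, rfl⟩; exact ⟨y, hy, t, rfl⟩
  · rintro ⟨y, hy, t, rfl⟩; exact ⟨y, hy, _, ⟨t, rfl⟩, rfl⟩

lemma mem_sup_span_self {V : Type*} [AddCommGroup V] [Module F V] (a : Submodule F V) (x : V) :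
    x ∈ a ⊔ F ∙ x := Submodule.mem_sup_right (Submodule.mem_span_singleton_self x)

/-- corestriction -/
def cod (f : B →ₗ⁅F⁆ L) (q : LieSubalgebra F L) (h : ∀ x, f x ∈ q) : B →ₗ⁅F⁆ q :=
  { (f : B →ₗ[F] L).codRestrict q.toSubmodule h with
    map_lie' := fun {x y} => Subtype.ext (f.map_lie x y) }

@[simp] lemma cod_val (f : B →ₗ⁅F⁆ L) (q : LieSubalgebra F L) (h : ∀ x, f x ∈ q) (x : B) :
    (cod f q h x : L) = f x := rfl

lemma incl_comp_cod (f : B →ₗ⁅F⁆ L) (q : LieSubalgebra F L) (h : ∀ x, f x ∈ q) :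
    q.incl.comp (cod f q h) = f := rfl

/-- the ideal -/
def mkIdeal (m : Submodule F L) (h : ∀ x, Nrm x m) : LieIdeal F L :=
  { m with lie_mem := fun hy => h _ _ hy }

@[simp] lemma mem_mkIdeal (m : Submodule F L) (h : ∀ x, Nrm x m) {x : L} :
    x ∈ mkIdeal m h ↔ x ∈ m := Iff.rfl

/-- quotient morphism -/
def qmk (I : LieIdeal F L) : L →ₗ⁅F⁆ L ⧸ I :=
  { I.toSubmodule.mkQ with map_lie' := fun {x y} => LieSubmodule.Quotient.mk_bracket I x y }

lemma qmk_surj (I : LieIdeal F L) : Function.Surjective (qmk I) := I.toSubmodule.mkQ_surjective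

@[simp] lemma qmk_eq_zero (I : LieIdeal F L) {x : L} : qmk I x = 0 ↔ x ∈ I :=
  Submodule.Quotient.mk_eq_zero _

/-- subalgebra of the enveloping algebra generated by a subspace -/
def Ua (q : Submodule F L) : Subalgebra F (U F L) := Algebra.adjoin F (ι F '' (q : Set L))

lemma ι_mem_Ua {q : Submodule F L} {x : L} (hx : x ∈ q) : ι F x ∈ Ua q :=
  Algebra.subset_adjoin ⟨x, hx, rfl⟩

lemma Ua_mono {q q' : Submodule F L} (h : q ≤ q') : Ua q ≤ Ua q' :=
  Algebra.adjoin_mono (Set.image_mono h)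

lemma Ua_induction {q : Submodule F L} {P : U F L → Prop} (h1 : P 1)
    (hadd : ∀ u v, P u → P v → P (u + v)) (hsmul : ∀ (c : F) u, P u → P (c • u))
    (hmul : ∀ y ∈ q, ∀ u, P u → P (ι F y * u)) {u : U F L} (hu : u ∈ Ua q) : P u := by
  suffices H : ∀ v, P v → P (u * v) by simpa using H 1 h1
  induction hu using Algebra.adjoin_induction with
  | mem x hx => obtain ⟨y, hy, rfl⟩ := hx; exact hmul y hy
  | algebraMap r => intro v hv; rw [← Algebra.smul_def]; exact hsmul _ _ hv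
  | add a b _ _ ha hb => intro v hv; rw [add_mul]; exact hadd _ _ (ha _ hv) (hb _ hv)
  | mul a b _ _ ha hb => intro v hv; rw [mul_assoc]; exact ha _ (hb _ hv)

lemma Umap_mem_Ua (f : B →ₗ⁅F⁆ L) {q : Submodule F L} (h : ∀ b, f b ∈ q) (u : U F B) :
    Umap f u ∈ Ua q := by
  induction u using U_induction with
  | h1 => rw [map_one]; exact one_mem _
  | hadd u v hu hv => rw [map_add]; exact add_mem hu hv
  | hsmul c u hu => rw [map_smul]; exact Subalgebra.smul_mem _ hu _
  | hmul y u hu => rw [map_mul, Umap_ι]; exact mul_mem (ι_mem_Ua (h y)) hu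

lemma mem_Ua_rg {f : B →ₗ⁅F⁆ L} {u : U F L} (hu : u ∈ Ua (rg f)) : ∃ b, Umap f b = u := by
  refine Ua_induction (P := fun u => ∃ b, Umap f b = u) ⟨1, map_one _⟩ ?_ ?_ ?_ hu
  · rintro _ _ ⟨a, rfl⟩ ⟨b, rfl⟩; exact ⟨a + b, map_add _ _ _⟩
  · rintro c _ ⟨a, rfl⟩; exact ⟨c • a, map_smul _ _ _⟩
  · rintro _ ⟨y, rfl⟩ _ ⟨a, rfl⟩; exact ⟨ι F y * a, by simp⟩

lemma mem_Ua_top (u : U F L) : u ∈ Ua (⊤ : Submodule F L) := by
  simpa [Umap_id] using Umap_mem_Ua (LieHom.id : L →ₗ⁅F⁆ L) (q := ⊤) (by simp) u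

lemma Umap_Ua (f : B →ₗ⁅F⁆ L) {q : Submodule F B} {q' : Submodule F L} (h : ∀ b ∈ q, f b ∈ q')
    {u : U F B} (hu : u ∈ Ua q) : Umap f u ∈ Ua q' := by
  refine Ua_induction (P := fun u => Umap f u ∈ Ua q') ?_ ?_ ?_ ?_ hu
  · rw [map_one]; exact one_mem _
  · intro u v hu hv; rw [map_add]; exact add_mem hu hv
  · intro c u hu; rw [map_smul]; exact Subalgebra.smul_mem _ hu _
  · intro y hy u hu; rw [map_mul, Umap_ι]; exact mul_mem (ι_mem_Ua (h y hy)) hu

lemma Umap_surj {f : B →ₗ⁅F⁆ L} (hf : Function.Surjective f) : Function.Surjective (Umap f) := by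
  intro u
  apply mem_Ua_rg
  rw [show rg f = ⊤ from LinearMap.range_eq_top.mpr hf]
  exact mem_Ua_top u

lemma mono_add {R : Type*} [Monoid R] {k m : ℕ} (y : Fin (k + m) → R) (a : Fin (k + m) → ℕ) :
    mono y a = mono (fun i => y (Fin.castAdd m i)) (fun i => a (Fin.castAdd m i)) *
      mono (fun i => y (Fin.natAdd k i)) (fun i => a (Fin.natAdd k i)) := by
  simp only [mono, List.ofFn_add, List.prod_append]
  rfl

lemma mono_single_zero {R : Type*} [Monoid R] {m : ℕ} (y : Fin (m + 1) → R) (k : ℕ) :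
    mono y (Pi.single 0 k) = y 0 ^ k := by
  rw [mono_succ]
  have : (fun i : Fin m => (Pi.single 0 k : Fin (m + 1) → ℕ) i.succ) = 0 := by
    funext i; simp
  rw [this, mono_zero, mul_one, Pi.single_eq_same]

theorem exists_coord [Module.Finite F B] (f : B →ₗ⁅F⁆ L) (hf : Function.Injective f) {m : ℕ}
    (y : Fin m → L) (hli : ∀ g : Fin m → F, ∑ i, g i • y i ∈ rg f → g = 0)
    (hsp : rg f ⊔ Submodule.span F (Set.range y) = ⊤) :
    ∃ p : U F L →ₗ[F] ((Fin m → ℕ) →₀ U F B), (∀ b u, p (Umap f b * u) = b • p u) ∧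
      (∀ a, p (mono (fun i => ι F (y i)) a) = Finsupp.single a 1) ∧
      ∀ u, (p u).sum (fun a c => Umap f c * mono (fun i => ι F (y i)) a) = u := by
  let b := Module.finBasis F B
  set k := finrank F B
  have hr : Submodule.span F (Set.range (f ∘ b)) = rg f := by
    rw [Set.range_comp, rg, LinearMap.range_eq_map, ← b.span_eq, Submodule.map_span]
    rfl
  have li : LinearIndependent F (Sum.elim (f ∘ b) y) := by
    refine LinearIndependent.sum_type (b.linearIndependent.map' (f : B →ₗ[F] L)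
      (LinearMap.ker_eq_bot.mpr hf)) ?_ ?_
    · rw [Fintype.linearIndependent_iff]
      intro g hg
      exact congrFun (hli g (by rw [hg]; exact zero_mem _))
    · rw [hr, Submodule.disjoint_def]
      intro x hx hx'
      obtain ⟨g, rfl⟩ := (Submodule.mem_span_range_iff_exists_fun F).mp hx'
      simp [hli g hx]
  let z : Basis (Fin (k + m)) F L := (Basis.mk li (by
    rw [Set.Sum.elim_range, Submodule.span_union, hr, hsp])).reindex finSumFinEquiv
  have z1 : ∀ i, z (Fin.castAdd m i) = f (b i) := fun i => by simp [z]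
  have z2 : ∀ i, z (Fin.natAdd k i) = y i := fun i => by simp [z]
  let Ψ : ((Fin m → ℕ) →₀ U F B) →ₗ[F] U F L := Finsupp.lsum F fun a =>
    LinearMap.mulRight F (mono (fun i => ι F (y i)) a) ∘ₗ (Umap f).toLinearMap
  have Ψs : ∀ a c, Ψ (Finsupp.single a c) = Umap f c * mono (fun i => ι F (y i)) a := by
    intro a c; simp [Ψ]
  let e : (Σ _ : Fin m → ℕ, Fin k → ℕ) ≃ (Fin (k + m) → ℕ) :=
    { toFun := fun s => Fin.append s.2 s.1
      invFun := fun a => ⟨fun i => a (Fin.natAdd k i), fun i => a (Fin.castAdd m i)⟩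
      left_inv := fun s => by simp
      right_inv := fun a => Fin.append_castAdd_natAdd }
  let E := (Finsupp.basis (fun _ : Fin m → ℕ => pbw b)).equiv (pbw z) e
  have hE : Ψ = E.toLinearMap := by
    refine (Finsupp.basis (fun _ : Fin m → ℕ => pbw b)).ext fun s => ?_
    rw [LinearEquiv.coe_coe, Basis.equiv_apply, Finsupp.coe_basis]
    simp only [Ψs, pbw_apply, map_mono, Umap_ι]
    rw [mono_add]
    simp [e, z1, z2]
  have hE' : ∀ g, E g = Ψ g := fun g => by rw [hE]; rfl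
  refine ⟨E.symm.toLinearMap, fun c u => ?_, fun a => ?_, fun u => ?_⟩
  · obtain ⟨g, rfl⟩ := E.surjective u
    apply E.injective
    simp only [LinearEquiv.coe_coe, LinearEquiv.apply_symm_apply, LinearEquiv.symm_apply_apply]
    rw [hE', hE']
    induction g using Finsupp.induction_linear with
    | zero => simp
    | add g g' h h' => simp only [map_add, mul_add, smul_add, h, h']
    | single a c' => rw [Finsupp.smul_single, Ψs, Ψs, smul_eq_mul, map_mul, mul_assoc]
  · apply E.injective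
    rw [LinearEquiv.coe_coe, LinearEquiv.apply_symm_apply, hE', Ψs, map_one, one_mul]
  · conv_rhs => rw [← E.apply_symm_apply u, hE']
    simp [Ψ, Finsupp.sum]

lemma exists_compl_family [Module.Finite F L] (W : Submodule F L) : ∃ (m : ℕ) (y : Fin m → L),
    (∀ g : Fin m → F, ∑ i, g i • y i ∈ W → g = 0) ∧ W ⊔ Submodule.span F (Set.range y) = ⊤ := by
  obtain ⟨Q, hQ⟩ := W.exists_isCompl
  let q := Module.finBasis F Q
  refine ⟨_, fun i => q i, fun g hg => ?_, ?_⟩
  · have : ∑ i, g i • q i = 0 := by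
      have h1 : ((∑ i, g i • q i : Q) : L) ∈ W := by simpa using hg
      exact Subtype.ext (Submodule.disjoint_def.mp hQ.disjoint _ h1 (∑ i, g i • q i).2)
    exact funext (Fintype.linearIndependent_iff.mp q.linearIndependent g this)
  · have : Submodule.span F (Set.range fun i => (q i : L)) = Q := by
      conv_rhs => rw [← Q.range_subtype, LinearMap.range_eq_map, ← q.span_eq, Submodule.map_span,
        ← Set.range_comp]
      rfl
    rw [this, hQ.sup_eq_top]

lemma exists_compl_family' [Module.Finite F L] (W : Submodule F L) {x : L} (hx : x ∉ W) :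
    ∃ (m : ℕ) (y : Fin (m + 1) → L), y 0 = x ∧
    (∀ g : Fin (m + 1) → F, ∑ i, g i • y i ∈ W → g = 0) ∧
      W ⊔ Submodule.span F (Set.range y) = ⊤ := by
  obtain ⟨m, y, h1, h2⟩ := exists_compl_family (W ⊔ F ∙ x)
  refine ⟨m, Fin.cons x y, rfl, fun g hg => ?_, ?_⟩
  · rw [Fin.sum_univ_succ] at hg
    simp only [Fin.cons_zero, Fin.cons_succ] at hg
    have h3 := h1 (fun i => g i.succ) (by
      have := sub_mem (Submodule.mem_sup_left hg : _ ∈ W ⊔ F ∙ x)
        (Submodule.smul_mem _ (g 0) (mem_sup_span_self W x))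
      simpa using this)
    have h4 : ∀ i : Fin m, g i.succ = 0 := congrFun h3
    have h5 : g 0 = 0 := by
      by_contra hc
      simp only [h4, zero_smul, Finset.sum_const_zero, add_zero] at hg
      exact hx ((W.smul_mem_iff hc).mp hg)
    funext i
    exact Fin.cases h5 h4 i
  · rw [Fin.range_cons, Submodule.span_insert, ← sup_assoc, h2]

section Ysec

variable {Λ : Type*} [Ring Λ] [Algebra F Λ] (κ : B →ₗ⁅F⁆ Λ)

/-- the subspace `κ(a) M` -/
def Y (a : Submodule F B) (M : Type*) [AddCommGroup M] [Module Λ M] [Module F M] :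
    Submodule F M := Submodule.span F {m | ∃ x ∈ a, ∃ n : M, κ x • n = m}

variable {κ} {M : Type*} [AddCommGroup M] [Module Λ M] [Module F M] [IsScalarTower F Λ M]

omit [IsScalarTower F Λ M] in
lemma mem_Y {a : Submodule F B} {x : B} (hx : x ∈ a) (n : M) : κ x • n ∈ Y κ a M :=
  Submodule.subset_span ⟨x, hx, n, rfl⟩

omit [IsScalarTower F Λ M] in
lemma Y_mono {a a' : Submodule F B} (h : a ≤ a') : Y κ a M ≤ Y κ a' M :=
  Submodule.span_mono fun _ ⟨x, hx, n, hn⟩ => ⟨x, h hx, n, hn⟩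

lemma Y_ind {a : Submodule F B} {P : M → Prop} (h0 : P 0) (hadd : ∀ u v, P u → P v → P (u + v))
    (hgen : ∀ x ∈ a, ∀ n, P (κ x • n)) {m : M} (hm : m ∈ Y κ a M) : P m := by
  suffices H : ∀ c : F, P (c • m) by simpa using H 1
  induction hm using Submodule.span_induction with
  | mem v hv =>
    obtain ⟨x, hx, n, rfl⟩ := hv
    intro c
    rw [smul_comm]
    exact hgen x hx _
  | zero => simpa
  | add u v _ _ hu hv => intro c; rw [smul_add]; exact hadd _ _ (hu c) (hv c)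
  | smul c u _ hu => intro c'; rw [smul_smul]; exact hu _

lemma Y_bot {m : M} (hm : m ∈ Y κ ⊥ M) : m = 0 :=
  Y_ind (P := fun m : M => m = (0 : M)) rfl (fun u v hu hv => by rw [hu, hv, add_zero])
    (fun x hx n => by rw [(Submodule.mem_bot F).mp hx, map_zero, zero_smul]) hm

lemma Y_map {M' : Type*} [AddCommGroup M'] [Module F M'] {G : Type*} [FunLike G M M']
    [AddMonoidHomClass G M M'] (f : G) {a : Submodule F B} {P : Submodule F M'}
    (h : ∀ x ∈ a, ∀ n, f (κ x • n) ∈ P) {m : M} (hm : m ∈ Y κ a M) : f m ∈ P :=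
  Y_ind (P := fun m => f m ∈ P) (by simp) (fun u v hu hv => by rw [map_add]; exact add_mem hu hv)
    h hm

lemma Y_lmap {M' : Type*} [AddCommGroup M'] [Module Λ M'] [Module F M'] (f : M →ₗ[Λ] M')
    {a : Submodule F B} {m : M} (hm : m ∈ Y κ a M) : f m ∈ Y κ a M' :=
  Y_map f (fun x hx n => by rw [map_smul]; exact mem_Y hx _) hm

omit [IsScalarTower F Λ M] in
lemma Y_smul {a : Submodule F B} {r : Λ} (hr : r ∈ Y κ a Λ) (m : M) : r • m ∈ Y κ a M :=
  Y_lmap (LinearMap.toSpanSingleton Λ M m) hr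

lemma Y_mul {a : Submodule F B} {r : Λ} (hr : r ∈ Y κ a Λ) (s : Λ) : r * s ∈ Y κ a Λ :=
  Y_smul hr s

lemma mem_Y' {a : Submodule F B} {x : B} (hx : x ∈ a) : κ x ∈ Y κ a Λ := by
  simpa using mem_Y (κ := κ) (M := Λ) hx 1

lemma κ_comm (x y : B) : κ x * κ y = κ y * κ x + κ ⁅x, y⁆ := by
  rw [LieHom.map_lie, LieRing.of_associative_ring_bracket]; abel

lemma smul_mem_Y {a : Submodule F B} {r : Λ} (hr : ∀ x ∈ a, r * κ x ∈ Y κ a Λ) {m : M}
    (hm : m ∈ Y κ a M) : r • m ∈ Y κ a M :=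
  Y_map (DistribSMul.toAddMonoidHom M r) (fun x hx n => by
    simpa [smul_smul] using Y_smul (hr x hx) n) hm

lemma Nrm.smul_mem_Y {a : Submodule F B} {x : B} (hx : Nrm x a) {m : M} (hm : m ∈ Y κ a M) :
    κ x • m ∈ Y κ a M :=
  Pool.Agent.P.MP_37e2d5_al.smul_mem_Y (fun y hy => by
    rw [κ_comm]; exact add_mem (mem_Y hy _) (mem_Y' (hx y hy))) hm

lemma comm_smul_mem_Y {a : Submodule F B} {r : Λ} (hr : ∀ x ∈ a, r * κ x = κ x * r) {m : M}
    (hm : m ∈ Y κ a M) : r • m ∈ Y κ a M :=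
  smul_mem_Y (fun y hy => by rw [hr y hy]; exact mem_Y hy _) hm

lemma mem_Y_sup {a : Submodule F B} {x : B} {m : M} (hm : m ∈ Y κ (a ⊔ F ∙ x) M) :
    ∃ n, m - κ x • n ∈ Y κ a M := by
  refine Y_ind (P := fun m => ∃ n, m - κ x • n ∈ Y κ a M) ⟨0, by simp⟩ ?_ ?_ hm
  · rintro u v ⟨n, hn⟩ ⟨n', hn'⟩
    refine ⟨n + n', ?_⟩
    convert add_mem hn hn' using 1
    rw [smul_add]; abel
  · intro y' hy' n
    obtain ⟨y, hy, t, rfl⟩ := mem_sup_span.mp hy'
    refine ⟨t • n, ?_⟩
    rw [map_add, map_smul, add_smul, smul_assoc, smul_comm t (κ x) n, add_sub_cancel_right]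
    exact mem_Y hy _

end Ysec

end

end Pool.Agent.P.MP_37e2d5_al
end

-- part Pool.Agent.P.MP_37e2d5_al.Reg
section

/-! Consequences of freeness; regular modules; purity; the cone lemma. -/

namespace Pool.Agent.P.MP_37e2d5_al

open UniversalEnvelopingAlgebra Module

attribute [local instance 100] LieRing.ofAssociativeRing
attribute [-simp] UniversalEnvelopingAlgebra.ι_apply

noncomputable section

variable {F : Type*} [Field F] {L B N : Type*} [LieRing L] [LieAlgebra F L]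
  [LieRing B] [LieAlgebra F B] [LieRing N] [LieAlgebra F N]

/-- right ideal generated by a subspace -/
abbrev rI (a : Submodule F L) : Submodule F (U F L) := Y (ι F) a (U F L)

/-- left ideal generated by a subspace -/
def lI (a : Submodule F L) : Submodule (U F L) (U F L) :=
  Submodule.span (U F L) (ι F '' (a : Set L))

lemma mem_lI' {a : Submodule F L} {x : L} (hx : x ∈ a) : ι F x ∈ lI a :=
  Submodule.subset_span ⟨x, hx, rfl⟩

lemma lI_mul {a : Submodule F L} (u : U F L) {v : U F L} (hv : v ∈ lI a) : u * v ∈ lI a :=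
  Submodule.smul_mem _ u hv

lemma lI_smul {a : Submodule F L} (c : F) {v : U F L} (hv : v ∈ lI a) : c • v ∈ lI a :=
  Submodule.smul_of_tower_mem _ c hv

lemma mem_lI {a : Submodule F L} (u : U F L) {x : L} (hx : x ∈ a) : u * ι F x ∈ lI a :=
  lI_mul u (mem_lI' hx)

lemma mem_rI {a : Submodule F L} {x : L} (hx : x ∈ a) (u : U F L) : ι F x * u ∈ rI a :=
  mem_Y hx u

lemma lI_mono {a a' : Submodule F L} (h : a ≤ a') : lI a ≤ lI a' :=
  Submodule.span_mono (Set.image_mono h)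

lemma lI_ind {a : Submodule F L} {P : U F L → Prop} (h0 : P 0)
    (hadd : ∀ u v, P u → P v → P (u + v)) (hgen : ∀ x ∈ a, ∀ u, P (u * ι F x)) {v : U F L}
    (hv : v ∈ lI a) : P v := by
  suffices H : ∀ c : U F L, P (c * v) by simpa using H 1
  induction hv using Submodule.span_induction with
  | mem v hv => obtain ⟨x, hx, rfl⟩ := hv; exact hgen x hx
  | zero => simpa
  | add u v _ _ hu hv => intro c; rw [mul_add]; exact hadd _ _ (hu c) (hv c)
  | smul c u _ hu => intro c'; rw [smul_eq_mul, ← mul_assoc]; exact hu _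

lemma lI_mul_right {a : Submodule F L} {r : U F L} (hr : ∀ x ∈ a, ι F x * r ∈ lI a) {v : U F L}
    (hv : v ∈ lI a) : v * r ∈ lI a :=
  lI_ind (P := fun v => v * r ∈ lI a) (by simp)
    (fun u v hu hv => by rw [add_mul]; exact add_mem hu hv)
    (fun x hx u => by rw [mul_assoc]; exact lI_mul _ (hr x hx)) hv

lemma Nrm.lI_mul {a : Submodule F L} {x : L} (hx : Nrm x a) {v : U F L} (hv : v ∈ lI a) :
    v * ι F x ∈ lI a :=
  lI_mul_right (fun y hy => by
    have : ι F y * ι F x = ι F x * ι F y - ι F ⁅x, y⁆ := by rw [ι_comm x y]; abel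
    rw [this]; exact sub_mem (mem_lI _ hy) (mem_lI' (hx y hy))) hv

lemma lI_mul_Ua {a q : Submodule F L} (h : ∀ x ∈ q, Nrm x a) {u v : U F L} (hu : u ∈ Ua q)
    (hv : v ∈ lI a) : v * u ∈ lI a := by
  revert v
  refine Ua_induction (P := fun u => ∀ {v}, v ∈ lI a → v * u ∈ lI a) (by simp) ?_ ?_ ?_ hu
  · intro u u' h1 h2 v hv; rw [mul_add]; exact add_mem (h1 hv) (h2 hv)
  · intro c u h1 v hv; rw [mul_smul_comm]; exact lI_smul _ (h1 hv)
  · intro y hy u h1 v hv; rw [← mul_assoc]; exact h1 ((h y hy).lI_mul hv)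

lemma Ua_smul_Y {Λ : Type*} [Ring Λ] [Algebra F Λ] {κ : L →ₗ⁅F⁆ Λ} {M : Type*} [AddCommGroup M]
    [Module Λ M] [Module F M] [IsScalarTower F Λ M] {a q : Submodule F L}
    (h : ∀ x ∈ q, Nrm x a) {u : U F L} (hu : u ∈ Ua q) {m : M} (hm : m ∈ Y κ a M) :
    lift F κ u • m ∈ Y κ a M := by
  refine Ua_induction (P := fun u => lift F κ u • m ∈ Y κ a M) (by simpa) ?_ ?_ ?_ hu
  · intro u u' h1 h2; rw [map_add, add_smul]; exact add_mem h1 h2
  · intro c u h1; rw [map_smul, smul_assoc]; exact Submodule.smul_mem _ _ h1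
  · intro y hy u h1; rw [map_mul, lift_ι_apply, mul_smul]; exact (h y hy).smul_mem_Y h1

lemma lift_ι_self (u : U F L) : lift F (ι F : L →ₗ⁅F⁆ U F L) u = u := by
  have : lift F (ι F : L →ₗ⁅F⁆ U F L) = AlgHom.id F _ := U_ext (by simp [lift_ι_apply])
  exact AlgHom.congr_fun this u

lemma Ua_smul_Y' {M : Type*} [AddCommGroup M]
    [Module (U F L) M] [Module F M] [IsScalarTower F (U F L) M] {a q : Submodule F L}
    (h : ∀ x ∈ q, Nrm x a) {u : U F L} (hu : u ∈ Ua q) {m : M} (hm : m ∈ Y (ι F) a M) :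
    u • m ∈ Y (ι F) a M := by
  simpa [lift_ι_self] using Ua_smul_Y h hu hm

lemma Ua_mul_rI {a q : Submodule F L} (h : ∀ x ∈ q, Nrm x a) {u v : U F L} (hu : u ∈ Ua q)
    (hv : v ∈ rI a) : u * v ∈ rI a := Ua_smul_Y' h hu hv

lemma anti_lI {a : Submodule F L} {v : U F L} (hv : v ∈ lI a) : anti v ∈ rI a :=
  lI_ind (P := fun v => anti v ∈ rI a) (by simp)
    (fun u v hu hv => by rw [map_add]; exact add_mem hu hv)
    (fun x hx u => by rw [anti_mul, anti_ι, neg_mul]; exact neg_mem (mem_rI hx _)) hv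

lemma anti_rI {a : Submodule F L} {v : U F L} (hv : v ∈ rI a) : anti v ∈ lI a :=
  Y_ind (P := fun v => anti v ∈ lI a) (by simp)
    (fun u v hu hv => by rw [map_add]; exact add_mem hu hv)
    (fun x hx u => by
      rw [smul_eq_mul, anti_mul, anti_ι, mul_neg]; exact neg_mem (mem_lI _ hx)) hv

lemma anti_Ua {q : Submodule F L} {u : U F L} (hu : u ∈ Ua q) : anti u ∈ Ua q := by
  refine Ua_induction (P := fun u => anti u ∈ Ua q) ?_ ?_ ?_ ?_ hu
  · rw [anti_one]; exact one_mem _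
  · intro u v hu hv; rw [map_add]; exact add_mem hu hv
  · intro c u hu; rw [map_smul]; exact Subalgebra.smul_mem _ hu _
  · intro y hy u hu; rw [anti_mul, anti_ι]; exact mul_mem hu (neg_mem (ι_mem_Ua hy))

lemma Umap_lI (f : B →ₗ⁅F⁆ L) {a : Submodule F B} {a' : Submodule F L} (h : ∀ x ∈ a, f x ∈ a')
    {v : U F B} (hv : v ∈ lI a) : Umap f v ∈ lI a' :=
  lI_ind (P := fun v => Umap f v ∈ lI a') (by simp)
    (fun u v hu hv => by rw [map_add]; exact add_mem hu hv)
    (fun x hx u => by rw [map_mul, Umap_ι]; exact mem_lI _ (h x hx)) hv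

lemma Umap_rI (f : B →ₗ⁅F⁆ L) {a : Submodule F B} {a' : Submodule F L} (h : ∀ x ∈ a, f x ∈ a')
    {v : U F B} (hv : v ∈ rI a) : Umap f v ∈ rI a' :=
  Y_map (Umap f) (fun x hx u => by
    rw [smul_eq_mul, map_mul, Umap_ι]; exact mem_rI (h x hx) _) hv

lemma Umap_lI_zero (f : B →ₗ⁅F⁆ L) {a : Submodule F B} (h : ∀ x ∈ a, f x = 0)
    {v : U F B} (hv : v ∈ lI a) : Umap f v = 0 :=
  lI_ind (P := fun v => Umap f v = (0 : U F L)) (by simp)
    (fun u v hu hv => by rw [map_add, hu, hv, add_zero])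
    (fun x hx u => by rw [map_mul, Umap_ι, h x hx, map_zero, mul_zero]) hv

lemma Umap_rI_zero (f : B →ₗ⁅F⁆ L) {a : Submodule F B} (h : ∀ x ∈ a, f x = 0)
    {v : U F B} (hv : v ∈ rI a) : Umap f v = 0 :=
  Y_bot (Umap_rI f (a' := ⊥) h hv)

lemma eps_rI {a : Submodule F L} {v : U F L} (hv : v ∈ rI a) : eps F L v = 0 :=
  Y_map (eps F L) (P := ⊥) (fun x _ u => by simp) hv

lemma eps_lI {a : Submodule F L} {v : U F L} (hv : v ∈ lI a) : eps F L v = 0 :=
  lI_ind (P := fun v => eps F L v = (0 : F)) (by simp)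
    (fun u v hu hv => by rw [map_add, hu, hv, add_zero]) (fun x _ u => by simp) hv

lemma sub_eps_mem_rI {q : Submodule F L} {u : U F L} (hu : u ∈ Ua q) :
    u - algebraMap F _ (eps F L u) ∈ rI q := by
  refine Ua_induction (P := fun u => u - algebraMap F _ (eps F L u) ∈ rI q) (by simp) ?_ ?_ ?_ hu
  · intro u v hu hv
    convert add_mem hu hv using 1
    rw [map_add, map_add]; abel
  · intro c u hu
    convert Submodule.smul_mem _ c hu using 1
    rw [map_smul, smul_sub, smul_eq_mul, map_mul, Algebra.smul_def c (algebraMap _ _ _)]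
  · intro y hy u _
    simpa using mem_rI hy u

lemma mem_rI_of_eps {q : Submodule F L} {u : U F L} (hu : u ∈ Ua q) (h : eps F L u = 0) :
    u ∈ rI q := by simpa [h] using sub_eps_mem_rI hu

lemma eps_anti (u : U F L) : eps F L (anti u) = eps F L u := by
  induction u using U_induction with
  | h1 => simp
  | hadd u v hu hv => simp only [map_add, hu, hv]
  | hsmul c u hu => simp only [map_smul, hu]
  | hmul y u hu => simp [anti_mul]

lemma mem_lI_of_eps {q : Submodule F L} {u : U F L} (hu : u ∈ Ua q) (h : eps F L u = 0) :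
    u ∈ lI q := by
  simpa using anti_rI (mem_rI_of_eps (anti_Ua hu) (by rwa [eps_anti]))

variable [Module.Finite F L] [Module.Finite F B] [Module.Finite F N]

lemma exists_retr (f : B →ₗ⁅F⁆ L) (hf : Function.Injective f) :
    ∃ p : U F L →ₗ[F] U F B, (∀ b u, p (Umap f b * u) = b * p u) ∧ p 1 = 1 := by
  obtain ⟨m, y, h1, h2⟩ := exists_compl_family (rg f)
  obtain ⟨p, p1, p2, -⟩ := exists_coord f hf y h1 h2
  refine ⟨Finsupp.lapply 0 ∘ₗ p, fun b u => by simp [p1], ?_⟩
  have := p2 0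
  rw [mono_zero] at this
  simp [this]

lemma Umap_inj {f : B →ₗ⁅F⁆ L} (hf : Function.Injective f) : Function.Injective (Umap f) := by
  obtain ⟨p, p1, p2⟩ := exists_retr f hf
  intro a b h
  have := p1 a 1
  rw [h, p1, p2, mul_one, mul_one] at this
  exact this.symm

omit [Module.Finite F L] [Module.Finite F B] in
lemma retr_rI (f : B →ₗ⁅F⁆ L) {p : U F L →ₗ[F] U F B} (p1 : ∀ b u, p (Umap f b * u) = b * p u)
    {a : Submodule F B} {a' : Submodule F L} (h : ∀ x ∈ a', ∃ y ∈ a, f y = x) {v : U F L}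
    (hv : v ∈ rI a') : p v ∈ rI a :=
  Y_map p (fun x hx u => by
    obtain ⟨y, hy, rfl⟩ := h x hx
    rw [smul_eq_mul, ← Umap_ι, p1]; exact mem_rI hy _) hv

lemma rI_of_Umap {f : B →ₗ⁅F⁆ L} (hf : Function.Injective f) {a : Submodule F B}
    {a' : Submodule F L} (h : ∀ x ∈ a', ∃ y ∈ a, f y = x) {b : U F B} (hb : Umap f b ∈ rI a') :
    b ∈ rI a := by
  obtain ⟨p, p1, p2⟩ := exists_retr f hf
  have := retr_rI f p1 h hb
  rwa [← mul_one (Umap f b), p1, p2, mul_one] at this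

lemma lI_of_Umap {f : B →ₗ⁅F⁆ L} (hf : Function.Injective f) {a : Submodule F B}
    {a' : Submodule F L} (h : ∀ x ∈ a', ∃ y ∈ a, f y = x) {b : U F B} (hb : Umap f b ∈ lI a') :
    b ∈ lI a := by
  have := anti_lI hb
  rw [anti_Umap] at this
  simpa using anti_rI (rI_of_Umap hf h this)

lemma ind_left {f : B →ₗ⁅F⁆ L} (hf : Function.Injective f) {x : L} (hx : x ∉ rg f)
    {a : Submodule F B} {a' : Submodule F L} (h : ∀ x ∈ a', ∃ y ∈ a, f y = x) (s : Finset ℕ)
    (b : ℕ → U F B) (hb : ∑ k ∈ s, Umap f (b k) * ι F x ^ k ∈ rI a') : ∀ k ∈ s, b k ∈ rI a := by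
  obtain ⟨m, y, rfl, h1, h2⟩ := exists_compl_family' (rg f) hx
  obtain ⟨p, p1, p2, -⟩ := exists_coord f hf y h1 h2
  intro k hk
  have := retr_rI f (p := Finsupp.lapply (Pi.single 0 k) ∘ₗ p) (fun b u => by simp [p1]) h hb
  have e : ∀ k, p (ι F (y 0) ^ k) = Finsupp.single (Pi.single 0 k) 1 := fun k => by
    rw [← p2, mono_single_zero]
  simp only [LinearMap.comp_apply, map_sum, p1, e, Finsupp.lapply_apply, Finsupp.smul_apply,
    Finsupp.single_apply, Pi.single_inj, smul_eq_mul, mul_ite, mul_one, mul_zero,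
    Finset.sum_ite_eq', if_pos hk] at this
  exact this

lemma ind_right {f : B →ₗ⁅F⁆ L} (hf : Function.Injective f) {x : L} (hx : x ∉ rg f)
    {a : Submodule F B} {a' : Submodule F L} (h : ∀ x ∈ a', ∃ y ∈ a, f y = x) (s : Finset ℕ)
    (b : ℕ → U F B) (hb : ∑ k ∈ s, ι F x ^ k * Umap f (b k) ∈ lI a') : ∀ k ∈ s, b k ∈ lI a := by
  have := anti_lI hb
  simp only [map_sum, anti_mul, anti_pow, anti_ι, anti_Umap, ← map_neg] at this
  intro k hk
  simpa using anti_rI (ind_left hf (x := -x) (by simpa only [neg_mem_iff] using hx) h s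
    (fun k => anti (b k)) this k hk)

omit [Module.Finite F L] in
lemma span_left_top {f : B →ₗ⁅F⁆ L} (hf : Function.Injective f) {x : L} (hx : x ∉ rg f)
    (htop : rg f ⊔ (F ∙ x) = ⊤) (u : U F L) :
    ∃ (n : ℕ) (b : ℕ → U F B), u = ∑ k ∈ Finset.range n, Umap f (b k) * ι F x ^ k := by
  obtain ⟨p, -, -, p3⟩ := exists_coord f hf (fun _ : Fin 1 => x) (fun g hg => by
    simp only [Finset.univ_unique, Fin.default_eq_zero, Finset.sum_singleton] at hg
    have : g 0 = 0 := by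
      by_contra hc
      exact hx ((Submodule.smul_mem_iff _ hc).mp hg)
    funext i
    rw [Subsingleton.elim i 0, this]; rfl) (by simpa using htop)
  let e : (Fin 1 → ℕ) ≃ ℕ := Equiv.funUnique _ _
  let g := Finsupp.equivMapDomain e (p u)
  refine ⟨g.support.sup id + 1, g, ?_⟩
  rw [← p3 u, ← Finsupp.sum_of_support_subset g (s := Finset.range (g.support.sup id + 1))
    (fun k hk => Finset.mem_range.mpr (Nat.lt_succ_of_le (Finset.le_sup (f := id) hk)))
    (fun k c => Umap f c * ι F x ^ k) (by simp), Finsupp.sum_equivMapDomain]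
  refine Finsupp.sum_congr fun a _ => ?_
  simp [mono, e]

lemma span_left {q : Submodule F L} (hq : Sub q) {x : L} (hx : x ∉ q) (hs : Sub (q ⊔ F ∙ x))
    {u : U F L} (hu : u ∈ Ua (q ⊔ F ∙ x)) : ∃ (n : ℕ) (b : ℕ → U F hq.toLie),
      u = ∑ k ∈ Finset.range n, Umap hq.toLie.incl (b k) * ι F x ^ k := by
  rw [← hs.rg_incl] at hu
  obtain ⟨u, rfl⟩ := mem_Ua_rg hu
  let f : hq.toLie →ₗ⁅F⁆ hs.toLie := cod hq.toLie.incl hs.toLie fun y => Submodule.mem_sup_left y.2
  obtain ⟨n, b, rfl⟩ := span_left_top (f := f) 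
    (fun a b h => Subtype.ext (congrArg (Subtype.val : hs.toLie → L) h))
    (x := ⟨x, mem_sup_span_self q x⟩) (by
      rintro ⟨y, hy⟩
      have : (y : L) = x := congrArg Subtype.val hy
      exact hx (this ▸ y.2)) (by
      rw [eq_top_iff]
      rintro ⟨y, hy⟩ -
      obtain ⟨y, hy', t, rfl⟩ := mem_sup_span.mp hy
      exact mem_sup_span.mpr ⟨f ⟨y, hy'⟩, ⟨_, rfl⟩, t, rfl⟩) u
  refine ⟨n, b, ?_⟩
  simp only [map_sum, map_mul, map_pow, Umap_Umap, Umap_ι]
  rfl

lemma span_right {q : Submodule F L} (hq : Sub q) {x : L} (hx : x ∉ q) (hs : Sub (q ⊔ F ∙ x))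
    {u : U F L} (hu : u ∈ Ua (q ⊔ F ∙ x)) : ∃ (n : ℕ) (b : ℕ → U F hq.toLie),
      u = ∑ k ∈ Finset.range n, ι F x ^ k * Umap hq.toLie.incl (b k) := by
  obtain ⟨n, b, h⟩ := span_left hq hx hs (anti_Ua hu)
  refine ⟨n, fun k => (-1 : F) ^ k • anti (b k), ?_⟩
  rw [← anti_anti u, h]
  simp only [map_sum, anti_mul, anti_pow, anti_ι, anti_Umap, map_smul]
  refine Finset.sum_congr rfl fun k _ => ?_
  rw [← neg_one_smul F (ι F x), smul_pow, smul_mul_assoc, mul_smul_comm]

lemma exists_proj (f : B →ₗ⁅F⁆ L) (hf : Function.Injective f) {n : Submodule F L} (hn : Sub n)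
    (hc : IsCompl (rg f) n) : ∃ p : U F L →ₗ[F] U F B, (∀ b u, p (Umap f b * u) = b * p u) ∧
      p 1 = 1 ∧ (∀ u ∈ lI n, p u = 0) ∧ ∀ u, u - Umap f (p u) ∈ lI n := by
  let q := Module.finBasis F hn.toLie
  obtain ⟨p, p1, p2, p3⟩ := exists_coord f hf (fun i => (q i : L)) (fun g hg => by
    have : ∑ i, g i • q i = 0 := by
      have h1 : ((∑ i, g i • q i : hn.toLie) : L) ∈ rg f := by
        rw [← LieSubalgebra.coe_incl, map_sum]; simpa using hg
      exact Subtype.ext (Submodule.disjoint_def.mp hc.disjoint _ h1 (∑ i, g i • q i).2)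
    exact funext (Fintype.linearIndependent_iff.mp q.linearIndependent g this)) (by
    have : Submodule.span F (Set.range fun i => (q i : L)) = n := by
      conv_rhs => rw [← hn.rg_incl, rg, LinearMap.range_eq_map, ← q.span_eq, Submodule.map_span,
        ← Set.range_comp]
      rfl
    rw [this, hc.sup_eq_top])
  have hm : ∀ a, mono (fun i => ι F (q i : L)) a = Umap hn.toLie.incl (pbw q a) := fun a => by
    simp [pbw_apply, map_mono]
  have he : ∀ a, eps F _ (pbw q a) = if a = 0 then 1 else 0 := by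
    intro a
    rw [pbw_apply, map_mono]
    split_ifs with h
    · simp [h]
    · obtain ⟨i, hi⟩ := Function.ne_iff.mp h
      simp only [mono, eps_ι]
      exact List.prod_eq_zero (List.mem_ofFn.mpr ⟨i, zero_pow hi⟩)
  have key : ∀ v, p (Umap hn.toLie.incl v) 0 = algebraMap F _ (eps F _ v) := by
    have : Finsupp.lapply 0 ∘ₗ p ∘ₗ (Umap hn.toLie.incl).toLinearMap =
        Algebra.linearMap F _ ∘ₗ (eps F _).toLinearMap := (pbw q).ext fun a => by
      simp only [LinearMap.comp_apply, AlgHom.toLinearMap_apply, ← hm, p2, he,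
        Finsupp.lapply_apply, Finsupp.single_apply, Algebra.linearMap_apply]
      split_ifs <;> simp
    exact LinearMap.congr_fun this
  refine ⟨Finsupp.lapply 0 ∘ₗ p, fun b u => by simp [p1], ?_, fun u hu => ?_, fun u => ?_⟩
  · simpa using key 1
  · refine lI_ind (P := fun u => (Finsupp.lapply 0 ∘ₗ p) u = (0 : U F B)) (by simp)
      (fun u v hu hv => by rw [map_add, hu, hv, add_zero]) (fun x hx u => ?_) hu
    rw [← p3 u, Finsupp.sum, Finset.sum_mul, map_sum]
    refine Finset.sum_eq_zero fun a _ => ?_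
    have : ι F x = Umap hn.toLie.incl (ι F ⟨x, hx⟩) := by simp
    rw [mul_assoc, hm, this, ← map_mul, LinearMap.comp_apply, p1,
      Finsupp.lapply_apply, Finsupp.smul_apply, key]
    simp
  · conv => enter [2, 1]; rw [← p3 u]
    rw [Finsupp.sum_of_support_subset _ (s := insert 0 (p u).support) (Finset.subset_insert _ _) _
      (by simp), ← Finset.add_sum_erase _ _ (Finset.mem_insert_self 0 _)]
    simp only [mono_zero, mul_one, LinearMap.comp_apply, Finsupp.lapply_apply, add_sub_cancel_left]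
    refine Submodule.sum_mem _ fun a ha => lI_mul _ ?_
    rw [hm]
    refine mem_lI_of_eps (Umap_mem_Ua _ (fun b => b.2) _) ?_
    rw [eps_Umap, he, if_neg (Finset.ne_of_mem_erase ha)]

lemma eq_zero_of_compl {q n : Submodule F L} (hq : Sub q) (hn : Sub n) (hc : IsCompl q n)
    {u : U F L} (hu : u ∈ Ua q) (hu' : u ∈ lI n) : u = 0 := by
  obtain ⟨p, p1, p2, p3, -⟩ := exists_proj hq.toLie.incl hq.incl_inj hn (by rwa [hq.rg_incl])
  rw [← hq.rg_incl] at hu
  obtain ⟨b, rfl⟩ := mem_Ua_rg hu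
  have := p3 _ hu'
  rw [← mul_one (Umap _ b), p1, p2, mul_one] at this
  rw [this, map_zero]

lemma lin_mem [CharZero F] {q : Submodule F L} (hq : Sub q) {u : U F L} (hu : u ∈ Ua q) :
    lin u ∈ q := by
  rw [← hq.rg_incl] at hu
  obtain ⟨b, rfl⟩ := mem_Ua_rg hu
  rw [lin_Umap]
  exact (lin b).2

lemma lin_mem_of_rI [CharZero F] {m q : Submodule F L} (hq : Sub q) (hmq : m ≤ q)
    (hm : ∀ x ∈ q, Nrm x m) {u : U F L} (hu : u ∈ Ua q) (hu' : u ∈ rI m) : lin u ∈ m := by
  rw [← hq.rg_incl] at hu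
  obtain ⟨b, rfl⟩ := mem_Ua_rg hu
  let I : LieIdeal F hq.toLie := mkIdeal (m.comap (hq.toLie.incl : hq.toLie →ₗ[F] L))
    fun x y hy => hm x x.2 y hy
  have h1 : b ∈ rI I.toSubmodule :=
    rI_of_Umap hq.incl_inj (fun x hx => ⟨⟨x, hmq hx⟩, hx, rfl⟩) hu'
  have h2 := Umap_rI_zero (qmk I) (fun x hx => (qmk_eq_zero I).mpr hx) h1
  have h3 := lin_Umap (qmk I) b
  rw [h2, map_zero, eq_comm, qmk_eq_zero] at h3
  rw [lin_Umap]
  exact h3

end

end Pool.Agent.P.MP_37e2d5_al
end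

-- part Pool.Agent.P.MP_37e2d5_al.Pure
section

/-! Regular modules; purity; the cone lemma. -/

namespace Pool.Agent.P.MP_37e2d5_al

open UniversalEnvelopingAlgebra Module

attribute [local instance 100] LieRing.ofAssociativeRing
attribute [-simp] UniversalEnvelopingAlgebra.ι_apply

noncomputable section

variable {F : Type*} [Field F] {L B : Type*} [LieRing L] [LieAlgebra F L]
  [LieRing B] [LieAlgebra F B] {Λ Λ' : Type*} [Ring Λ] [Algebra F Λ] [Ring Λ'] [Algebra F Λ']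

/-- regularity up to dimension `k` -/
def Reg (κ : B →ₗ⁅F⁆ Λ) (s : Submodule F B) (k : ℕ) (M : Type*) [AddCommGroup M] [Module Λ M]
    [Module F M] : Prop :=
  ∀ a ≤ s, Sub a → finrank F a < k → ∀ x ∈ s, x ∉ a → Nrm x a →
    ∀ m : M, κ x • m ∈ Y κ a M → m ∈ Y κ a M

/-- every nonzero subalgebra has a normalised hyperplane -/
def NoPerf (s : Submodule F B) : Prop :=
  ∀ a ≤ s, Sub a → a ≠ ⊥ → ∃ a' x, Sub a' ∧ x ∉ a' ∧ Nrm x a' ∧ a = a' ⊔ F ∙ x

lemma exists_hyper {a d : Submodule F B} (hd : ¬ a ≤ d) (h : ∀ x ∈ a, ∀ y ∈ a, ⁅x, y⁆ ∈ d)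
    (ha : Sub a) : ∃ a' x, Sub a' ∧ x ∉ a' ∧ Nrm x a' ∧ a = a' ⊔ F ∙ x := by
  obtain ⟨x, hx, hxd⟩ := SetLike.not_le_iff_exists.mp hd
  obtain ⟨φ, h1, h2⟩ := Submodule.exists_le_ker_of_notMem hxd
  refine ⟨a ⊓ LinearMap.ker φ, x, fun u hu v hv => ⟨ha _ hu.1 _ hv.1, h2 (h _ hu.1 _ hv.1)⟩,
    fun hc => h1 hc.2, fun v hv => ⟨ha _ hx _ hv.1, h2 (h _ hx _ hv.1)⟩, le_antisymm ?_ ?_⟩
  · intro u hu
    refine mem_sup_span.mpr ⟨u - (φ u / φ x) • x, ⟨sub_mem hu (a.smul_mem _ hx), ?_⟩,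
      φ u / φ x, by simp⟩
    simp [h1]
  · exact sup_le inf_le_left ((Submodule.span_singleton_le_iff_mem _ _).mpr hx)

lemma noPerf_of_filt {s : Submodule F B} (d : ℕ → Submodule F B) (h0 : s ≤ d 0)
    (hd : ∀ k, ∀ x ∈ d k, ∀ y ∈ d k, x ∈ s → y ∈ s → ⁅x, y⁆ ∈ d (k + 1)) {n : ℕ}
    (hn : d n = ⊥) : NoPerf s := by
  classical
  intro a has ha hne
  have hex : ∃ k, ¬ a ≤ d k := ⟨n, by rwa [hn, le_bot_iff]⟩
  have hk := Nat.find_spec hex
  obtain ⟨k, hk'⟩ : ∃ k, Nat.find hex = k + 1 := by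
    refine Nat.exists_eq_succ_of_ne_zero fun hc => ?_
    rw [hc] at hk
    exact hk (has.trans h0)
  have hk2 : a ≤ d k := not_not.mp (Nat.find_min hex (by omega))
  rw [hk'] at hk
  exact exists_hyper hk (fun x hx y hy => hd k _ (hk2 hx) _ (hk2 hy) (has hx) (has hy)) ha

variable {κ : B →ₗ⁅F⁆ Λ} {κ' : B →ₗ⁅F⁆ Λ'} {s : Submodule F B} {k : ℕ}
  {M : Type*} [AddCommGroup M] [Module Λ M] [Module F M] [IsScalarTower F Λ M]
  {M' : Type*} [AddCommGroup M'] [Module Λ' M'] [Module F M'] [IsScalarTower F Λ' M']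

lemma Reg.of_retract (h : Reg κ' s k M') {I : Type*} (p : I → M →+ M') (q : I → M' →+ M)
    (hp : ∀ i x m, p i (κ x • m) = κ' x • p i m) (hq : ∀ i x m, q i (κ' x • m) = κ x • q i m)
    (hsum : ∀ m, ∃ t : Finset I, ∑ i ∈ t, q i (p i m) = m) : Reg κ s k M := by
  intro a has ha hk x hx hxa hn m hm
  obtain ⟨t, ht⟩ := hsum m
  rw [← ht]
  refine Submodule.sum_mem _ fun i _ => ?_
  have h1 : p i (κ x • m) ∈ Y κ' a M' :=
    Y_map (p i) (fun y hy n => by rw [hp]; exact mem_Y hy _) hm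
  rw [hp] at h1
  exact Y_map (q i) (fun y hy n => by rw [hq]; exact mem_Y hy _) (h a has ha hk x hx hxa hn _ h1)

lemma Reg.finsupp (h : Reg κ s k M) (J : Type*) : Reg κ s k (J →₀ M) :=
  h.of_retract (fun j => Finsupp.applyAddHom j) (fun j => Finsupp.singleAddHom j)
    (by simp) (by simp) (fun m => ⟨m.support, m.sum_single⟩)

lemma Reg.pi (h : Reg κ s k M) (J : Type*) [Fintype J] [DecidableEq J] : Reg κ s k (J → M) :=
  h.of_retract (fun j => Pi.evalAddMonoidHom (fun _ => M) j)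
    (fun j => AddMonoidHom.single (fun _ => M) j)
    (by simp) (by simp [Pi.single_smul']) (fun m => ⟨Finset.univ, Finset.univ_sum_single m⟩)

lemma reg_U [Module.Finite F B] (s : Submodule F B) (k : ℕ) : Reg (ι F) s k (U F B) := by
  intro a _ ha _ x _ hxa hn u hu
  obtain ⟨m, y, rfl, h1, h2⟩ := exists_compl_family' (rg ha.toLie.incl) (x := x)
    (by rwa [ha.rg_incl])
  obtain ⟨p, p1, p2, p3⟩ := exists_coord _ ha.incl_inj y h1 h2
  let η : U F B →ₗ[F] ((Fin (m + 1) → ℕ) →₀ F) :=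
    Finsupp.mapRange.linearMap (eps F ha.toLie).toLinearMap ∘ₗ p
  have η1 : ∀ v ∈ rI a, η v = 0 := fun v hv => Y_map η (P := ⊥) (fun z hz w => by
    have : ι F z = Umap ha.toLie.incl (ι F ⟨z, hz⟩) := by simp
    ext c
    rw [this, smul_eq_mul]
    simp [-Umap_ι, η, p1]) hv
  have η2 : ∀ c, η (mono (fun i => ι F (y i)) c) = Finsupp.single c 1 := fun c => by
    simp [η, p2]
  have η3 : ∀ v, η (ι F (y 0) * v) = Finsupp.mapDomain (· + Pi.single 0 1) (η v) := by
    intro v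
    rw [← p3 v, Finsupp.sum, Finset.mul_sum, map_sum, map_sum, Finsupp.mapDomain_finsetSum]
    refine Finset.sum_congr rfl fun c _ => ?_
    have h := sub_eps_mem_rI (Umap_mem_Ua ha.toLie.incl (q := a) (fun b => b.2) (p v c))
    set w := Umap ha.toLie.incl (p v c)
    set t := eps F B w
    have e : w = (w - algebraMap F _ t) + algebraMap F _ t := by simp
    have h' := Y_mul h (mono (fun i => ι F (y i)) c)
    rw [e, add_mul, mul_add, map_add, map_add, η1 _ h', η1 (_ * _) (hn.smul_mem_Y h'), zero_add,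
      zero_add, ← Algebra.smul_def, mul_smul_comm, map_smul, map_smul,
      ← mono_add_single (fun i => ι F (y i)) c 0 (by simp), η2, η2]
    simp
  have h0 : η u = 0 := by
    apply Finsupp.mapDomain_injective (f := (· + Pi.single 0 1)) (add_left_injective _)
    rw [← η3, Finsupp.mapDomain_zero]
    exact η1 _ hu
  rw [← p3 u]
  refine Submodule.sum_mem _ fun c _ => Y_mul ?_ _
  refine mem_rI_of_eps (Umap_mem_Ua ha.toLie.incl (q := a) (fun b => b.2) _) ?_
  rw [eps_Umap]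
  simpa [η] using DFunLike.congr_fun h0 c

lemma reg_tw [Module.Finite F B] [Module.Finite F L] (f : B →ₗ⁅F⁆ L) (hf : Function.Injective f)
    (χ : Ch F B) (s : Submodule F B) (k : ℕ) : Reg (tw ((ι F).comp f) χ) s k (U F L) := by
  obtain ⟨m, y, h1, h2⟩ := exists_compl_family (rg f)
  obtain ⟨p, p1, p2, p3⟩ := exists_coord f hf y h1 h2
  have e : ∀ x, tw ((ι F).comp f) χ x = Umap f (tau χ (ι F x)) := fun x => by simp [tw_apply]
  refine (reg_U s k).of_retract
    (fun a => ((tau (-χ)).toLinearMap ∘ₗ Finsupp.lapply a ∘ₗ p).toAddMonoidHom)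
    (fun a => (LinearMap.mulRight F (mono (fun i => ι F (y i)) a) ∘ₗ (Umap f).toLinearMap ∘ₗ
      (tau χ).toLinearMap).toAddMonoidHom) ?_ ?_ (fun u => ⟨(p u).support, ?_⟩)
  · intro a x u
    rw [e]
    simp [-tau_ι, p1, tau_neg_tau]
  · intro a x u
    rw [e]
    simp [-tau_ι, mul_assoc]
  · simpa [tau_tau_neg, Finsupp.sum] using p3 u

variable {P : Type*} [AddCommGroup P] [Module Λ P] [Module F P] [IsScalarTower F Λ P]

omit [IsScalarTower F Λ P] in
lemma Y_lift (π : P →ₗ[Λ] M) (hπ : Function.Surjective π) {a : Submodule F B} {m : M}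
    (hm : m ∈ Y κ a M) : ∃ g ∈ Y κ a P, π g = m := by
  refine Y_ind (P := fun m => ∃ g ∈ Y κ a P, π g = m) ⟨0, zero_mem _, map_zero _⟩ ?_ ?_ hm
  · rintro _ _ ⟨g, hg, rfl⟩ ⟨g', hg', rfl⟩
    exact ⟨g + g', add_mem hg hg', map_add _ _ _⟩
  · intro x hx n
    obtain ⟨g, rfl⟩ := hπ n
    exact ⟨κ x • g, mem_Y hx _, map_smul _ _ _⟩

lemma pure [Module.Finite F B] (hs : NoPerf s) (π : P →ₗ[Λ] M) (hπ : Function.Surjective π)
    (hM : Reg κ s k M) {a : Submodule F B} (has : a ≤ s) (ha : Sub a) (hk : finrank F a ≤ k)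
    (w : LinearMap.ker π) (hw : (w : P) ∈ Y κ a P) : w ∈ Y κ a (LinearMap.ker π) := by
  induction hd : finrank F a using Nat.strong_induction_on generalizing a w with
  | _ d ih =>
    by_cases h0 : a = ⊥
    · subst h0
      rw [show w = 0 from Subtype.ext (Y_bot hw)]
      exact zero_mem _
    obtain ⟨a', x, ha', hx, hn, rfl⟩ := hs a has ha h0
    rw [Submodule.finrank_sup_span_singleton hx] at hd hk
    obtain ⟨f, hf⟩ := mem_Y_sup hw
    have h1 : κ x • π f ∈ Y κ a' M := by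
      have := neg_mem (Y_lmap π hf)
      simpa [w.2.out] using this
    obtain ⟨g, hg, hg'⟩ := Y_lift π hπ (hM a' (le_sup_left.trans has) ha' (by omega) x
      (has (mem_sup_span_self _ _)) hx hn _ h1)
    let w1 : LinearMap.ker π := ⟨f - g, by simp [hg']⟩
    have h2 := ih _ (by omega) (le_sup_left.trans has) ha' (by omega) (w - κ x • w1) (by
      have := add_mem hf (hn.smul_mem_Y hg)
      convert this using 1
      simp [w1, smul_sub]; abel) rfl
    have := add_mem (Y_mono le_sup_left h2) (mem_Y (κ := κ) (mem_sup_span_self a' x) w1)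
    simpa using this

lemma reg_ker [Module.Finite F B] (hs : NoPerf s) (π : P →ₗ[Λ] M) (hπ : Function.Surjective π)
    (hM : Reg κ s k M) (hP : Reg κ s (k + 1) P) : Reg κ s (k + 1) (LinearMap.ker π) := by
  intro a has ha hk x hx hxa hn m hm
  exact pure hs π hπ hM has ha (by omega) m
    (hP a has ha hk x hx hxa hn _ (Y_lmap (LinearMap.ker π).subtype hm))

/-- acyclicity modulo a subspace -/
def Ac (δ : M →ₗ[Λ] M) (W : Submodule F M) : Prop := ∀ m, δ m ∈ W → ∃ m', m - δ m' ∈ W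

lemma cone {δ : M →ₗ[Λ] M} {a : Submodule F B} {x : B} (hn : Nrm x a)
    (hreg : ∀ m : M, κ x • m ∈ Y κ a M → m ∈ Y κ a M) (h2 : ∀ m, δ (δ m) ∈ Y κ a M)
    (h : Ac δ (Y κ a M)) : Ac δ (Y κ (a ⊔ F ∙ x) M) := by
  intro m hm
  obtain ⟨m1, h1⟩ := mem_Y_sup hm
  have h3 : δ m1 ∈ Y κ a M := by
    apply hreg
    have := sub_mem (h2 m) (Y_lmap δ h1)
    simpa using this
  obtain ⟨m2, h4⟩ := h _ h3
  obtain ⟨m3, h5⟩ := h (m - κ x • m2) (by
    have := add_mem h1 (hn.smul_mem_Y h4)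
    convert this using 1
    simp [smul_sub])
  refine ⟨m3, ?_⟩
  have := add_mem (Y_mono le_sup_left h5) (mem_Y (κ := κ) (mem_sup_span_self a x) m2)
  convert this using 1
  abel

end

end Pool.Agent.P.MP_37e2d5_al
end

-- part Pool.Agent.P.MP_37e2d5_al.NCp
section

/-! Acyclicity for central elements with nonzero linear part (nilpotent case). -/

namespace Pool.Agent.P.MP_37e2d5_al

open UniversalEnvelopingAlgebra Module

attribute [local instance 100] LieRing.ofAssociativeRing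
attribute [-simp] UniversalEnvelopingAlgebra.ι_apply

noncomputable section

variable {F : Type*} [Field F] {L : Type*} [LieRing L] [LieAlgebra F L]

lemma exists_filt_step {V : Type*} [AddCommGroup V] [Module F V] (d : ℕ → Submodule F V)
    {a b : Submodule F V} (h0 : b ≤ d 0) {n : ℕ} (hn : d n = ⊥) (hab : ¬ b ≤ a) :
    ∃ k, ∃ w ∈ b, w ∈ d k ∧ w ∉ a ∧ b ⊓ d (k + 1) ≤ a := by
  classical
  have hex : ∃ k, b ⊓ d k ≤ a := ⟨n, by simp [hn]⟩
  obtain ⟨k, hk'⟩ : ∃ k, Nat.find hex = k + 1 := by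
    refine Nat.exists_eq_succ_of_ne_zero fun hc => ?_
    have hk := Nat.find_spec hex
    rw [hc, inf_eq_left.mpr h0] at hk
    exact hab hk
  obtain ⟨w, hw, hwa⟩ := SetLike.not_le_iff_exists.mp (Nat.find_min hex (m := k) (by omega))
  exact ⟨k, w, hw.1, hw.2, hwa, hk' ▸ Nat.find_spec hex⟩

lemma exists_nz [LieRing.IsNilpotent L] {a b : Submodule F L} (hab : ¬ b ≤ a) :
    ∃ w ∈ b, w ∉ a ∧ ∀ x : L, ⁅x, w⁆ ∈ b → ⁅x, w⁆ ∈ a := by
  obtain ⟨n, hn⟩ := LieModule.IsNilpotent.nilpotent F L L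
  obtain ⟨k, w, hw, hwk, hwa, h⟩ := exists_filt_step
    (fun k => (LieModule.lowerCentralSeries F L L k).toSubmodule) (a := a) (b := b) (by simp)
    (n := n) (by simp [hn]) hab
  refine ⟨w, hw, hwa, fun x hx => h ⟨hx, ?_⟩⟩
  simp only [LieModule.lowerCentralSeries_succ]
  exact LieSubmodule.lie_mem_lie (LieSubmodule.mem_top x) hwk

lemma comm_mem_rI {m q : Submodule F L} (hm : ∀ x ∈ q, Nrm x m) {y : L}
    (hy : ∀ x ∈ q, ⁅y, x⁆ ∈ m) {u : U F L} (hu : u ∈ Ua q) : ι F y * u - u * ι F y ∈ rI m := by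
  refine Ua_induction (P := fun u => ι F y * u - u * ι F y ∈ rI m) (by simp) ?_ ?_ ?_ hu
  · intro u v hu hv
    convert add_mem hu hv using 1
    noncomm_ring
  · intro c u hu
    convert Submodule.smul_mem _ c hu using 1
    simp [smul_sub]
  · intro x hx u hu
    have := add_mem ((hm x hx).smul_mem_Y hu) (mem_rI (hy x hx) u)
    convert this using 1
    rw [← mul_assoc, ι_comm y x, smul_eq_mul]
    noncomm_ring

lemma comm_pow_mem_rI {m : Submodule F L} {x y w : L} (hx : Nrm x m) (h1 : ⁅y, x⁆ - w ∈ m)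
    (h2 : ⁅x, w⁆ ∈ m) (k : ℕ) : ι F y * ι F x ^ (k + 1) - ι F x ^ (k + 1) * ι F y -
      ((k + 1 : ℕ) : F) • (ι F w * ι F x ^ k) ∈ rI m := by
  induction k with
  | zero =>
    have := mem_Y' (κ := ι F) h1
    convert this using 1
    simp [ι_comm y x]
  | succ k ih =>
    have := add_mem (add_mem (hx.smul_mem_Y ih) (mem_rI h1 (ι F x ^ (k + 1))))
      (Submodule.smul_mem _ ((k + 1 : ℕ) : F) (mem_rI h2 (ι F x ^ k)))
    convert this using 1
    have e1 : ι F ⁅y, x⁆ = ι F y * ι F x - ι F x * ι F y := by rw [ι_comm y x]; abel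
    have e2 : ι F ⁅x, w⁆ = ι F x * ι F w - ι F w * ι F x := by rw [ι_comm x w]; abel
    rw [map_sub, e1, e2, Nat.cast_succ (k + 1), add_smul, one_smul]
    simp only [pow_succ', smul_eq_mul, mul_sub, sub_mul, mul_assoc, smul_sub, mul_smul_comm]
    abel

variable [CharZero F] [Module.Finite F L]

omit [CharZero F] [Module.Finite F L] in
lemma poly_mod {m : Submodule F L} {w : L} (hw : Nrm w m) {u : U F L} (hu : u ∈ Ua (m ⊔ F ∙ w)) :
    ∃ (c0 c1 : F) (t : U F L), t ∈ Submodule.span F (Set.range fun k : ℕ => ι F w ^ (k + 2)) ∧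
      u - (c0 • 1 + c1 • ι F w + t) ∈ rI m := by
  refine Ua_induction (P := fun u => ∃ (c0 c1 : F) (t : U F L),
    t ∈ Submodule.span F (Set.range fun k : ℕ => ι F w ^ (k + 2)) ∧
      u - (c0 • 1 + c1 • ι F w + t) ∈ rI m) ⟨1, 0, 0, zero_mem _, by simp⟩ ?_ ?_ ?_ hu
  · rintro u v ⟨c0, c1, t, ht, h⟩ ⟨c0', c1', t', ht', h'⟩
    refine ⟨c0 + c0', c1 + c1', t + t', add_mem ht ht', ?_⟩
    convert add_mem h h' using 1
    module
  · rintro c u ⟨c0, c1, t, ht, h⟩
    refine ⟨c * c0, c * c1, c • t, Submodule.smul_mem _ _ ht, ?_⟩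
    convert Submodule.smul_mem _ c h using 1
    module
  · rintro y' hy' u ⟨c0, c1, t, ht, h⟩
    obtain ⟨y, hy, s, rfl⟩ := mem_sup_span.mp hy'
    refine ⟨0, s * c0, s • (c1 • ι F w ^ (0 + 2) + ι F w * t), Submodule.smul_mem _ _ (add_mem
      (Submodule.smul_mem _ _ (Submodule.subset_span ⟨0, rfl⟩)) ?_), ?_⟩
    · refine (Submodule.span_le (p := Submodule.comap (LinearMap.mulLeft F (ι F w))
        (Submodule.span F (Set.range fun k : ℕ => ι F w ^ (k + 2))))).mpr ?_ ht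
      rintro _ ⟨k, rfl⟩
      exact Submodule.subset_span ⟨k + 1, by simp [pow_succ']⟩
    · convert add_mem (mem_rI hy u) (Submodule.smul_mem _ s (hw.smul_mem_Y h)) using 1
      simp only [map_add, map_smul, add_mul, smul_mul_assoc, smul_eq_mul, mul_sub, mul_add,
        mul_smul_comm, mul_one, zero_add, pow_two]
      module

theorem ncp [LieRing.IsNilpotent L] {M : Type*} [AddCommGroup M] [Module (U F L) M] [Module F M]
    [IsScalarTower F (U F L) M] (hreg : ∀ k, Reg (ι F : L →ₗ⁅F⁆ U F L) ⊤ k M) (δ : M →ₗ[U F L] M) (n : ℕ) :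
    ∀ (m q : Submodule F L) (u : U F L), finrank F q = finrank F m + n → Sub q → m ≤ q →
      (∀ x ∈ q, Nrm x m) → u ∈ Ua q → eps F L u = 0 →
      (∀ x ∈ q, ι F x * u - u * ι F x ∈ rI m) → lin u ∉ m →
      (∀ v, δ (δ v) - u • v ∈ Y (ι F) m M) → Ac δ (Y (ι F) q M) := by
  induction n using Nat.strong_induction_on with
  | _ n ih =>
  intro m q u hn hq hmq hm hu he hc hl hδ
  set w := lin u with hw
  have hwq : w ∈ q := lin_mem hq hu
  have hsm : Sub m := fun x hx y hy => hm x (hmq hx) y hy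
  have hwc : ∀ x ∈ q, ⁅x, w⁆ ∈ m := fun x hx => by
    rw [hw, ← lin_ad]
    exact lin_mem_of_rI hq hmq hm (sub_mem (mul_mem (ι_mem_Ua hx) hu) (mul_mem hu (ι_mem_Ua hx)))
      (hc x hx)
  have hwm : Nrm w m := hm w hwq
  have hreg' : ∀ a, Sub a → ∀ x, x ∉ a → Nrm x a → ∀ v : M, ι F x • v ∈ Y (ι F) a M →
      v ∈ Y (ι F) a M := fun a ha x hx hxa => hreg _ a le_top ha (Nat.lt_succ_self _) x trivial hx hxa
  by_cases ha : ∃ w' ∈ q, (∀ x ∈ q, ⁅x, w'⁆ ∈ m) ∧ w' ∉ m ⊔ F ∙ w
  · obtain ⟨w', hw'q, hw'c, hw'⟩ := ha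
    have hw'm : w' ∉ m := fun h => hw' (Submodule.mem_sup_left h)
    have hle : m ⊔ (F ∙ w') ≤ q := sup_le hmq ((Submodule.span_singleton_le_iff_mem _ _).mpr hw'q)
    have h1 := Submodule.finrank_sup_span_singleton hw'm
    have h2 := Submodule.finrank_mono hle
    refine ih (n - 1) (by omega) (m ⊔ F ∙ w') q u (by omega) hq hle ?_ hu he
      (fun x hx => Y_mono le_sup_left (hc x hx)) ?_ (fun v => Y_mono le_sup_left (hδ v))
    · intro x hx y' hy'
      obtain ⟨y, hy, t, rfl⟩ := mem_sup_span.mp hy'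
      rw [lie_add, lie_smul]
      exact Submodule.mem_sup_left (add_mem (hm x hx y hy) (m.smul_mem _ (hw'c x hx)))
    · intro h
      obtain ⟨y, hy, t, ht⟩ := mem_sup_span.mp h
      by_cases h0 : t = 0
      · apply hl
        rw [← hw] at ht
        simpa [ht, h0] using hy
      · apply hw'
        refine mem_sup_span.mpr ⟨-t⁻¹ • y, m.smul_mem _ hy, t⁻¹, ?_⟩
        rw [hw, ht]
        simp [smul_smul, h0]
  by_cases hb : q ≤ m ⊔ F ∙ w
  · obtain rfl : q = m ⊔ F ∙ w :=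
      le_antisymm hb (sup_le hmq ((Submodule.span_singleton_le_iff_mem _ _).mpr hwq))
    obtain ⟨c0, c1, t, ht, h⟩ := poly_mod hwm hu
    have t1 : eps F L t = 0 ∧ lin t = 0 ∧ t ∈ Ua (m ⊔ F ∙ w) ∧ ∃ a, t = ι F w * (ι F w * a) := by
      refine Submodule.span_induction (p := fun t _ => eps F L t = 0 ∧ lin t = 0 ∧
        t ∈ Ua (m ⊔ F ∙ w) ∧ ∃ a, t = ι F w * (ι F w * a)) ?_ ⟨by simp, by simp, zero_mem _,
          0, by simp⟩ ?_ ?_ ht
      · rintro _ ⟨k, rfl⟩
        exact ⟨by simp, by simp [lin_pow], pow_mem (ι_mem_Ua hwq) _, ι F w ^ k,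
          by simp [pow_succ']⟩
      · rintro a b _ _ ⟨a1, a2, a3, a4, rfl⟩ ⟨b1, b2, b3, b4, rfl⟩
        exact ⟨by rw [map_add, a1, b1, add_zero], by rw [map_add, a2, b2, add_zero],
          add_mem a3 b3, a4 + b4, by simp [mul_add]⟩
      · rintro c a _ ⟨a1, a2, a3, a4, rfl⟩
        exact ⟨by rw [map_smul, a1, smul_zero], by rw [map_smul, a2, smul_zero],
          Subalgebra.smul_mem _ a3 _, c • a4, by simp⟩
    obtain ⟨t1, t2, t3, a, ta⟩ := t1
    have hc0 : c0 = 0 := by simpa [he, t1] using eps_rI h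
    have hc1 : c1 = 1 := by
      have := lin_mem_of_rI hq hmq hm (sub_mem hu (add_mem (add_mem
        (Subalgebra.smul_mem _ (one_mem _) c0) (Subalgebra.smul_mem _ (ι_mem_Ua hwq) c1)) t3)) h
      simp only [map_sub, map_add, map_smul, lin_one, lin_ι, t2, smul_zero, zero_add, add_zero,
        ← hw] at this
      by_contra hne
      apply hl
      rw [← m.smul_mem_iff (sub_ne_zero.mpr (Ne.symm hne))]
      simpa [sub_smul] using this
    rw [hc0, hc1, ta, zero_smul, zero_add, one_smul] at h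
    intro v hv
    obtain ⟨v1, h1⟩ := mem_Y_sup hv
    have h2 := hreg' m hsm w hl hwm (v + ι F w • a • v - δ v1) (by
      have := sub_mem (sub_mem (Y_lmap δ h1) (hδ v)) (Y_smul h v)
      convert this using 1
      simp only [smul_sub, smul_add, map_sub, map_smul, sub_smul, add_smul, mul_smul]
      abel)
    refine ⟨v1, ?_⟩
    have := sub_mem (Y_mono le_sup_left h2) (mem_Y (κ := ι F) (mem_sup_span_self m w) (a • v))
    convert this using 1
    abel
  obtain ⟨y, hyq, hym, hy⟩ := exists_nz hb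
  obtain ⟨x0, hx0, hx0'⟩ : ∃ x ∈ q, ⁅x, y⁆ ∉ m := by
    by_contra hcon
    push Not at hcon
    exact ha ⟨y, hyq, hcon, hym⟩
  have hy' : ∀ z ∈ q, ∃ t : F, ⁅y, z⁆ - t • w ∈ m := by
    intro z hz
    obtain ⟨y', hy', t, ht⟩ := mem_sup_span.mp (neg_mem (hy z (hq _ hz _ hyq)))
    rw [lie_skew] at ht
    exact ⟨t, by simpa [ht] using hy'⟩
  obtain ⟨x, hxq, hx⟩ : ∃ x ∈ q, ⁅y, x⁆ - w ∈ m := by
    obtain ⟨t, ht⟩ := hy' x0 hx0
    have h0 : t ≠ 0 := by
      rintro rfl
      apply hx0'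
      rw [← lie_skew]
      exact neg_mem (by simpa using ht)
    refine ⟨t⁻¹ • x0, q.smul_mem _ hx0, ?_⟩
    have := m.smul_mem t⁻¹ ht
    simpa [smul_sub, smul_smul, h0] using this
  let q' : Submodule F L := q ⊓ m.comap (LieAlgebra.ad F L y)
  have mem_q' : ∀ z, z ∈ q' ↔ z ∈ q ∧ ⁅y, z⁆ ∈ m := fun z => Iff.rfl
  have hbr : ∀ a ∈ q, ∀ b ∈ q, ⁅a, b⁆ ∈ q' := by
    intro a ha b hb
    refine (mem_q' _).mpr ⟨hq _ ha _ hb, ?_⟩
    obtain ⟨s, hs⟩ := hy' a ha
    obtain ⟨t, ht⟩ := hy' b hb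
    have := add_mem (sub_mem (neg_mem (hm b hb _ hs)) (m.smul_mem s (hwc b hb)))
      (add_mem (hm a ha _ ht) (m.smul_mem t (hwc a ha)))
    convert this using 1
    rw [leibniz_lie, ← lie_skew ⁅y, a⁆ b]
    simp
  have hq' : Sub q' := fun a ha b hb => hbr a ha.1 b hb.1
  have hxq' : x ∉ q' := fun h => hl (by simpa using sub_mem ((mem_q' _).mp h).2 hx)
  have hmq' : m ≤ q' := fun z hz => (mem_q' _).mpr ⟨hmq hz, hm y hyq z hz⟩
  have hwq' : w ∈ q' := (mem_q' _).mpr ⟨hwq, hwc y hyq⟩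
  have hm' : ∀ z ∈ q', Nrm z m := fun z hz => hm z hz.1
  have hqe : q = q' ⊔ F ∙ x := by
    refine le_antisymm (fun z hz => ?_)
      (sup_le inf_le_left ((Submodule.span_singleton_le_iff_mem _ _).mpr hxq))
    obtain ⟨t, ht⟩ := hy' z hz
    refine mem_sup_span.mpr ⟨z - t • x, (mem_q' _).mpr ⟨sub_mem hz (q.smul_mem _ hxq), ?_⟩, t,
      by simp⟩
    convert sub_mem ht (m.smul_mem t hx) using 1
    simp [smul_sub]
  have hxn : Nrm x q' := fun z hz => hbr x hxq z hz.1
  have hq'q : q' ≤ q := inf_le_left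
  clear_value q'
  subst hqe
  obtain ⟨N, b, hb⟩ := span_left hq' hxq' hq hu
  obtain ⟨N, rfl⟩ : ∃ N', N = N' + 1 := Nat.exists_eq_succ_of_ne_zero (by
    rintro rfl
    apply hl
    rw [hw, hb]
    simp)
  have hB : ∀ k, Umap hq'.toLie.incl (b k) ∈ Ua q' := fun k => Umap_mem_Ua _ (fun b => b.2) _
  have h1 : ∑ k ∈ Finset.range N, Umap hq'.toLie.incl (((k + 1 : ℕ) : F) •
      (b (k + 1) * ι F (⟨w, hwq'⟩ : hq'.toLie))) * ι F x ^ k ∈ rI m := by
    have h2 := hc y hyq
    rw [hb, Finset.sum_range_succ', pow_zero, mul_one, mul_add, add_mul, add_sub_add_comm,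
      Finset.mul_sum, Finset.sum_mul, ← Finset.sum_sub_distrib] at h2
    have h3 := sub_mem h2 (comm_mem_rI hm' (fun z hz => ((mem_q' z).mp hz).2) (hB 0))
    rw [add_sub_cancel_right] at h3
    have h4 : ∑ k ∈ Finset.range N, ((ι F y * (Umap hq'.toLie.incl (b (k + 1)) * ι F x ^ (k + 1)) -
        Umap hq'.toLie.incl (b (k + 1)) * ι F x ^ (k + 1) * ι F y) - Umap hq'.toLie.incl
          (((k + 1 : ℕ) : F) • (b (k + 1) * ι F (⟨w, hwq'⟩ : hq'.toLie))) * ι F x ^ k) ∈ rI m := by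
      refine Submodule.sum_mem _ fun k _ => ?_
      have := add_mem (Y_mul (comm_mem_rI hm' (fun z hz => ((mem_q' z).mp hz).2) (hB (k + 1)))
        (ι F x ^ (k + 1))) (Ua_mul_rI hm' (hB (k + 1))
          (comm_pow_mem_rI (hm x hxq) hx (hwc x hxq) k))
      convert this using 1
      simp only [map_smul, map_mul, Umap_ι, LieSubalgebra.coe_incl, mul_sub, sub_mul, mul_assoc,
        smul_mul_assoc, mul_smul_comm]
      abel
    rw [Finset.sum_sub_distrib] at h4
    simpa using sub_mem h3 h4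
  have h5 : ∀ k ∈ Finset.range N, Umap hq'.toLie.incl (b (k + 1)) ∈ rI m := by
    intro k hk
    have h2 := ind_left hq'.incl_inj (by rwa [hq'.rg_incl])
      (a := m.comap (hq'.toLie.incl : hq'.toLie →ₗ[F] L)) (fun z hz => ⟨⟨z, hmq' hz⟩, hz, rfl⟩)
      _ _ h1 k hk
    have h3 := Umap_rI hq'.toLie.incl (a' := m) (fun z hz => hz) h2
    rw [map_smul, Submodule.smul_mem_iff _ (Nat.cast_ne_zero.mpr (Nat.succ_ne_zero k))] at h3
    refine reg_U ⊤ _ m le_top hsm (Nat.lt_succ_self _) w trivial hl hwm _ ?_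
    have h4 := comm_mem_rI hm' (y := w) (fun z hz => by
      rw [← lie_skew]; exact neg_mem (hwc z (hq'q hz))) (hB (k + 1))
    simpa using add_mem h4 h3
  have h6 : u - Umap hq'.toLie.incl (b 0) ∈ rI m := by
    rw [hb, Finset.sum_range_succ', pow_zero, mul_one, add_sub_cancel_right]
    exact Submodule.sum_mem _ fun k hk => Y_mul (h5 k hk) _
  have h7 : eps F L (Umap hq'.toLie.incl (b 0)) = 0 := by
    have := eps_rI h6
    rwa [map_sub, he, zero_sub, neg_eq_zero] at this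
  have h8 : ∀ v, δ (δ v) - Umap hq'.toLie.incl (b 0) • v ∈ Y (ι F) m M := fun v => by
    convert add_mem (hδ v) (Y_smul h6 v) using 1
    rw [sub_smul]; abel
  have h9 := Submodule.finrank_sup_span_singleton hxq'
  have h10 := Submodule.finrank_mono hmq'
  refine cone hxn (hreg' q' hq' x hxq' hxn) (fun v => ?_)
    (ih (n - 1) (by omega) m q' _ (by omega) hq' hmq' hm' (hB 0) h7 (fun z hz => ?_) ?_ h8)
  · simpa using add_mem (Y_mono hmq' (h8 v)) (Y_smul (mem_rI_of_eps (hB 0) h7) v)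
  · have := add_mem (sub_mem (hc z (hq'q hz)) ((hm' z hz).smul_mem_Y h6)) (Y_mul h6 (ι F z))
    convert this using 1
    simp only [smul_eq_mul, mul_sub, sub_mul]
    abel
  · intro h
    apply hl
    have := lin_mem_of_rI hq hmq hm (sub_mem hu (Ua_mono hq'q (hB 0))) h6
    simpa using add_mem this h

end

end Pool.Agent.P.MP_37e2d5_al
end

-- part Pool.Agent.P.MP_37e2d5_al.NC
section

/-! Non exact matrix factorisations for central elements with zero linear part. -/

namespace Pool.Agent.P.MP_37e2d5_al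

open UniversalEnvelopingAlgebra Module Matrix

attribute [local instance 100] LieRing.ofAssociativeRing
attribute [-simp] UniversalEnvelopingAlgebra.ι_apply

noncomputable section

variable {F : Type*} [Field F] {L : Type*} [LieRing L] [LieAlgebra F L]

lemma exists_eigen_mod [IsAlgClosed F] {V : Type*} [AddCommGroup V] [Module F V]
    [Module.Finite F V] (g : V →ₗ[F] V) {K I : Submodule F V} (hK : ∀ v ∈ K, g v ∈ K)
    (hI : ∀ v ∈ K, v ∈ I → g v ∈ I) (h : ¬ K ≤ I) : ∃ b : F, ∃ v ∈ K, v ∉ I ∧ g v - b • v ∈ I := by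
  let I' : Submodule F K := I.comap K.subtype
  have : Nontrivial (K ⧸ I') := by
    refine Submodule.Quotient.nontrivial_iff.mpr fun hc => h fun v hv => ?_
    have : (⟨v, hv⟩ : K) ∈ I' := by rw [hc]; trivial
    exact this
  obtain ⟨b, hb⟩ := Module.End.exists_eigenvalue
    (I'.mapQ I' (g.restrict hK) fun v hv => hI v v.2 hv)
  obtain ⟨v, hv⟩ := hb.exists_hasEigenvector
  obtain ⟨v, rfl⟩ := I'.mkQ_surjective v
  refine ⟨b, v, v.2, fun hc => hv.2 ((Submodule.Quotient.mk_eq_zero _).mpr hc), ?_⟩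
  have := hv.apply_eq_smul
  rw [Submodule.mkQ_apply, Submodule.mapQ_apply, ← Submodule.Quotient.mk_smul,
    Submodule.Quotient.eq] at this
  exact this

/-- exactness of a square matrix acting on row vectors -/
def Ex {J : Type} [Fintype J] (d : Matrix J J F) : Prop := ∀ v, v ᵥ* d = 0 → ∃ v', v' ᵥ* d = v

lemma not_ex_block [IsAlgClosed F] {J : Type} [Fintype J] [DecidableEq J] {d n : Matrix J J F}
    (hc : n * d = d * n) (h : ¬ Ex d) :
    ∃ b : F, ¬ Ex (fromBlocks d 0 (scalar J b - n) (-d)) := by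
  obtain ⟨b, v, hv, hv', v', hv''⟩ := exists_eigen_mod n.vecMulLinear
    (K := LinearMap.ker d.vecMulLinear) (I := LinearMap.range d.vecMulLinear) (by
      intro v hv
      simp only [LinearMap.mem_ker, vecMulLinear_apply] at hv ⊢
      rw [vecMul_vecMul, hc, ← vecMul_vecMul, hv, zero_vecMul]) (by
      rintro _ - ⟨v, rfl⟩
      exact ⟨v ᵥ* n, by simp [hc]⟩) (fun hle => h fun v hv => hle hv)
  refine ⟨b, fun hex => hv' ?_⟩
  simp only [LinearMap.mem_ker, vecMulLinear_apply] at hv hv''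
  obtain ⟨a, ha⟩ := hex (Sum.elim v' v) (by
    rw [vecMul_fromBlocks]
    simp only [Sum.elim_comp_inl, Sum.elim_comp_inr, vecMul_sub, hv'', vecMul_neg, hv]
    ext (i | i) <;> simp)
  refine ⟨-(a ∘ Sum.inr), ?_⟩
  rw [vecMul_fromBlocks] at ha
  have := congrArg (· ∘ Sum.inr) ha
  simpa [neg_vecMul, vecMul_neg] using this

lemma mem_Y_pi {B Λ : Type*} [LieRing B] [LieAlgebra F B] [Ring Λ] [Algebra F Λ]
    {κ : B →ₗ⁅F⁆ Λ} {M : Type*} [AddCommGroup M] [Module Λ M] [Module F M] [IsScalarTower F Λ M]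
    {J : Type*} [Fintype J] [DecidableEq J] {a : Submodule F B} {v : J → M} :
    v ∈ Y κ a (J → M) ↔ ∀ j, v j ∈ Y κ a M := by
  refine ⟨fun h j => Y_lmap (LinearMap.proj (R := Λ) (φ := fun _ => M) j) h, fun h => ?_⟩
  rw [← Finset.univ_sum_single v]
  exact Submodule.sum_mem _ fun j _ => Y_lmap (LinearMap.single Λ (fun _ => M) j) (h j)

lemma ex_of_ac {J : Type} [Fintype J] [DecidableEq J] {D : Matrix J J (U F L)}
    (h : Ac D.vecMulLinear (Y (ι F) (⊤ : Submodule F L) (J → U F L))) : Ex (D.map (eps F L)) := by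
  intro v hv
  have key : ∀ m : J → U F L, (eps F L) ∘ (m ᵥ* D) = (eps F L ∘ m) ᵥ* D.map (eps F L) :=
    fun m => funext fun i => (eps F L).toRingHom.map_vecMul D m i
  have e : eps F L ∘ (fun j => algebraMap F (U F L) (v j)) = v := by ext; simp
  obtain ⟨m', hm'⟩ := h (fun j => algebraMap F _ (v j)) (mem_Y_pi.mpr fun j =>
    mem_rI_of_eps (mem_Ua_top _) (by
      have := congrFun (key fun j => algebraMap F _ (v j)) j
      rwa [e, hv] at this))
  refine ⟨eps F L ∘ m', ?_⟩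
  rw [← key]
  funext j
  have := eps_rI (mem_Y_pi.mp hm' j)
  simp only [Pi.sub_apply, map_sub, AlgHom.commutes, Algebra.algebraMap_self, RingHom.id_apply,
    sub_eq_zero] at this
  exact this.symm

/-- matrices with entries in the right ideal -/
def MI (m : Submodule F L) (J : Type) : AddSubgroup (Matrix J J (U F L)) where
  carrier := {D | ∀ i j, D i j ∈ rI m}
  add_mem' := fun ha hb i j => add_mem (ha i j) (hb i j)
  zero_mem' := fun _ _ => zero_mem _
  neg_mem' := fun ha i j => neg_mem (ha i j)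

section

variable {m : Submodule F L} {J : Type} [Fintype J] [DecidableEq J]

omit [DecidableEq J] in
lemma MI_mul {D : Matrix J J (U F L)} (h : D ∈ MI m J) (E : Matrix J J (U F L)) :
    D * E ∈ MI m J := fun i j => by
  rw [mul_apply]; exact Submodule.sum_mem _ fun k _ => Y_mul (h i k) _

omit [DecidableEq J] in
lemma mul_MI (hm : ∀ x, Nrm x m) (E : Matrix J J (U F L)) {D : Matrix J J (U F L)}
    (h : D ∈ MI m J) : E * D ∈ MI m J := fun i j => by
  rw [mul_apply]
  exact Submodule.sum_mem _ fun k _ => Ua_mul_rI (fun x _ => hm x) (mem_Ua_top _) (h k j)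

lemma comm_all (hm : ∀ x, Nrm x m) {u : U F L} (hu : ∀ x, ι F x * u - u * ι F x ∈ rI m)
    (a : U F L) : a * u - u * a ∈ rI m := by
  induction a using U_induction with
  | h1 => simp
  | hadd a b ha hb => convert add_mem ha hb using 1; noncomm_ring
  | hsmul c a ha => convert Submodule.smul_mem _ c ha using 1; simp [smul_sub]
  | hmul y a ha =>
    convert add_mem ((hm y).smul_mem_Y ha) (Y_mul (hu y) a) using 1
    rw [smul_eq_mul]; noncomm_ring

lemma scalar_comm_MI (hm : ∀ x, Nrm x m) {u : U F L} (hu : ∀ x, ι F x * u - u * ι F x ∈ rI m)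
    (E : Matrix J J (U F L)) : E * scalar J u - scalar J u * E ∈ MI m J := fun i j => by
  simpa using comm_all hm hu (E i j)

lemma vecMul_sq (hm : ∀ x, Nrm x m) {u : U F L} (hu : ∀ x, ι F x * u - u * ι F x ∈ rI m)
    {D : Matrix J J (U F L)} (h : D * D - scalar J u ∈ MI m J) (v : J → U F L) :
    D.vecMulLinear (D.vecMulLinear v) - u • v ∈ Y (ι F) m (J → U F L) := by
  refine mem_Y_pi.mpr fun j => ?_
  have h1 : (v ᵥ* (D * D - scalar J u)) j ∈ rI m := by
    rw [vecMul, dotProduct]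
    exact Submodule.sum_mem _ fun k _ => Ua_mul_rI (fun x _ => hm x) (mem_Ua_top _) (h k j)
  convert add_mem h1 (comm_all hm hu (v j)) using 1
  simp [vecMul_sub]

end

variable [CharZero F] [Module.Finite F L] [IsAlgClosed F] [LieRing.IsNilpotent L]

theorem nc (n : ℕ) : ∀ (m : Submodule F L), finrank F L = finrank F m + n → (∀ x, Nrm x m) →
    ∀ u : U F L, (∀ x, ι F x * u - u * ι F x ∈ rI m) → eps F L u = 0 → lin u ∈ m →
    ∃ (J : Type) (_ : Fintype J) (_ : DecidableEq J) (D : Matrix J J (U F L)),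
      D * D - scalar J u ∈ MI m J ∧ ¬ Ex (D.map (eps F L)) := by
  induction n with
  | zero =>
    intro m hn hm u _ he _
    obtain rfl : m = ⊤ := Submodule.eq_top_of_finrank_eq hn.symm
    refine ⟨Unit, inferInstance, inferInstance, 0, fun i j => ?_, fun h => ?_⟩
    · simpa using mem_rI_of_eps (mem_Ua_top u) he
    · obtain ⟨v, hv⟩ := h (fun _ => 1) (by simp)
      simpa using congrFun hv ()
  | succ n ih =>
    intro m hn hm u hc he hl
    obtain ⟨w, -, hwm, hw⟩ := exists_nz (a := m) (b := ⊤) (by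
      intro h
      rw [top_le_iff.mp h, finrank_top] at hn
      omega)
    replace hw : ∀ x, ⁅x, w⁆ ∈ m := fun x => hw x trivial
    have hsm : Sub m := fun x _ y hy => hm x y hy
    obtain ⟨J, _, _, D, hD, hex⟩ := ih (m ⊔ F ∙ w)
      (by rw [Submodule.finrank_sup_span_singleton hwm]; omega) (by
        intro x y' hy'
        obtain ⟨y, hy, t, rfl⟩ := mem_sup_span.mp hy'
        rw [lie_add, lie_smul]
        exact Submodule.mem_sup_left (add_mem (hm x y hy) (m.smul_mem _ (hw x)))) u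
      (fun x => Y_mono le_sup_left (hc x)) he (Submodule.mem_sup_left hl)
    choose ν' hν' using fun i j => mem_Y_sup (hD i j)
    let ν : Matrix J J (U F L) := of ν'
    have hcw : ∀ x, ι F x * ι F w - ι F w * ι F x ∈ rI m := fun x => by
      simpa [ι_comm x w] using mem_Y' (κ := ι F) (hw x)
    set W := scalar J (ι F w) with hW
    set Uu := scalar J u with hU
    have h1 : D * D - Uu - W * ν ∈ MI m J := fun i j => by simpa [hW, ν] using hν' i j
    have h2 : D * ν - ν * D ∈ MI m J := by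
      have : W * (D * ν - ν * D) ∈ MI m J := by
        convert sub_mem (sub_mem (sub_mem (MI_mul h1 D) (mul_MI hm D h1))
          (MI_mul (scalar_comm_MI hm hcw D) ν)) (scalar_comm_MI hm hc D) using 1
        rw [← hW, ← hU]
        noncomm_ring
      intro i j
      refine reg_U ⊤ _ m le_top hsm (Nat.lt_succ_self _) w trivial hwm (hm w) _ ?_
      simpa [hW] using this i j
    obtain ⟨b, hb⟩ := not_ex_block (d := D.map (eps F L)) (n := ν.map (eps F L)) (by
      rw [← Matrix.map_mul, ← Matrix.map_mul]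
      ext i j
      have := eps_rI (h2 i j)
      rw [Matrix.sub_apply, map_sub, sub_eq_zero] at this
      exact this.symm) hex
    set Bs := scalar J (algebraMap F (U F L) b) with hBs
    have hBc : ∀ E : Matrix J J (U F L), Bs * E = E * Bs := fun E =>
      scalar_commute _ (fun r => Algebra.commutes b r) E
    let D' := fromBlocks D W (Bs - ν) (-D)
    have hD' : D' * D' - scalar (J ⊕ J) (u + b • ι F w) ∈ MI m (J ⊕ J) := by
      have e : scalar (J ⊕ J) (u + b • ι F w) = fromBlocks (Uu + Bs * W) 0 0 (Uu + Bs * W) := by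
        rw [hU, hBs, hW, ← map_mul, ← map_add, ← Algebra.smul_def, scalar_apply, scalar_apply,
          fromBlocks_diagonal]
        congr 1
        ext (i | i) <;> rfl
      have b1 : D * D + W * (Bs - ν) - (Uu + Bs * W) ∈ MI m J := by
        convert h1 using 1
        rw [hBc W]; noncomm_ring
      have b2 : D * W + W * -D ∈ MI m J := by
        convert scalar_comm_MI hm hcw D using 1
        rw [← hW]; noncomm_ring
      have b3 : (Bs - ν) * D + -D * (Bs - ν) ∈ MI m J := by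
        convert h2 using 1
        rw [sub_mul, hBc D]; noncomm_ring
      have b4 : (Bs - ν) * W + -D * -D - (Uu + Bs * W) ∈ MI m J := by
        convert sub_mem h1 (scalar_comm_MI hm hcw ν) using 1
        rw [← hW]; noncomm_ring
      rw [e, fromBlocks_multiply]
      rintro (i | i) (j | j)
      · exact b1 i j
      · simpa using b2 i j
      · simpa using b3 i j
      · exact b4 i j
    have hmap : D'.map (eps F L) =
        fromBlocks (D.map (eps F L)) 0 (scalar J b - ν.map (eps F L)) (-D.map (eps F L)) := by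
      rw [fromBlocks_map]
      congr 1 <;> ext i j <;> simp [hW, hBs, diagonal_apply, apply_ite]
    have hb0 : b = 0 := by
      by_contra hb0
      have hc' : ∀ x, ι F x * (u + b • ι F w) - (u + b • ι F w) * ι F x ∈ rI m := fun x => by
        convert add_mem (hc x) (Submodule.smul_mem _ b (hcw x)) using 1
        simp only [mul_add, add_mul, smul_sub, mul_smul_comm, smul_mul_assoc]
        abel
      refine hb (hmap ▸ ex_of_ac (ncp (fun k => (reg_U ⊤ k).pi _) _ (n + 1) m ⊤ (u + b • ι F w)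
        (by rwa [finrank_top]) (fun _ _ _ _ => trivial) le_top (fun x _ => hm x) (mem_Ua_top _)
        (by simp [he]) (fun x _ => hc' x) ?_ (vecMul_sq hm hc' hD')))
      intro h
      apply hwm
      rw [← m.smul_mem_iff hb0]
      simpa using sub_mem h hl
    refine ⟨J ⊕ J, inferInstance, inferInstance, D', by simpa [hb0] using hD', hmap ▸ hb⟩

theorem nc_cen {u : U F L} (hu : Cen u) (he : eps F L u = 0) (hl : lin u = 0) :
    ∃ (J : Type) (_ : Fintype J) (_ : DecidableEq J) (D : Matrix J J (U F L)),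
      D * D = scalar J u ∧ ¬ Ex (D.map (eps F L)) := by
  obtain ⟨J, _, _, D, h1, h2⟩ := nc (finrank F L) ⊥ (by simp) (fun x y hy => by simp_all) u
    (fun x => by simp [hu _]) he (by simp [hl])
  refine ⟨J, inferInstance, inferInstance, D, ?_, h2⟩
  rw [← sub_eq_zero]
  ext i j
  exact Y_bot (h1 i j)

theorem lin_red {z : U F L} (hz : Cen z) (he : eps F L z = 0) (hl : lin z = 0)
    {m q : Submodule F L} (hq : Sub q) (hmq : m ≤ q) (hm : ∀ x ∈ q, Nrm x m) {u : U F L}
    (hu : u ∈ Ua q) (h : z - u ∈ rI m) : lin u ∈ m := by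
  obtain ⟨J, _, _, D, h1, h2⟩ := nc_cen hz he hl
  by_contra hcon
  have hδ : ∀ v, D.vecMulLinear (D.vecMulLinear v) = z • v := fun v => by
    ext j
    simp [h1, vecMul_diagonal, hz _]
  have he' : eps F L u = 0 := by simpa [he] using eps_rI h
  have hzq : z ∈ rI q := by simpa using add_mem (Y_mono hmq h) (mem_rI_of_eps hu he')
  have hreg : ∀ k, Reg (ι F : L →ₗ⁅F⁆ U F L) ⊤ k (J → U F L) := fun k => (reg_U ⊤ k).pi _
  have key : ∀ (n : ℕ) (q' : Submodule F L), finrank F L = finrank F q' + n → Sub q' → q ≤ q' →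
      Ac D.vecMulLinear (Y (ι F) q' (J → U F L)) →
      Ac D.vecMulLinear (Y (ι F) (⊤ : Submodule F L) (J → U F L)) := by
    intro n
    induction n with
    | zero =>
      intro q' hn _ _ h
      rwa [Submodule.eq_top_of_finrank_eq hn.symm] at h
    | succ n ih =>
      intro q' hn hq' hqq' h
      obtain ⟨x, -, hx, hx'⟩ := exists_nz (a := q') (b := ⊤) (by
        intro h
        rw [top_le_iff.mp h, finrank_top] at hn
        omega)
      have hxn : Nrm x q' := fun y _ => by rw [← lie_skew]; exact neg_mem (hx' y trivial)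
      refine ih (q' ⊔ F ∙ x) (by rw [Submodule.finrank_sup_span_singleton hx]; omega)
        (hq'.sup_span hxn) (hqq'.trans le_sup_left) (cone hxn
          (hreg _ q' le_top hq' (Nat.lt_succ_self _) x trivial hx hxn) (fun v => ?_) h)
      rw [hδ]
      exact Y_smul (Y_mono hqq' hzq) v
  refine h2 (ex_of_ac (key (finrank F L - finrank F q) q ?_ hq le_rfl
    (ncp hreg _ (finrank F q - finrank F m) m q u ?_ hq hmq hm hu he' (fun x hx => ?_) hcon
      (fun v => ?_))))
  · have := Submodule.finrank_le q; omega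
  · have := Submodule.finrank_mono hmq; omega
  · convert sub_mem (Y_mul h (ι F x)) ((hm x hx).smul_mem_Y h) using 1
    rw [smul_eq_mul, mul_sub, sub_mul, hz]; abel
  · rw [hδ, ← sub_smul]
    exact Y_smul h v

end

end Pool.Agent.P.MP_37e2d5_al
end

-- part Pool.Agent.P.MP_37e2d5_al.Weights
section

/-! Weight spaces for a morphism from a nilpotent Lie algebra. -/

namespace Pool.Agent.P.MP_37e2d5_al

open UniversalEnvelopingAlgebra Module LieAlgebra

attribute [local instance 100] LieRing.ofAssociativeRing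
attribute [-simp] UniversalEnvelopingAlgebra.ι_apply

noncomputable section

variable {F : Type*} [Field F] {C L L' : Type*} [LieRing C] [LieAlgebra F C]
  [LieRing L] [LieAlgebra F L] [LieRing L'] [LieAlgebra F L']

lemma bilin_pow {M₁ M₂ M₃ : Type*} [AddCommGroup M₁] [Module F M₁] [AddCommGroup M₂] [Module F M₂]
    [AddCommGroup M₃] [Module F M₃] (B : M₁ →ₗ[F] M₂ →ₗ[F] M₃) (D₁ : End F M₁) (D₂ : End F M₂)
    (D₃ : End F M₃) (h : ∀ x y, D₃ (B x y) = B (D₁ x) y + B x (D₂ y)) (k l : ℕ) (x : M₁) (y : M₂)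
    (hx : (D₁ ^ k) x = 0) (hy : (D₂ ^ l) y = 0) : (D₃ ^ (k + l)) (B x y) = 0 := by
  induction k generalizing l x y with
  | zero => simp_all
  | succ k ih =>
    induction l generalizing y with
    | zero => simp_all
    | succ l ih' =>
      rw [← add_assoc, pow_succ, End.mul_apply, h, map_add, ih' (D₂ y) (by rwa [pow_succ] at hy),
        add_zero, add_right_comm, add_assoc]
      exact ih _ _ _ (by rwa [pow_succ] at hx) hy

lemma mem_of_shift {V : Type*} [AddCommGroup V] [Module F V] (D : End F V) {T : Submodule F V}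
    (hT : ∀ v ∈ T, D v ∈ T) {a : F} (ha : a ≠ 0) (k : ℕ) {v : V} (hv : (D ^ k) v = 0)
    (h : D v + a • v ∈ T) : v ∈ T := by
  induction k generalizing v with
  | zero => simp_all
  | succ k ih =>
    have := ih (v := D v) (by rwa [pow_succ] at hv) (by simpa using hT _ h)
    rw [← T.smul_mem_iff ha]
    simpa using sub_mem h this

lemma mem_of_shift_pow {V : Type*} [AddCommGroup V] [Module F V] (D : End F V) {T : Submodule F V}
    (hT : ∀ v ∈ T, D v ∈ T) {a : F} (ha : a ≠ 0) (k n : ℕ) {v : V} (hv : (D ^ k) v = 0)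
    (h : ((D + a • 1) ^ n) v ∈ T) : v ∈ T := by
  induction n generalizing v with
  | zero => simpa using h
  | succ n ih =>
    refine mem_of_shift D hT ha k hv (ih ?_ (by rwa [pow_succ] at h))
    have : Commute (D ^ k) D := (Commute.refl D).pow_left k
    rw [map_add, map_smul, hv, smul_zero, add_zero, ← End.mul_apply, this.eq, End.mul_apply, hv,
      map_zero]

/-- generalised weight space -/
def W (i : C →ₗ⁅F⁆ L) (β : Ch F C) : Submodule F L :=
  ⨅ c, (ad F L (i c)).maxGenEigenspace (β.1 c)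

lemma mem_W {i : C →ₗ⁅F⁆ L} {β : Ch F C} {x : L} :
    x ∈ W i β ↔ ∀ c, ∃ k : ℕ, ((ad F L (i c) - β.1 c • 1) ^ k) x = 0 := by
  simp [W, End.mem_maxGenEigenspace]

lemma pow_map_comm (f : L →ₗ⁅F⁆ L') (y : L) (a : F) (k : ℕ) (x : L) :
    ((ad F L' (f y) - a • 1) ^ k) (f x) = f (((ad F L y - a • 1) ^ k) x) := by
  induction k generalizing x with
  | zero => simp
  | succ k ih => simp [pow_succ, ← ih]

lemma W_map {i : C →ₗ⁅F⁆ L} {β : Ch F C} (f : L →ₗ⁅F⁆ L') {x : L} (hx : x ∈ W i β) :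
    f x ∈ W (f.comp i) β := mem_W.mpr fun c => (mem_W.mp hx c).imp fun k hk => by
  rw [LieHom.comp_apply, pow_map_comm, hk, map_zero]

lemma W_of_map {i : C →ₗ⁅F⁆ L} {β : Ch F C} {f : L →ₗ⁅F⁆ L'} (hf : Function.Injective f) {x : L}
    (hx : f x ∈ W (f.comp i) β) : x ∈ W i β := mem_W.mpr fun c => (mem_W.mp hx c).imp fun k hk => by
  rw [LieHom.comp_apply, pow_map_comm] at hk
  exact hf (by rw [hk, map_zero])

lemma lie_mem_W {i : C →ₗ⁅F⁆ L} {β γ : Ch F C} {x y : L} (hx : x ∈ W i β) (hy : y ∈ W i γ) :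
    ⁅x, y⁆ ∈ W i (β + γ) := mem_W.mpr fun c => by
  obtain ⟨k, hk⟩ := mem_W.mp hx c
  obtain ⟨l, hl⟩ := mem_W.mp hy c
  exact ⟨k + l, bilin_pow (ad F L : L →ₗ[F] End F L) _ _ _ (fun x y => by
    have := leibniz_lie (i c) x y
    simp only [LinearMap.sub_apply, ad_apply, LieHom.coe_toLinearMap, LinearMap.smul_apply,
      End.one_apply, map_sub, map_smul, this, Ch.add_val, LinearMap.add_apply, add_smul]
    abel) k l x y hk hl⟩

lemma mul_mem_W {A : Type*} [Ring A] [Algebra F A] {i : C →ₗ⁅F⁆ A} {β γ : Ch F C} {x y : A}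
    (hx : x ∈ W i β) (hy : y ∈ W i γ) : x * y ∈ W i (β + γ) := mem_W.mpr fun c => by
  obtain ⟨k, hk⟩ := mem_W.mp hx c
  obtain ⟨l, hl⟩ := mem_W.mp hy c
  exact ⟨k + l, bilin_pow (LinearMap.mul F A) _ _ _ (fun x y => by
    simp [add_smul, LieRing.of_associative_ring_bracket, mul_sub, mul_assoc]
    abel) k l x y hk hl⟩

lemma mem_W_zero {i : C →ₗ⁅F⁆ L} {x : L} (h : ∀ c, ⁅i c, x⁆ = 0) : x ∈ W i 0 :=
  mem_W.mpr fun c => ⟨1, by simp [h]⟩

/-- sum of the weight spaces with weights in a set -/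
def WS (i : C →ₗ⁅F⁆ L) (S : Set (Ch F C)) : Submodule F L := ⨆ β ∈ S, W i β

lemma mem_WS {i : C →ₗ⁅F⁆ L} {S : Set (Ch F C)} {β : Ch F C} (hβ : β ∈ S) {x : L}
    (hx : x ∈ W i β) : x ∈ WS i S := (le_biSup (W i) hβ) hx

lemma WS_le {i : C →ₗ⁅F⁆ L} {S : Set (Ch F C)} {T : Submodule F L} (h : ∀ β ∈ S, W i β ≤ T) :
    WS i S ≤ T := iSup₂_le h

lemma WS_mono {i : C →ₗ⁅F⁆ L} {S T : Set (Ch F C)} (h : S ⊆ T) : WS i S ≤ WS i T :=
  WS_le fun _ hβ _ hx => mem_WS (h hβ) hx

lemma WS_congr {i : C →ₗ⁅F⁆ L} {S T : Set (Ch F C)} (h : ∀ β, W i β ≠ ⊥ → (β ∈ S ↔ β ∈ T)) :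
    WS i S = WS i T := by
  apply le_antisymm <;> refine WS_le fun β hβ => ?_ <;> by_cases h0 : W i β = ⊥
  · simp [h0]
  · exact fun _ => mem_WS ((h β h0).mp hβ)
  · simp [h0]
  · exact fun _ => mem_WS ((h β h0).mpr hβ)

lemma WS_ind {i : C →ₗ⁅F⁆ L} {S : Set (Ch F C)} {P : L → Prop} (h0 : P 0)
    (hadd : ∀ x y, P x → P y → P (x + y)) (h : ∀ β ∈ S, ∀ x ∈ W i β, P x) {x : L}
    (hx : x ∈ WS i S) : P x := by
  rw [WS, iSup_subtype'] at hx
  exact Submodule.iSup_induction _ (motive := P) hx (fun β => h β β.2) h0 hadd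

lemma WS_map {i : C →ₗ⁅F⁆ L} {S : Set (Ch F C)} (f : L →ₗ⁅F⁆ L') {x : L} (hx : x ∈ WS i S) :
    f x ∈ WS (f.comp i) S :=
  WS_le (T := (WS (f.comp i) S).comap (f : L →ₗ[F] L')) (fun _ hβ _ hx => mem_WS hβ (W_map f hx)) hx

lemma bilin_mem_WS {i : C →ₗ⁅F⁆ L} (B : L →ₗ[F] L →ₗ[F] L)
    (hB : ∀ β γ, ∀ x ∈ W i β, ∀ y ∈ W i γ, B x y ∈ W i (β + γ)) {S T R : Set (Ch F C)}
    (h : ∀ β ∈ S, ∀ γ ∈ T, β + γ ∈ R) {x y : L} (hx : x ∈ WS i S) (hy : y ∈ WS i T) :
    B x y ∈ WS i R :=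
  WS_le (T := (WS i R).comap (B.flip y)) (fun β hβ x hx =>
    WS_le (T := (WS i R).comap (B x)) (fun γ hγ y hy => mem_WS (h β hβ γ hγ) (hB β γ x hx y hy))
      hy) hx

lemma lie_mem_WS {i : C →ₗ⁅F⁆ L} {S T R : Set (Ch F C)} (h : ∀ β ∈ S, ∀ γ ∈ T, β + γ ∈ R)
    {x y : L} (hx : x ∈ WS i S) (hy : y ∈ WS i T) : ⁅x, y⁆ ∈ WS i R :=
  bilin_mem_WS (ad F L : L →ₗ[F] End F L) (fun _ _ _ hx _ hy => lie_mem_W hx hy) h hx hy

lemma mul_mem_WS {A : Type*} [Ring A] [Algebra F A] {i : C →ₗ⁅F⁆ A} {S T R : Set (Ch F C)}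
    (h : ∀ β ∈ S, ∀ γ ∈ T, β + γ ∈ R) {x y : A} (hx : x ∈ WS i S) (hy : y ∈ WS i T) :
    x * y ∈ WS i R :=
  bilin_mem_WS (LinearMap.mul F A) (fun _ _ _ hx _ hy => mul_mem_W hx hy) h hx hy

/-- the weight spaces span -/
class Dec (i : C →ₗ⁅F⁆ L) : Prop where
  top : ∀ x, x ∈ WS i Set.univ

/-- the induced morphism to the enveloping algebra -/
abbrev jU (i : C →ₗ⁅F⁆ L) : C →ₗ⁅F⁆ U F L := (ι F).comp i

lemma one_mem_W (i : C →ₗ⁅F⁆ L) : (1 : U F L) ∈ W (jU i) 0 :=
  mem_W_zero fun c => by simp [LieRing.of_associative_ring_bracket]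

lemma Cen.mem_W (i : C →ₗ⁅F⁆ L) {z : U F L} (hz : Cen z) : z ∈ W (jU i) 0 :=
  mem_W_zero fun c => by simp [LieRing.of_associative_ring_bracket, hz _]

lemma Ua_mem_WS {i : C →ₗ⁅F⁆ L} {S : Set (Ch F C)} (h0 : 0 ∈ S) (h : ∀ β ∈ S, ∀ γ ∈ S, β + γ ∈ S)
    {q : Submodule F L} (hq : q ≤ WS i S) {u : U F L} (hu : u ∈ Ua q) : u ∈ WS (jU i) S :=
  Ua_induction (P := fun u => u ∈ WS (jU i) S) (mem_WS h0 (one_mem_W i))
    (fun _ _ => add_mem) (fun c _ => Submodule.smul_mem _ c)
    (fun _ hy _ hu => mul_mem_WS h (WS_map (ι F) (hq hy)) hu) hu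

instance (i : C →ₗ⁅F⁆ L) [Dec i] : Dec (jU i) :=
  ⟨fun u => Ua_mem_WS (Set.mem_univ _) (fun _ _ _ _ => Set.mem_univ _)
    (fun x _ => Dec.top x) (mem_Ua_top u)⟩

/-- stable under the image of `C` -/
def Stb (i : C →ₗ⁅F⁆ L) (T : Submodule F L) : Prop := ∀ c, Nrm (i c) T

lemma Stb.inf {i : C →ₗ⁅F⁆ L} {S T : Submodule F L} (hS : Stb i S) (hT : Stb i T) :
    Stb i (S ⊓ T) := fun c x hx => ⟨hS c x hx.1, hT c x hx.2⟩

lemma Stb.sup {i : C →ₗ⁅F⁆ L} {S T : Submodule F L} (hS : Stb i S) (hT : Stb i T) :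
    Stb i (S ⊔ T) := fun c x hx => by
  obtain ⟨a, ha, b, hb, rfl⟩ := Submodule.mem_sup.mp hx
  rw [lie_add]
  exact Submodule.add_mem_sup (hS c a ha) (hT c b hb)

lemma stb_top (i : C →ₗ⁅F⁆ L) : Stb i ⊤ := fun _ _ _ => trivial

lemma stb_bot (i : C →ₗ⁅F⁆ L) : Stb i ⊥ := fun _ _ hx => by simp_all

lemma Stb.rI {i : C →ₗ⁅F⁆ L} {T : Submodule F L} (hT : Stb i T) : Stb (jU i) (rI T) :=
  fun c _ hx => sub_mem ((hT c).smul_mem_Y hx) (Y_mul hx _)

lemma Stb.lI {i : C →ₗ⁅F⁆ L} {T : Submodule F L} (hT : Stb i T) :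
    Stb (jU i) ((lI T).restrictScalars F) :=
  fun c _ hx => sub_mem (lI_mul _ hx) ((hT c).lI_mul hx)

lemma Nrm.Ua {x : L} {T : Submodule F L} (hT : Nrm x T) {u : U F L} (hu : u ∈ Ua T) :
    ι F x * u - u * ι F x ∈ Ua T := by
  have key : u ∈ Pool.Agent.P.MP_37e2d5_al.Ua T ∧
      ι F x * u - u * ι F x ∈ Pool.Agent.P.MP_37e2d5_al.Ua T := by
    refine Ua_induction (P := fun u => u ∈ Pool.Agent.P.MP_37e2d5_al.Ua T ∧
      ι F x * u - u * ι F x ∈ Pool.Agent.P.MP_37e2d5_al.Ua T)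
      ⟨one_mem _, by simp⟩ ?_ ?_ ?_ hu
    · rintro u v ⟨h1, h2⟩ ⟨h3, h4⟩
      refine ⟨add_mem h1 h3, ?_⟩
      convert add_mem h2 h4 using 1
      noncomm_ring
    · rintro c u ⟨h1, h2⟩
      refine ⟨Subalgebra.smul_mem _ h1 c, ?_⟩
      convert Subalgebra.smul_mem _ h2 c using 1
      simp [smul_sub]
    · rintro y hy u ⟨h1, h2⟩
      refine ⟨mul_mem (ι_mem_Ua hy) h1, ?_⟩
      convert add_mem (mul_mem (ι_mem_Ua hy) h2) (mul_mem (ι_mem_Ua (hT y hy)) h1) using 1
      rw [← mul_assoc, ι_comm x y]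
      noncomm_ring
  exact key.2

lemma Stb.Ua {i : C →ₗ⁅F⁆ L} {T : Submodule F L} (hT : Stb i T) :
    Stb (jU i) (Subalgebra.toSubmodule (Ua T)) := fun c _ hx => (hT c).Ua hx

variable [LieRing.IsNilpotent C]

lemma i_mem_W (i : C →ₗ⁅F⁆ L) (c : C) : i c ∈ W i 0 := by
  refine W_map (i := LieHom.id) i (mem_W.mpr fun c' => ?_)
  obtain ⟨k, hk⟩ := LieModule.isNilpotent_toEnd_of_isNilpotent F C C c'
  exact ⟨k, by simpa [ad] using LinearMap.congr_fun hk c⟩

lemma stb_W (i : C →ₗ⁅F⁆ L) (β : Ch F C) : Stb i (W i β) := fun c x hx => by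
  simpa using lie_mem_W (i_mem_W i c) hx

lemma stb_WS (i : C →ₗ⁅F⁆ L) (S : Set (Ch F C)) : Stb i (WS i S) := fun c _ hx =>
  lie_mem_WS (S := {0}) (by simp) (mem_WS (Set.mem_singleton _) (i_mem_W i c)) hx

lemma W_indep (i : C →ₗ⁅F⁆ L) : iSupIndep (W i) := by
  let := LieRingModule.compLieHom L i
  have := LieModule.compLieHom L i
  have h := LieModule.iSupIndep_genWeightSpace F C L
  rw [← LieSubmodule.iSupIndep_toSubmodule] at h
  have h2 := h.comp (f := fun β : Ch F C => (β.1 : C → F))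
    (fun a b hab => Ch.ext (DFunLike.coe_injective hab))
  convert h2 using 1
  ext β x
  simp only [mem_W, Function.comp_apply, LieSubmodule.mem_toSubmodule, LieModule.mem_genWeightSpace]
  rfl

instance dec_fd [IsAlgClosed F] [CharZero F] [Module.Finite F L] (i : C →ₗ⁅F⁆ L) : Dec i := by
  let := LieRingModule.compLieHom L i
  have := LieModule.compLieHom L i
  refine ⟨fun x => ?_⟩
  have h := LieModule.iSup_genWeightSpace_eq_top' F C L
  rw [← LieSubmodule.toSubmodule_inj, LieSubmodule.iSup_toSubmodule] at h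
  have hx : x ∈ ⨆ χ : LieModule.Weight F C L, (LieModule.genWeightSpace L χ).toSubmodule := by
    rw [h]; trivial
  refine (iSup_le fun χ y hy => ?_ : _ ≤ WS i Set.univ) hx
  refine mem_WS (β := ⟨χ.toLinear, fun x y => χ.apply_lie x y⟩) (Set.mem_univ _) (mem_W.mpr ?_)
  exact (LieModule.mem_genWeightSpace _ _ _).mp hy

lemma WS_disjoint (i : C →ₗ⁅F⁆ L) {S T : Set (Ch F C)} (h : Disjoint S T) :
    Disjoint (WS i S) (WS i T) := (W_indep i).disjoint_biSup_biSup h

lemma eq_zero_of_WS {i : C →ₗ⁅F⁆ L} {S T : Set (Ch F C)} (h : ∀ β ∈ S, β ∉ T) {x : L}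
    (hS : x ∈ WS i S) (hT : x ∈ WS i T) : x = 0 :=
  Submodule.disjoint_def.mp (WS_disjoint i (Set.disjoint_left.mpr h)) x hS hT

lemma eq_zero_of_W {i : C →ₗ⁅F⁆ L} {β : Ch F C} {T : Set (Ch F C)} (h : β ∉ T) {x : L}
    (hS : x ∈ W i β) (hT : x ∈ WS i T) : x = 0 :=
  eq_zero_of_WS (S := {β}) (by simpa) (mem_WS (Set.mem_singleton _) hS) hT

lemma W_isCompl (i : C →ₗ⁅F⁆ L) [Dec i] (β : Ch F C) : IsCompl (W i β) (WS i {β}ᶜ) := by
  refine ⟨W_indep i β, codisjoint_iff.mpr (eq_top_iff.mpr fun x _ => ?_)⟩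
  refine WS_le (T := W i β ⊔ WS i {β}ᶜ) (fun γ _ y hy => ?_) (Dec.top (i := i) x)
  by_cases h : γ = β
  · exact Submodule.mem_sup_left (h ▸ hy)
  · exact Submodule.mem_sup_right (mem_WS h hy)

/-- projection to a weight space -/
def pr (i : C →ₗ⁅F⁆ L) [Dec i] (β : Ch F C) : L →ₗ[F] L :=
  (W i β).projection _ (W_isCompl i β)

variable {i : C →ₗ⁅F⁆ L} [Dec i]

lemma pr_mem (β : Ch F C) (x : L) : pr i β x ∈ W i β := Submodule.projection_apply_mem _ _

lemma pr_of_mem {β : Ch F C} {x : L} (hx : x ∈ W i β) : pr i β x = x :=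
  Submodule.projection_apply_of_mem_left _ hx

lemma pr_of_WS {β : Ch F C} {S : Set (Ch F C)} (h : β ∉ S) {x : L} (hx : x ∈ WS i S) :
    pr i β x = 0 :=
  (Submodule.projection_apply_eq_zero_iff _).mpr (WS_mono (by simpa) hx)

lemma pr_of_ne {β γ : Ch F C} (h : β ≠ γ) {x : L} (hx : x ∈ W i γ) : pr i β x = 0 :=
  pr_of_WS (S := {γ}) h (mem_WS (Set.mem_singleton _) hx)

lemma exists_sum_pr (x : L) : ∃ s : Finset (Ch F C), ∑ β ∈ s, pr i β x = x ∧
    ∀ β ∉ s, pr i β x = 0 := by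
  classical
  refine WS_ind (P := fun x => ∃ s : Finset (Ch F C), ∑ β ∈ s, pr i β x = x ∧
    ∀ β ∉ s, pr i β x = 0) ⟨∅, by simp⟩ ?_ ?_ (Dec.top (i := i) x)
  · rintro x y ⟨s, h1, h2⟩ ⟨t, h3, h4⟩
    refine ⟨s ∪ t, ?_, fun β hβ => by simp_all⟩
    simp only [map_add, Finset.sum_add_distrib]
    rw [← Finset.sum_subset Finset.subset_union_left (fun β _ => h2 β),
      ← Finset.sum_subset Finset.subset_union_right (fun β _ => h4 β), h1, h3]
  · intro β _ x hx
    exact ⟨{β}, by simp [pr_of_mem hx], fun γ hγ => pr_of_ne (by simpa using hγ) hx⟩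

lemma mem_of_pr {T : Submodule F L} {x : L} (h : ∀ β, pr i β x ∈ T) : x ∈ T := by
  obtain ⟨s, hs, -⟩ := exists_sum_pr (i := i) x
  exact hs ▸ Submodule.sum_mem _ fun β _ => h β

lemma mem_WS_of_pr {S : Set (Ch F C)} {x : L} (h : ∀ β ∉ S, pr i β x = 0) : x ∈ WS i S :=
  mem_of_pr (i := i) fun β => by
    by_cases hβ : β ∈ S
    · exact mem_WS hβ (pr_mem β x)
    · rw [h β hβ]; exact zero_mem _

lemma pr_lie (β : Ch F C) (c : C) (x : L) : pr i β ⁅i c, x⁆ = ⁅i c, pr i β x⁆ := by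
  refine WS_ind (P := fun x => pr i β ⁅i c, x⁆ = ⁅i c, pr i β x⁆) (by simp)
    (fun x y hx hy => by simp [hx, hy]) (fun γ _ x hx => ?_) (Dec.top (i := i) x)
  by_cases h : β = γ
  · subst h; rw [pr_of_mem hx, pr_of_mem (stb_W i β c x hx)]
  · rw [pr_of_ne h hx, pr_of_ne h (stb_W i γ c x hx), lie_zero]

lemma Stb.pr_mem {T : Submodule F L} (hT : Stb i T) {x : L} (hx : x ∈ T) (β : Ch F C) :
    pr i β x ∈ T := by
  classical
  obtain ⟨s, -, hs⟩ := exists_sum_pr (i := i) x
  induction s using Finset.strongInduction generalizing x with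
  | _ s ih =>
    by_cases h : ∃ γ ∈ s, γ ≠ β
    · obtain ⟨γ, hγ, hne⟩ := h
      obtain ⟨c, hc⟩ := Ch.exists_ne (sub_ne_zero.mpr hne.symm)
      obtain ⟨n, hn⟩ := mem_W.mp (Pool.Agent.P.MP_37e2d5_al.pr_mem (i := i) γ x) c
      obtain ⟨k, hk⟩ := mem_W.mp (Pool.Agent.P.MP_37e2d5_al.pr_mem (i := i) β x) c
      have h1 : ∀ (a : F) (n : ℕ) δ x, pr i δ (((ad F L (i c) - a • 1) ^ n) x) =
          ((ad F L (i c) - a • 1) ^ n) (pr i δ x) := by
        intro a n δ
        induction n with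
        | zero => simp
        | succ n ih => intro x; simp [pow_succ, ih, pr_lie]
      have h2 : ∀ (a : F), ∀ x ∈ T, (ad F L (i c) - a • 1) x ∈ T := fun a x hx => by
        simpa using sub_mem (hT c x hx) (T.smul_mem a hx)
      have h3 := ih (s.erase γ) (Finset.erase_ssubset hγ)
        (x := ((ad F L (i c) - γ.1 c • 1) ^ n) x) (End.pow_apply_mem_of_forall_mem n (h2 _) x hx)
        (fun δ hδ => by
          rw [h1]
          by_cases hδγ : δ = γ
          · rw [hδγ, hn]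
          · rw [hs δ (by simpa [hδγ] using hδ), map_zero])
      rw [h1] at h3
      refine mem_of_shift_pow _ (h2 _) hc k n hk ?_
      convert h3 using 3
      simp [sub_smul]
    · push Not at h
      have : x - pr i β x = 0 := by
        refine (Submodule.mem_bot F).mp (mem_of_pr (i := i) fun δ => ?_)
        by_cases hδ : δ = β
        · simp [hδ, pr_of_mem (Pool.Agent.P.MP_37e2d5_al.pr_mem (i := i) β x)]
        · simp [pr_of_ne hδ (Pool.Agent.P.MP_37e2d5_al.pr_mem (i := i) β x),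
            hs δ (fun hδ' => hδ (h δ hδ'))]
      rwa [← sub_eq_zero.mp this]

lemma Stb.ind {T : Submodule F L} (hT : Stb i T) {P : L → Prop} (h0 : P 0)
    (hadd : ∀ x y, P x → P y → P (x + y)) (h : ∀ β, ∀ x ∈ T, x ∈ W i β → P x) {x : L}
    (hx : x ∈ T) : P x := by
  obtain ⟨s, hs, -⟩ := exists_sum_pr (i := i) x
  rw [← hs]
  exact Finset.sum_induction _ P hadd h0 fun β _ =>
    h β _ (hT.pr_mem hx β) (Pool.Agent.P.MP_37e2d5_al.pr_mem β x)

lemma Stb.le {T P : Submodule F L} (hT : Stb i T) (h : ∀ β, ∀ x ∈ T, x ∈ W i β → x ∈ P) :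
    T ≤ P := fun _ hx => hT.ind (P := fun x => x ∈ P) (zero_mem _) (fun _ _ => add_mem) h hx

lemma Stb.indS {T : Submodule F L} (hT : Stb i T) {S : Set (Ch F C)} {P : L → Prop} (h0 : P 0)
    (hadd : ∀ x y, P x → P y → P (x + y)) (h : ∀ β ∈ S, ∀ x ∈ T, x ∈ W i β → P x) {x : L}
    (hx : x ∈ T) (hS : x ∈ WS i S) : P x :=
  (hT.inf (stb_WS i S)).ind h0 hadd (fun β y hy hy' => by
    by_cases hβ : β ∈ S
    · exact h β hβ y hy.1 hy'
    · rw [eq_zero_of_W hβ hy' hy.2]; exact h0) ⟨hx, hS⟩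

lemma pr_map (f : L →ₗ⁅F⁆ L') [Dec (f.comp i)] (β : Ch F C) (x : L) :
    pr (f.comp i) β (f x) = f (pr i β x) := by
  refine WS_ind (P := fun x => pr (f.comp i) β (f x) = f (pr i β x)) (by simp)
    (fun x y hx hy => by simp [hx, hy]) (fun γ _ x hx => ?_) (Dec.top (i := i) x)
  by_cases h : β = γ
  · subst h; rw [pr_of_mem hx, pr_of_mem (W_map f hx)]
  · rw [pr_of_ne h hx, pr_of_ne h (W_map f hx), map_zero]

lemma W_of_surj (f : L →ₗ⁅F⁆ L') [Dec (f.comp i)] {β : Ch F C} {x : L}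
    (hx : f x ∈ W (f.comp i) β) : ∃ y ∈ W i β, f y = f x :=
  ⟨_, pr_mem β x, by rw [← pr_map, pr_of_mem hx]⟩

lemma WS_of_map {f : L →ₗ⁅F⁆ L'} (hf : Function.Injective f) [Dec (f.comp i)] {S : Set (Ch F C)}
    {x : L} (hx : f x ∈ WS (f.comp i) S) : x ∈ WS i S :=
  mem_WS_of_pr fun β hβ => hf (by rw [← pr_map, pr_of_WS hβ hx, map_zero])

end

end Pool.Agent.P.MP_37e2d5_al
end

-- part Pool.Agent.P.MP_37e2d5_al.HC
section

/-! The Harish-Chandra projection. -/

namespace Pool.Agent.P.MP_37e2d5_al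

open UniversalEnvelopingAlgebra Module LieAlgebra

attribute [local instance 100] LieRing.ofAssociativeRing
attribute [-simp] UniversalEnvelopingAlgebra.ι_apply

noncomputable section

variable {F : Type*} [Field F] {C L : Type*} [LieRing C] [LieAlgebra F C]
  [LieRing L] [LieAlgebra F L]

lemma ua_dec [Module.Finite F L] {q p n : Submodule F L} (hq : Sub q) (hp : Sub p) (hn : Sub n)
    (hpq : p ≤ q) (hnq : n ≤ q) (hd : Disjoint p n) (hs : q ≤ p ⊔ n) {u : U F L} (hu : u ∈ Ua q) :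
    ∃ b ∈ Ua p, ∀ P : Submodule F (U F L), (∀ v ∈ Ua q, ∀ y ∈ n, v * ι F y ∈ P) → u - b ∈ P := by
  rw [← hq.rg_incl] at hu
  obtain ⟨u, rfl⟩ := mem_Ua_rg hu
  let f : hp.toLie →ₗ⁅F⁆ hq.toLie := cod hp.toLie.incl hq.toLie fun y => hpq y.2
  let n' : Submodule F hq.toLie := n.comap (hq.toLie.incl : hq.toLie →ₗ[F] L)
  obtain ⟨π, -, -, -, h⟩ := exists_proj f
    (fun a b h => Subtype.ext (congrArg (Subtype.val : hq.toLie → L) h)) (n := n')
    (fun x hx y hy => hn _ hx _ hy) ⟨Submodule.disjoint_def.mpr (by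
      rintro _ ⟨x, rfl⟩ hx
      exact Subtype.ext (Submodule.disjoint_def.mp hd _ x.2 hx)),
      codisjoint_iff.mpr (eq_top_iff.mpr (by
        rintro ⟨x, hx⟩ -
        obtain ⟨a, ha, b, hb, rfl⟩ := Submodule.mem_sup.mp (hs hx)
        exact Submodule.mem_sup.mpr ⟨f ⟨a, ha⟩, ⟨_, rfl⟩, ⟨b, hnq hb⟩, hb, rfl⟩))⟩
  refine ⟨Umap hp.toLie.incl (π u), Umap_mem_Ua _ (fun b => b.2) _, fun P hP => ?_⟩
  have e : Umap hp.toLie.incl (π u) = Umap hq.toLie.incl (Umap f (π u)) := by
    rw [Umap_Umap]; rfl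
  rw [e, ← map_sub]
  refine lI_ind (P := fun v => Umap hq.toLie.incl v ∈ P) (by simp)
    (fun u v hu hv => by rw [map_add]; exact add_mem hu hv) (fun x hx v => ?_) (h u)
  rw [map_mul, Umap_ι]
  exact hP _ (Umap_mem_Ua _ (fun b => b.2) _) _ hx

lemma ua_dec_right [Module.Finite F L] {q p n : Submodule F L} (hq : Sub q) (hp : Sub p)
    (hn : Sub n) (hpq : p ≤ q) (hnq : n ≤ q) (hd : Disjoint p n) (hs : q ≤ p ⊔ n) {u : U F L}
    (hu : u ∈ Ua q) : ∃ b ∈ Ua p, u - b ∈ rI n := by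
  obtain ⟨b, hb, h⟩ := ua_dec hq hp hn hpq hnq hd hs (anti_Ua hu)
  refine ⟨anti b, anti_Ua hb, ?_⟩
  simpa using anti_lI (h ((lI n).restrictScalars F) fun v _ y hy => mem_lI v hy)

variable [CharZero F] (i : C →ₗ⁅F⁆ L) (l : Ch F C →ₗ[ℚ] ℚ)

/-- positive part -/
def nP : Submodule F L := WS i {β | 0 < l β}

/-- zero part -/
def zP : Submodule F L := WS i {β | l β = 0}

/-- nonnegative part -/
def pP : Submodule F L := WS i {β | 0 ≤ l β}

lemma zP_neg : zP i (-l) = zP i l := by simp [zP]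

lemma sub_nP : Sub (nP i l) := fun _ hx _ hy =>
  lie_mem_WS (fun β hβ γ hγ => by simp only [Set.mem_ofPred_eq, map_add] at *; linarith) hx hy

lemma sub_zP : Sub (zP i l) := fun _ hx _ hy =>
  lie_mem_WS (fun β hβ γ hγ => by simp only [Set.mem_ofPred_eq, map_add] at *; linarith) hx hy

lemma sub_pP : Sub (pP i l) := fun _ hx _ hy =>
  lie_mem_WS (fun β hβ γ hγ => by simp only [Set.mem_ofPred_eq, map_add] at *; linarith) hx hy

variable {i l} in
lemma nrm_nP {x : L} (hx : x ∈ pP i l) : Nrm x (nP i l) := fun _ hy =>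
  lie_mem_WS (fun β hβ γ hγ => by simp only [Set.mem_ofPred_eq, map_add] at *; linarith) hx hy

lemma nP_le_pP : nP i l ≤ pP i l := WS_mono fun β (h : 0 < l β) => h.le

lemma zP_le_pP : zP i l ≤ pP i l := WS_mono fun _ h => le_of_eq (Eq.symm h)

lemma zP_le_pP_neg : zP i l ≤ pP i (-l) := zP_neg i l ▸ zP_le_pP i (-l)

lemma W_zero_le_zP : W i 0 ≤ zP i l := fun _ hx => mem_WS (by simp) hx

omit [CharZero F] in
lemma Sub.inf {a b : Submodule F L} (ha : Sub a) (hb : Sub b) : Sub (a ⊓ b) :=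
  fun _ hx _ hy => ⟨ha _ hx.1 _ hy.1, hb _ hx.2 _ hy.2⟩

variable [LieRing.IsNilpotent C]

lemma disjoint_pP_nP : Disjoint (pP i (-l)) (nP i l) :=
  WS_disjoint i (Set.disjoint_left.mpr fun β h1 h2 => by
    simp only [Set.mem_ofPred_eq, LinearMap.neg_apply] at h1 h2; linarith)

variable [Dec i]

variable {i} in
omit [CharZero F] in
lemma Stb.le_sup {q : Submodule F L} (hq : Stb i q) {S T R : Set (Ch F C)}
    (h : ∀ β ∈ R, β ∈ S ∨ β ∈ T) : q ⊓ WS i R ≤ (q ⊓ WS i S) ⊔ (q ⊓ WS i T) := fun _ hx =>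
  hq.indS (P := fun x => x ∈ (q ⊓ WS i S) ⊔ (q ⊓ WS i T)) (zero_mem _) (fun _ _ => add_mem)
    (fun β hβ _ hx hx' => (h β hβ).elim (fun h => Submodule.mem_sup_left ⟨hx, mem_WS h hx'⟩)
      (fun h => Submodule.mem_sup_right ⟨hx, mem_WS h hx'⟩)) hx.1 hx.2

variable {i} in
lemma Stb.le_pP_sup_nP {q : Submodule F L} (hq : Stb i q) :
    q ≤ (q ⊓ pP i (-l)) ⊔ (q ⊓ nP i l) := fun x hx =>
  hq.le_sup (R := Set.univ) (fun β _ => by
    simp only [Set.mem_ofPred_eq, LinearMap.neg_apply]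
    rcases le_or_gt (l β) 0 with h | h
    · left; linarith
    · right; exact h) ⟨hx, Dec.top x⟩

variable {i} in
lemma Stb.pP_le {q : Submodule F L} (hq : Stb i q) :
    q ⊓ pP i l ≤ (q ⊓ zP i l) ⊔ (q ⊓ nP i l) :=
  hq.le_sup (fun _ h => (eq_or_lt_of_le h).imp Eq.symm id)

lemma isCompl_pP_nP : IsCompl (pP i (-l)) (nP i l) :=
  ⟨disjoint_pP_nP i l, codisjoint_iff.mpr (eq_top_iff.mpr (by
    simpa using (stb_top i).le_pP_sup_nP l))⟩

variable {i l} [Module.Finite F L]

lemma hc_unique {u : U F L} (hu : u ∈ Ua (pP i (-l))) (h : u ∈ lI (nP i l)) : u = 0 :=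
  eq_zero_of_compl (sub_pP i _) (sub_nP i _) (isCompl_pP_nP i l) hu h

lemma neg_mem_rI {q : Submodule F L} (hq : Sub q) (hs : Stb i q) {u : U F L} (hu : u ∈ Ua q)
    {β : Ch F C} (hβ : l β < 0) (h : u ∈ W (jU i) β) : u ∈ rI (q ⊓ nP i (-l)) := by
  obtain ⟨b, hb, h1⟩ := ua_dec_right hq (hq.inf (sub_pP i l)) (hq.inf (sub_nP i (-l)))
    inf_le_left inf_le_left (by
      simpa using (disjoint_pP_nP i (-l)).mono inf_le_right inf_le_right)
    (by simpa using hs.le_pP_sup_nP (-l)) hu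
  have h2 := (hs.inf (stb_WS i _)).rI.pr_mem h1 β
  have h3 : b ∈ WS (jU i) {β | 0 ≤ l β} := Ua_mem_WS (by simp)
    (fun β hβ γ hγ => by simp only [Set.mem_ofPred_eq, map_add] at *; linarith) inf_le_right hb
  rwa [map_sub, pr_of_mem h, pr_of_WS (by simpa) h3, sub_zero] at h2

omit [Module.Finite F L] in
lemma zero_part {q : Submodule F L} (hs : Stb i q) {b : U F L} (hb : b ∈ Ua (q ⊓ pP i l))
    (h : b ∈ W (jU i) 0) : b ∈ Ua (q ⊓ zP i l) := by
  have hz : ∀ u ∈ Ua (q ⊓ zP i l), u ∈ WS (jU i) {β | l β = 0} := fun u hu => Ua_mem_WS (by simp)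
    (fun β hβ γ hγ => by simp only [Set.mem_ofPred_eq, map_add] at *; linarith) inf_le_right hu
  obtain ⟨b0, hb0, h1⟩ : ∃ b0 ∈ Ua (q ⊓ zP i l), b - b0 ∈ WS (jU i) {β | 0 < l β} := by
    refine Ua_induction (P := fun b => ∃ b0 ∈ Ua (q ⊓ zP i l), b - b0 ∈ WS (jU i) {β | 0 < l β})
      ⟨1, one_mem _, by simp⟩ ?_ ?_ ?_ hb
    · rintro u v ⟨a, ha, h1⟩ ⟨b, hb, h2⟩
      exact ⟨a + b, add_mem ha hb, by convert add_mem h1 h2 using 1; abel⟩
    · rintro c u ⟨a, ha, h1⟩
      exact ⟨c • a, Subalgebra.smul_mem _ ha _, by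
        convert Submodule.smul_mem _ c h1 using 1; rw [smul_sub]⟩
    · rintro y hy u ⟨a, ha, h1⟩
      obtain ⟨y0, hy0, y1, hy1, rfl⟩ := Submodule.mem_sup.mp (hs.pP_le l hy)
      refine ⟨ι F y0 * a, mul_mem (ι_mem_Ua hy0) ha, ?_⟩
      have a1 := mul_mem_WS (R := {β | 0 < l β}) (fun β hβ γ hγ => by
        simp only [Set.mem_ofPred_eq, map_add] at *; linarith) (WS_map (ι F) hy.2) h1
      have a2 := mul_mem_WS (R := {β | 0 < l β}) (fun β hβ γ hγ => by
        simp only [Set.mem_ofPred_eq, map_add] at *; linarith) (WS_map (ι F) hy1.2) (hz a ha)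
      convert add_mem a1 a2 using 1
      rw [map_add]; noncomm_ring
  have := eq_zero_of_WS (S := {β | l β = 0}) (fun β h1 h2 => by
    simp only [Set.mem_ofPred_eq] at *; linarith) (sub_mem (mem_WS (by simp) h) (hz _ hb0)) h1
  rwa [sub_eq_zero.mp this]

theorem hc (l : Ch F C →ₗ[ℚ] ℚ) {q : Submodule F L} (hq : Sub q) (hs : Stb i q) {a : U F L}
    (ha : a ∈ Ua q) (h : a ∈ W (jU i) 0) : ∃ a0 ∈ Ua (q ⊓ zP i l),
      a - a0 ∈ lI (q ⊓ nP i l) ∧ a - a0 ∈ rI (q ⊓ nP i (-l)) := by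
  obtain ⟨b, hb, h1⟩ := ua_dec hq (hq.inf (sub_pP i (-l))) (hq.inf (sub_nP i l))
    inf_le_left inf_le_left ((disjoint_pP_nP i l).mono inf_le_right inf_le_right)
    (hs.le_pP_sup_nP l) ha
  refine ⟨pr (jU i) 0 b, zP_neg i l ▸ zero_part hs ((hs.inf (stb_WS i _)).Ua.pr_mem hb 0)
    (pr_mem _ _), ?_, ?_⟩
  · have := (hs.inf (stb_WS i _)).lI.pr_mem (h1 _ fun v _ y hy => mem_lI v hy) 0
    rwa [map_sub, pr_of_mem h] at this
  · have := h1 ((rI (q ⊓ nP i (-l))).comap (pr (jU i) 0)) (by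
      intro v hv y hy
      refine hs.Ua.ind (P := fun v => v * ι F y ∈ (rI (q ⊓ nP i (-l))).comap (pr (jU i) 0))
        (by simp) (fun a b ha hb => by rw [add_mul]; exact add_mem ha hb) (fun β v hv hv' => ?_) hv
      refine hs.indS (P := fun y => v * ι F y ∈ (rI (q ⊓ nP i (-l))).comap (pr (jU i) 0))
        (by simp) (fun a b ha hb => by rw [map_add, mul_add]; exact add_mem ha hb)
        (fun γ hγ y _ hy' => ?_) hy.1 hy.2
      have h2 := mul_mem_W hv' (W_map (ι F) hy')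
      rw [Submodule.mem_comap]
      by_cases h0 : 0 = β + γ
      · rw [pr_of_mem (h0 ▸ h2)]
        refine Y_mul (neg_mem_rI hq hs hv ?_ hv') _
        have := congrArg l h0
        simp only [Set.mem_ofPred_eq, map_zero, map_add] at this hγ
        linarith
      · rw [pr_of_ne h0 h2]; exact zero_mem _)
    rwa [Submodule.mem_comap, map_sub, pr_of_mem h] at this

end

end Pool.Agent.P.MP_37e2d5_al
end

-- part Pool.Agent.P.MP_37e2d5_al.Trace
section

/-! Traces on invariant subspaces, flags of weight vectors. -/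

namespace Pool.Agent.P.MP_37e2d5_al

open UniversalEnvelopingAlgebra Module LieAlgebra LinearMap

attribute [local instance 100] LieRing.ofAssociativeRing
attribute [-simp] UniversalEnvelopingAlgebra.ι_apply

noncomputable section

variable {F : Type*} [Field F]

section tr

variable {V : Type*} [AddCommGroup V] [Module F V]

/-- a chosen projection -/
def prj (W : Submodule F V) : End F V := W.projection _ W.exists_isCompl.choose_spec

lemma prj_mem (W : Submodule F V) (v : V) : prj W v ∈ W := Submodule.projection_apply_mem _ _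

lemma prj_of_mem {W : Submodule F V} {v : V} (hv : v ∈ W) : prj W v = v :=
  Submodule.projection_apply_of_mem_left _ hv

/-- trace on a subspace -/
def trOn (W : Submodule F V) : End F V →ₗ[F] F := trace F V ∘ₗ mulRight F (prj W)

lemma trOn_eq {W : Submodule F V} {P f : End F V} (h1 : ∀ v, P v ∈ W) (h2 : ∀ v ∈ W, P v = v)
    (hf : ∀ v ∈ W, f v ∈ W) : trOn W f = trace F V (f * P) := by
  have e1 : f * prj W = P * (f * prj W) := by
    ext v; simp [h2 _ (hf _ (prj_mem W v))]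
  have e2 : f * prj W * P = f * P := by
    ext v; simp [prj_of_mem (h1 v)]
  rw [trOn, comp_apply, mulRight_apply, e1, trace_mul_comm, e2]

lemma trOn_top (f : End F V) : trOn ⊤ f = trace F V f := by
  rw [trOn_eq (P := 1) (by simp) (by simp) (by simp), mul_one]

lemma trOn_bot (f : End F V) : trOn ⊥ f = 0 := by
  rw [trOn_eq (P := 0) (by simp) (by simp) (by simp), mul_zero, map_zero]

lemma trOn_comm {W : Submodule F V} {f g : End F V} (hf : ∀ v ∈ W, f v ∈ W)
    (hg : ∀ v ∈ W, g v ∈ W) : trOn W (f * g) = trOn W (g * f) := by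
  have e1 : f * g * prj W = (f * prj W) * (g * prj W) := by
    ext v; simp [prj_of_mem (hg _ (prj_mem W v))]
  have e2 : g * f * prj W = (g * prj W) * (f * prj W) := by
    ext v; simp [prj_of_mem (hf _ (prj_mem W v))]
  simp only [trOn, comp_apply, mulRight_apply]
  rw [e1, e2, trace_mul_comm]

lemma trOn_congr {W : Submodule F V} {f g : End F V} (h : ∀ v ∈ W, f v = g v) :
    trOn W f = trOn W g := by
  simp only [trOn, comp_apply, mulRight_apply]
  congr 1
  ext v
  exact h _ (prj_mem W v)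

variable [Module.Finite F V]

lemma trOn_sup_span {W : Submodule F V} {f : End F V} (hf : ∀ v ∈ W, f v ∈ W) {x : V} (hx : x ∉ W)
    {t : F} (ht : f x - t • x ∈ W) : trOn (W ⊔ F ∙ x) f = trOn W f + t := by
  obtain ⟨φ0, h1, h2⟩ := Submodule.exists_le_ker_of_notMem hx
  let φ := (φ0 x)⁻¹ • φ0
  have φx : φ x = 1 := by simp [φ, h1]
  have φW : ∀ v ∈ W, φ v = 0 := fun v hv => by simp [φ, mem_ker.mp (h2 hv)]
  rw [trOn_eq (W := W) (P := prj W * (1 - φ.smulRight x)) (fun v => prj_mem _ _)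
    (fun v hv => by simp [φW v hv, prj_of_mem hv]) hf,
    trOn_eq (P := prj W * (1 - φ.smulRight x) + φ.smulRight x), mul_add, map_add]
  · congr 1
    have : f * φ.smulRight x = φ.smulRight (f x) := by ext; simp
    rw [this, trace_smulRight]
    simpa [φx, sub_eq_zero] using φW _ ht
  · exact fun v => Submodule.add_mem_sup (prj_mem _ _)
      (Submodule.smul_mem _ _ (Submodule.mem_span_singleton_self x))
  · intro v hv
    obtain ⟨y, hy, s, rfl⟩ := mem_sup_span.mp hv
    simp [φW y hy, φx, prj_of_mem hy]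
  · intro v hv
    obtain ⟨y, hy, s, rfl⟩ := mem_sup_span.mp hv
    refine mem_sup_span.mpr ⟨f y + s • (f x - t • x), add_mem (hf y hy) (W.smul_mem _ ht), s * t, ?_⟩
    simp [smul_sub, smul_smul, add_assoc]

omit [Module.Finite F V] in
lemma trOn_sup {W W' : Submodule F V} {f : End F V} (hf : ∀ v ∈ W, f v ∈ W)
    (hf' : ∀ v ∈ W', f v ∈ W') (hd : Disjoint W W') :
    trOn (W ⊔ W') f = trOn W f + trOn W' f := by
  obtain ⟨Q', hQ1, hQ2⟩ := hd.symm.exists_isCompl
  let Q := W.projection Q' hQ2.symm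
  have q1 : ∀ v ∈ W, Q v = v := fun v hv => Submodule.projection_apply_of_mem_left _ hv
  have q2 : ∀ v ∈ W', Q v = 0 := fun v hv =>
    (Submodule.projection_apply_eq_zero_iff _).mpr (hQ1 hv)
  rw [trOn_eq (W := W) (P := Q) (fun v => Submodule.projection_apply_mem _ _) q1 hf,
    trOn_eq (W := W') (P := prj W' * (1 - Q)) (fun v => prj_mem _ _)
      (fun v hv => by simp [q2 v hv, prj_of_mem hv]) hf',
    trOn_eq (P := Q + prj W' * (1 - Q)), mul_add, map_add]
  · exact fun v => Submodule.add_mem_sup (Submodule.projection_apply_mem _ _) (prj_mem _ _)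
  · intro v hv
    obtain ⟨a, ha, b, hb, rfl⟩ := Submodule.mem_sup.mp hv
    simp [q1 a ha, q2 b hb, prj_of_mem hb]
  · intro v hv
    obtain ⟨a, ha, b, hb, rfl⟩ := Submodule.mem_sup.mp hv
    rw [map_add]
    exact Submodule.add_mem_sup (hf a ha) (hf' b hb)

lemma trOn_nil {W : Submodule F V} {f : End F V} (hf : ∀ v ∈ W, f v ∈ W)
    (h : ∀ v ∈ W, ∃ k, (f ^ k) v = 0) : trOn W f = 0 := by
  refine (isNilpotent_trace_of_isNilpotent (End.isNilpotent_iff_of_finite.mpr fun v => ?_)).eq_zero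
  obtain ⟨k, hk⟩ := h _ (prj_mem W v)
  have : ∀ k, ∀ v ∈ W, ((f * prj W) ^ k) v = (f ^ k) v := by
    intro k
    induction k with
    | zero => simp
    | succ k ih => intro v hv; simp [pow_succ, prj_of_mem hv, ih _ (hf v hv)]
  refine ⟨k + 1, ?_⟩
  rw [mulRight_apply, pow_succ, End.mul_apply, End.mul_apply, this _ _ (hf _ (prj_mem W v)),
    ← End.mul_apply, ← pow_succ, pow_succ', End.mul_apply, hk, map_zero]

lemma engel_step {C : Type*} [LieRing C] [LieAlgebra F C] (π : C →ₗ⁅F⁆ End F V)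
    {T a : Submodule F V} (hT : ∀ c, ∀ v ∈ T, π c v ∈ T)
    (hn : ∀ c, ∀ v ∈ T, ∃ k, (π c ^ k) v = 0) (h : ¬ T ≤ a) :
    ∃ x ∈ T, x ∉ a ∧ ∀ c, π c x ∈ a := by
  let := LieRingModule.compLieHom V π
  have := LieModule.compLieHom V π
  let T' : LieSubmodule F C V := { T with lie_mem := fun {c v} hv => hT c v hv }
  have hnil : LieModule.IsNilpotent C T' := by
    rw [LieModule.isNilpotent_iff_forall' (R := F)]
    intro c
    refine End.isNilpotent_iff_of_finite.mpr fun v => ?_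
    obtain ⟨k, hk⟩ := hn c v v.2
    refine ⟨k, Subtype.ext ?_⟩
    have : ∀ (k : ℕ) (v : T'), (((LieModule.toEnd F C T' c) ^ k) v : V) = (π c ^ k) v := by
      intro k
      induction k with
      | zero => simp
      | succ k ih => intro v; rw [pow_succ, pow_succ, End.mul_apply, End.mul_apply, ih]; rfl
    rw [this, hk]; rfl
  obtain ⟨n, hn⟩ := LieModule.IsNilpotent.nilpotent F C T'
  obtain ⟨k, w, hw, ⟨w', hw', rfl⟩, hwa, h⟩ := exists_filt_step
    (fun k => (LieModule.lowerCentralSeries F C T' k).toSubmodule.map T.subtype) (a := a) (b := T)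
    (fun v hv => ⟨⟨v, hv⟩, trivial, rfl⟩) (n := n) (by simp [hn]) h
  refine ⟨_, hw, hwa, fun c => h ⟨hT c _ hw, LieModule.toEnd F C T' c w', ?_, rfl⟩⟩
  simp only [LieModule.lowerCentralSeries_succ]
  exact LieSubmodule.lie_mem_lie (M := T') (LieSubmodule.mem_top c) hw'

end tr

variable {C L B : Type*} [LieRing C] [LieAlgebra F C] [LieRing L] [LieAlgebra F L]
  [LieRing B] [LieAlgebra F B]

/-- trace character -/
def TC (f : B →ₗ⁅F⁆ L) (a : Submodule F L) (h : ∀ b, Nrm (f b) a) : Ch F B :=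
  ⟨trOn a ∘ₗ (((ad F L).comp f : B →ₗ⁅F⁆ End F L) : B →ₗ[F] End F L), fun x y => by
    simp only [comp_apply, LieHom.coe_toLinearMap, LieHom.map_lie,
      LieRing.of_associative_ring_bracket, map_sub]
    exact sub_eq_zero.mpr (trOn_comm (h x) (h y))⟩

@[simp] lemma TC_apply (f : B →ₗ⁅F⁆ L) (a : Submodule F L) (h : ∀ b, Nrm (f b) a) (b : B) :
    (TC f a h).1 b = trOn a (ad F L (f b)) := rfl

variable [Module.Finite F L] [LieRing.IsNilpotent C] {i : C →ₗ⁅F⁆ L}

lemma exists_wvec {a b : Submodule F L} (hb : Stb i b) {β : Ch F C} (h : ¬ b ⊓ W i β ≤ a) :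
    ∃ x ∈ b, x ∈ W i β ∧ x ∉ a ∧ ∀ c, ⁅i c, x⁆ - β.1 c • x ∈ a := by
  have e : ∀ c, tw ((ad F L).comp i) (-β) c = ad F L (i c) - β.1 c • 1 := fun c => by
    rw [tw_apply, Algebra.algebraMap_eq_smul_one]; simp [sub_eq_add_neg]
  obtain ⟨x, hx, hxa, h⟩ := engel_step (tw ((ad F L).comp i) (-β)) (T := b ⊓ W i β)
    (fun c v hv => by
      rw [e]
      exact sub_mem ((hb.inf (stb_W i β)) c v hv) (Submodule.smul_mem _ _ hv))
    (fun c v hv => by rw [e]; exact mem_W.mp hv.2 c) h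
  exact ⟨x, hx.1, hx.2, hxa, fun c => by simpa [e] using h c⟩

omit [Module.Finite F L] [LieRing.IsNilpotent C] in
lemma Stb.sup_span {a : Submodule F L} (ha : Stb i a) {x : L} {β : Ch F C}
    (h : ∀ c, ⁅i c, x⁆ - β.1 c • x ∈ a) : Stb i (a ⊔ F ∙ x) := fun c v hv => by
  obtain ⟨y, hy, s, rfl⟩ := mem_sup_span.mp hv
  refine mem_sup_span.mpr ⟨⁅i c, y⁆ + s • (⁅i c, x⁆ - β.1 c • x),
    add_mem (ha c y hy) (a.smul_mem _ (h c)), s * β.1 c, ?_⟩
  simp [smul_sub, smul_smul, add_assoc]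

variable (i) in
lemma finite_W : {β | W i β ≠ ⊥}.Finite :=
  WellFoundedGT.finite_ne_bot_of_iSupIndep (W_indep i)

variable [Dec i]

lemma trace_flag (n : ℕ) : ∀ {a b : Submodule F L}, Stb i a → Stb i b → a ≤ b →
    finrank F b = finrank F a + n → ∃ l : List (Ch F C), l.length = n ∧
      (∀ β ∈ l, ¬ b ⊓ W i β ≤ a) ∧ b ≤ a ⊔ WS i {β | β ∈ l} ∧
      (∀ c, trOn b (ad F L (i c)) = trOn a (ad F L (i c)) + (l.map fun β => β.1 c).sum) ∧
      ∀ c c', trOn b (ad F L (i c) * ad F L (i c')) = trOn a (ad F L (i c) * ad F L (i c')) +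
        (l.map fun β => β.1 c * β.1 c').sum := by
  induction n with
  | zero =>
    intro a b _ _ hab hn
    obtain rfl := Submodule.eq_of_le_of_finrank_eq hab hn.symm
    exact ⟨[], by simp⟩
  | succ n ih =>
    intro a b ha hb hab hn
    obtain ⟨β, hβ⟩ : ∃ β, ¬ b ⊓ W i β ≤ a := by
      by_contra hc
      push Not at hc
      have := Submodule.finrank_mono (hb.le fun β x hx hx' => hc β ⟨hx, hx'⟩)
      omega
    obtain ⟨x, hx, hxW, hxa, h⟩ := exists_wvec hb hβ
    obtain ⟨l, h1, h2, h3, h4, h5⟩ := ih (ha.sup_span h) hb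
      (sup_le hab ((Submodule.span_singleton_le_iff_mem _ _).mpr hx))
      (by rw [Submodule.finrank_sup_span_singleton hxa]; omega)
    refine ⟨β :: l, by simp [h1], ?_, ?_, fun c => ?_, fun c c' => ?_⟩
    · intro γ hγ
      rcases List.mem_cons.mp hγ with rfl | hγ
      · exact hβ
      · exact fun hc => h2 γ hγ (hc.trans le_sup_left)
    · refine h3.trans (sup_le (sup_le le_sup_left ?_) (le_sup_of_le_right (WS_mono ?_)))
      · exact (Submodule.span_singleton_le_iff_mem _ _).mpr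
          (Submodule.mem_sup_right (mem_WS (by simp) hxW))
      · intro γ hγ; exact List.mem_cons_of_mem _ hγ
    · rw [h4, trOn_sup_span (f := ad F L (i c)) (ha c) hxa (h c)]; simp [add_assoc]
    · rw [h5, trOn_sup_span (t := β.1 c * β.1 c') (fun v hv => ha c _ (ha c' v hv)) hxa]
      · simp [add_assoc]
      · convert add_mem (ha c _ (h c')) (a.smul_mem (β.1 c') (h c)) using 1
        simp [smul_sub, smul_smul, mul_comm]

lemma nil_of_shift [CharZero F] {g : End F L} {η : Ch F C} (hη : η ≠ 0)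
    (h : ∀ δ, ∀ x ∈ W i δ, g x ∈ W i (δ + η)) : IsNilpotent g := by
  refine End.isNilpotent_iff_of_finite.mpr fun x => ?_
  refine WS_ind (P := fun x => ∃ k, (g ^ k) x = 0) ⟨0, by simp⟩ ?_ ?_ (Dec.top (i := i) x)
  · rintro x y ⟨k, hk⟩ ⟨l, hl⟩
    refine ⟨k + l, ?_⟩
    rw [map_add, pow_add, End.mul_apply, End.mul_apply, hl, ← End.mul_apply, ← pow_add, add_comm k,
      pow_add, End.mul_apply, hk]
    simp
  · intro δ _ x hx
    have h1 : ∀ k : ℕ, (g ^ k) x ∈ W i (δ + (k : F) • η) := by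
      intro k
      induction k with
      | zero => simpa
      | succ k ih =>
        rw [pow_succ', Nat.cast_succ, add_smul, one_smul, ← add_assoc]
        exact h _ _ ih
    have hinj : Function.Injective fun k : ℕ => δ + (k : F) • η := fun k l hkl => by
      simpa [hη] using smul_left_injective F hη (add_left_cancel hkl)
    obtain ⟨_, ⟨k, rfl⟩, hk⟩ := (Set.infinite_range_of_injective hinj).exists_notMem_finite
      (finite_W i)
    refine ⟨k, ?_⟩
    have := h1 k
    simp only [ne_eq, Set.mem_ofPred_eq, not_not] at hk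
    rwa [hk] at this

lemma ad_nil_of_W [CharZero F] {η : Ch F C} (hη : η ≠ 0) {x : L} (hx : x ∈ W i η) :
    IsNilpotent (ad F L x) :=
  nil_of_shift hη fun _ _ hy => add_comm η _ ▸ lie_mem_W hx hy

omit [Dec i] in
lemma exists_bounds [CharZero F] (l : Ch F C →ₗ[ℚ] ℚ) :
    ∃ m M : ℚ, 0 < m ∧ ∀ β, W i β ≠ ⊥ → 0 < l β → m ≤ l β ∧ l β ≤ M := by
  have hf : ({β | W i β ≠ ⊥} ∩ {β | 0 < l β}).Finite := (finite_W i).inter_of_left _
  by_cases hne : ({β | W i β ≠ ⊥} ∩ {β | 0 < l β}).Nonempty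
  · obtain ⟨a, ha, ha'⟩ := Set.exists_min_image _ l hf hne
    obtain ⟨b, -, hb'⟩ := Set.exists_max_image _ l hf hne
    exact ⟨l a, l b, ha.2, fun β h1 h2 => ⟨ha' β ⟨h1, h2⟩, hb' β ⟨h1, h2⟩⟩⟩
  · exact ⟨1, 1, one_pos, fun β h1 h2 => absurd ⟨β, h1, h2⟩ hne⟩

end

end Pool.Agent.P.MP_37e2d5_al
end

-- part Pool.Agent.P.MP_37e2d5_al.Flip
section

/-! Comparison of left and right Harish-Chandra projections. -/

namespace Pool.Agent.P.MP_37e2d5_al

open UniversalEnvelopingAlgebra Module LieAlgebra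

attribute [local instance 100] LieRing.ofAssociativeRing
attribute [-simp] UniversalEnvelopingAlgebra.ι_apply

noncomputable section

universe u v

variable {F : Type u} [Field F] {C : Type*} {L : Type v} [LieRing C] [LieAlgebra F C]
  [LieRing L] [LieAlgebra F L]

lemma Umap_mul_wvec {i : C →ₗ⁅F⁆ L} {a : Submodule F L} (ha : Stb i a) {x : L} {β : Ch F C}
    (h : ∀ c, ⁅i c, x⁆ - β.1 c • x ∈ a) (u : U F C) :
    Umap i u * ι F x - ι F x * Umap i (tau β u) ∈ rI a := by
  induction u using U_induction with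
  | h1 => simp
  | hadd u v hu hv => convert add_mem hu hv using 1; simp only [map_add]; noncomm_ring
  | hsmul c u hu => convert Submodule.smul_mem _ c hu using 1; simp [smul_sub]
  | hmul c u hu =>
    convert add_mem ((ha c).smul_mem_Y hu) (mem_rI (h c) (Umap i (tau β u))) using 1
    have : ι F ⁅i c, x⁆ = ι F (i c) * ι F x - ι F x * ι F (i c) := by rw [ι_comm (i c) x]; abel
    simp only [map_mul, Umap_ι, tau_ι, map_add, AlgHom.commutes, smul_eq_mul, map_sub, this,
      map_smul, Algebra.smul_def, Algebra.commutes (β.1 c) (ι F x)]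
    noncomm_ring

variable [CharZero F] [Module.Finite F L] [LieRing.IsNilpotent C] {i : C →ₗ⁅F⁆ L}
  {l : Ch F C →ₗ[ℚ] ℚ}

lemma exists_filt_nP (i : C →ₗ⁅F⁆ L) (l : Ch F C →ₗ[ℚ] ℚ) : ∃ (d : ℕ → Submodule F L) (N : ℕ),
    nP i l ≤ d 0 ∧ (∀ k, ∀ x ∈ d k, ∀ y ∈ d k, ⁅x, y⁆ ∈ d (k + 1)) ∧ d N = ⊥ := by
  obtain ⟨m, M, hm, h⟩ := exists_bounds (i := i) l
  obtain ⟨N, hN⟩ := exists_nat_gt (M / m)
  rw [div_lt_iff₀ hm] at hN
  refine ⟨fun k => WS i {β | (k + 1) * m ≤ l β}, N, WS_le fun β hβ => ?_,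
    fun k x hx y hy => lie_mem_WS (fun β hβ γ hγ => ?_) hx hy, eq_bot_iff.mpr (WS_le fun β hβ => ?_)⟩
  · by_cases h0 : W i β = ⊥
    · simp [h0]
    · exact fun _ => mem_WS (by simpa using (h β h0 hβ).1)
  · simp only [Set.mem_ofPred_eq, map_add, Nat.cast_add, Nat.cast_one] at *
    have : (0 : ℚ) ≤ k * m := by positivity
    nlinarith
  · by_contra h0
    simp only [Set.mem_ofPred_eq, le_bot_iff] at hβ h0
    have h1 : (0 : ℚ) ≤ N * m := by positivity
    have := (h β h0 (by nlinarith)).2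
    nlinarith

lemma noPerf_nP {n : Submodule F L} (hn : n ≤ nP i l) : NoPerf n := by
  obtain ⟨d, N, h1, h2, h3⟩ := exists_filt_nP i l
  exact noPerf_of_filt d (hn.trans h1) (fun k x hx y hy _ _ => h2 k x hx y hy) h3

variable [Dec i]

lemma exists_top_wvec {n a : Submodule F L} (hn : n ≤ nP i l) (hs : Sub n) (hst : Stb i n)
    (h : ¬ n ≤ a) : ∃ β : Ch F C, ∃ x ∈ n, x ∉ a ∧ (∀ c, ⁅i c, x⁆ - β.1 c • x ∈ a) ∧
      ∀ y ∈ n, ⁅y, x⁆ ∈ a := by
  have hf : {β | ¬ n ⊓ W i β ≤ a}.Finite := (finite_W i).subset fun β hβ h0 => hβ (by simp [h0])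
  obtain ⟨β, hβ, hmax⟩ := Set.exists_max_image _ l hf (by
    by_contra hc
    rw [Set.not_nonempty_iff_eq_empty, Set.eq_empty_iff_forall_notMem] at hc
    exact h (hst.le fun β x hx hx' => not_not.mp (hc β) ⟨hx, hx'⟩))
  obtain ⟨x, hx, hxW, hxa, hc⟩ := exists_wvec hst hβ
  refine ⟨β, x, hx, hxa, hc, fun y hy => ?_⟩
  refine hst.indS (P := fun y => ⁅y, x⁆ ∈ a) (by simp)
    (fun y y' h1 h2 => by rw [add_lie]; exact add_mem h1 h2) (fun γ hγ y hy hy' => ?_) hy (hn hy)
  have : n ⊓ W i (γ + β) ≤ a := by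
    by_contra hc
    have := hmax _ hc
    simp only [Set.mem_ofPred_eq, map_add] at this hγ
    linarith
  exact this ⟨hs _ hy _ hx, lie_mem_W hy' hxW⟩

theorem flip {n : Submodule F L} (hn : n ≤ nP i l) (hs : Sub n) (hst : Stb i n) {z : U F L}
    (hz : ∀ x ∈ n, z * ι F x = ι F x * z) {u : U F C} (h : z - Umap i u ∈ rI n) :
    z - Umap i (tau (TC i n hst) u) ∈ lI n := by
  have key : ∀ (k : ℕ) (a : Submodule F L) (ha : Stb i a), a ≤ n → (∀ y ∈ n, Nrm y a) →
      finrank F n = finrank F a + k → ∀ (N : Type (max u v)) [AddCommGroup N] [Module (U F L) N]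
      [Module F N] [IsScalarTower F (U F L) N], Reg (ι F) n (finrank F a) N → ∀ m : N,
      (∀ y ∈ n, ι F y • m ∈ Y (ι F) a N) →
      (z - Umap i (tau (TC i n hst - TC i a ha) u)) • m ∈ Y (ι F) a N := by
    intro k
    induction k with
    | zero =>
      intro a ha han _ hk N _ _ _ _ _ m _
      obtain rfl := Submodule.eq_of_le_of_finrank_eq han hk.symm
      rw [sub_self, tau_zero]
      exact Y_smul h m
    | succ k ih =>
      intro a ha han hna hk N _ _ _ _ hN m hm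
      obtain ⟨β, x, hx, hxa, hc, hy⟩ := exists_top_wvec hn hs hst (a := a) (fun hc => by
        have := Submodule.finrank_mono hc; omega)
      have hsa : Sub a := fun y hy y' hy' => hna y (han hy) y' hy'
      have hdim := Submodule.finrank_sup_span_singleton hxa
      let π := Finsupp.linearCombination (U F L) (id : N → N)
      have hπ : Function.Surjective π := fun v => ⟨Finsupp.single v 1, by simp [π]⟩
      have hP : ∀ k, Reg (ι F) n k (N →₀ U F L) := fun k => (reg_U n k).finsupp N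
      have lift : ∀ g : N →₀ U F L, π g ∈ Y (ι F) a N → ∃ w : LinearMap.ker π,
          g - w ∈ Y (ι F) a (N →₀ U F L) := fun g hg => by
        obtain ⟨g', h1, h2⟩ := Y_lift π hπ hg
        exact ⟨⟨g - g', by simp [h2]⟩, by simpa⟩
      obtain ⟨m0, rfl⟩ := hπ m
      obtain ⟨m', hm'⟩ := lift (ι F x • m0) (by simpa using hm x hx)
      have h1 := ih (a ⊔ F ∙ x) (ha.sup_span hc)
        (sup_le han ((Submodule.span_singleton_le_iff_mem _ _).mpr hx)) (by
          intro y hyn w hw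
          obtain ⟨w, hw', t, rfl⟩ := mem_sup_span.mp hw
          rw [lie_add, lie_smul]
          exact Submodule.mem_sup_left (add_mem (hna y hyn w hw') (a.smul_mem _ (hy y hyn))))
        (by omega) (LinearMap.ker π)
        (hdim ▸ reg_ker (noPerf_nP hn) π hπ hN (hP _)) m' (by
          intro y hyn
          obtain ⟨w, hw⟩ := lift (ι F y • m0) (by simpa using hm y hyn)
          have := pure (noPerf_nP hn) π hπ hN han hsa le_rfl (ι F y • m' - ι F x • w) (by
            have := sub_mem (add_mem ((hna x hx).smul_mem_Y hw) (mem_Y (hy y hyn) m0))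
              ((hna y hyn).smul_mem_Y hm')
            convert this using 1
            simp only [smul_sub, smul_smul, ι_comm y x, add_smul, AddSubgroupClass.coe_sub,
              SetLike.val_smul]
            abel)
          rw [← sub_add_cancel (ι F y • m') (ι F x • w)]
          exact add_mem (Y_mono le_sup_left this) (mem_Y (κ := ι F) (mem_sup_span_self a x) w))
      have hT : TC i n hst - TC i a ha = β + (TC i n hst - TC i _ (ha.sup_span hc)) := by
        ext c
        simp [trOn_sup_span (f := ad F L (i c)) (ha c) hxa (hc c)]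
        ring
      rw [hT, ← tau_tau]
      set v := tau (TC i n hst - TC i _ (ha.sup_span hc)) u
      obtain ⟨w, hw⟩ := mem_Y_sup h1
      have h2 : (z - Umap i v) • (ι F x • m0 - m') ∈ Y (ι F) a (N →₀ U F L) := by
        rw [sub_smul]
        exact sub_mem (comm_smul_mem_Y (fun y hy => hz y (han hy)) hm')
          (Ua_smul_Y' (q := rg i) (by rintro _ ⟨c, rfl⟩; exact ha c)
            (Umap_mem_Ua (q := rg i) i (fun c => ⟨c, rfl⟩) v) hm')
      have h3 := hP _ a han hsa (Nat.lt_succ_self _) x hx hxa (hna x hx)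
        ((z - Umap i (tau β v)) • m0 - w) (by
          have := add_mem (add_mem h2 (Y_lmap (LinearMap.ker π).subtype hw))
            (Y_smul (Umap_mul_wvec ha hc v) m0)
          convert this using 1
          simp only [smul_sub, smul_smul, sub_smul, map_sub, map_smul, Submodule.subtype_apply,
            sub_mul, hz x hx]
          abel)
      simpa [w.2.out] using Y_lmap π h3
  have := key (finrank F n) ⊥ (stb_bot i) bot_le (fun _ _ _ hy => by simp_all) (by simp)
    (U F L ⧸ lI n) (fun a _ _ h => by simp at h) (Submodule.Quotient.mk 1) (fun y hy => by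
      rw [← Submodule.Quotient.mk_smul, smul_eq_mul, mul_one,
        (Submodule.Quotient.mk_eq_zero _).mpr (mem_lI' hy)]
      exact zero_mem _)
  have hT : TC i n hst - TC i ⊥ (stb_bot i) = TC i n hst := by ext c; simp [trOn_bot]
  rw [hT] at this
  have := Y_bot this
  rwa [← Submodule.Quotient.mk_smul, smul_eq_mul, mul_one, Submodule.Quotient.mk_eq_zero] at this

end

end Pool.Agent.P.MP_37e2d5_al
end

-- part Pool.Agent.P.MP_37e2d5_al.Wall
section

/-! Wall crossing: the shifted Harish-Chandra projection does not depend on the chamber. -/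

namespace Pool.Agent.P.MP_37e2d5_al

open UniversalEnvelopingAlgebra Module LieAlgebra

attribute [local instance 100] LieRing.ofAssociativeRing
attribute [-simp] UniversalEnvelopingAlgebra.ι_apply

noncomputable section

variable {F : Type*} [Field F] {C L : Type*} [LieRing C] [LieAlgebra F C]
  [LieRing L] [LieAlgebra F L] [CharZero F]

/-- `l` has the signs of the lexicographic combination of `l0` and `l1` on the roots -/
def Lex (i : C →ₗ⁅F⁆ L) (l l0 l1 : Ch F C →ₗ[ℚ] ℚ) : Prop :=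
  ∀ β, W i β ≠ ⊥ → (0 < l β ↔ 0 < l0 β ∨ (l0 β = 0 ∧ 0 < l1 β))

/-- does not vanish on nonzero roots -/
def Gen (i : C →ₗ⁅F⁆ L) (l : Ch F C →ₗ[ℚ] ℚ) : Prop := ∀ β, W i β ≠ ⊥ → l β = 0 → β = 0

lemma Lex.gen {i : C →ₗ⁅F⁆ L} {l l0 l1 : Ch F C →ₗ[ℚ] ℚ} (h : Lex i l l0 l1)
    (h' : Lex i (-l) (-l0) (-l1)) (hg : ∀ β, W i β ≠ ⊥ → l0 β = 0 → l1 β = 0 → β = 0) :
    Gen i l := fun β hβ h0 => by
  have h1 := h β hβ
  have h2 := h' β hβ
  simp only [LinearMap.neg_apply, h0, lt_irrefl, false_iff, neg_zero, not_or, not_and, not_lt,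
    neg_eq_zero] at h1 h2
  have : l0 β = 0 := by linarith [h1.1, h2.1]
  exact hg β hβ this (by linarith [h1.2 this, h2.2 this])

omit [CharZero F] in
lemma TC_congr {B : Type*} [LieRing B] [LieAlgebra F B] {f : B →ₗ⁅F⁆ L} {a b : Submodule F L}
    (h : a = b) (ha : ∀ x, Nrm (f x) a) (hb : ∀ x, Nrm (f x) b) : TC f a ha = TC f b hb := by
  subst h; rfl

variable [Module.Finite F L] [LieRing.IsNilpotent C] (i : C →ₗ⁅F⁆ L)

lemma exists_lex (l0 l1 : Ch F C →ₗ[ℚ] ℚ) :
    ∃ l, Lex i l l0 l1 ∧ Lex i (-l) (-l0) (-l1) := by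
  obtain ⟨N, hN⟩ := ((finite_W i).image fun β => |l1 β| / |l0 β|).bddAbove
  have key : ∀ β, W i β ≠ ⊥ → l0 β ≠ 0 → |l1 β| < (N + 1) * |l0 β| := fun β hβ h0 => by
    have h1 := hN ⟨β, hβ, rfl⟩
    have h2 := abs_pos.mpr h0
    rw [div_le_iff₀ h2] at h1
    linarith
  refine ⟨(N + 1) • l0 + l1, fun β hβ => ?_, fun β hβ => ?_⟩ <;>
    simp only [LinearMap.neg_apply, LinearMap.add_apply, LinearMap.smul_apply, smul_eq_mul] <;>
    rcases lt_trichotomy (l0 β) 0 with h | h | h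
  · have := key β hβ h.ne
    rw [abs_of_neg h, abs_lt] at this
    constructor
    · intro; linarith
    · rintro (h' | h') <;> [linarith; exact absurd h'.1 h.ne]
  · simp [h]
  · have := key β hβ h.ne'
    rw [abs_of_pos h, abs_lt] at this
    exact ⟨fun _ => Or.inl h, fun _ => by linarith⟩
  · have := key β hβ h.ne
    rw [abs_of_neg h, abs_lt] at this
    exact ⟨fun _ => Or.inl (by linarith), fun _ => by linarith⟩
  · simp [h]
  · have := key β hβ h.ne'
    rw [abs_of_pos h, abs_lt] at this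
    constructor
    · intro; linarith
    · rintro (h' | ⟨h', -⟩) <;> linarith

lemma exists_l (p : Submodule ℚ (Ch F C)) : ∃ l : Ch F C →ₗ[ℚ] ℚ, (∀ β ∈ p, l β = 0) ∧
    ∀ β, W i β ≠ ⊥ → l β = 0 → β ∈ p := by
  have : Finite {β // W i β ≠ ⊥ ∧ β ∉ p} := ((finite_W i).subset fun _ h => h.1).to_subtype
  obtain ⟨f, hf⟩ := exists_dual_forall_apply_ne_zero (K := ℚ)
    (fun β : {β // W i β ≠ ⊥ ∧ β ∉ p} => p.mkQ β.1) (fun β => by simpa using β.2.2)
  refine ⟨f ∘ₗ p.mkQ, fun β hβ => ?_, fun β hβ h => ?_⟩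
  · simp [(Submodule.Quotient.mk_eq_zero p).mpr hβ]
  · by_contra hc
    exact hf ⟨β, hβ, hc⟩ h

lemma exists_gen : ∃ l, Gen i l := by
  obtain ⟨l, -, h⟩ := exists_l i ⊥
  exact ⟨l, h⟩

/-- half the sum of the positive roots -/
def rho (l : Ch F C →ₗ[ℚ] ℚ) : Ch F C := (2 : F)⁻¹ • TC i (nP i l) (stb_WS i _)

/-- `γ` is the shifted Harish-Chandra projection of `z` -/
def Gam (l : Ch F C →ₗ[ℚ] ℚ) (z : U F L) (γ : U F C) : Prop :=
  z - Umap i (tau (rho i l) γ) ∈ lI (nP i l)

omit [Module.Finite F L] in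
lemma stb_n0 (l0 l1 : Ch F C →ₗ[ℚ] ℚ) : Stb i (zP i l0 ⊓ nP i l1) :=
  (stb_WS i _).inf (stb_WS i _)

variable {i} [Dec i]

omit [CharZero F] [Module.Finite F L] in
lemma WS_inf (S T : Set (Ch F C)) : WS i S ⊓ WS i T = WS i (S ∩ T) :=
  le_antisymm (fun _ hx => mem_WS_of_pr fun _ hβ => (not_and_or.mp hβ).elim
    (fun h => pr_of_WS h hx.1) (fun h => pr_of_WS h hx.2))
    (le_inf (WS_mono Set.inter_subset_left) (WS_mono Set.inter_subset_right))

omit [Module.Finite F L] in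
lemma Lex.nP_eq {l l0 l1 : Ch F C →ₗ[ℚ] ℚ} (h : Lex i l l0 l1) :
    nP i l = nP i l0 ⊔ (zP i l0 ⊓ nP i l1) := by
  rw [zP, nP, nP, nP, WS_inf, WS_congr (S := {β | 0 < l β})
    (T := {β | 0 < l0 β} ∪ ({β | l0 β = 0} ∩ {β | 0 < l1 β})) h, WS, iSup_union]
  rfl

omit [Module.Finite F L] in
lemma Lex.rho_eq {l l0 l1 : Ch F C →ₗ[ℚ] ℚ} (h : Lex i l l0 l1) :
    rho i l = rho i l0 + (2 : F)⁻¹ • TC i _ (stb_n0 i l0 l1) := by
  rw [rho, rho, ← smul_add, TC_congr h.nP_eq _ ((stb_WS i _).sup (stb_n0 i l0 l1))]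
  congr 1
  ext c
  exact trOn_sup (stb_WS i _ c) (stb_n0 i l0 l1 c)
    ((disjoint_pP_nP i l0).symm.mono_right (inf_le_left.trans (zP_le_pP_neg i l0)))

omit [Module.Finite F L] [Dec i] in
lemma Umap_mem_zP (l : Ch F C →ₗ[ℚ] ℚ) (u : U F C) : Umap i u ∈ Ua (zP i l) :=
  Umap_mem_Ua i (fun c => W_zero_le_zP i l (i_mem_W i c)) u

lemma hc_eq {l : Ch F C →ₗ[ℚ] ℚ} {z : U F L} {u u' : U F C} (h : z - Umap i u ∈ lI (nP i l))
    (h' : z - Umap i u' ∈ lI (nP i l)) : Umap i u = Umap i u' := by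
  refine sub_eq_zero.mp (hc_unique (l := l) (Ua_mono (zP_le_pP_neg i l)
    (sub_mem (Umap_mem_zP l u) (Umap_mem_zP l u'))) ?_)
  convert sub_mem h' h using 1
  abel

lemma exists_z0 (l : Ch F C →ₗ[ℚ] ℚ) {z : U F L} (hz : Cen z) : ∃ z0 ∈ Ua (zP i l),
    (∀ x ∈ zP i l, z0 * ι F x = ι F x * z0) ∧ z - z0 ∈ lI (nP i l) := by
  obtain ⟨z0, h1, h2, -⟩ := hc l (q := ⊤) (fun _ _ _ _ => trivial) (stb_top i) (mem_Ua_top z)
    (hz.mem_W i)
  rw [top_inf_eq] at h1 h2
  refine ⟨z0, h1, fun x hx => sub_eq_zero.mp (hc_unique (i := i) (l := l)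
    (Ua_mono (zP_le_pP_neg i l)
      (sub_mem (mul_mem h1 (ι_mem_Ua hx)) (mul_mem (ι_mem_Ua hx) h1))) ?_), h2⟩
  convert sub_mem (lI_mul (ι F x) h2) ((nrm_nP (zP_le_pP i l hx)).lI_mul h2) using 1
  rw [mul_sub, sub_mul, hz]
  abel

lemma exists_u (h0 : W i 0 ≤ rg i) {l0 l1 : Ch F C →ₗ[ℚ] ℚ}
    (hg : ∀ β, W i β ≠ ⊥ → l0 β = 0 → l1 β = 0 → β = 0) {z0 : U F L} (h1 : z0 ∈ Ua (zP i l0))
    (h2 : ∀ x ∈ zP i l0, z0 * ι F x = ι F x * z0) : ∃ u, z0 - Umap i u ∈ lI (zP i l0 ⊓ nP i l1) ∧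
      z0 - Umap i (tau (TC i _ (stb_n0 i l0 (-l1))) u) ∈ lI (zP i l0 ⊓ nP i (-l1)) := by
  obtain ⟨a, ha, h3, h4⟩ := hc l1 (sub_zP i l0) (stb_WS i _) h1 (mem_W_zero fun c => by
    simp [LieRing.of_associative_ring_bracket, h2 _ (W_zero_le_zP i l0 (i_mem_W i c))])
  obtain ⟨u, rfl⟩ := mem_Ua_rg (Ua_mono (q' := rg i) (by
    rw [zP, zP, WS_inf]
    refine WS_le fun β hβ => ?_
    by_cases h : W i β = ⊥
    · simp [h]
    · rwa [hg β h hβ.1 hβ.2]) ha)
  exact ⟨u, h3, flip inf_le_right ((sub_zP i l0).inf (sub_nP i _)) _ (fun x hx => h2 x hx.1) h4⟩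

variable [Module.Finite F C]

theorem wall (hi : Function.Injective i) (h0 : W i 0 ≤ rg i) {l0 l1 lp lm : Ch F C →ₗ[ℚ] ℚ}
    (hg : ∀ β, W i β ≠ ⊥ → l0 β = 0 → l1 β = 0 → β = 0) (hp : Lex i lp l0 l1)
    (hm : Lex i lm l0 (-l1)) {z : U F L} (hz : Cen z) {γ : U F C} (h : Gam i lp z γ) :
    Gam i lm z γ ∧ ∃ z0 ∈ Ua (zP i l0), (∀ x ∈ zP i l0, z0 * ι F x = ι F x * z0) ∧
      z0 - Umap i (tau (rho i l0 + (2 : F)⁻¹ • TC i _ (stb_n0 i l0 l1)) γ) ∈
        lI (zP i l0 ⊓ nP i l1) ∧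
      z0 - Umap i (tau (rho i l0 - (2 : F)⁻¹ • TC i _ (stb_n0 i l0 l1)) γ) ∈
        lI (zP i l0 ⊓ nP i (-l1)) := by
  obtain ⟨z0, h1, h2, h3⟩ := exists_z0 (i := i) l0 hz
  obtain ⟨u, a1, a2⟩ := exists_u h0 hg h1 h2
  obtain ⟨u', b1, b2⟩ := exists_u (l1 := -l1) h0 (by simpa using hg) h1 h2
  rw [TC_congr (by rw [neg_neg]) _ (stb_n0 i l0 l1), neg_neg] at b2
  set T := TC i _ (stb_n0 i l0 l1)
  set T' := TC i _ (stb_n0 i l0 (-l1))
  have e1 := Umap_inj hi (hc_eq (lI_mono inf_le_right a1) (lI_mono inf_le_right b2))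
  have e2 := Umap_inj hi (hc_eq (lI_mono inf_le_right b1) (lI_mono inf_le_right a2))
  have e3 := Umap_inj hi (hc_eq h (u' := u) (by
    convert add_mem (lI_mono (hp.nP_eq ▸ le_sup_left) h3) (lI_mono (hp.nP_eq ▸ le_sup_right) a1)
      using 1
    abel))
  rw [hp.rho_eq] at e3
  have e4 : ∀ t : F, tau (t • (T + T')) u = u := tau_periodic _ _ (by rw [← tau_tau, ← e2, ← e1])
  have e5 : tau (rho i l0 - (2 : F)⁻¹ • T) γ = u' := by
    rw [e2, ← e4 (-1), ← e3, tau_tau, tau_tau]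
    congr 2
    module
  have e6 : tau (rho i lm) γ = u' := by
    rw [e2, ← e4 (-(2 : F)⁻¹), ← e3, tau_tau, tau_tau, hm.rho_eq]
    congr 2
    module
  refine ⟨?_, z0, h1, h2, e3 ▸ a1, e5 ▸ b1⟩
  rw [Gam, e6]
  convert add_mem (lI_mono (hm.nP_eq ▸ le_sup_left) h3) (lI_mono (hm.nP_eq ▸ le_sup_right) b1)
    using 1
  abel

theorem gam_indep (hi : Function.Injective i) (h0 : W i 0 ≤ rg i) {z : U F L} (hz : Cen z)
    {γ : U F C} {l l' : Ch F C →ₗ[ℚ] ℚ} (hl : Gen i l) (hl' : Gen i l') (h : Gam i l z γ) :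
    Gam i l' z γ := by
  let D : (Ch F C →ₗ[ℚ] ℚ) → Set (Ch F C) := fun l => {β | W i β ≠ ⊥ ∧ l β * l' β < 0}
  have hD : ∀ l, (D l).Finite := fun l => (finite_W i).subset fun _ h => h.1
  induction hn : (D l).ncard using Nat.strong_induction_on generalizing l with
  | _ n ih =>
  have sg : ∀ β, W i β ≠ ⊥ → β ∉ D l → (0 < l β ↔ 0 < l' β) := fun β hβ h => by
    by_cases h0 : β = 0
    · simp [h0]
    · have h1 : l β ≠ 0 := fun h => h0 (hl β hβ h)
      have h2 : l' β ≠ 0 := fun h => h0 (hl' β hβ h)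
      have h3 : 0 < l β * l' β := lt_of_le_of_ne (not_lt.mp fun h' => h ⟨hβ, h'⟩)
        (mul_ne_zero h1 h2).symm
      exact pos_iff_pos_of_mul_pos h3
  by_cases hne : (D l).Nonempty
  · obtain ⟨β0, hβ0, hmin⟩ := Set.exists_min_image _ (fun β => -l β / l' β) (hD l) hne
    have hd : ∀ β ∈ D l, l' β ≠ 0 := fun β hβ h => by simpa [h] using hβ.2
    set t := -l β0 / l' β0 with ht
    have ht0 : 0 < t := by
      have := hβ0.2
      have h2 := hd β0 hβ0
      rw [ht, div_pos_iff]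
      rcases lt_or_gt_of_ne h2 with h2 | h2
      · right; constructor <;> nlinarith
      · left; constructor <;> nlinarith
    have hp : Lex i l (l + t • l') l := fun β hβ => by
      simp only [LinearMap.add_apply, LinearMap.smul_apply, smul_eq_mul]
      by_cases hβ' : β ∈ D l
      · have h1 := hmin β hβ'
        have h2 := hβ'.2
        rcases lt_or_gt_of_ne (hd β hβ') with h3 | h3
        · rw [le_div_iff_of_neg h3] at h1
          have h4 : 0 < l β := by nlinarith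
          simp only [h4, true_iff, and_true]
          exact (lt_or_eq_of_le (by linarith)).imp id Eq.symm
        · rw [le_div_iff₀ h3] at h1
          have h4 : ¬ 0 < l β := by intro; nlinarith
          simp only [h4, false_iff, and_false, or_false]
          linarith
      · have h1 := sg β hβ hβ'
        refine ⟨fun h => Or.inl (by nlinarith [h1.mp h]), fun h => h.elim (fun h => ?_) And.right⟩
        by_contra hc
        have := not_lt.mp (mt h1.mpr hc)
        nlinarith [not_lt.mp hc]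
    have hg : ∀ β, W i β ≠ ⊥ → (l + t • l') β = 0 → l β = 0 → β = 0 := fun β hβ _ => hl β hβ
    obtain ⟨lm, hm, hm'⟩ := exists_lex i (l + t • l') (-l)
    refine ih _ (hn ▸ Set.ncard_lt_ncard ⟨fun β hβ => ⟨hβ.1, ?_⟩, fun hc => ?_⟩ (hD l))
      (hm.gen hm' (by simpa using hg)) (wall hi h0 hg hp hm hz h).1 rfl
    · have h1 := hm β hβ.1
      have h2 := hm' β hβ.1
      have h3 := hβ.2
      simp only [LinearMap.add_apply, LinearMap.smul_apply, smul_eq_mul, LinearMap.neg_apply,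
        neg_neg, neg_eq_zero] at h1 h2
      rcases mul_neg_iff.mp h3 with ⟨h4, h5⟩ | ⟨h4, h5⟩
      · rcases h1.mp h4 with h6 | ⟨h6, h7⟩
        · nlinarith [mul_pos ht0 (neg_pos.mpr h5)]
        · nlinarith [mul_pos ht0 (neg_pos.mpr h5)]
      · rcases h2.mp (neg_pos.mpr h4) with h6 | ⟨h6, h7⟩
        · nlinarith [mul_pos ht0 h5]
        · nlinarith [mul_pos ht0 h5]
    · have h1 := hm β0 hβ0.1
      have h2 := hm' β0 hβ0.1
      have h3 := (hc hβ0).2
      have h4 : l β0 + t * l' β0 = 0 := by rw [ht, div_mul_cancel₀ _ (hd β0 hβ0), add_neg_cancel]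
      simp only [LinearMap.add_apply, LinearMap.smul_apply, smul_eq_mul, LinearMap.neg_apply,
        neg_neg, h4, lt_irrefl, neg_zero, true_and, false_or] at h1 h2
      rcases mul_neg_iff.mp h3 with ⟨h5, h6⟩ | ⟨h5, h6⟩
      · nlinarith [mul_pos ht0 (neg_pos.mpr h6), h1.mp h5]
      · nlinarith [mul_pos ht0 h6, h2.mp (neg_pos.mpr h5)]
  · have e : nP i l = nP i l' := WS_congr fun β hβ => sg β hβ fun h => hne ⟨β, h⟩
    rwa [Gam, rho, ← TC_congr e (stb_WS i _), ← e]

omit [Module.Finite F C] in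
lemma exists_gam (h0 : W i 0 ≤ rg i) {l : Ch F C →ₗ[ℚ] ℚ} (hl : Gen i l) {z : U F L}
    (hz : Cen z) : ∃ γ, Gam i l z γ := by
  obtain ⟨z0, h1, -, h3⟩ := exists_z0 (i := i) l hz
  obtain ⟨u, rfl⟩ := mem_Ua_rg (Ua_mono (q' := rg i) (WS_le fun β hβ => by
    by_cases h : W i β = ⊥
    · simp [h]
    · rwa [hl β h hβ]) h1)
  exact ⟨tau (-rho i l) u, by rwa [Gam, tau_tau_neg]⟩

lemma Gam.cen (hi : Function.Injective i) {l : Ch F C →ₗ[ℚ] ℚ} {z : U F L} (hz : Cen z)
    {γ : U F C} (h : Gam i l z γ) : Cen γ := by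
  rw [← tau_neg_tau (rho i l) γ]
  refine (cen_of_ι fun c => Umap_inj hi (hc_eq (l := l) (z := ι F (i c) * z) ?_ ?_)).tau _
  · rw [map_mul, Umap_ι, ← mul_sub]
    exact lI_mul _ h
  · rw [map_mul, Umap_ι, hz, ← sub_mul]
    exact (stb_WS i _ c).lI_mul h

end

end Pool.Agent.P.MP_37e2d5_al
end

-- part Pool.Agent.P.MP_37e2d5_al.Jac
section

/-! Jacobson's refinement of Engel's theorem; graded subalgebras acting nilpotently. -/

namespace Pool.Agent.P.MP_37e2d5_al

open UniversalEnvelopingAlgebra Module LieAlgebra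

attribute [local instance 100] LieRing.ofAssociativeRing
attribute [-simp] UniversalEnvelopingAlgebra.ι_apply

noncomputable section

variable {F : Type*} [Field F] {C L : Type*} [LieRing C] [LieAlgebra F C]
  [LieRing L] [LieAlgebra F L]

/-- lower central series of `L` as a module over a subspace -/
def lcs (a : Submodule F L) : ℕ → Submodule F L
  | 0 => ⊤
  | k + 1 => Submodule.span F {w | ∃ x ∈ a, ∃ v ∈ lcs a k, ⁅x, v⁆ = w}

lemma lie_mem_lcs {a : Submodule F L} {k : ℕ} {x v : L} (hx : x ∈ a) (hv : v ∈ lcs a k) :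
    ⁅x, v⁆ ∈ lcs a (k + 1) := Submodule.subset_span ⟨x, hx, v, hv, rfl⟩

lemma Nrm.lcs {a : Submodule F L} {s : L} (hs : Nrm s a) (k : ℕ) : Nrm s (lcs a k) := by
  induction k with
  | zero => exact fun _ _ => trivial
  | succ k ih =>
    refine Submodule.span_le (p := (Pool.Agent.P.MP_37e2d5_al.lcs a (k + 1)).comap (ad F L s))
      |>.mpr ?_
    rintro _ ⟨x, hx, v, hv, rfl⟩
    simp only [SetLike.mem_coe, Submodule.mem_comap, ad_apply, leibniz_lie s x v]
    exact add_mem (lie_mem_lcs (hs x hx) hv) (lie_mem_lcs hx (ih v hv))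

/-- all elements are ad-nilpotent -/
def Nil (a : Submodule F L) : Prop := ∀ x ∈ a, IsNilpotent (ad F L x)

variable [Module.Finite F L]

lemma exists_lcs {a : Submodule F L} (ha : Sub a) (hn : Nil a) : ∃ N, lcs a N = ⊥ := by
  have : LieModule.IsNilpotent ha.toLie L := by
    rw [LieModule.isNilpotent_iff_forall' (R := F)]
    exact fun x => hn x x.2
  obtain ⟨N, hN⟩ := LieModule.IsNilpotent.nilpotent F ha.toLie L
  have key : ∀ k, lcs a k ≤ (LieModule.lowerCentralSeries F ha.toLie L k).toSubmodule := by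
    intro k
    induction k with
    | zero => simp
    | succ k ih =>
      refine Submodule.span_le.mpr ?_
      rintro _ ⟨x, hx, v, hv, rfl⟩
      rw [LieModule.lowerCentralSeries_succ]
      exact LieSubmodule.lie_mem_lie (LieSubmodule.mem_top (⟨x, hx⟩ : ha.toLie)) (ih hv)
  exact ⟨N, by simpa [hN] using key N⟩

lemma Nil.isNilpotent {a : Submodule F L} (ha : Sub a) (hn : Nil a) :
    LieRing.IsNilpotent ha.toLie := by
  rw [LieAlgebra.isNilpotent_iff_forall (R := F)]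
  intro x
  obtain ⟨k, hk⟩ := hn x x.2
  refine ⟨k, LinearMap.ext fun y => ha.incl_inj ?_⟩
  have := pow_map_comm ha.toLie.incl x 0 k y
  simp only [zero_smul, sub_zero] at this
  rw [← this]
  simp [hk]

lemma Nil.sup_span {a : Submodule F L} (ha : Sub a) (hn : Nil a) {s : L} (hs : Nrm s a)
    (h : IsNilpotent (ad F L s)) : Nil (a ⊔ F ∙ s) := by
  intro x hx
  obtain ⟨y, hy, t, rfl⟩ := mem_sup_span.mp hx
  obtain ⟨N, hN⟩ := exists_lcs ha hn
  obtain ⟨m, hm⟩ := h.smul t
  have h1 : ∀ k, ∀ v ∈ lcs a k, ad F L (y + t • s) v ∈ lcs a k := fun k =>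
    Nrm.lcs (s := y + t • s) (fun w hw => by
      rw [add_lie, smul_lie]; exact add_mem (ha y hy w hw) (a.smul_mem _ (hs w hw))) k
  have h2 : ∀ k j, ∀ v ∈ lcs a k, (ad F L (y + t • s) ^ j) v - ((t • ad F L s) ^ j) v ∈
      lcs a (k + 1) := by
    intro k j
    induction j with
    | zero => simp
    | succ j ih =>
      intro v hv
      have := add_mem (h1 _ _ (ih v hv)) (lie_mem_lcs hy (End.pow_apply_mem_of_forall_mem j
        (f' := t • ad F L s) (fun v hv => Submodule.smul_mem _ _ (hs.lcs k v hv)) v hv))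
      convert this using 1
      simp [pow_succ', smul_sub]
      abel
  have h3 : ∀ k v, (ad F L (y + t • s) ^ (m * k)) v ∈ lcs a k := by
    intro k
    induction k with
    | zero => exact fun _ => trivial
    | succ k ih =>
      intro v
      rw [mul_add, mul_one, add_comm (m * k), pow_add]
      simpa [hm] using h2 k m _ (ih v)
  exact ⟨m * N, LinearMap.ext fun v => by simpa [hN] using h3 N v⟩

theorem jac {S : Set L} (hS : ∀ x ∈ S, ∀ y ∈ S, ⁅x, y⁆ ∈ S)
    (hn : ∀ x ∈ S, IsNilpotent (ad F L x)) : Nil (Submodule.span F S) := by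
  classical
  suffices H : ∀ a : Submodule F L, a ≤ Submodule.span F (S ∩ a) → Nil a → Sub a →
      Nil (Submodule.span F S) from H ⊥ bot_le (fun x hx => by simp_all) (fun x hx => by simp_all)
  intro a
  induction a using WellFoundedGT.induction with
  | ind a ih =>
  intro h1 h2 ha
  by_cases hc : S ⊆ a
  · exact fun x hx => h2 x (Submodule.span_le.mpr hc hx)
  have key : ∀ s, (∀ t ∈ S, t ∈ a → ⁅t, s⁆ ∈ a) → Nrm s a := fun s hs x hx => by
    have := Submodule.span_le (p := a.comap (ad F L s)).mpr (fun t ht => by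
      simp only [SetLike.mem_coe, Submodule.mem_comap, ad_apply]
      rw [← lie_skew]
      exact neg_mem (hs t ht.1 ht.2)) (h1 hx)
    exact this
  obtain ⟨N, hN⟩ := exists_lcs ha h2
  have hex : ∃ k, ∀ s ∈ S, s ∈ lcs a k → s ∈ a := ⟨N, by simp +contextual [hN]⟩
  obtain ⟨k, hk⟩ : ∃ k, Nat.find hex = k + 1 := Nat.exists_eq_succ_of_ne_zero fun h0 => by
    have := Nat.find_spec hex
    rw [h0] at this
    exact hc fun s hs => this s hs trivial
  have h3 := Nat.find_min hex (m := k) (by omega)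
  push Not at h3
  obtain ⟨s, hs, hsk, hsa⟩ := h3
  have h4 := key s fun t ht hta => (hk ▸ Nat.find_spec hex) _ (hS t ht s hs) (lie_mem_lcs hta hsk)
  refine ih (a ⊔ F ∙ s) (lt_of_le_of_ne le_sup_left fun h => hsa (h ▸ mem_sup_span_self a s)) ?_
    (h2.sup_span ha h4 (hn s hs)) (ha.sup_span h4)
  refine sup_le (h1.trans (Submodule.span_mono fun x hx => ⟨hx.1, Submodule.mem_sup_left hx.2⟩)) ?_
  exact Submodule.span_mono (Set.singleton_subset_iff.mpr ⟨hs, mem_sup_span_self a s⟩)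

lemma Nil.triv {R V : Submodule F L} (hn : Nil R) (hR : ∀ x, Nrm x R) (hV : ∀ x, Nrm x V)
    (hmin : ∀ J ≤ V, (∀ x, Nrm x J) → J = ⊥ ∨ J = V) {r v : L} (hr : r ∈ R) (hv : v ∈ V) :
    ⁅r, v⁆ = 0 := by
  by_contra hc
  obtain ⟨N, hN⟩ := exists_lcs (fun x _ => hR x) hn
  obtain ⟨k, w, h1, h2, h3, h4⟩ := exists_filt_step (lcs R) (a := ⊥) (b := V) le_top hN
    (fun h => hc (h (hV r v hv)))
  rcases hmin (V ⊓ lcs R k) inf_le_left (fun x y hy => ⟨hV x y hy.1, (hR x).lcs k y hy.2⟩) with h | h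
  · exact h3 (h ▸ ⟨h1, h2⟩)
  · exact hc (h4 ⟨hV r v hv, lie_mem_lcs hr (h.ge hv).2⟩)

variable [CharZero F] [LieRing.IsNilpotent C] {i : C →ₗ⁅F⁆ L} [Dec i]

lemma nil_of_graded {R : Submodule F L} (hR : Sub R) (hs : Stb i R)
    (h0 : ∀ x ∈ R, x ∈ W i 0 → IsNilpotent (ad F L x)) : Nil R := fun x hx =>
  jac (S := {x | x ∈ R ∧ ∃ β, x ∈ W i β})
    (fun _ ⟨h1, _, h2⟩ _ ⟨h3, _, h4⟩ => ⟨hR _ h1 _ h3, _, lie_mem_W h2 h4⟩)
    (fun x ⟨h1, β, h2⟩ => by
      by_cases hβ : β = 0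
      · exact h0 x h1 (hβ ▸ h2)
      · exact ad_nil_of_W hβ h2) x
    (hs.le (fun β y h1 h2 => Submodule.subset_span (by exact ⟨h1, β, h2⟩)) hx)

omit [CharZero F] [LieRing.IsNilpotent C] in
lemma ad_nil_of_ker {c : C} (h : ∀ β, W i β ≠ ⊥ → β.1 c = 0) : IsNilpotent (ad F L (i c)) := by
  refine End.isNilpotent_iff_of_finite.mpr fun x => ?_
  refine WS_ind (P := fun x => ∃ k, (ad F L (i c) ^ k) x = 0) ⟨0, by simp⟩ ?_ ?_
    (Dec.top (i := i) x)
  · rintro x y ⟨k, hk⟩ ⟨l, hl⟩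
    refine ⟨k + l, ?_⟩
    rw [map_add, pow_add, End.mul_apply, End.mul_apply, hl, ← End.mul_apply, ← pow_add, add_comm k,
      pow_add, End.mul_apply, hk]
    simp
  · intro β _ x hx
    by_cases hβ : W i β = ⊥
    · exact ⟨0, by simpa [hβ] using hx⟩
    · simpa [h β hβ] using mem_W.mp hx c

end

end Pool.Agent.P.MP_37e2d5_al
end

-- part Pool.Agent.P.MP_37e2d5_al.Exp
section

/-! Exponentials of ad-nilpotent elements. -/

namespace Pool.Agent.P.MP_37e2d5_al

open UniversalEnvelopingAlgebra Module LieAlgebra Polynomial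

attribute [local instance 100] LieRing.ofAssociativeRing
attribute [-simp] UniversalEnvelopingAlgebra.ι_apply

noncomputable section

variable {F : Type*} [Field F] [CharZero F] {C' L : Type*} [LieRing C'] [LieAlgebra F C']
  [LieRing L] [LieAlgebra F L]

/-- solutions of `p' = [y, p]` -/
def odeS (F : Type*) [Field F] {A : Type*} [Ring A] [Algebra F A] (y : A) : Subalgebra F A[X] where
  carrier := {p | derivative p = C y * p - p * C y}
  mul_mem' := fun {p q} hp hq => by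
    simp only [Set.mem_ofPred_eq, derivative_mul] at *
    rw [hp, hq]; noncomm_ring
  add_mem' := fun {p q} hp hq => by
    simp only [Set.mem_ofPred_eq, derivative_add] at *
    rw [hp, hq]; noncomm_ring
  algebraMap_mem' := fun r => by
    simp [Polynomial.algebraMap_apply, ← C_mul, Algebra.commutes, -map_mul]

lemma odeS_ext {A : Type*} [Ring A] [Algebra F A] {y : A} {p q : A[X]} (hp : p ∈ odeS F y)
    (hq : q ∈ odeS F y) (h : p.coeff 0 = q.coeff 0) : p = q := by
  have h1 : derivative (p - q) = C y * (p - q) - (p - q) * C y := sub_mem hp hq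
  rw [← sub_eq_zero]
  ext k
  induction k with
  | zero => simp [h]
  | succ k ih =>
    have := congrArg (coeff · k) h1
    simp only [coeff_derivative, coeff_sub (C y * _), coeff_C_mul, coeff_mul_C, ih, coeff_zero,
      mul_zero, zero_mul, sub_zero] at this
    rw [← Nat.cast_succ, ← nsmul_eq_mul', ← Nat.cast_smul_eq_nsmul F, smul_eq_zero] at this
    exact this.resolve_left (Nat.cast_ne_zero.mpr k.succ_ne_zero)

/-- `n` is the exponential of `ad y` -/
def ExpP (y : L) (n : L →ₗ⁅F⁆ L) : Prop := ∀ T : Submodule F L, Nrm y T → ∀ x m,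
  (ad F L y ^ m) x ∈ T → n x - ∑ k ∈ Finset.range m, (k.factorial : F)⁻¹ • (ad F L y ^ k) x ∈ T

/-- an injective endomorphism preserving ideals and fixing the centre -/
def Inn (n : L →ₗ⁅F⁆ L) : Prop := Function.Injective n ∧
  (∀ T : Submodule F L, (∀ x, Nrm x T) → ∀ x ∈ T, n x ∈ T) ∧ ∀ z, Cen z → Umap n z = z

omit [CharZero F] in
lemma Inn.comp {n n' : L →ₗ⁅F⁆ L} (h : Inn n) (h' : Inn n') : Inn (n.comp n') :=
  ⟨h.1.comp h'.1, fun T hT x hx => h.2.1 T hT _ (h'.2.1 T hT x hx),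
    fun z hz => by rw [← Umap_Umap, h'.2.2 z hz, h.2.2 z hz]⟩

omit [CharZero F] in
lemma ExpP.zero {y : L} {n : L →ₗ⁅F⁆ L} (h : ExpP y n) {T : Submodule F L} (hT : Nrm y T) {x : L}
    (hx : x ∈ T) : n x ∈ T := by simpa using h T hT x 0 hx

omit [CharZero F] in
lemma ExpP.one {y : L} {n : L →ₗ⁅F⁆ L} (h : ExpP y n) {T : Submodule F L} (hT : Nrm y T) {x : L}
    (hx : ⁅y, x⁆ ∈ T) : n x - x ∈ T := by simpa using h T hT x 1 (by simpa)

omit [CharZero F] in
lemma ExpP.two {y : L} {n : L →ₗ⁅F⁆ L} (h : ExpP y n) {T : Submodule F L} (hT : Nrm y T) {x : L}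
    (hx : ⁅y, ⁅y, x⁆⁆ ∈ T) : n x - (x + ⁅y, x⁆) ∈ T := by
  simpa [Finset.sum_range_succ] using h T hT x 2 (by simpa [pow_succ])

omit [CharZero F] in
lemma ExpP.three {y : L} {n : L →ₗ⁅F⁆ L} (h : ExpP y n) {T : Submodule F L} (hT : Nrm y T) {x : L}
    (hx : ⁅y, ⁅y, ⁅y, x⁆⁆⁆ ∈ T) : n x - (x + ⁅y, x⁆ + (2 : F)⁻¹ • ⁅y, ⁅y, x⁆⁆) ∈ T := by
  simpa [Finset.sum_range_succ, pow_succ] using h T hT x 3 (by simpa [pow_succ])

lemma sl2_abs {V : Type*} [AddCommGroup V] [Module F V] (e f E G : End F V)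
    (hE : ∀ x, e (e (e x)) = 0 → E x = x + e x + (2 : F)⁻¹ • e (e x))
    (hG : ∀ x, f (f (f x)) = 0 → G x = x - f x + (2 : F)⁻¹ • f (f x)) {y v w : V}
    (h1 : e y = 0) (h2 : f y = v) (h3 : e v = (2 : F) • y) (h4 : f v = w) (h5 : f w = 0)
    (h6 : e w = (2 : F) • v) : E (G (E y)) = (2 : F)⁻¹ • w ∧ E (G (E v)) = -v := by
  have a1 : E y = y := by simp [hE, h1]
  have a2 : E v = v + (2 : F) • y := by simp [hE, h1, h3]
  have a3 : E w = w + (2 : F) • v + (2 : F) • y := by simp [hE, h1, h3, h6]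
  have a4 : G y = y - v + (2 : F)⁻¹ • w := by simp [hG, h2, h4, h5]
  have a5 : G v = v - w := by simp [hG, h4, h5]
  constructor
  · simp only [a1, a2, a3, a4, map_add, map_sub, map_smul]
    match_scalars <;> norm_num
  · have : G (E v) = (2 : F) • y - v := by
      simp only [a2, a4, a5, map_add, map_smul]
      match_scalars <;> norm_num
    rw [this, map_sub, map_smul, a1, a2]
    module

lemma sl2_mod {e f : L} {E G : L →ₗ⁅F⁆ L} (hE : ExpP e E) (hG : ExpP (-f) G) {T : Submodule F L}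
    (he : Nrm e T) (hf : Nrm f T) {y v w : L} (h1 : ⁅e, y⁆ ∈ T) (h2 : ⁅f, y⁆ - v ∈ T)
    (h3 : ⁅e, v⁆ - (2 : F) • y ∈ T) (h4 : ⁅f, v⁆ - w ∈ T) (h5 : ⁅f, w⁆ ∈ T)
    (h6 : ⁅e, w⁆ - (2 : F) • v ∈ T) :
    E (G (E y)) - (2 : F)⁻¹ • w ∈ T ∧ E (G (E v)) + v ∈ T := by
  have hf' : Nrm (-f) T := fun x hx => by rw [neg_lie]; exact neg_mem (hf x hx)
  have := sl2_abs (T.mapQ T (ad F L e) he) (T.mapQ T (ad F L f) hf)
    (T.mapQ T (E : L →ₗ[F] L) fun x hx => hE.zero he hx)
    (T.mapQ T (G : L →ₗ[F] L) fun x hx => hG.zero hf' hx) (fun x hx => by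
      obtain ⟨x, rfl⟩ := T.mkQ_surjective x
      exact (Submodule.Quotient.eq T).mpr (hE.three he ((Submodule.Quotient.mk_eq_zero T).mp hx)))
    (fun x hx => by
      obtain ⟨x, rfl⟩ := T.mkQ_surjective x
      have h : ⁅f, ⁅f, ⁅f, x⁆⁆⁆ ∈ T := (Submodule.Quotient.mk_eq_zero T).mp hx
      have := hG.three hf' (x := x) (by
        simpa only [neg_lie, lie_neg, neg_neg, neg_mem_iff] using h)
      simp only [neg_lie, lie_neg, neg_neg, ← sub_eq_add_neg] at this
      exact (Submodule.Quotient.eq T).mpr this)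
    (y := T.mkQ y) (v := T.mkQ v) (w := T.mkQ w) ((Submodule.Quotient.mk_eq_zero T).mpr h1)
    ((Submodule.Quotient.eq T).mpr h2) ((Submodule.Quotient.eq T).mpr h3)
    ((Submodule.Quotient.eq T).mpr h4) ((Submodule.Quotient.mk_eq_zero T).mpr h5)
    ((Submodule.Quotient.eq T).mpr h6)
  exact ⟨(Submodule.Quotient.eq T).mp this.1,
    by simpa using (Submodule.Quotient.eq T (y := -v)).mp this.2⟩

variable [Module.Finite F L]

theorem exists_exp {y : L} (hy : IsNilpotent (ad F L y)) : ∃ n : L →ₗ⁅F⁆ L, ExpP y n ∧ Inn n := by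
  obtain ⟨N, hN⟩ := hy
  let θ : L →ₗ[F] (U F L)[X] := ∑ k ∈ Finset.range N, (k.factorial : F)⁻¹ •
    ((monomial k).restrictScalars F ∘ₗ ((ι F : L →ₗ⁅F⁆ U F L) : L →ₗ[F] U F L) ∘ₗ ad F L y ^ k)
  have hc : ∀ x k, (θ x).coeff k = (k.factorial : F)⁻¹ • ι F ((ad F L y ^ k) x) := by
    intro x k
    simp only [θ, LinearMap.sum_apply, finsetSum_coeff, LinearMap.smul_apply, coeff_smul,
      LinearMap.comp_apply, LinearMap.restrictScalars_apply, coeff_monomial, smul_ite, smul_zero,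
      Finset.sum_ite_eq', Finset.mem_range, LieHom.coe_toLinearMap]
    split_ifs with h
    · rfl
    · simp [pow_eq_zero_of_le (not_lt.mp h) hN]
  have hS : ∀ x, θ x ∈ odeS F (ι F y) := fun x => by
    change _ = _
    ext k
    rw [coeff_derivative, coeff_sub, coeff_C_mul, coeff_mul_C, hc, hc, ← Nat.cast_succ,
      ← nsmul_eq_mul', ← Nat.cast_smul_eq_nsmul F, smul_smul, pow_succ', End.mul_apply, ad_apply,
      mul_smul_comm, smul_mul_assoc, ι_comm y, ← smul_sub, add_sub_cancel_left, Nat.factorial_succ]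
    congr 1
    push_cast
    field_simp
  let θ' : L →ₗ⁅F⁆ (U F L)[X] := { θ with
    map_lie' := fun {x x'} => odeS_ext (hS _)
      (sub_mem (mul_mem (hS x) (hS x')) (mul_mem (hS x') (hS x))) (by
        simp [hc, mul_coeff_zero, LieRing.of_associative_ring_bracket]) }
  let g : End F L := ∑ k ∈ Finset.range N, (k.factorial : F)⁻¹ • ad F L y ^ k
  have hg : ∀ x, evT (1 : F) (θ' x) = ι F (g x) := fun x => by
    change evT (1 : F) (θ x) = _
    simp [θ, g, evT, eval₂AlgHom]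
  let n : L →ₗ⁅F⁆ L := { g with
    map_lie' := fun {x x'} => ι_injective (F := F) (by
      simp only [AddHom.toFun_eq_coe, LinearMap.coe_toAddHom, LieHom.map_lie, ← hg,
        LieRing.of_associative_ring_bracket, map_sub, map_mul]) }
  have hE : ExpP y n := fun T hT x m hm => by
    have : n x = ∑ k ∈ Finset.range (m + N), (k.factorial : F)⁻¹ • (ad F L y ^ k) x := by
      change g x = _
      simp only [g, LinearMap.sum_apply, LinearMap.smul_apply]
      exact Finset.sum_subset (by simp) fun k _ hk => by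
        simp [pow_eq_zero_of_le (by simpa using hk) hN]
    rw [this, Finset.sum_range_add, add_sub_cancel_left]
    refine Submodule.sum_mem _ fun k _ => T.smul_mem _ ?_
    rw [add_comm, pow_add]
    exact End.pow_apply_mem_of_forall_mem (f' := ad F L y) k hT _ hm
  refine ⟨n, hE, (injective_iff_map_eq_zero n).mpr fun x hx => ?_,
    fun T hT x hx => hE.zero (hT y) hx, fun z hz => ?_⟩
  · have : ∀ k, x ∈ LinearMap.range (ad F L y ^ k) := by
      intro k
      induction k with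
      | zero => simp
      | succ k ih =>
        obtain ⟨v, hv⟩ := ih
        have := hE.one (T := LinearMap.range (ad F L y ^ (k + 1))) (x := x) (by
          rintro _ ⟨w, rfl⟩
          exact ⟨⁅y, w⁆, by rw [← ad_apply F, ← ad_apply F, ← End.mul_apply, ← End.mul_apply,
            ← pow_succ, ← pow_succ']⟩) ⟨v, by rw [pow_succ', End.mul_apply, hv, ad_apply]⟩
        simpa [hx] using this
    simpa [hN] using this N
  · have h1 : (evT (1 : F)).comp (lift F θ') = Umap n := U_ext fun x => by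
      rw [AlgHom.comp_apply, lift_ι_apply, hg, Umap_ι]; rfl
    have h2 : ∀ u, lift F θ' u ∈ odeS F (ι F y) ∧ (lift F θ' u).coeff 0 = u := by
      intro u
      induction u using U_induction with
      | h1 => simp [one_mem]
      | hadd u v hu hv => simp [add_mem hu.1 hv.1, hu.2, hv.2]
      | hsmul c u hu => simp [Subalgebra.smul_mem _ hu.1, hu.2]
      | hmul x u hu =>
        rw [map_mul, lift_ι_apply]
        exact ⟨mul_mem (hS x) hu.1, by rw [mul_coeff_zero, hu.2]; congr 1; exact (hc x 0).trans (by simp)⟩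
    rw [← h1, AlgHom.comp_apply, odeS_ext (h2 z).1 (q := C z) _ (by simp [(h2 z).2]), evT_C]
    change _ = _
    simp [← C_mul, hz (ι F y), -map_mul]

variable [LieRing.IsNilpotent C'] {i : C' →ₗ⁅F⁆ L} [Dec i]

omit [CharZero F] [Module.Finite F L] in
lemma exists_ad_preimage {T : Submodule F L} (hT : Stb i T) {h : C'}
    (hh : ∀ β, W i β ≠ ⊥ → β ≠ 0 → β.1 h ≠ 0) {r : L} (hr : r ∈ T) :
    ∃ y ∈ T, r - ⁅i h, y⁆ ∈ W i 0 := by
  refine hT.ind (P := fun r => ∃ y ∈ T, r - ⁅i h, y⁆ ∈ W i 0) ⟨0, zero_mem _, by simp⟩ ?_ ?_ hr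
  · rintro x x' ⟨y, hy, h1⟩ ⟨y', hy', h2⟩
    exact ⟨y + y', add_mem hy hy', by convert add_mem h1 h2 using 1; rw [lie_add]; abel⟩
  · intro β x hx hx'
    by_cases hβ : β = 0
    · exact ⟨0, zero_mem _, by simpa [hβ] using hx'⟩
    by_cases h0 : W i β = ⊥
    · exact ⟨0, zero_mem _, by simp_all⟩
    obtain ⟨k, hk⟩ := mem_W.mp hx' h
    obtain ⟨y, hy, rfl⟩ := mem_of_shift (T := T.map (ad F L (i h))) _ (by
      rintro _ ⟨y, hy, rfl⟩
      exact ⟨⁅i h, y⁆ - β.1 h • y, sub_mem (hT h y hy) (T.smul_mem _ hy), by simp⟩)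
      (hh β h0 hβ) k hk ⟨x, hx, by simp⟩
    exact ⟨y, hy, by simp⟩

theorem exists_corr {K : Submodule F L} (hK : ∀ x, Nrm x K) (hn : Nil K) {h : C'}
    (hh : ∀ β, W i β ≠ ⊥ → β ≠ 0 → β.1 h ≠ 0) {k : L} (hk : k ∈ K) : ∃ a : L →ₗ⁅F⁆ L, Inn a ∧
      (∀ x, a x - x ∈ K) ∧ (∀ v, (∀ k ∈ K, ⁅k, v⁆ = 0) → a v = v) ∧ a (i h + k) - i h ∈ W i 0 := by
  obtain ⟨N, hN⟩ := exists_lcs (fun x _ => hK x) hn
  suffices H : ∀ j, ∃ a : L →ₗ⁅F⁆ L, Inn a ∧ (∀ x, a x - x ∈ K) ∧
      (∀ v, (∀ k ∈ K, ⁅k, v⁆ = 0) → a v = v) ∧ a (i h + k) - i h ∈ W i 0 ⊔ lcs K j by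
    simpa [hN] using H N
  have hK' : ∀ k ∈ K, ∀ x, ⁅k, x⁆ ∈ K := fun k hk x => by
    rw [← lie_skew]; exact neg_mem (hK x k hk)
  intro j
  induction j with
  | zero => exact ⟨LieHom.id, ⟨fun _ _ h => h, fun _ _ _ h => h, fun z _ => Umap_id z⟩, by simp,
      by simp, by simp [lcs]⟩
  | succ j ih =>
    obtain ⟨a, h1, h2, h3, h4⟩ := ih
    have hL : ∀ j x, Nrm x (lcs K j) := fun j x => (hK x).lcs j
    set k' := a (i h + k) - i h with hk'
    have h5 : k' ∈ K := by convert add_mem (h2 (i h + k)) hk using 1; rw [hk']; abel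
    have h6 : k' - pr i 0 k' ∈ lcs K j := by
      obtain ⟨w, hw, r, hr, e⟩ := Submodule.mem_sup.mp h4
      rw [← e, map_add, pr_of_mem hw, add_sub_add_left_eq_sub]
      exact sub_mem hr (Stb.pr_mem (fun c => hL j _) hr 0)
    obtain ⟨y, hy, h7⟩ := exists_ad_preimage (T := K ⊓ lcs K j)
      (fun c x hx => ⟨hK _ x hx.1, hL j _ x hx.2⟩) hh
      ⟨sub_mem h5 (Stb.pr_mem (fun c => hK _) h5 0), h6⟩
    obtain ⟨b, b1, b2⟩ := exists_exp (hn y hy.1)
    have hy2 : ∀ x, ⁅y, x⁆ ∈ lcs K j := fun x => by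
      rw [← lie_skew]; exact neg_mem (hL j x y hy.2)
    refine ⟨b.comp a, b2.comp h1, fun x => ?_, fun v hv => ?_, ?_⟩
    · convert add_mem (b1.one (hK y) (hK' y hy.1 (a x))) (h2 x) using 1
      simp
    · rw [LieHom.comp_apply, h3 v hv, ← sub_eq_zero]
      exact b1.one (T := ⊥) (fun _ h => by simp_all) (hv y hy.1)
    · have h8 := b1.two (hL (j + 1) y) (lie_mem_lcs hy.1 (hy2 (i h + k')))
      convert Submodule.add_mem_sup (add_mem h7 (pr_mem (i := i) 0 k'))
        (sub_mem h8 (lie_mem_lcs h5 hy.2)) using 1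
      rw [lie_add, ← lie_skew y (i h), ← lie_skew y k', hk']
      simp only [LieHom.comp_apply, add_sub_cancel]
      abel

end

end Pool.Agent.P.MP_37e2d5_al
end

-- part Pool.Agent.P.MP_37e2d5_al.Form
section

/-! The trace form on a minimal ideal in rank one. -/

namespace Pool.Agent.P.MP_37e2d5_al

open UniversalEnvelopingAlgebra Module LieAlgebra

attribute [local instance 100] LieRing.ofAssociativeRing
attribute [-simp] UniversalEnvelopingAlgebra.ι_apply

noncomputable section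

variable {F : Type*} [Field F] {C L : Type*} [LieRing C] [LieAlgebra F C]
  [LieRing L] [LieAlgebra F L]

/-- centraliser -/
def cz (V : Submodule F L) : Submodule F L where
  carrier := {x | ∀ v ∈ V, ⁅x, v⁆ = 0}
  add_mem' := fun hx hy v hv => by rw [add_lie, hx v hv, hy v hv, add_zero]
  zero_mem' := fun v _ => zero_lie v
  smul_mem' := fun c x hx v hv => by rw [smul_lie, hx v hv, smul_zero]

lemma nrm_cz {V : Submodule F L} (hV : ∀ x, Nrm x V) (x : L) : Nrm x (cz V) := fun y hy v hv => by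
  rw [lie_lie, hy v hv, hy _ (hV x v hv), lie_zero, sub_zero]

lemma Nrm.lie_left {x y : L} {V : Submodule F L} (h : Nrm x V) (hy : y ∈ V) : ⁅y, x⁆ ∈ V := by
  rw [← lie_skew]; exact neg_mem (h y hy)

/-- trace form -/
def BF (V : Submodule F L) : L →ₗ[F] L →ₗ[F] F :=
  ((LinearMap.mul F (End F L)).compl₁₂ (ad F L : L →ₗ[F] End F L) (ad F L : L →ₗ[F] End F L)).compr₂
    (trOn V)

lemma BF_apply (V : Submodule F L) (x y : L) : BF V x y = trOn V (ad F L x * ad F L y) := rfl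

lemma BF_symm {V : Submodule F L} (hV : ∀ x, Nrm x V) (x y : L) : BF V x y = BF V y x :=
  trOn_comm (hV x) (hV y)

lemma BF_inv {V : Submodule F L} (hV : ∀ x, Nrm x V) (x y z : L) :
    BF V ⁅x, y⁆ z = BF V x ⁅y, z⁆ := by
  have := trOn_comm (W := V) (f := ad F L y) (g := ad F L x * ad F L z) (hV y)
    (fun v hv => hV x _ (hV z v hv))
  simp only [BF_apply, LieHom.map_lie, LieRing.of_associative_ring_bracket, sub_mul, mul_sub,
    map_sub, mul_assoc] at this ⊢
  rw [this]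

lemma BF_cz {V : Submodule F L} (x : L) {k : L} (hk : k ∈ cz V) : BF V x k = 0 := by
  rw [BF_apply, trOn_congr (g := 0) (fun v hv => by simp [hk v hv]), map_zero]

variable [CharZero F]

/-- rank one data -/
structure R1 (i : C →ₗ⁅F⁆ L) (α : Ch F C) (l : Ch F C →ₗ[ℚ] ℚ) : Prop where
  h0 : W i 0 ≤ rg i
  h1 : ∀ β, W i β ≠ ⊥ → β = l β • α

/-- a minimal ideal with a nonzero weight -/
structure MinI (i : C →ₗ⁅F⁆ L) (V : Submodule F L) : Prop where
  id : ∀ x, Nrm x V
  min : ∀ J ≤ V, (∀ x, Nrm x J) → J = ⊥ ∨ J = V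
  wt : ∃ β, β ≠ 0 ∧ ¬ V ⊓ W i β ≤ ⊥

variable {i : C →ₗ⁅F⁆ L} {α : Ch F C} {l : Ch F C →ₗ[ℚ] ℚ} {V : Submodule F L}

lemma R1.apply (h : R1 i α l) {β : Ch F C} (hβ : W i β ≠ ⊥) (c : C) :
    β.1 c = (l β : F) * α.1 c := by
  conv_lhs => rw [h.h1 β hβ]
  simp [Rat.smul_def]

lemma R1.gen (h : R1 i α l) : Gen i l := fun β hβ h0 => by rw [h.h1 β hβ, h0, zero_smul]

lemma R1.inj (h : R1 i α l) {β γ : Ch F C} (hβ : W i β ≠ ⊥) (hγ : W i γ ≠ ⊥) (e : l β = l γ) :
    β = γ := by rw [h.h1 β hβ, e, ← h.h1 γ hγ]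

lemma R1.ne (h : R1 i α l) {c : C} (hc : α.1 c ≠ 0) (β : Ch F C) (hβ : W i β ≠ ⊥) (h0 : β ≠ 0) :
    β.1 c ≠ 0 := by
  rw [h.apply hβ]
  exact mul_ne_zero (Rat.cast_ne_zero.mpr fun h' => h0 (h.gen β hβ h')) hc

lemma R1.zP_eq (h : R1 i α l) : zP i l = W i 0 :=
  le_antisymm (WS_le fun β hβ => by
    by_cases h0 : W i β = ⊥
    · simp [h0]
    · rw [h.gen β h0 hβ]) (W_zero_le_zP i l)

omit [CharZero F] in
lemma ne_bot_of_not_le {a b : Submodule F L} {β : Ch F C} (h : ¬ b ⊓ W i β ≤ a) : W i β ≠ ⊥ :=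
  fun h0 => h (by simp [h0])

omit [CharZero F] in
lemma ne_bot_of_notMem {a : Submodule F L} {β : Ch F C} {x : L} (hx : x ∈ W i β) (h : x ∉ a) :
    W i β ≠ ⊥ := fun h0 => h (by rw [h0] at hx; rw [hx]; exact zero_mem _)

variable [Module.Finite F L] [LieRing.IsNilpotent C] [Dec i]

lemma BF_W (hV : ∀ x, Nrm x V) {β γ : Ch F C} {x y : L} (hx : x ∈ W i β) (hy : y ∈ W i γ)
    (h : β + γ ≠ 0) : BF V x y = 0 := by
  obtain ⟨k, hk⟩ := nil_of_shift (g := ad F L x * ad F L y) h fun δ v hv => by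
    rw [show δ + (β + γ) = β + (γ + δ) by abel]
    exact lie_mem_W hx (lie_mem_W hy hv)
  exact trOn_nil (fun v hv => hV x _ (hV y v hv)) fun v _ => ⟨k, by simp [hk]⟩

lemma BF_ii (h : R1 i α l) (hV : MinI i V) :
    ∃ r : ℚ, 0 < r ∧ ∀ c c', BF V (i c) (i c') = r * α.1 c * α.1 c' := by
  obtain ⟨s, -, h1, h2, -, h3⟩ := trace_flag (finrank F V) (stb_bot i) (fun c => hV.id (i c)) bot_le
    (by simp)
  refine ⟨(s.map fun β => l β ^ 2).sum, ?_, fun c c' => ?_⟩
  · obtain ⟨β, hβ, h4⟩ := hV.wt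
    have h5 : β ∈ s := by
      by_contra hc
      exact h4 fun v hv => eq_zero_of_W (T := {β | β ∈ s}) hc hv.2 (by simpa using h2 hv.1)
    refine lt_of_lt_of_le (sq_pos_of_ne_zero fun h0 => hβ (h.gen β (ne_bot_of_not_le h4) h0))
      (List.single_le_sum (by simp only [List.mem_map]; rintro _ ⟨γ, -, rfl⟩; positivity) _
        (List.mem_map.mpr ⟨β, h5, rfl⟩))
  · rw [BF_apply, h3, trOn_bot, zero_add, Rat.cast_list_sum, List.map_map, ← List.sum_map_mul_right,
      ← List.sum_map_mul_right]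
    congr 1
    refine List.map_congr_left fun β hβ => ?_
    simp only [h.apply (ne_bot_of_not_le (h1 β hβ)), Function.comp_apply, Rat.cast_pow]
    ring

lemma ker_of_cz (h : R1 i α l) (hV : MinI i V) {c : C} (hc : i c ∈ cz V) : α.1 c = 0 := by
  obtain ⟨r, hr, h1⟩ := BF_ii h hV
  have := h1 c c
  rw [BF_cz _ hc] at this
  simpa [hr.ne'] using this

lemma R1.nil (h : R1 i α l) {R : Submodule F L} (hR : Sub R) (hs : Stb i R)
    (h0 : ∀ c, i c ∈ R → α.1 c = 0) : Nil R := nil_of_graded hR hs fun x hx hx' => by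
  obtain ⟨c, rfl⟩ := h.h0 hx'
  exact ad_nil_of_ker fun β hβ => by rw [h.apply hβ, h0 c hx, mul_zero]

lemma nil_cz (h : R1 i α l) (hV : MinI i V) : Nil (cz V) :=
  h.nil (fun x _ => nrm_cz hV.id x) (fun _ => nrm_cz hV.id _) fun _ => ker_of_cz h hV

lemma cz_of_BF (h : R1 i α l) (hV : MinI i V) {x : L} (hx : BF V x = 0) : x ∈ cz V := by
  have hR : ∀ y, Nrm y (LinearMap.ker (BF V)) := fun y x hx => by
    ext z
    rw [← lie_skew, map_neg, LinearMap.neg_apply, BF_inv hV.id, LinearMap.mem_ker.mp hx]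
    simp
  obtain ⟨r, hr, h1⟩ := BF_ii h hV
  refine fun v hv => (h.nil (fun x _ => hR x) (fun _ => hR _) fun c hc => ?_).triv hR hV.id hV.min
    hx hv
  have := h1 c c
  rw [LinearMap.mem_ker.mp hc] at this
  simpa [hr.ne'] using this

lemma cz_of_W (h : R1 i α l) (hV : MinI i V) {β : Ch F C} {x : L} (hx : x ∈ W i β)
    (h1 : ∀ y ∈ W i (-β), BF V x y = 0) : x ∈ cz V := by
  refine cz_of_BF h hV (LinearMap.ext fun y => ?_)
  refine (WS_le (T := LinearMap.ker (BF V x)) fun γ _ y hy => ?_) (Dec.top (i := i) y)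
  by_cases h0 : β + γ = 0
  · exact h1 y (eq_neg_of_add_eq_zero_right h0 ▸ hy)
  · exact BF_W hV.id hx hy h0

lemma cz_of_ker (h : R1 i α l) (hV : MinI i V) {c : C} (hc : α.1 c = 0) : i c ∈ cz V := by
  obtain ⟨r, -, h1⟩ := BF_ii h hV
  refine cz_of_W h hV (i_mem_W i c) fun y hy => ?_
  obtain ⟨c', rfl⟩ := h.h0 (neg_zero (G := Ch F C) ▸ hy)
  exact (h1 c c').trans (by simp [hc])

lemma mem_cz_sup (h : R1 i α l) (hV : MinI i V) {c : C} (hc : α.1 c ≠ 0) (c' : C) :
    i c' ∈ cz V ⊔ F ∙ i c := mem_sup_span.mpr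
  ⟨i (c' - (α.1 c' / α.1 c) • c), cz_of_ker h hV (by simp [hc]), α.1 c' / α.1 c, by simp⟩

omit [Module.Finite F L] [CharZero F] in
lemma mem_of_W {K : Submodule F L} (hK : Stb i K) {S : Set (Ch F C)} {β : Ch F C} (hβ : β ∉ S)
    {x : L} (hx : x ∈ W i β) (h : x ∈ K ⊔ WS i S) : x ∈ K := by
  obtain ⟨k, hk, w, hw, e⟩ := Submodule.mem_sup.mp h
  rw [← pr_of_mem hx, ← e, map_add, pr_of_WS hβ hw, add_zero]
  exact hK.pr_mem hk β

/-- an `sl2`-triple modulo the centraliser -/
structure Tri (i : C →ₗ⁅F⁆ L) (K : Submodule F L) (p : Ch F C) (e f : L) (h : C) : Prop where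
  he : e ∈ W i p
  hf : f ∈ W i (-p)
  ef : ⁅e, f⁆ = i h
  ph : p.1 h = 2
  ce : ∀ c, ⁅i c, e⁆ - p.1 c • e ∈ K
  cf : ∀ c, ⁅i c, f⁆ + p.1 c • f ∈ K
  eK : e ∉ K
  fK : f ∉ K
  top : ((K ⊔ F ∙ i h) ⊔ F ∙ e) ⊔ (F ∙ f) = ⊤

theorem exists_tri (h : R1 i α l) (hV : MinI i V) {β : Ch F C} (hβ : β ≠ 0)
    (hK : ¬ W i β ≤ cz V) : ∃ p e f h', 0 < l p ∧ Tri i (cz V) p e f h' := by
  have hN := nrm_cz hV.id
  have hs : Stb i (cz V) := fun _ => hN _
  have pair : ∀ β, ∀ x ∈ W i β, x ∉ cz V → ∃ y ∈ W i (-β), BF V x y ≠ 0 := fun β x hx hx' => by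
    by_contra! hc
    exact hx' (cz_of_W h hV hx hc)
  have pair' : ∀ β, ¬ W i β ≤ cz V → ¬ W i (-β) ≤ cz V := fun β hβ hc => by
    obtain ⟨x, hx, hx'⟩ := SetLike.not_le_iff_exists.mp hβ
    obtain ⟨y, hy, hy'⟩ := pair β x hx hx'
    exact hy' (BF_cz _ (hc hy))
  obtain ⟨p, ⟨hp, hp0⟩, hmin⟩ := Set.exists_min_image {β | ¬ W i β ≤ cz V ∧ 0 < l β} l
    ((finite_W i).subset fun β hβ h0 => hβ.1 (by simp [h0])) (by
      rcases lt_trichotomy (l β) 0 with h1 | h1 | h1
      · exact ⟨-β, pair' β hK, by simpa⟩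
      · exact absurd (h.gen β (fun h0 => hK (by simp [h0])) h1) hβ
      · exact ⟨β, hK, h1⟩)
  obtain ⟨e, -, he, eK, ce⟩ := exists_wvec (stb_top i) (a := cz V) (β := p) (by simpa)
  obtain ⟨f, -, hf, fK, cf⟩ := exists_wvec (stb_top i) (a := cz V) (β := -p)
    (by simpa using pair' p hp)
  have hpW := ne_bot_of_notMem he eK
  have hp1 : p ≠ 0 := fun h0 => by simp [h0] at hp0
  obtain ⟨r, hr, hB⟩ := BF_ii h hV
  have key : ∀ y ∈ W i (-p), BF V e y ≠ 0 → ∃ c, i c = ⁅e, y⁆ ∧ α.1 c ≠ 0 := fun y hy hy' => by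
    obtain ⟨c, hc⟩ := h.h0 (add_neg_cancel p ▸ lie_mem_W he hy)
    refine ⟨c, hc, fun h0 => ?_⟩
    obtain ⟨c', hc'⟩ := Ch.exists_ne hp1
    have h1 := BF_cz y (ce c')
    have h2 := hB c' c
    rw [LieHom.coe_toLinearMap] at hc
    rw [hc, ← BF_inv hV.id, h0, mul_zero] at h2
    rw [map_sub, map_smul, BF_symm hV.id, h2, BF_symm hV.id] at h1
    simp [hc', hy'] at h1
  obtain ⟨f', hf', hef⟩ := pair p e he eK
  obtain ⟨c, hc, hαc⟩ := key f' hf' hef
  have s1 : Stb i (cz V ⊔ F ∙ i c) := hs.sup_span (β := 0) fun c' => by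
    simpa using cz_of_ker h hV (α.2 c' c)
  have s2 := s1.sup_span fun c' => Submodule.mem_sup_left (ce c')
  have s3 := s2.sup_span fun c' => Submodule.mem_sup_left (Submodule.mem_sup_left (cf c'))
  set a := (cz V ⊔ F ∙ i c) ⊔ F ∙ e with ha
  have hKa : cz V ≤ a := le_sup_of_le_left le_sup_left
  have w1 : cz V ⊔ (F ∙ i c) ≤ cz V ⊔ WS i {0} := sup_le_sup_left
    ((Submodule.span_singleton_le_iff_mem _ _).mpr (mem_WS (by simp) (i_mem_W i c))) _
  have w2 : a ≤ cz V ⊔ WS i {0, p} := sup_le (w1.trans (sup_le_sup_left (WS_mono (by simp)) _))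
    (le_sup_of_le_right ((Submodule.span_singleton_le_iff_mem _ _).mpr (mem_WS (by simp) he)))
  have hnp : ∀ γ, l γ < 0 → γ ∉ ({0, p} : Set (Ch F C)) := by
    rintro γ hγ (rfl | rfl)
    · simp at hγ
    · linarith
  have hlp : l (-p) < 0 := by simpa
  have hz : zP i (-l) ≤ a := fun x hx => by
    obtain ⟨c', rfl⟩ := h.h0 (h.zP_eq ▸ zP_neg i l ▸ hx)
    exact Submodule.mem_sup_left (mem_cz_sup h hV hαc c')
  have hneg : ∀ γ, l γ ≤ 0 → W i γ ≤ pP i (-l) := fun γ hγ x hx => mem_WS (by simpa) hx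
  set q := (cz V ⊔ pP i (-l)) ⊔ F ∙ e with hq
  have q1 : cz V ≤ q := le_sup_of_le_left le_sup_left
  have q2 : pP i (-l) ≤ q := le_sup_of_le_left le_sup_right
  have q3 : e ∈ q := mem_sup_span_self _ _
  have nq : ∀ x, (∀ y ∈ pP i (-l), ⁅x, y⁆ ∈ q) → ⁅x, e⁆ ∈ q → Nrm x q := fun x h1 h2 y hy => by
    obtain ⟨y', hy', t, rfl⟩ := mem_sup_span.mp hy
    obtain ⟨y1, hy1, y2, hy2, rfl⟩ := Submodule.mem_sup.mp hy'
    rw [lie_add, lie_add, lie_smul]
    exact add_mem (add_mem (q1 (hN _ _ hy1)) (h1 _ hy2)) (q.smul_mem _ h2)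
  have qe : ∀ c', ⁅i c', e⁆ ∈ q := fun c' => by
    simpa using add_mem (q1 (ce c')) (q.smul_mem (p.1 c') q3)
  have n1 : Nrm e q := nq e (fun y hy => WS_le (T := q.comap (ad F L e)) (fun γ hγ y hy => by
    have hγ' : l γ ≤ 0 := by simpa using hγ
    change ⁅e, y⁆ ∈ q
    by_cases h0 : W i γ = ⊥
    · rw [h0] at hy; simp [show y = 0 from hy]
    rcases hγ'.eq_or_lt with h1 | h1
    · obtain ⟨c', rfl⟩ := h.h0 (h.gen γ h0 h1 ▸ hy)
      rw [← lie_skew]
      exact neg_mem (qe c')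
    rcases le_or_gt (l (p + γ)) 0 with h2 | h2
    · exact q2 (hneg _ h2 (lie_mem_W he hy))
    · refine q1 (not_not.mp (fun h3 => ?_ : ¬ ¬ W i (p + γ) ≤ cz V) (lie_mem_W he hy))
      have := hmin _ ⟨h3, h2⟩
      rw [map_add] at this
      linarith) hy) (by simp)
  have n2 : Nrm f' q := nq f' (fun y hy => q2 (sub_pP i _ _ (hneg _ hlp.le hf') _ hy)) (by
    rw [← lie_skew, ← hc]
    exact neg_mem (q2 (hneg 0 (by simp) (i_mem_W i c))))
  have tr0 : ∀ T : Submodule F L, Nrm e T → Nrm f' T → trOn T (ad F L (i c)) = 0 := by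
    intro T h1 h2
    rw [show i c = ⁅e, f'⁆ from hc, LieHom.map_lie, LieRing.of_associative_ring_bracket, map_sub,
      trOn_comm (f := ad F L e) (g := ad F L f') h1 h2, sub_self]
  have hle : a ⊔ (F ∙ f) ≤ q := sup_le (sup_le (sup_le q1 ((Submodule.span_singleton_le_iff_mem
    _ _).mpr (q2 (hneg 0 (by simp) (i_mem_W i c))))) le_sup_right)
    ((Submodule.span_singleton_le_iff_mem _ _).mpr (q2 (hneg _ hlp.le hf)))
  obtain ⟨s, -, t1, t2, t3, -⟩ := trace_flag _ s3
    (fun c' => nq _ (fun y hy => q2 (stb_WS i _ c' y hy)) (qe c')) hle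
    (Nat.add_sub_cancel' (Submodule.finrank_mono hle)).symm
  have t4 : ∀ γ ∈ s, l γ < 0 := fun γ hγ => by
    by_contra hc
    refine t1 γ hγ fun x hx => Submodule.mem_sup_left (mem_of_W s2 (S := {β | 0 < (-l) β})
      (by simpa using hc) hx.2 ?_)
    refine (sup_le (sup_le (le_sup_of_le_left hKa) ?_) (le_sup_of_le_left le_sup_right) :
      q ≤ a ⊔ nP i (-l)) hx.1
    simpa using ((stb_top i).pP_le (-l)).trans (sup_le_sup (inf_le_right.trans hz) inf_le_right)
  have t5 := t3 c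
  rw [tr0 q n1 n2, trOn_sup_span (f := ad F L (i c)) (s2 c)
      (fun hc => fK (mem_of_W hs (hnp _ hlp) hf (w2 hc))) (hKa (cf c)),
    trOn_sup_span (f := ad F L (i c)) (s1 c)
      (fun hc => eK (mem_of_W hs (by simpa) he (w1 hc))) (Submodule.mem_sup_left (ce c)),
    trOn_sup_span (f := ad F L (i c)) (t := 0) (hs c) (fun hc => hαc (ker_of_cz h hV hc)) (by simp),
    tr0 _ (hN _) (hN _), List.map_congr_left (g := fun β => (l β : F) * α.1 c)
      (fun β hβ => h.apply (ne_bot_of_not_le (t1 β hβ)) c), List.sum_map_mul_right] at t5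
  have t6 : s = [] := by
    by_contra hne
    have := List.sum_lt_sum_of_ne_nil hne l (fun _ => 0) t4
    have t7 : (((s.map l).sum : ℚ) : F) = 0 := by
      rw [Rat.cast_list_sum, List.map_map]
      simpa [hαc, Function.comp_def] using t5
    simp [Rat.cast_eq_zero.mp t7] at this
  have neg : ∀ γ, l γ < 0 → ∀ x ∈ W i γ, ∃ k ∈ cz V, ∃ t : F, x = k + t • f := fun γ hγ x hx => by
    refine mem_sup_span.mp (mem_of_W (hs.sup_span cf) (hnp γ hγ) hx ?_)
    have : x ∈ a ⊔ F ∙ f := by simpa [t6, WS] using t2 (q2 (hneg γ hγ.le hx))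
    exact sup_le (w2.trans (sup_le_sup_right le_sup_left _)) (le_sup_of_le_left le_sup_right) this
  have hef' : BF V e f ≠ 0 := fun h0 => hef (by
    obtain ⟨k, hk, t, rfl⟩ := neg _ hlp f' hf'
    simp [BF_cz e hk, h0])
  obtain ⟨c1, hc1, hα1⟩ := key f hf hef'
  have hp2 := h.ne hα1 p hpW hp1
  have hp3 : 2 / p.1 c1 ≠ 0 := by simpa
  refine ⟨p, e, (2 / p.1 c1) • f, (2 / p.1 c1) • c1, hp0, he, Submodule.smul_mem _ _ hf,
    by simp [← hc1], by simp [hp2], ce, fun c' => ?_, eK, by rwa [Submodule.smul_mem_iff _ hp3], ?_⟩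
  · convert Submodule.smul_mem _ (2 / p.1 c1) (cf c') using 1
    simp [smul_smul, mul_comm]
  · rw [map_smul, Submodule.span_singleton_smul_eq hp3.isUnit,
      Submodule.span_singleton_smul_eq hp3.isUnit, eq_top_iff]
    refine fun x _ => WS_le (fun γ _ x hx => ?_) (Dec.top (i := i) x)
    by_cases h0 : W i γ = ⊥
    · exact bot_le (α := Submodule F L) (h0 ▸ hx)
    rcases lt_trichotomy (l γ) 0 with h1 | h1 | h1
    · obtain ⟨k, hk, t, rfl⟩ := neg γ h1 x hx
      exact mem_sup_span.mpr ⟨k, Submodule.mem_sup_left (Submodule.mem_sup_left hk), t, rfl⟩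
    · obtain ⟨c', rfl⟩ := h.h0 (h.gen γ h0 h1 ▸ hx)
      exact Submodule.mem_sup_left (Submodule.mem_sup_left (mem_cz_sup h hV hα1 c'))
    · have h2 : ∀ x ∈ W i γ, BF V x f = 0 → x ∈ cz V := fun x hx h3 => cz_of_W h hV hx fun y hy => by
        obtain ⟨k, hk, t, rfl⟩ := neg (-γ) (by simpa) y hy
        simp [BF_cz x hk, h3]
      refine Submodule.mem_sup_left ?_
      by_cases h3 : γ = p
      · subst h3
        exact mem_sup_span.mpr ⟨_, Submodule.mem_sup_left (h2 (x - (BF V x f / BF V e f) • e)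
          (sub_mem hx (Submodule.smul_mem _ _ he)) (by simp [hef'])), BF V x f / BF V e f, by simp⟩
      · exact Submodule.mem_sup_left (Submodule.mem_sup_left (h2 x hx (BF_W hV.id hx hf
          (by rwa [← sub_eq_add_neg, sub_ne_zero]))))

end

end Pool.Agent.P.MP_37e2d5_al
end

-- part Pool.Agent.P.MP_37e2d5_al.Case1
section

/-! Rank one, the case where all root spaces centralise the minimal ideal. -/

namespace Pool.Agent.P.MP_37e2d5_al

open UniversalEnvelopingAlgebra Module LieAlgebra Polynomial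

attribute [local instance 100] LieRing.ofAssociativeRing
attribute [-simp] UniversalEnvelopingAlgebra.ι_apply

noncomputable section

variable {F : Type*} [Field F] {C' L B : Type*} [LieRing C'] [LieAlgebra F C']
  [LieRing L] [LieAlgebra F L] [LieRing B] [LieAlgebra F B]

lemma nrm_bot (x : L) : Nrm x (⊥ : Submodule F L) := fun _ h => by simp_all

lemma sub_top : Sub (⊤ : Submodule F L) := fun _ _ _ _ => trivial

lemma tau_lI {χ : Ch F L} {a : Submodule F L} (h : ∀ x ∈ a, χ.1 x = 0) {u : U F L}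
    (hu : u ∈ lI a) : tau χ u ∈ lI a :=
  lI_ind (P := fun u => tau χ u ∈ lI a) (by simp)
    (fun u v hu hv => by rw [map_add]; exact add_mem hu hv)
    (fun x hx u => by simpa [h x hx] using mem_lI _ hx) hu

lemma mem_Ua_comap {f : B →ₗ⁅F⁆ L} {a : Submodule F L} (h : a ≤ rg f) {u : U F L} (hu : u ∈ Ua a) :
    ∃ u' ∈ Ua (a.comap (f : B →ₗ[F] L)), Umap f u' = u := by
  refine Ua_induction (P := fun u => ∃ u' ∈ Ua (a.comap (f : B →ₗ[F] L)), Umap f u' = u)
    ⟨1, one_mem _, map_one _⟩ ?_ ?_ ?_ hu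
  · rintro _ _ ⟨a, ha, rfl⟩ ⟨b, hb, rfl⟩; exact ⟨a + b, add_mem ha hb, map_add _ _ _⟩
  · rintro c _ ⟨a, ha, rfl⟩; exact ⟨c • a, Subalgebra.smul_mem _ ha _, map_smul _ _ _⟩
  · rintro y hy _ ⟨a, ha, rfl⟩
    obtain ⟨y, rfl⟩ := h hy
    exact ⟨ι F y * a, mul_mem (ι_mem_Ua hy) ha, by simp⟩

variable [CharZero F] [Module.Finite F L]

lemma ua_ker {q : Submodule F L} (hq : Sub q) {χ : Ch F L} {u : U F L} (hu : u ∈ Ua q)
    (h : tau χ u = u) : u ∈ Ua (q ⊓ LinearMap.ker χ.1) := by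
  by_cases hc : q ≤ LinearMap.ker χ.1
  · rwa [inf_eq_left.mpr hc]
  obtain ⟨x0, hx0, hx0'⟩ := SetLike.not_le_iff_exists.mp hc
  set x := (χ.1 x0)⁻¹ • x0
  have hx : χ.1 x = 1 := by simp [x, show χ.1 x0 ≠ 0 from hx0']
  have hq' : Sub (q ⊓ LinearMap.ker χ.1) := fun a ha b hb => ⟨hq a ha.1 b hb.1, χ.2 a b⟩
  have e : q = (q ⊓ LinearMap.ker χ.1) ⊔ F ∙ x := le_antisymm (fun y hy => mem_sup_span.mpr
    ⟨y - χ.1 y • x, Submodule.mem_inf.mpr ⟨sub_mem hy (q.smul_mem _ (q.smul_mem _ hx0)),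
      by simp [hx]⟩, χ.1 y, by simp⟩)
    (sup_le inf_le_left ((Submodule.span_singleton_le_iff_mem _ _).mpr (q.smul_mem _ hx0)))
  obtain ⟨n, b, rfl⟩ := span_left hq' (x := x) (fun h => by simpa [hx] using h.2) (e ▸ hq) (e ▸ hu)
  clear hu
  induction n with
  | zero => simp
  | succ n ih =>
    rcases n with _ | n
    · simpa using Umap_mem_Ua _ (fun b => b.2) _
    have key := poly_vp (F := F) (∑ k ∈ Finset.range (n + 1 + 1), C (Umap hq'.toLie.incl (b k)) *
      (X + C (ι F x)) ^ k) LinearMap.id Set.univ Set.infinite_univ _ 0 (fun t _ => by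
        rw [smul_zero, add_zero]
        refine Eq.trans ?_ (tau_periodic χ _ h t)
        simp only [LinearMap.id_apply, map_sum, map_mul, map_pow, map_add, evT_C, evT_X, tau_ι,
          tau_Umap]
        refine Finset.sum_congr rfl fun k _ => ?_
        rw [show Ch.comap hq'.toLie.incl (t • χ) = 0 from Ch.ext (LinearMap.ext fun y => by
          simp [show χ.1 y = 0 from y.2.2]), tau_zero, add_comm (ι F x)]
        simp [hx])
    have h1 : Umap hq'.toLie.incl (b (n + 1)) = 0 := by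
      have : (∑ k ∈ Finset.range (n + 1 + 1), C (Umap hq'.toLie.incl (b k)) *
          (X + C (ι F x)) ^ k).coeff (n + 1) = 0 := by
        rcases n with _ | n
        · exact key.2.1
        · exact key.2.2 _ (by omega)
      rw [finsetSum_coeff, Finset.sum_range_succ, Finset.sum_eq_zero] at this
      · simpa [coeff_X_add_C_pow] using this
      · intro k hk
        simp [coeff_X_add_C_pow, Nat.choose_eq_zero_of_lt (Finset.mem_range.mp hk)]
    rw [Finset.sum_range_succ, h1, zero_mul, add_zero] at h ⊢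
    exact ih h

lemma lin_red' [IsAlgClosed F] [LieRing.IsNilpotent L] {z : U F L} (hz : Cen z)
    {m q : Submodule F L} (hq : Sub q) (hmq : m ≤ q) (hm : ∀ x ∈ q, Nrm x m) {u : U F L}
    (hu : u ∈ Ua q) (hl : lin z ∈ q) (h : z - u ∈ rI m) : lin u - lin z ∈ m := by
  have := lin_red (z := z - algebraMap F _ (eps F L z) - ι F (lin z)) (cen_of_ι fun x => by
    simp [mul_sub, sub_mul, hz _, Algebra.commutes, ι_comm x, hz.lie_lin]) (by simp)
    (by simp [lin_algebraMap]) hq hmq hm (u := u - algebraMap F _ (eps F L z) - ι F (lin z))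
    (sub_mem (sub_mem hu (Subalgebra.algebraMap_mem _ _)) (ι_mem_Ua hl)) (by simpa)
  simpa [lin_algebraMap] using this

variable [LieRing.IsNilpotent C'] {i : C' →ₗ⁅F⁆ L} [Dec i] {α : Ch F C'} {l : Ch F C' →ₗ[ℚ] ℚ}
  {V : Submodule F L}

lemma rI_of_lI {z a : U F L} (hz : Cen z) (ha : a ∈ Ua (zP i l)) (h : z - a ∈ lI (nP i l)) :
    z - a ∈ rI (nP i (-l)) := by
  obtain ⟨b, h1, h2, h3⟩ := hc l sub_top (stb_top i) (mem_Ua_top z)
    (hz.mem_W i)
  rw [top_inf_eq] at h1 h2 h3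
  rwa [sub_eq_zero.mp (hc_unique (l := l) (Ua_mono (zP_le_pP_neg i l) (sub_mem ha h1))
    (by convert sub_mem h2 h using 1; abel))]

theorem case1 [IsAlgClosed F] [Module.Finite F C'] (h : R1 i α l) (hV : MinI i V)
    (hK : ∀ β ≠ 0, W i β ≤ cz V) {z : U F L} (hz : Cen z) {u : U F C'} {s : F}
    (hu : z - Umap i (tau (s • α) u) ∈ lI (nP i l)) (x : L) : ⁅x, i (lin u)⁆ = 0 := by
  obtain ⟨β, hβ, h1⟩ := hV.wt
  obtain ⟨v, hv, -, hv0, h2⟩ := exists_wvec (fun _ => hV.id _) h1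
  simp only [Submodule.mem_bot, sub_eq_zero] at hv0 h2
  obtain ⟨c0, hc0⟩ := Ch.exists_ne hβ
  have hβW := ne_bot_of_not_le h1
  have hl : (l β : F) ≠ 0 := fun h0 => hc0 (by rw [h.apply hβW, h0, zero_mul])
  have htop : ∀ x, x ∈ cz V ⊔ F ∙ i c0 := fun x => WS_le (fun γ _ y hy => by
    by_cases h0 : γ = 0
    · obtain ⟨c, rfl⟩ := h.h0 (h0 ▸ hy)
      exact mem_cz_sup h hV (fun h0 => hc0 (by rw [h.apply hβW, h0, mul_zero])) c
    · exact Submodule.mem_sup_left (hK γ h0 hy)) (Dec.top (i := i) x)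
  obtain ⟨ψ, hψ⟩ := Projective.exists_dual_eq_one F hv0
  have h3 : ∀ x, ⁅x, v⁆ = ψ ⁅x, v⁆ • v := fun x => by
    obtain ⟨k, hk, t, rfl⟩ := mem_sup_span.mp (htop x)
    simp [hk v hv, h2, hψ, smul_smul]
  let χ : Ch F L := ⟨ψ ∘ₗ (ad F L : L →ₗ[F] End F L).flip v, fun x y => by
    simp only [LinearMap.comp_apply, LinearMap.flip_apply, LieHom.coe_toLinearMap, ad_apply,
      lie_lie]
    rw [h3 x, h3 y]
    simp [mul_comm]⟩
  have hχ : ∀ x, χ.1 x = ψ ⁅x, v⁆ := fun _ => rfl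
  have hχi : Ch.comap i χ = β := Ch.ext (LinearMap.ext fun c => by simp [hχ, h2, hψ])
  have h4 : tau χ z = z := by
    have := Y_bot (Umap_mul_wvec (i := LieHom.id) (stb_bot _) (β := χ) (x := v)
      (fun x => by simp [hχ, ← h3]) z)
    rw [Umap_id, Umap_id, ← hz, ← mul_sub] at this
    exact (sub_eq_zero.mp (Y_bot (reg_U ⊤ 1 ⊥ bot_le (fun x _ => nrm_bot x) (by simp) v trivial
      hv0 (nrm_bot v) _ (by rw [smul_eq_mul, this]; exact zero_mem _)))).symm
  have hn : ∀ l : Ch F C' →ₗ[ℚ] ℚ, nP i l ≤ cz V := fun l => WS_le fun γ hγ =>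
    hK γ (by rintro rfl; simp at hγ)
  have h5 : ∀ t : F, z - Umap i (tau (t • β) u) ∈ lI (nP i l) := fun t => by
    have := tau_lI (χ := (t - s / l β) • χ) (fun x hx => by simp [hχ, hn l hx v hv]) hu
    rw [map_sub, tau_periodic χ z h4, tau_Umap, tau_tau] at this
    rwa [show Ch.comap i ((t - s / l β) • χ) + s • α = t • β by
      ext c
      simp only [Ch.smul_val, LinearMap.smul_apply, Ch.add_val, LinearMap.add_apply,
        Ch.comap_apply, smul_eq_mul, ← hχi ▸ Ch.comap_apply i χ c, h.apply hβW]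
      field_simp
      ring] at this
  have h6 := h5 0
  rw [zero_smul, tau_zero] at h6
  have hker : LinearMap.ker χ.1 ≤ cz V := fun x hx => by
    obtain ⟨k, hk, t, rfl⟩ := mem_sup_span.mp (htop x)
    simpa [show t = 0 by simpa [hχ, hk v hv, h2, hψ, hc0] using hx]
  have hs : Sub (cz V) := fun x _ => nrm_cz hV.id x
  have := (nil_cz h hV).isNilpotent hs
  obtain ⟨z', rfl⟩ := mem_Ua_rg (f := hs.toLie.incl) (Ua_mono (inf_le_right.trans
    (hker.trans hs.rg_incl.ge)) (ua_ker sub_top (mem_Ua_top z) h4))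
  obtain ⟨u', hu', e⟩ := mem_Ua_comap (f := hs.toLie.incl) (inf_le_right.trans
    (hker.trans hs.rg_incl.ge)) (ua_ker (χ := χ) (sub_pP i (-l))
      (Ua_mono (zP_le_pP_neg i l) (Umap_mem_zP l u)) (by
        rw [tau_Umap, hχi]; exact hc_eq (by simpa using h5 1) h6))
  have h7 : lin (Umap hs.toLie.incl z') ∈ W i 0 := mem_W_zero fun c => hz.lie_lin _
  have h8 := lin_red' (z := z') (fun a => Umap_inj hs.incl_inj (by simp [hz _]))
    (m := (nP i (-l)).comap (hs.toLie.incl : hs.toLie →ₗ[F] L))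
    (q := (pP i (-l)).comap (hs.toLie.incl : hs.toLie →ₗ[F] L))
    (fun x hx y hy => sub_pP i _ _ hx _ hy) (Submodule.comap_mono (nP_le_pP i _))
    (fun x hx y hy => nrm_nP hx _ hy) (Ua_mono (Submodule.comap_mono inf_le_left) hu')
    (zP_le_pP_neg i l (W_zero_le_zP i l (by rw [lin_Umap] at h7; exact h7)))
    (rI_of_Umap hs.incl_inj (fun x hx => ⟨⟨x, hn _ hx⟩, hx, rfl⟩) (by
      rw [map_sub, e]; exact rI_of_lI hz (Umap_mem_zP l u) h6))
  rw [Submodule.mem_comap, map_sub, LieHom.coe_toLinearMap, ← lin_Umap, ← lin_Umap, e,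
    lin_Umap] at h8
  rw [sub_eq_zero.mp (eq_zero_of_W (by simp) (sub_mem (i_mem_W i _) h7) h8), hz.lie_lin]

end

end Pool.Agent.P.MP_37e2d5_al
end

-- part Pool.Agent.P.MP_37e2d5_al.Weyl
section

/-! The Weyl reflection in rank one and reduction modulo a highest weight vector. -/

namespace Pool.Agent.P.MP_37e2d5_al

open UniversalEnvelopingAlgebra Module LieAlgebra

attribute [local instance 100] LieRing.ofAssociativeRing
attribute [-simp] UniversalEnvelopingAlgebra.ι_apply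

noncomputable section

variable {F : Type*} [Field F] {C L : Type*} [LieRing C] [LieAlgebra F C]
  [LieRing L] [LieAlgebra F L]

/-- polynomials of degree `< N` in `f` with right coefficients in `U(q)` -/
def PN (f : L) (q : Submodule F L) (N : ℕ) : Submodule F (U F L) :=
  Submodule.span F {a | ∃ k < N, ∃ u ∈ Ua q, ι F f ^ k * u = a}

section

variable {f : L} {q : Submodule F L} {N : ℕ}

lemma mem_PN {k : ℕ} (hk : k < N) {u : U F L} (hu : u ∈ Ua q) : ι F f ^ k * u ∈ PN f q N :=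
  Submodule.subset_span ⟨k, hk, u, hu, rfl⟩

lemma PN_map {P : Submodule F (U F L)} (g : U F L →ₗ[F] U F L)
    (h : ∀ k < N, ∀ u ∈ Ua q, g (ι F f ^ k * u) ∈ P) {a : U F L} (ha : a ∈ PN f q N) : g a ∈ P :=
  (Submodule.span_le (p := P.comap g)).mpr (by rintro _ ⟨k, hk, u, hu, rfl⟩; exact h k hk u hu) ha

lemma PN_mono {N' : ℕ} (h : N ≤ N') {a : U F L} (ha : a ∈ PN f q N) : a ∈ PN f q N' :=
  PN_map LinearMap.id (fun _ hk _ hu => mem_PN (hk.trans_le h) hu) ha

lemma PN_mul {a u : U F L} (ha : a ∈ PN f q N) (hu : u ∈ Ua q) : a * u ∈ PN f q N :=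
  PN_map (LinearMap.mulRight F u) (fun _ hk _ hv => by
    simpa [mul_assoc] using mem_PN hk (mul_mem hv hu)) ha

lemma mul_PN {a : U F L} (ha : a ∈ PN f q N) : ι F f * a ∈ PN f q (N + 1) :=
  PN_map (LinearMap.mulLeft F (ι F f)) (fun k hk _ hv => by
    simpa [pow_succ', mul_assoc] using mem_PN (Nat.succ_lt_succ hk) hv) ha

lemma PN_comm {V : Submodule F L} (hV : V ≤ q) (hf : Nrm f V) (k : ℕ) : ∀ v ∈ V,
    ι F v * ι F f ^ k - ι F f ^ k * ι F v ∈ PN f q k ∧ ι F v * ι F f ^ (k + 1) -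
      ι F f ^ (k + 1) * ι F v + ((k + 1 : ℕ) : F) • (ι F f ^ k * ι F ⁅f, v⁆) ∈ PN f q k := by
  have e : ∀ v, ι F ⁅f, v⁆ = ι F f * ι F v - ι F v * ι F f := fun v => by rw [ι_comm f v]; abel
  induction k with
  | zero => intro v _; simp [e]
  | succ k ih =>
    intro v hv
    refine ⟨?_, ?_⟩
    · simpa using sub_mem (PN_mono k.le_succ (ih v hv).2) (Submodule.smul_mem _ ((k + 1 : ℕ) : F)
        (mem_PN k.lt_succ_self (ι_mem_Ua (hV (hf v hv)))))
    · have h1 := ih _ (hf v hv)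
      convert sub_mem (mul_PN (ih v hv).2) (sub_mem (PN_mono k.le_succ h1.2) (Submodule.smul_mem _
        ((k + 1 : ℕ) : F) (mem_PN k.lt_succ_self (ι_mem_Ua (hV (hf _ (hf v hv))))))) using 1
      rw [Nat.cast_succ (k + 1), add_smul, one_smul, add_sub_cancel_right]
      simp only [e v, pow_succ' _ (k + 1), mul_sub, sub_mul, mul_add, mul_assoc, mul_smul_comm]
      simp only [← mul_assoc (ι F f) (ι F f ^ k), ← pow_succ']
      abel

lemma PN_eq (hq : Sub q) {a : U F L} (ha : a ∈ PN f q N) : ∃ b : ℕ → U F hq.toLie,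
    a = ∑ k ∈ Finset.range N, ι F f ^ k * Umap hq.toLie.incl (b k) := by
  induction ha using Submodule.span_induction with
  | mem a ha =>
    obtain ⟨k, hk, u, hu, rfl⟩ := ha
    obtain ⟨b, rfl⟩ := mem_Ua_rg (hq.rg_incl.symm ▸ hu)
    refine ⟨Pi.single k b, ?_⟩
    rw [Finset.sum_eq_single k (fun j _ hj => by simp [hj]) (by simp [hk]), Pi.single_eq_same]
  | zero => exact ⟨0, by simp⟩
  | add a a' _ _ h1 h2 =>
    obtain ⟨b, rfl⟩ := h1
    obtain ⟨b', rfl⟩ := h2
    exact ⟨b + b', by simp [mul_add, Finset.sum_add_distrib]⟩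
  | smul c a _ h1 =>
    obtain ⟨b, rfl⟩ := h1
    exact ⟨c • b, by simp [Finset.smul_sum]⟩

end

lemma rI_of_lI' {a : Submodule F L} (h : ∀ x, Nrm x a) {u : U F L} (hu : u ∈ lI a) : u ∈ rI a :=
  lI_ind (P := fun u => u ∈ rI a) (zero_mem _) (fun _ _ => add_mem)
    (fun _ hx u => Ua_mul_rI (fun x _ => h x) (mem_Ua_top u) (mem_Y' hx)) hu

lemma lI_of_rI' {a : Submodule F L} (h : ∀ x, Nrm x a) {u : U F L} (hu : u ∈ rI a) : u ∈ lI a :=
  Y_ind (P := fun u => u ∈ lI a) (zero_mem _) (fun _ _ => add_mem)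
    (fun _ hx u => lI_mul_Ua (fun x _ => h x) (mem_Ua_top u) (mem_lI' hx)) hu

variable [CharZero F] [Module.Finite F L]

theorem red_q {q V : Submodule F L} (hq : Sub q) {f y : L} (hfq : f ∉ q) (htop : q ⊔ (F ∙ f) = ⊤)
    (hV : V ≤ q) (hf : Nrm f V) (hy : y ∈ V) (hy' : ∀ x ∈ q, Nrm x (F ∙ y))
    (hv : ⁅f, y⁆ ∉ F ∙ y) {z : U F L} (hz : Cen z) :
    ∃ b : U F hq.toLie, z - Umap hq.toLie.incl b ∈ lI (F ∙ y) := by
  obtain ⟨n, b, hb⟩ := span_right hq hfq (htop ▸ sub_top) (htop ▸ mem_Ua_top z)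
  have hyy := Submodule.mem_span_singleton_self (R := F) y
  have hb' : z - ∑ k ∈ Finset.range n, ι F f ^ k * Umap hq.toLie.incl (b k) ∈ lI (F ∙ y) := by
    simp [← hb]
  clear hb
  induction n with
  | zero => exact ⟨0, by simpa using hb'⟩
  | succ n ih =>
    rcases n with _ | n
    · exact ⟨b 0, by simpa using hb'⟩
    have hU : ∀ u, Umap hq.toLie.incl u ∈ Ua q := Umap_mem_Ua _ fun b => b.2
    have h1 : ∀ k u, ι F f ^ k * ι F y * Umap hq.toLie.incl u ∈ lI (F ∙ y) := fun k u =>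
      lI_mul_Ua hy' (hU u) (mem_lI _ hyy)
    obtain ⟨b', h2⟩ := PN_eq hq (add_mem (Submodule.sum_mem _ fun k (hk : k ∈ Finset.range (n + 1)) =>
      PN_mono (Nat.lt_succ_iff.mp (Finset.mem_range.mp hk)) (PN_mul (PN_comm hV hf k y hy).1
        (hU (b k)))) (PN_mul (PN_comm hV hf n y hy).2 (hU (b (n + 1)))))
    let a : Submodule F hq.toLie := (F ∙ y).comap (hq.toLie.incl : hq.toLie →ₗ[F] L)
    have ha : ∀ x, Nrm x a := fun x w hw => hy' x x.2 w hw
    let v : hq.toLie := ⟨⁅f, y⁆, hV (hf y hy)⟩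
    have h3 := ind_right hq.incl_inj (x := f) (by rwa [hq.rg_incl]) (a := a) (a' := F ∙ y)
      (fun x hx => ⟨⟨x, (Submodule.span_singleton_le_iff_mem _ _).mpr (hV hy) hx⟩, hx, rfl⟩)
      (Finset.range (n + 1)) (Function.update b' n (-((n + 1 : ℕ) : F) • (ι F v * b (n + 1)))) (by
        rw [Finset.sum_range_succ, Finset.sum_congr rfl fun k hk => by
          rw [Function.update_of_ne (Finset.mem_range.mp hk).ne], ← h2, Function.update_self]
        convert sub_mem (sub_mem (sub_mem (mem_lI z hyy) (lI_mul (ι F y) hb'))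
          (Submodule.sum_mem _ fun k (_ : k ∈ Finset.range (n + 1)) => h1 k (b k)))
          (h1 (n + 1) (b (n + 1))) using 1
        simp only [Finset.sum_range_succ _ (n + 1), mul_sub, sub_mul, add_mul, mul_add, hz (ι F y),
          Finset.mul_sum, Finset.sum_sub_distrib, mul_assoc, map_smul, map_mul, Umap_ι,
          smul_mul_assoc, mul_smul_comm, neg_smul, map_neg, mul_neg, v, LieSubalgebra.coe_incl]
        abel) n (by simp)
    rw [Function.update_self] at h3
    have h4 := lI_of_rI' ha (reg_U ⊤ _ a le_top (fun x _ => ha x) (Nat.lt_succ_self _) v trivial hv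
      (ha v) _ ((Submodule.smul_mem_iff _ (neg_ne_zero.mpr (Nat.cast_ne_zero.mpr
        n.succ_ne_zero))).mp (rI_of_lI' ha h3)))
    refine ih ?_
    convert add_mem hb' (lI_mul (ι F f ^ (n + 1)) (Umap_lI hq.toLie.incl (fun x hx => hx) h4))
      using 1
    rw [Finset.sum_range_succ _ (n + 1)]
    abel

variable [LieRing.IsNilpotent C] {i : C →ₗ⁅F⁆ L} [Dec i] {α : Ch F C} {l : Ch F C →ₗ[ℚ] ℚ}
  {V : Submodule F L}

omit [CharZero F] [Module.Finite F L] in
lemma mem_WS_of_pow {c : C} {t : F} {k : ℕ} {x : L} (h : ((ad F L (i c) - t • 1) ^ k) x = 0) :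
    x ∈ WS i {γ | γ.1 c = t} := mem_WS_of_pr fun γ hγ => by
  have h1 : ∀ (n : ℕ) x, pr i γ (((ad F L (i c) - t • 1) ^ n) x) =
      ((ad F L (i c) - t • 1) ^ n) (pr i γ x) := by
    intro n
    induction n with
    | zero => simp
    | succ n ih => intro x; simp [pow_succ, ih, pr_lie]
  obtain ⟨m, hm⟩ := mem_W.mp (pr_mem (i := i) γ x) c
  refine mem_of_shift_pow (T := ⊥) _ (fun v hv => by rw [hv]; simp) (sub_ne_zero.mpr hγ) m k hm ?_
  have := h1 k x
  rw [h, map_zero] at this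
  convert (Submodule.mem_bot F).mpr this.symm using 3
  simp [sub_smul]

theorem exists_weyl (h : R1 i α l) (hV : MinI i V) {p : Ch F C} {e f : L} {h' : C}
    (ht : Tri i (cz V) p e f h') : ∃ n : L →ₗ⁅F⁆ L, Inn n ∧ (∀ β, ∀ x ∈ W i β, n x ∈ W i (-β)) ∧
      n e + f ∈ cz V ∧ (∀ c, ∃ c', n (i c) = i c' ∧ α.1 c' = -α.1 c) ∧
      ∀ y ∈ V, ⁅e, y⁆ = 0 → ⁅e, ⁅f, y⁆⁆ = (2 : F) • y → ⁅f, ⁅f, ⁅f, y⁆⁆⁆ = 0 →
        ⁅e, ⁅f, ⁅f, y⁆⁆⁆ = (2 : F) • ⁅f, y⁆ → n y = (2 : F)⁻¹ • ⁅f, ⁅f, y⁆⁆ := by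
  have hN := nrm_cz hV.id
  have hp : p ≠ 0 := fun h0 => by simpa [h0] using ht.ph
  have hα : α.1 h' ≠ 0 := fun h0 => by
    simpa [h.apply (ne_bot_of_notMem ht.he ht.eK), h0] using ht.ph
  obtain ⟨E, E1, E2⟩ := exists_exp (ad_nil_of_W hp ht.he)
  obtain ⟨G, G1, G2⟩ := exists_exp (ad_nil_of_W (neg_ne_zero.mpr hp) (neg_mem ht.hf))
  obtain ⟨s1, s2⟩ := sl2_mod E1 G1 (hN e) (hN f) (y := e) (v := -i h') (w := -(2 : F) • f) (by simp)
    (by simp [← ht.ef]) (by simpa [ht.ph] using ht.ce h') (by simpa [ht.ph] using ht.cf h')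
    (by simp) (by simp [ht.ef])
  obtain ⟨a, a1, a2, a3, a4⟩ := exists_corr hN (nil_cz h hV) (h.ne hα) s2
  obtain ⟨c0, hc0⟩ := h.h0 a4
  rw [LieHom.coe_toLinearMap, add_comm, neg_add_cancel_right] at hc0
  set n := a.comp (E.comp (G.comp E)) with hn
  have n1 : Inn n := a1.comp (E2.comp (G2.comp E2))
  have n2 : n (i h') = i (-h' - c0) := by
    simp [hn, hc0]
    abel
  have n3 : α.1 c0 = 0 := ker_of_cz h hV (by
    rw [hc0]
    convert add_mem (a2 (E (G (E (-i h'))))) s2 using 1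
    abel)
  have n4 : ∀ β, ∀ x ∈ W i β, n x ∈ W i (-β) := fun β x hx => by
    by_cases h0 : W i β = ⊥
    · rw [h0] at hx; simp [show x = 0 from hx]
    obtain ⟨k, hk⟩ := mem_W.mp hx h'
    have := pow_map_comm n (i h') (β.1 h') k x
    rw [hk, map_zero, n2] at this
    refine WS_le (fun γ hγ => ?_) (mem_WS_of_pow this)
    by_cases h1 : W i γ = ⊥
    · simp [h1]
    · have : l γ = -l β := by
        rw [← Rat.cast_inj (α := F), ← mul_left_inj' hα]
        simpa [h.apply h0, h.apply h1, n3, neg_eq_iff_eq_neg] using hγ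
      rw [h.h1 γ h1, this, neg_smul, ← h.h1 β h0]
  refine ⟨n, n1, n4, ?_, fun c => ?_, fun y hy y1 y2 y3 y4 => ?_⟩
  · convert add_mem (a2 (E (G (E e)))) s1 using 1
    simp [hn, smul_smul]
    abel
  · obtain ⟨c', hc'⟩ := h.h0 (neg_zero (G := Ch F C) ▸ n4 0 _ (i_mem_W i c))
    refine ⟨c', hc'.symm, ?_⟩
    have := ker_of_cz h hV (c := c' - (α.1 c / α.1 h') • (-h' - c0)) (by
      rw [map_sub, map_smul, ← n2, show i c' = n (i c) from hc', ← map_smul, ← map_sub, ← map_smul,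
        ← map_sub]
      exact n1.2.1 _ hN _ (cz_of_ker h hV (by simp [hα])))
    simpa [n3, hα, add_eq_zero_iff_eq_neg] using this
  · have := (sl2_mod E1 G1 (nrm_bot e) (nrm_bot f) (y := y) (v := ⁅f, y⁆) (w := ⁅f, ⁅f, y⁆⁆)
      y1 (by simp) (by simp [y2]) (by simp) y3 (by simp [y4])).1
    rw [Submodule.mem_bot, sub_eq_zero] at this
    simp only [hn, LieHom.comp_apply, this]
    exact a3 _ fun k hk => hk _ (V.smul_mem _ (hV.id f _ (hV.id f _ hy)))

omit [Dec i] [LieRing.IsNilpotent C] in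
lemma weyl_fix [Module.Finite F C] {n : L →ₗ⁅F⁆ L}
    (hn : ∀ c, ∃ c', n (i c) = i c' ∧ α.1 c' = -α.1 c) (h0 : ∀ c, i c = 0 → α.1 c = 0)
    {u : U F C} {s : F} (h : Umap n (Umap i (tau (s • α) u)) = Umap i (tau (-s • α) u)) :
    n (i (lin u)) = i (lin u) := by
  let L0 := (sub_rg i).toLie
  let j : C →ₗ⁅F⁆ L0 := cod i L0 fun c => ⟨c, rfl⟩
  have hj : Function.Surjective j := fun ⟨_, c, hc⟩ => ⟨c, Subtype.ext hc⟩
  obtain ⟨g, hg⟩ := (j : C →ₗ[F] L0).exists_rightInverse_of_surjective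
    (LinearMap.range_eq_top.mpr hj)
  have hα : ∀ c, α.1 (g (j c)) = α.1 c := fun c => by
    rw [← sub_eq_zero, ← map_sub]
    refine h0 _ ?_
    rw [map_sub, sub_eq_zero]
    exact congrArg Subtype.val (LinearMap.congr_fun hg (j c))
  let χ : Ch F L0 := ⟨α.1 ∘ₗ g, fun x y => by
    obtain ⟨x, rfl⟩ := hj x
    obtain ⟨y, rfl⟩ := hj y
    rw [← LieHom.map_lie, LinearMap.comp_apply, hα, α.2]⟩
  let j' : C →ₗ⁅F⁆ L0 := cod (n.comp i) L0 fun c => (hn c).imp fun _ h => h.1.symm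
  have h1 : Umap j' (tau (s • α) u) = Umap j (tau (-s • α) u) := Umap_inj (sub_rg i).incl_inj (by
    rw [Umap_Umap] at h ⊢
    rw [Umap_Umap]
    exact h)
  have h2 := congrArg (tau (s • χ)) h1
  rw [tau_Umap, tau_Umap, tau_tau, tau_tau, show Ch.comap j (s • χ) + -s • α = 0 by
    ext c; simp [χ, hα], show Ch.comap j' (s • χ) + s • α = 0 by
      ext c
      obtain ⟨c', h1, h2⟩ := hn c
      simp [χ, show j' c = j c' from Subtype.ext h1, hα, h2], tau_zero] at h2
  have h3 := congrArg lin h2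
  rw [lin_Umap, lin_Umap] at h3
  exact congrArg Subtype.val h3

end

end Pool.Agent.P.MP_37e2d5_al
end

-- part Pool.Agent.P.MP_37e2d5_al.T1
section

/-! The rank one theorem. -/

namespace Pool.Agent.P.MP_37e2d5_al

open UniversalEnvelopingAlgebra Module LieAlgebra

attribute [local instance 100] LieRing.ofAssociativeRing
attribute [-simp] UniversalEnvelopingAlgebra.ι_apply

noncomputable section

universe v

variable {F : Type*} [Field F] [CharZero F] {C : Type*} [LieRing C] [LieAlgebra F C]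

/-- brackets of opposite root spaces lie in the kernel of `α` -/
def SP {L : Type*} [LieRing L] [LieAlgebra F L] (i : C →ₗ⁅F⁆ L) (α : Ch F C) : Prop :=
  ∀ β ≠ 0, ∀ x ∈ W i β, ∀ y ∈ W i (-β), ∃ c, α.1 c = 0 ∧ i c = ⁅x, y⁆

variable [Module.Finite F C]

/-- the rank one statement below a given dimension -/
def T1P (α : Ch F C) (l : Ch F C →ₗ[ℚ] ℚ) (u : U F C) (s : F) (n : ℕ) : Prop :=
  ∀ (L : Type v) [LieRing L] [LieAlgebra F L] [Module.Finite F L] (i : C →ₗ⁅F⁆ L),
    finrank F L < n → R1 i α l → ∀ z, Cen z → z - Umap i (tau (s • α) u) ∈ lI (nP i l) →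
    (SP i α ∨ z - Umap i (tau (-s • α) u) ∈ lI (nP i (-l))) → ∀ x : L, ⁅x, i (lin u)⁆ = 0

variable [IsAlgClosed F] [LieRing.IsNilpotent C] {α : Ch F C} {l : Ch F C →ₗ[ℚ] ℚ} {u : U F C}
  {s : F} {n : ℕ}

lemma T1P.surj (H : T1P.{v} α l u s n) {L : Type*} [LieRing L] [LieAlgebra F L] [Module.Finite F L]
    {L' : Type v} [LieRing L'] [LieAlgebra F L'] [Module.Finite F L'] {i : C →ₗ⁅F⁆ L}
    {π : L →ₗ⁅F⁆ L'} (hπ : Function.Surjective π) (hn : finrank F L' < n) (h : R1 i α l)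
    {z : U F L} (hz : Cen (Umap π z)) (h1 : z - Umap i (tau (s • α) u) ∈ lI (nP i l))
    (h2 : SP i α ∨ z - Umap i (tau (-s • α) u) ∈ lI (nP i (-l))) (x : L) :
    π ⁅x, i (lin u)⁆ = 0 := by
  have hW : ∀ β, ∀ x ∈ W (π.comp i) β, ∃ y ∈ W i β, π y = x := fun β x hx => by
    obtain ⟨x, rfl⟩ := hπ x
    exact W_of_surj π hx
  have hI : ∀ l u, z - Umap i u ∈ lI (nP i l) →
      Umap π z - Umap (π.comp i) u ∈ lI (nP (π.comp i) l) := fun l u h => by
    rw [← Umap_Umap, ← map_sub]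
    exact Umap_lI π (fun x hx => WS_map π hx) h
  rw [LieHom.map_lie]
  refine H L' (π.comp i) hn ⟨fun x hx => ?_, fun β hβ => h.h1 β fun h0 => hβ ?_⟩ _ hz (hI _ _ h1)
    (h2.imp (fun h3 β hβ x hx y hy => ?_) (hI _ _)) _
  · obtain ⟨y, hy, rfl⟩ := hW 0 x hx
    obtain ⟨c, rfl⟩ := h.h0 hy
    exact ⟨c, rfl⟩
  · refine eq_bot_iff.mpr fun x hx => ?_
    obtain ⟨y, hy, rfl⟩ := hW β x hx
    rw [h0] at hy
    simp [show y = 0 from hy]
  · obtain ⟨x', hx', rfl⟩ := hW _ x hx
    obtain ⟨y', hy', rfl⟩ := hW _ y hy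
    obtain ⟨c, h4, h5⟩ := h3 β hβ x' hx' y' hy'
    exact ⟨c, h4, by simp [h5]⟩

variable {L : Type v} [LieRing L] [LieAlgebra F L] [Module.Finite F L] {i : C →ₗ⁅F⁆ L}

lemma case2_q (H : T1P.{v} α l u s (finrank F L)) (h : R1 i α l) {V : Submodule F L}
    (hV : MinI i V) (hVK : V ≤ cz V) {p : Ch F C} {e f : L} {h' : C} (hp : 0 < l p)
    (ht : Tri i (cz V) p e f h') {m : Ch F C} (hm : 0 < l m) {y : L} (hy : y ∈ V) (hym : y ∈ W i m)
    (hyh : ⁅i h', y⁆ = m.1 h' • y) (hye : ⁅e, y⁆ = 0) (hyf : ⁅f, y⁆ ∉ F ∙ y) {z : U F L}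
    (hz : Cen z) (h1 : z - Umap i (tau (s • α) u) ∈ lI (nP i l)) :
    ∀ x ∈ (cz V ⊔ F ∙ i h') ⊔ F ∙ e, ⁅x, i (lin u)⁆ ∈ F ∙ y := by
  have hN := nrm_cz hV.id
  have hs : Stb i (cz V) := fun _ => hN _
  have hα : α.1 h' ≠ 0 := fun h0 => by
    simpa [h.apply (ne_bot_of_notMem ht.he ht.eK), h0] using ht.ph
  have hq : Sub ((cz V ⊔ F ∙ i h') ⊔ F ∙ e) := by
    rw [sup_right_comm]
    exact (Sub.sup_span (fun x _ => hN x) (hN e)).sup_span (hs.sup_span ht.ce h')
  set q := (cz V ⊔ F ∙ i h') ⊔ F ∙ e with hq'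
  have q1 : cz V ≤ q := le_sup_of_le_left le_sup_left
  have q2 : ∀ c, i c ∈ q := fun c => Submodule.mem_sup_left (mem_cz_sup h hV hα c)
  have q3 : ∀ γ, l γ < 0 → ∀ x ∈ W i γ, x ∈ q → x ∈ cz V := fun γ hγ x hx hxq =>
    mem_of_W hs (S := {β | 0 ≤ l β}) (by simpa) hx ((sup_le (sup_le le_sup_left (le_sup_of_le_right
      ((Submodule.span_singleton_le_iff_mem _ _).mpr (mem_WS (by simp) (i_mem_W i h')))))
      (le_sup_of_le_right ((Submodule.span_singleton_le_iff_mem _ _).mpr (mem_WS hp.le ht.he))) :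
        q ≤ _) hxq)
  have q4 : f ∉ q := fun hf => ht.fK (q3 _ (by simpa) f ht.hf hf)
  have q5 : nP i l ≤ q := WS_le fun γ hγ x hx => mem_of_W (fun c => hq _ (q2 c)) (S := {-p})
    (by rintro rfl; simp at hγ; linarith) hx ((ht.top.ge.trans (sup_le_sup_left
      ((Submodule.span_singleton_le_iff_mem _ _).mpr (mem_WS (Set.mem_singleton _) ht.hf)) _))
        trivial)
  have q6 : ∀ x ∈ q, Nrm x (F ∙ y) := fun x hx w hw => by
    obtain ⟨t, rfl⟩ := Submodule.mem_span_singleton.mp hw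
    obtain ⟨x1, hx1, t1, rfl⟩ := mem_sup_span.mp hx
    obtain ⟨x2, hx2, t2, rfl⟩ := mem_sup_span.mp hx1
    simp only [lie_smul, add_lie, smul_lie, hx2 y hy, hyh, hye, smul_zero, add_zero, zero_add]
    exact Submodule.smul_mem _ _ (Submodule.smul_mem _ _ (Submodule.smul_mem _ _
      (Submodule.mem_span_singleton_self y)))
  obtain ⟨b, hb⟩ := red_q hq q4 ht.top (hVK.trans q1) (hV.id f) hy q6 hyf hz
  let j : C →ₗ⁅F⁆ hq.toLie := cod i hq.toLie q2
  let I : LieIdeal F hq.toLie := mkIdeal ((F ∙ y).comap (hq.toLie.incl : hq.toLie →ₗ[F] L))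
    fun x w hw => q6 x x.2 w hw
  have hj : hq.toLie.incl.comp j = i := incl_comp_cod _ _ _
  have hW : ∀ β, ∀ x ∈ W j β, (x : L) ∈ W i β := fun β x hx => hj ▸ W_map hq.toLie.incl hx
  have hyq : (F ∙ y) ≤ q := (Submodule.span_singleton_le_iff_mem _ _).mpr (q1 (hVK hy))
  have a1 : finrank F (hq.toLie ⧸ I) < finrank F L := lt_of_le_of_lt
    (LinearMap.finrank_le_finrank_of_surjective (f := (qmk I).toLinearMap) (qmk_surj I))
    (Submodule.finrank_lt (s := q) fun h0 => q4 (h0 ▸ trivial))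
  have a2 : R1 j α l := ⟨fun x hx => (h.h0 (hW 0 x hx)).imp fun c hc => Subtype.ext hc,
    fun β hβ => h.h1 β fun h0 => hβ (eq_bot_iff.mpr fun x hx => Subtype.ext (h0.le (hW β x hx)))⟩
  have a3 : Cen (Umap (qmk I) b) := cen_of_ι fun x => by
    obtain ⟨x, rfl⟩ := qmk_surj I x
    rw [← Umap_ι, ← map_mul, ← map_mul, ← sub_eq_zero, ← map_sub]
    refine Umap_lI_zero _ (a := I.toSubmodule) (fun x hx => (qmk_eq_zero I).mpr hx)
      (lI_of_Umap hq.incl_inj (a' := F ∙ y) (fun x hx => ⟨⟨x, hyq hx⟩, hx, rfl⟩) ?_)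
    convert sub_mem ((q6 x x.2).lI_mul hb) (lI_mul (ι F (x : L)) hb) using 1
    simp only [map_sub, map_mul, Umap_ι, LieSubalgebra.coe_incl, sub_mul, mul_sub, hz (ι F (x : L))]
    abel
  have a4 : b - Umap j (tau (s • α) u) ∈ lI (nP j l) := lI_of_Umap hq.incl_inj (a' := nP i l)
    (fun x hx => ⟨⟨x, q5 hx⟩, WS_of_map hq.incl_inj (by rw [hj]; exact hx), rfl⟩) (by
      rw [map_sub, Umap_Umap, hj]
      convert sub_mem h1 (lI_mono ((Submodule.span_singleton_le_iff_mem _ _).mpr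
        (mem_WS hm hym)) hb) using 1
      rw [sub_sub_sub_cancel_left])
  have a5 : SP j α := fun β hβ x hx x' hx' => by
    obtain ⟨c, hc⟩ := h.h0 (add_neg_cancel β ▸ lie_mem_W (hW _ _ hx) (hW _ _ hx'))
    refine ⟨c, ker_of_cz h hV ?_, Subtype.ext hc⟩
    rw [show i c = _ from hc]
    rcases lt_trichotomy (l β) 0 with h2 | h2 | h2
    · exact (hN _).lie_left (q3 _ h2 _ (hW _ _ hx) x.2)
    · by_cases h0 : W i β = ⊥
      · simp [show (x : L) = 0 from h0.le (hW _ _ hx)]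
      · exact absurd (h.gen β h0 h2) hβ
    · exact hN _ _ (q3 _ (by simpa) _ (hW _ _ hx') x'.2)
  exact fun x hx => (qmk_eq_zero I).mp (H.surj (qmk_surj I) a1 a2 a3 a4 (Or.inl a5) ⟨x, hx⟩)

lemma case2 (H : T1P.{v} α l u s (finrank F L)) (h : R1 i α l) {V : Submodule F L}
    (hV : MinI i V) {p : Ch F C} {e f : L} {h' : C} (hp : 0 < l p) (ht : Tri i (cz V) p e f h')
    (hu : Cen u) (hc : ∀ x : L, ⁅x, i (lin u)⁆ ∈ V) {z : U F L} (hz : Cen z)
    (h1 : z - Umap i (tau (s • α) u) ∈ lI (nP i l))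
    (h2 : z - Umap i (tau (-s • α) u) ∈ lI (nP i (-l))) (x : L) : ⁅x, i (lin u)⁆ = 0 := by
  by_contra hx
  have hN := nrm_cz hV.id
  obtain ⟨n, n1, n2, n3, n4, n5⟩ := exists_weyl h hV ht
  have hfix : n (i (lin u)) = i (lin u) := weyl_fix n4
    (fun c hc => ker_of_cz h hV (hc ▸ zero_mem _)) (s := s) (by
      refine sub_eq_zero.mp (hc_unique (i := i) (l := -l) (Ua_mono (zP_le_pP_neg i _)
        (sub_mem ?_ (Umap_mem_zP _ _))) ?_)
      · rw [Umap_Umap]
        refine Umap_mem_Ua _ (fun c => ?_) _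
        obtain ⟨c', h3, -⟩ := n4 c
        exact h3 ▸ W_zero_le_zP i _ (i_mem_W i c')
      · have := Umap_lI n (a' := nP i (-l)) (fun x hx => WS_le (T := (nP i (-l)).comap (n : L →ₗ[F] L))
          (fun β hβ x hx => mem_WS (by simpa using hβ) (n2 β x hx)) hx) h1
        rw [map_sub, n1.2.2 z hz] at this
        convert sub_mem h2 this using 1
        abel)
  set c := i (lin u) with hc'
  have hcK : c ∈ cz V := by
    obtain ⟨c', h3, h4⟩ := n4 (lin u)
    have := ker_of_cz h hV (c := c' - lin u) (by rw [map_sub, ← h3, hfix, sub_self]; exact zero_mem _)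
    rw [map_sub, h4] at this
    exact cz_of_ker h hV (by linear_combination (-2⁻¹ : F) * this)
  have hVK : V ≤ cz V := by
    rcases hV.min (V ⊓ cz V) inf_le_left (fun x y hy => ⟨hV.id x y hy.1, hN x y hy.2⟩) with h3 | h3
    · exact absurd (h3.le ⟨hc x, hN x c hcK⟩) hx
    · exact h3.ge.trans inf_le_right
  have flp : ∀ β, V ⊓ W i (-β) ≤ ⊥ → V ⊓ W i β ≤ ⊥ := fun β h3 v hv =>
    n1.1 ((h3 ⟨n1.2.1 V hV.id v hv.1, n2 β v hv.2⟩).trans (map_zero n).symm)
  obtain ⟨β, hβ, hβ'⟩ := hV.wt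
  obtain ⟨m, hm, hmax⟩ := Set.exists_max_image {β | ¬ V ⊓ W i β ≤ ⊥} l
    ((finite_W i).subset fun _ => ne_bot_of_not_le) ⟨β, hβ'⟩
  have hm0 : 0 < l m := by
    have a1 := hmax β hβ'
    have a2 := hmax (-β) fun h3 => hβ' (flp β h3)
    rw [map_neg] at a2
    by_contra h3
    exact hβ (h.gen β (ne_bot_of_not_le hβ') (by linarith))
  have htop : ∀ γ, l m < l γ → ∀ v ∈ V, v ∈ W i γ → v = 0 := fun γ hγ v hv hv' =>
    not_not.mp (mt (hmax γ) (not_le.mpr hγ)) ⟨hv, hv'⟩
  obtain ⟨y, hy, hym, hy0, hyc⟩ := exists_wvec (fun _ => hV.id _) hm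
  simp only [Submodule.mem_bot, sub_eq_zero] at hy0 hyc
  have hα : α.1 h' ≠ 0 := fun h0 => by
    simpa [h.apply (ne_bot_of_notMem ht.he ht.eK), h0] using ht.ph
  have hye : ⁅e, y⁆ = 0 := htop _ (by simpa) _ (hV.id e y hy) (lie_mem_W ht.he hym)
  have hef : ⁅e, ⁅f, y⁆⁆ = m.1 h' • y := by rw [leibniz_lie, ht.ef, hyc, hye, lie_zero, add_zero]
  have hmh : m.1 h' ≠ 0 := h.ne hα m (ne_bot_of_not_le hm) (by rintro rfl; simp at hm0)
  have hq := case2_q H h hV hVK hp ht hm0 hy hym (hyc h') hye (fun h3 => by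
    obtain ⟨t, h3⟩ := Submodule.mem_span_singleton.mp h3
    simp [← h3, hye, hmh, hy0, eq_comm (a := (0 : L))] at hef) hz h1
  rw [← hc'] at hq
  have hKc : ∀ k ∈ cz V, ⁅k, c⁆ = 0 := fun k hk => n1.1 (by
    have a1 := hq _ (Submodule.mem_sup_left (Submodule.mem_sup_left (n1.2.1 _ hN k hk)))
    have a2 := n2 m _ ((Submodule.span_singleton_le_iff_mem _ _).mpr hym
      (hq _ (Submodule.mem_sup_left (Submodule.mem_sup_left hk))))
    rw [LieHom.map_lie, hfix] at a2 ⊢
    rw [map_zero]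
    exact eq_zero_of_W (T := {β | 0 < l β}) (by simpa using hm0.le) a2
      (mem_WS hm0 ((Submodule.span_singleton_le_iff_mem _ _).mpr hym a1)))
  have hhc : ⁅i h', c⁆ = 0 := by rw [hc', ← LieHom.map_lie, hu.lie_lin, map_zero]
  obtain ⟨a, ha⟩ := Submodule.mem_span_singleton.mp (hq e (mem_sup_span_self _ _))
  have hfc : ⁅f, c⁆ = -a • n y := by
    have := hKc _ n3
    rw [add_lie, ← hfix, ← LieHom.map_lie, hfix, ← ha, map_smul] at this
    rw [neg_smul, eq_neg_of_add_eq_zero_right this]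
  by_cases ha0 : a = 0
  · apply hx
    obtain ⟨x1, hx1, t1, rfl⟩ := mem_sup_span.mp (ht.top.ge (Submodule.mem_top (x := x)))
    obtain ⟨x2, hx2, t2, rfl⟩ := mem_sup_span.mp hx1
    obtain ⟨x3, hx3, t3, rfl⟩ := mem_sup_span.mp hx2
    simp [hKc x3 hx3, hhc, hfc, ← ha, ha0]
  have hmp : m = p := by
    by_contra h3
    refine hy0 (eq_zero_of_W (T := {p}) h3 hym (mem_WS (Set.mem_singleton _) ?_))
    rw [← Submodule.smul_mem_iff _ ha0, ha]
    simpa using lie_mem_W ht.he (i_mem_W i (lin u))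
  subst hmp
  rw [ht.ph] at hef
  have hhf : ⁅i h', ⁅f, y⁆⁆ = 0 := by
    have := ht.cf h' y hy
    rw [add_lie, smul_lie] at this
    rw [leibniz_lie, hyc, lie_smul, this]
  have e2 : ⁅e, ⁅f, ⁅f, y⁆⁆⁆ = (2 : F) • ⁅f, y⁆ := by
    rw [leibniz_lie, ht.ef, hhf, hef, lie_smul, zero_add]
  have hny := n5 y hy hye hef (flp (-m + (-m + (-m + m))) (fun v hv => htop _ (by simpa) v hv.1 hv.2)
    ⟨hV.id f _ (hV.id f _ (hV.id f _ hy)), lie_mem_W ht.hf (lie_mem_W ht.hf (lie_mem_W ht.hf hym))⟩)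
    e2
  rw [← ht.ef, lie_lie, hfc, ← ha, hny] at hhc
  simp only [lie_smul, e2, smul_smul, ← sub_smul, smul_eq_zero] at hhc
  rcases hhc with h3 | h3
  · exact ha0 (by linear_combination (-2⁻¹ : F) * h3)
  · simp [h3, hy0, eq_comm (a := (0 : L))] at hef

theorem t1 (hu : Cen u) (n : ℕ) : T1P.{v} α l u s n := by
  induction n with
  | zero => exact fun L _ _ _ i hn => absurd hn (Nat.not_lt_zero _)
  | succ n ih =>
  intro L _ _ _ i hn h z hz h1 h2 x
  have H : T1P.{v} α l u s (finrank F L) := fun L' _ _ _ i' hn' => ih L' i' (by omega)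
  by_contra hx
  obtain ⟨V, ⟨hV0, hV1⟩, hV2⟩ := exists_minimal_of_wellFoundedLT
    (fun V : Submodule F L => V ≠ ⊥ ∧ ∀ x, Nrm x V)
    ⟨⊤, fun h0 => hx (h0.le trivial), fun _ _ _ => trivial⟩
  have hc : ∀ x : L, ⁅x, i (lin u)⁆ ∈ V := fun x => (qmk_eq_zero (mkIdeal V hV1)).mp
    (H.surj (qmk_surj _) (by
      have := Submodule.finrank_quotient_add_finrank V
      have h3 := Submodule.finrank_eq_zero.not.mpr hV0
      change finrank F (L ⧸ V) < _
      omega) h (hz.map_surj _ (Umap_surj (qmk_surj _))) h1 h2 x)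
  have hV : MinI i V := ⟨hV1, fun J h3 h4 => or_iff_not_imp_left.mpr fun h5 =>
    le_antisymm h3 (hV2 ⟨h5, h4⟩ h3), by
      by_contra! h3
      refine hx (WS_le (T := LinearMap.ker ((ad F L : L →ₗ[F] End F L).flip (i (lin u))))
        (fun β _ x hx => ?_) (Dec.top (i := i) x))
      change ⁅x, i (lin u)⁆ = 0
      by_cases hβ : β = 0
      · obtain ⟨c, rfl⟩ := h.h0 (hβ ▸ hx)
        exact (i.map_lie c _).symm.trans (by rw [hu.lie_lin, map_zero])
      · exact h3 β hβ ⟨hc x, by simpa using lie_mem_W hx (i_mem_W i (lin u))⟩⟩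
  by_cases hK : ∀ β ≠ 0, W i β ≤ cz V
  · exact hx (case1 h hV hK hz h1 x)
  push Not at hK
  obtain ⟨β, hβ, hK⟩ := hK
  obtain ⟨p, e, f, h', hp, ht⟩ := exists_tri h hV hβ hK
  refine hx (case2 H h hV hp ht hu hc hz h1 (h2.resolve_left fun h3 => ?_) x)
  obtain ⟨c, h4, h5⟩ := h3 p (by rintro rfl; simp at hp) e ht.he f ht.hf
  have := ker_of_cz h hV (c := h' - c) (by rw [map_sub, h5, ht.ef, sub_self]; exact zero_mem _)
  rw [map_sub, h4, sub_zero] at this
  simpa [h.apply (ne_bot_of_notMem ht.he ht.eK), this] using ht.ph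

end

end Pool.Agent.P.MP_37e2d5_al
end

-- part Pool.Agent.P.MP_37e2d5_al.Red
section

/-! The linear part of the shifted Harish-Chandra projection is central. -/

namespace Pool.Agent.P.MP_37e2d5_al

open UniversalEnvelopingAlgebra Module LieAlgebra

attribute [local instance 100] LieRing.ofAssociativeRing
attribute [-simp] UniversalEnvelopingAlgebra.ι_apply

noncomputable section

variable {F : Type*} [Field F] [CharZero F] [IsAlgClosed F] {C L : Type*} [LieRing C]
  [LieAlgebra F C] [Module.Finite F C] [LieRing.IsNilpotent C] [LieRing L] [LieAlgebra F L]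
  [Module.Finite F L] {i : C →ₗ⁅F⁆ L}

theorem Gam.central (hi : Function.Injective i) (h0 : W i 0 ≤ rg i) {l : Ch F C →ₗ[ℚ] ℚ}
    (hl : Gen i l) {z : U F L} (hz : Cen z) {γ : U F C} (h : Gam i l z γ) (x : L) :
    ⁅x, i (lin γ)⁆ = 0 := by
  have hγ := h.cen hi hz
  refine WS_le (T := LinearMap.ker ((ad F L : L →ₗ[F] End F L).flip (i (lin γ))))
    (fun α _ x hx => ?_) (Dec.top (i := i) x)
  change ⁅x, i (lin γ)⁆ = 0
  by_cases hα : α = 0
  · obtain ⟨c, rfl⟩ := h0 (hα ▸ hx)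
    exact (i.map_lie c _).symm.trans (by rw [hγ.lie_lin, map_zero])
  obtain ⟨l0, a1, a2⟩ := exists_l i (ℚ ∙ α)
  obtain ⟨l1, a3⟩ := Projective.exists_dual_eq_one ℚ hα
  have hR : ∀ β, W i β ≠ ⊥ → l0 β = 0 → β = l1 β • α := fun β hβ h1 => by
    obtain ⟨t, rfl⟩ := Submodule.mem_span_singleton.mp (a2 β hβ h1)
    simp [a3]
  have hg : ∀ β, W i β ≠ ⊥ → l0 β = 0 → l1 β = 0 → β = 0 := fun β hβ h1 h2 => by
    rw [hR β hβ h1, h2, zero_smul]
  obtain ⟨lp, p1, p2⟩ := exists_lex i l0 l1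
  obtain ⟨lm, m1, -⟩ := exists_lex i l0 (-l1)
  obtain ⟨-, z0, b1, b2, b3, b4⟩ := wall hi h0 hg p1 m1 hz (gam_indep hi h0 hz hl (p1.gen p2 hg) h)
  have hs := sub_zP i l0
  let j : C →ₗ⁅F⁆ hs.toLie := cod i hs.toLie fun c => W_zero_le_zP i l0 (i_mem_W i c)
  have hj : hs.toLie.incl.comp j = i := incl_comp_cod _ _ _
  have hW : ∀ β, ∀ x ∈ W j β, (x : L) ∈ W i β := fun β x hx => by
    have := W_map hs.toLie.incl hx
    rwa [hj] at this
  obtain ⟨z', rfl⟩ := mem_Ua_rg (hs.rg_incl.symm ▸ b1)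
  have hz' : Cen z' := cen_of_ι fun x => Umap_inj hs.incl_inj (by
    simpa using (b2 x x.2).symm)
  have hwt : ∀ β, ¬ zP i l0 ⊓ W i β ≤ ⊥ → β = l1 β • α := fun β hβ =>
    hR β (ne_bot_of_not_le hβ) (by
      by_contra h1
      exact hβ fun v hv => eq_zero_of_W h1 hv.2 hv.1)
  have hR1 : R1 j α l1 := ⟨fun x hx => (h0 (hW 0 x hx)).imp fun c hc => Subtype.ext hc,
    fun β hβ => hwt β fun h1 => hβ (eq_bot_iff.mpr fun x hx => Subtype.ext (h1 ⟨x.2, hW β x hx⟩))⟩
  obtain ⟨r, hr⟩ : ∃ r : F, (2 : F)⁻¹ • TC i _ (stb_n0 i l0 l1) = r • α := by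
    obtain ⟨s, -, c1, -, c2, -⟩ := trace_flag _ (stb_bot i) (stb_n0 i l0 l1) bot_le
      (by rw [finrank_bot, zero_add])
    refine ⟨2⁻¹ * (s.map fun β => (l1 β : F)).sum, ?_⟩
    rw [mul_smul]
    congr 1
    ext c
    rw [TC_apply, c2, trOn_bot, zero_add, List.map_congr_left (g := fun β => (l1 β : F) * α.1 c),
      List.sum_map_mul_right]
    · rfl
    · intro β hβ
      conv_lhs => rw [hwt β fun h1 => c1 β hβ ((inf_le_inf_right _ inf_le_left).trans h1)]
      simp [Rat.smul_def]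
  let χ : Ch F hs.toLie := -(2 : F)⁻¹ • TC hs.toLie.incl (nP i l0) fun b => nrm_nP (zP_le_pP i l0 b.2)
  have key : ∀ (l1 : Ch F C →ₗ[ℚ] ℚ) (σ : Ch F C), Umap hs.toLie.incl z' -
      Umap i (tau (rho i l0 + σ) γ) ∈ lI (zP i l0 ⊓ nP i l1) →
      tau χ z' - Umap j (tau σ γ) ∈ lI (nP j l1) := fun l1 σ h1 => by
    have h2 : z' - Umap j (tau (rho i l0 + σ) γ) ∈ lI (nP j l1) := lI_of_Umap hs.incl_inj
      (a' := zP i l0 ⊓ nP i l1) (fun x hx => ⟨⟨x, hx.1⟩, WS_of_map hs.incl_inj (by rw [hj]; exact hx.2), rfl⟩)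
      (by rwa [map_sub, Umap_Umap, hj])
    have h3 := tau_lI (χ := χ) (WS_le (T := LinearMap.ker χ.1) fun β hβ x hx => by
      obtain ⟨k, hk⟩ := ad_nil_of_W (by rintro rfl; simp at hβ) (hW β x hx)
      simp [χ, trOn_nil (f := ad F L (x : L)) (nrm_nP (zP_le_pP i l0 x.2))
        fun v _ => ⟨k, by simp [hk]⟩]) h2
    rwa [map_sub, tau_Umap, tau_tau, show Ch.comap j χ + (rho i l0 + σ) = σ by
      ext c; simp [χ, rho, j]] at h3
  rw [hr] at b3 b4
  have := t1 hγ _ hs.toLie j (Nat.lt_succ_self _) hR1 _ (hz'.tau χ) (key _ _ b3)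
    (Or.inr (key _ _ (by rwa [neg_smul, ← sub_eq_add_neg])))
    ⟨x, mem_WS (a1 α (Submodule.mem_span_singleton_self α)) hx⟩
  exact congrArg Subtype.val this

end

end Pool.Agent.P.MP_37e2d5_al
end

-- part Pool.Agent.P.MP_37e2d5_al.GD
section

/-! Finite free resolutions over rings with a monomial basis (Janet bases). -/

namespace Pool.Agent.P.MP_37e2d5_al

open Module

noncomputable section

universe u

/-- weighted degree -/
def wt {n : ℕ} (w a : Fin n → ℕ) : ℕ := ∑ i, w i * a i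

lemma wt_add {n : ℕ} (w a b : Fin n → ℕ) : wt w (a + b) = wt w a + wt w b := by
  simp [wt, mul_add, Finset.sum_add_distrib]

lemma wt_single {n : ℕ} (w : Fin n → ℕ) (i : Fin n) : wt w (Pi.single i 1) = w i := by
  simp [wt, Pi.single_apply]

@[simp] lemma wt_zero {n : ℕ} (w : Fin n → ℕ) : wt w 0 = 0 := by simp [wt]

lemma wt_scale {n : ℕ} (c : ℕ) (w a : Fin n → ℕ) : wt (fun i => c * w i) a = c * wt w a := by
  simp [wt, Finset.mul_sum, mul_assoc]

/-- largest index in the support -/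
def hi {n : ℕ} (a : Fin n → ℕ) (h : ∃ μ, a μ ≠ 0) : Fin n :=
  (Finset.univ.filter fun i => a i ≠ 0).max' (by obtain ⟨μ, hμ⟩ := h; exact ⟨μ, by simpa⟩)

lemma hi_ne {n : ℕ} (a : Fin n → ℕ) (h : ∃ μ, a μ ≠ 0) : a (hi a h) ≠ 0 := by
  have := Finset.max'_mem (Finset.univ.filter fun i => a i ≠ 0)
    (by obtain ⟨μ, hμ⟩ := h; exact ⟨μ, by simpa⟩)
  simpa [hi] using this

lemma le_hi {n : ℕ} (a : Fin n → ℕ) (h : ∃ μ, a μ ≠ 0) {i : Fin n} (hi' : a i ≠ 0) :
    i ≤ hi a h := Finset.le_max' _ _ (by simpa)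

lemma hi_eq {n : ℕ} (a : Fin n → ℕ) (i : Fin n) (ha : ∀ i' : Fin n, i.1 + 1 ≤ i' → a i' = 0)
    (h : ∃ μ, (a + Pi.single i 1 : Fin n → ℕ) μ ≠ 0) : hi (a + Pi.single i 1) h = i := by
  apply le_antisymm _ (le_hi _ _ (by simp))
  by_contra hc
  push Not at hc
  apply hi_ne _ h
  simp [ha _ hc, Pi.single_eq_of_ne hc.ne']

variable {F : Type*} [Field F] {Λ : Type u} [Ring Λ] [Algebra F Λ] {n : ℕ}

/-- the filtration hypothesis -/
def Hm (m : Basis (Fin n → ℕ) F Λ) (w : Fin n → ℕ) : Prop :=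
  ∀ a b, m a * m b - m (a + b) ∈ fil F m (wt w) (wt w a + wt w b)

lemma Hm.scale {m : Basis (Fin n → ℕ) F Λ} {w : Fin n → ℕ} (h : Hm m w) {c : ℕ} (hc : 0 < c) :
    Hm m fun i => c * w i := fun a b =>
  fil_le (P := fil F m _ _) (fun i hi => mem_fil _ _ (by
    simp only [wt_scale]; nlinarith)) (h a b)

/-- multiplicative indices -/
abbrev JI {J : Type u} (n : ℕ) (cl : J → ℕ) : Type u :=
  {p : J × (Fin n → ℕ) // ∀ i : Fin n, cl p.1 ≤ i → p.2 i = 0}

/-- Janet basis -/
def Janet (m : Basis (Fin n → ℕ) F Λ) (w : Fin n → ℕ) (N : Type u) [AddCommGroup N] [Module Λ N]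
    [Module F N] {J : Type u} (gen : J → N) (cl pw : J → ℕ) : Prop :=
  ∃ b : Basis (JI n cl) F N, (∀ p, b p = m p.1.2 • gen p.1.1) ∧
    ∀ j (i : Fin n), cl j ≤ i → m (Pi.single i 1) • gen j ∈
      fil F b (fun p => wt w p.1.2 + pw p.1.1) (w i + pw j)

lemma janet_step {m : Basis (Fin n → ℕ) F Λ} {w : Fin n → ℕ} (hm : Hm m w) {N : Type u}
    [AddCommGroup N] [Module Λ N] [Module F N] [IsScalarTower F Λ N] {J : Type u} {gen : J → N}
    {cl pw : J → ℕ} (h : Janet m w N gen cl pw) :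
    Function.Surjective (Finsupp.linearCombination Λ gen) ∧
    ∃ (gen' : {p : J × Fin n // cl p.1 ≤ p.2} → LinearMap.ker (Finsupp.linearCombination Λ gen)),
      Janet m (fun i => (n + 1) * w i) _ gen' (fun p => p.1.2 + 1)
        (fun p => (n + 1) * (pw p.1.1 + w p.1.2) + (n - p.1.2)) := by
  classical
  obtain ⟨b, hb, hlow⟩ := h
  set π := Finsupp.linearCombination Λ gen with hπ
  let e : Basis (J × (Fin n → ℕ)) F (J →₀ Λ) :=
    (Finsupp.basis fun _ : J => m).reindex (Equiv.sigmaEquivProd _ _)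
  have he : ∀ p, e p = Finsupp.single p.1 (m p.2) := fun p => by simp [e]
  let ω : J × (Fin n → ℕ) → ℕ := fun p => wt w p.2 + pw p.1
  have m1 : ∀ a j c, m a • e (j, c) - e (j, a + c) ∈ fil F e ω (wt w a + wt w c + pw j) := by
    intro a j c
    have := fil_map_mem (Finsupp.lsingle j : Λ →ₗ[F] J →₀ Λ)
      (P := fil F e ω (wt w a + wt w c + pw j)) (fun i hi => by
        have := mem_fil (F := F) e ω (i := (j, i)) (d := wt w a + wt w c + pw j)
          (by simp only [ω]; omega)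
        rwa [he] at this) (hm a c)
    simpa [he] using this
  have m2 : ∀ a d, ∀ v ∈ fil F e ω d, m a • v ∈ fil F e ω (wt w a + d) := by
    intro a d v hv
    refine fil_map_mem (DistribSMul.toLinearMap F _ (m a)) (fun p hp => ?_) hv
    have h1 := fil_mono e ω (by simp only [ω] at hp; omega : _ ≤ wt w a + d) (m1 a p.1 p.2)
    have h2 := mem_fil (F := F) e ω (i := (p.1, a + p.2)) (d := wt w a + d)
      (by simp only [ω, wt_add] at hp ⊢; omega)
    simpa using add_mem h1 h2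
  let lf : N →ₗ[F] (J →₀ Λ) := b.constr F fun p => e p.1
  have πe : ∀ p : JI n cl, π (e p.1) = b p := fun p => by simp [he, hπ, hb]
  have πlf : ∀ v, π (lf v) = v := by
    have : π.restrictScalars F ∘ₗ lf = LinearMap.id := b.ext fun p => by simp [lf, πe]
    exact LinearMap.congr_fun this
  refine ⟨fun v => ⟨_, πlf v⟩, ?_⟩
  let κ : J → Fin n → (J →₀ Λ) := fun j i =>
    e (j, Pi.single i 1) - lf (m (Pi.single i 1) • gen j)
  have κ1 : ∀ j i, π (κ j i) = 0 := fun j i => by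
    rw [map_sub, πlf]; simp [he, hπ]
  have κ2 : ∀ j (i : Fin n), cl j ≤ i → ∀ a, m a • κ j i - e (j, a + Pi.single i 1) ∈
      fil F e ω (ω (j, a + Pi.single i 1)) := by
    intro j i hji a
    have h1 : lf (m (Pi.single i 1) • gen j) ∈ fil F e ω (w i + pw j) :=
      fil_map_mem lf (fun p hp => by
        simp only [lf, Basis.constr_basis]; exact mem_fil _ _ hp) (hlow j i hji)
    have h2 := m2 a _ _ h1
    have h3 := m1 a j (Pi.single i 1)
    rw [wt_single, add_assoc] at h3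
    convert sub_mem h3 h2 using 1
    · simp only [ω, wt_add, wt_single, add_assoc]
    · simp only [κ, smul_sub]; abel
  let E : J × (Fin n → ℕ) → (J →₀ Λ) := fun p =>
    if h : ∃ i : Fin n, cl p.1 ≤ i ∧ p.2 i ≠ 0 then
      m (p.2 - Pi.single (hi p.2 (h.imp fun _ => And.right)) 1) •
        κ p.1 (hi p.2 (h.imp fun _ => And.right))
    else e p
  have hcl : ∀ (p : J × (Fin n → ℕ)) (h : ∃ i : Fin n, cl p.1 ≤ i ∧ p.2 i ≠ 0),
      cl p.1 ≤ hi p.2 (h.imp fun _ => And.right) := by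
    rintro p ⟨i, h1, h2⟩
    exact h1.trans (le_hi _ _ h2)
  have hE : ∀ p, E p - e p ∈ fil F e ω (ω p) := by
    intro p
    simp only [E]
    split_ifs with h
    · have := κ2 p.1 _ (hcl p h) (p.2 - Pi.single (hi p.2 (h.imp fun _ => And.right)) 1)
      rwa [sub_single_add (hi_ne _ _)] at this
    · simp
  let EB := triBasis e ω E hE
  let gen' : {p : J × Fin n // cl p.1 ≤ p.2} → LinearMap.ker π := fun p => ⟨κ p.1.1 p.1.2, κ1 _ _⟩
  let φ : JI n (fun p : {p : J × Fin n // cl p.1 ≤ p.2} => p.1.2.1 + 1) → J × (Fin n → ℕ) :=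
    fun q => (q.1.1.1.1, q.1.2 + Pi.single q.1.1.1.2 1)
  let b' : JI n (fun p : {p : J × Fin n // cl p.1 ≤ p.2} => p.1.2.1 + 1) → LinearMap.ker π :=
    fun q => m q.1.2 • gen' q.1.1
  have hφ : ∀ q, E (φ q) = b' q := by
    intro q
    have h : ∃ i : Fin n, cl (φ q).1 ≤ i ∧ (φ q).2 i ≠ 0 := ⟨q.1.1.1.2, q.1.1.2, by simp [φ]⟩
    simp only [E, dif_pos h]
    have : hi (φ q).2 (h.imp fun _ => And.right) = q.1.1.1.2 := hi_eq _ _ q.2 _
    rw [this]
    simp [φ, b', gen']
  have φinj : Function.Injective φ := by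
    rintro ⟨⟨⟨⟨j, i⟩, h1⟩, a⟩, h2⟩ ⟨⟨⟨⟨j', i'⟩, h1'⟩, a'⟩, h2'⟩ h
    simp only [φ, Prod.mk.injEq] at h
    obtain ⟨rfl, h⟩ := h
    have e1 := hi_eq a i h2 ⟨i, by simp⟩
    have e2 := hi_eq a' i' h2' ⟨i', by simp⟩
    simp only [h] at e1
    obtain rfl : i = i' := e1.symm.trans e2
    obtain rfl : a = a' := add_right_cancel h
    rfl
  have φsurj : ∀ p : J × (Fin n → ℕ), (∃ i : Fin n, cl p.1 ≤ i ∧ p.2 i ≠ 0) → ∃ q, φ q = p := by
    intro p h
    refine ⟨⟨(⟨(p.1, hi p.2 (h.imp fun _ => And.right)), hcl p h⟩,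
      p.2 - Pi.single (hi p.2 (h.imp fun _ => And.right)) 1), fun i hi' => ?_⟩, ?_⟩
    · have : p.2 i = 0 := by
        by_contra hc
        have := le_hi p.2 (h.imp fun _ => And.right) hc
        simp only at hi'
        omega
      simp [this]
    · simp only [φ, sub_single_add (hi_ne _ _)]
  have K : ∀ d (v : LinearMap.ker π), (v : J →₀ Λ) ∈ fil F e ω d → v ∈ fil F b' (ω ∘ φ) d := by
    intro d v hv
    rw [← fil_eq_of_tri e ω E hE] at hv
    have hv' : (v : J →₀ Λ) ∈ fil F EB ω d := by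
      convert hv using 2
      funext p
      simp [EB]
    rw [fil, ← Submodule.apply_mem_span_image_iff_mem_span
      (f := (LinearMap.ker π).subtype.restrictScalars F) Subtype.val_injective]
    refine Submodule.span_mono ?_ (EB.mem_span_repr_support (v : J →₀ Λ))
    rintro _ ⟨p, hp, rfl⟩
    have hp' : EB.repr v p ≠ 0 := by simpa using hp
    have h : ∃ i : Fin n, cl p.1 ≤ i ∧ p.2 i ≠ 0 := by
      by_contra hc
      push Not at hc
      have : b.coord ⟨p, hc⟩ ∘ₗ π.restrictScalars F = EB.coord p := EB.ext fun p' => by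
        by_cases h' : ∃ i : Fin n, cl p'.1 ≤ i ∧ p'.2 i ≠ 0
        · have hne : p' ≠ p := by
            rintro rfl
            obtain ⟨i, h1, h2⟩ := h'
            exact h2 (hc i h1)
          rw [Basis.coord_apply, Basis.repr_self, Finsupp.single_eq_of_ne hne.symm]
          simp [EB, E, dif_pos h', κ1]
        · have e1 : EB p' = e p' := by simp [EB, E, dif_neg h']
          push Not at h'
          rw [Basis.coord_apply, Basis.repr_self, e1, LinearMap.comp_apply,
            LinearMap.restrictScalars_apply, πe ⟨p', h'⟩]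
          simp [Finsupp.single_apply]
      apply hp'
      rw [← Basis.coord_apply, ← this]
      simp
    obtain ⟨q, rfl⟩ := φsurj p h
    exact ⟨b' q, ⟨q, (mem_fil_basis EB ω).mp hv' _ hp', rfl⟩, by simp [EB, hφ]⟩
  have li : LinearIndependent F b' := by
    refine LinearIndependent.of_comp ((LinearMap.ker π).subtype.restrictScalars F) ?_
    have : ((LinearMap.ker π).subtype.restrictScalars F) ∘ b' = EB ∘ φ := by
      funext q
      simp [EB, hφ]
    rw [this]
    exact EB.linearIndependent.comp φ φinj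
  refine ⟨gen', Basis.mk li (fun v _ => ?_), fun q => by simp [b'], fun j i' hi' => ?_⟩
  · obtain ⟨d, hd⟩ := exists_mem_fil e ω (v : J →₀ Λ)
    exact Submodule.span_mono (Set.image_subset_range _ _) (K d v hd)
  · obtain ⟨⟨j, i⟩, hj⟩ := j
    simp only at hi' hj ⊢
    have hj' : cl j ≤ i' := by omega
    rw [Basis.coe_mk]
    let q : JI n (fun p : {p : J × Fin n // cl p.1 ≤ p.2} => p.1.2.1 + 1) :=
      ⟨(⟨(j, i'), hj'⟩, Pi.single i 1), fun k hk => Pi.single_eq_of_ne (by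
        rintro rfl; simp only at hk; omega) _⟩
    have h1 := K (ω (j, Pi.single i' 1 + Pi.single i 1))
      (m (Pi.single i' 1) • gen' ⟨(j, i), hj⟩ - b' q) (by
        have a1 := κ2 j i hj (Pi.single i' 1)
        have a2 := κ2 j i' hj' (Pi.single i 1)
        rw [add_comm] at a2
        simpa [b', gen', q] using sub_mem a1 a2)
    rw [← sub_add_cancel (m (Pi.single i' 1) • gen' ⟨(j, i), hj⟩) (b' q)]
    refine add_mem (fil_le (fun q' hq' => mem_fil _ _ ?_) h1) (mem_fil _ _ ?_)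
    · simp only [Function.comp, ω, φ, wt_add, wt_single, wt_scale] at hq' ⊢
      have : (n + 1) * (wt w q'.1.2 + w q'.1.1.1.2 + pw q'.1.1.1.1 + 1) ≤
        (n + 1) * (w i' + w i + pw j) := Nat.mul_le_mul_left _ hq'
      have h3 : n - q'.1.1.1.2.1 ≤ n := Nat.sub_le _ _
      nlinarith [Nat.zero_le (n - i)]
    · simp only [q, wt_single]
      have : n - i' < n - i := by omega
      nlinarith

theorem gd (m : Basis (Fin n → ℕ) F Λ) (w : Fin n → ℕ) (hw : ∀ i, 0 < w i) (hm : Hm m w)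
    (m0 : m 0 = 1)
    (Q : ∀ (N : Type u) [AddCommGroup N] [Module Λ N] [Module F N] [IsScalarTower F Λ N], Prop)
    (h0 : ∀ (N : Type u) [AddCommGroup N] [Module Λ N] [Module F N] [IsScalarTower F Λ N],
      Subsingleton N → Q N)
    (hs : ∀ (N : Type u) [AddCommGroup N] [Module Λ N] [Module F N] [IsScalarTower F Λ N]
      (J : Type u) (π : (J →₀ Λ) →ₗ[Λ] N), Function.Surjective π → Q (LinearMap.ker π) → Q N)
    (N : Type u) [AddCommGroup N] [Module Λ N] [Module F N] [IsScalarTower F Λ N] : Q N := by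
  have key : ∀ (r : ℕ) (w : Fin n → ℕ), Hm m w → ∀ (N : Type u) [AddCommGroup N] [Module Λ N]
      [Module F N] [IsScalarTower F Λ N] (J : Type u) (gen : J → N) (cl pw : J → ℕ),
      (∀ j, cl j ≤ n ∧ n + 1 ≤ cl j + r) → Janet m w N gen cl pw → Q N := by
    intro r
    induction r with
    | zero =>
      intro w _ N _ _ _ _ J gen cl pw h ⟨b, _⟩
      have : IsEmpty (JI n cl) := ⟨fun p => by have := h p.1.1; omega⟩
      exact h0 N b.repr.toEquiv.subsingleton
    | succ r ih =>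
      intro w hm N _ _ _ _ J gen cl pw h hJ
      obtain ⟨h1, gen', h2⟩ := janet_step hm hJ
      refine hs N J _ h1 (ih _ (hm.scale (Nat.succ_pos n)) _ _ gen' _ _ (fun p => ?_) h2)
      have := h p.1.1
      have := p.2
      have := p.1.2.2
      omega
  let b := Basis.ofVectorSpace F N
  let e : Basis.ofVectorSpaceIndex F N ≃ JI n (fun _ : Basis.ofVectorSpaceIndex F N => 0) :=
    { toFun := fun j => ⟨(j, 0), fun _ _ => rfl⟩
      invFun := fun p => p.1.1
      left_inv := fun _ => rfl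
      right_inv := fun p => Subtype.ext (Prod.ext rfl (funext fun i => (p.2 i (by simp)).symm)) }
  refine key (n + 1) w hm N _ b (fun _ => 0) (fun _ => 0) (by simp)
    ⟨b.reindex e, fun p => ?_, fun j i _ => ?_⟩
  · obtain ⟨j, rfl⟩ := e.surjective p
    simp [e, m0]
  · rw [mem_fil_basis]
    intro p _
    obtain ⟨j, rfl⟩ := e.surjective p
    simpa [e] using hw i

end

end Pool.Agent.P.MP_37e2d5_al
end

-- part Pool.Agent.P.MP_37e2d5_al.Transfer
section

/-! The double cover ring and the transfer theorem. -/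

namespace Pool.Agent.P.MP_37e2d5_al

open UniversalEnvelopingAlgebra Module Matrix

attribute [local instance 100] LieRing.ofAssociativeRing
attribute [-simp] UniversalEnvelopingAlgebra.ι_apply

noncomputable section

universe u

/-- the ring obtained by adjoining a central square root of `t` -/
def QA {A : Type u} [Ring A] (_t : {t : A // Cen t}) : Type u := A × A

namespace QA

variable {F : Type*} [Field F] {A : Type u} [Ring A] [Algebra F A] {t : {t : A // Cen t}}

instance : AddCommGroup (QA t) := inferInstanceAs (AddCommGroup (A × A))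
instance : Module F (QA t) := inferInstanceAs (Module F (A × A))
instance : One (QA t) := ⟨(1, 0)⟩
instance : Mul (QA t) := ⟨fun x y => (x.1 * y.1 + x.2 * y.2 * t.1, x.1 * y.2 + x.2 * y.1)⟩

@[ext] lemma ext {x y : QA t} (h1 : x.1 = y.1) (h2 : x.2 = y.2) : x = y := Prod.ext h1 h2

@[simp] lemma add_1 (x y : QA t) : (x + y).1 = x.1 + y.1 := rfl
@[simp] lemma add_2 (x y : QA t) : (x + y).2 = x.2 + y.2 := rfl
@[simp] lemma sub_1 (x y : QA t) : (x - y).1 = x.1 - y.1 := rfl
@[simp] lemma sub_2 (x y : QA t) : (x - y).2 = x.2 - y.2 := rfl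
@[simp] lemma zero_1 : (0 : QA t).1 = 0 := rfl
@[simp] lemma zero_2 : (0 : QA t).2 = 0 := rfl
@[simp] lemma one_1 : (1 : QA t).1 = 1 := rfl
@[simp] lemma one_2 : (1 : QA t).2 = 0 := rfl
@[simp] lemma mul_1 (x y : QA t) : (x * y).1 = x.1 * y.1 + x.2 * y.2 * t.1 := rfl
@[simp] lemma mul_2 (x y : QA t) : (x * y).2 = x.1 * y.2 + x.2 * y.1 := rfl
@[simp] lemma smul_1 (c : F) (x : QA t) : (c • x).1 = c • x.1 := rfl
@[simp] lemma smul_2 (c : F) (x : QA t) : (c • x).2 = c • x.2 := rfl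

instance : Ring (QA t) :=
  { (inferInstance : AddCommGroup (QA t)), (inferInstance : One (QA t)),
    (inferInstance : Mul (QA t)) with
    left_distrib := fun x y z => by ext <;> simp [mul_add, add_mul] <;> abel
    right_distrib := fun x y z => by ext <;> simp [add_mul] <;> abel
    zero_mul := fun x => by ext <;> simp
    mul_zero := fun x => by ext <;> simp
    mul_assoc := fun x y z => by
      ext <;> simp [mul_add, add_mul, mul_assoc, ← t.2 z.1, ← t.2 z.2] <;> abel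
    one_mul := fun x => by ext <;> simp
    mul_one := fun x => by ext <;> simp }

instance : Algebra F (QA t) := Algebra.ofModule
  (fun c x y => by ext <;> simp) (fun c x y => by ext <;> simp)

variable (t) in
/-- constructor -/
def mk (a b : A) : QA t := (a, b)

@[simp] lemma mk_1 (a b : A) : (mk t a b).1 = a := rfl
@[simp] lemma mk_2 (a b : A) : (mk t a b).2 = b := rfl

variable (F t) in
/-- the inclusion -/
def inl : A →ₐ[F] QA t where
  toFun a := mk t a 0
  map_one' := rfl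
  map_mul' x y := by ext <;> simp
  map_zero' := rfl
  map_add' x y := by ext <;> simp
  commutes' c := by rw [Algebra.algebraMap_eq_smul_one, Algebra.algebraMap_eq_smul_one]; ext <;> simp

variable (t) in
/-- first coordinate -/
def fst : QA t →+ A := ⟨⟨fun x => x.1, rfl⟩, fun _ _ => rfl⟩

variable (t) in
/-- second coordinate -/
def snd : QA t →+ A := ⟨⟨fun x => x.2, rfl⟩, fun _ _ => rfl⟩

@[simp] lemma fst_apply (x : QA t) : fst t x = x.1 := rfl
@[simp] lemma snd_apply (x : QA t) : snd t x = x.2 := rfl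

@[simp] lemma inl_1 (a : A) : (inl F t a).1 = a := rfl
@[simp] lemma inl_2 (a : A) : (inl F t a).2 = 0 := rfl

variable (t) in
/-- the square root -/
def s : QA t := (0, 1)

@[simp] lemma s_1 : (s t).1 = 0 := rfl
@[simp] lemma s_2 : (s t).2 = 1 := rfl

variable (t) in
lemma s_cen : Cen (s t) := fun x => by ext <;> simp

lemma s_mul_s : s t * s t = inl F t t.1 := by ext <;> simp

/-- a module with a square root of `t` -/
@[reducible] def modQ {M : Type*} [AddCommGroup M] [Module A M] (δ : M →ₗ[A] M)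
    (h : ∀ m, δ (δ m) = t.1 • m) : Module (QA t) M where
  smul x m := x.1 • m + x.2 • δ m
  one_smul m := by change (1 : A) • m + (0 : A) • δ m = m; simp
  mul_smul x y m := by
    change (x * y).1 • m + (x * y).2 • δ m =
      x.1 • (y.1 • m + y.2 • δ m) + x.2 • δ (y.1 • m + y.2 • δ m)
    simp [add_smul, mul_smul, h]; abel
  smul_zero x := by change x.1 • (0 : M) + x.2 • δ 0 = 0; simp
  smul_add x m n := by
    change x.1 • (m + n) + x.2 • δ (m + n) = x.1 • m + x.2 • δ m + (x.1 • n + x.2 • δ n)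
    simp; abel
  add_smul x y m := by
    change (x + y).1 • m + (x + y).2 • δ m = x.1 • m + x.2 • δ m + (y.1 • m + y.2 • δ m)
    simp [add_smul]; abel
  zero_smul m := by change (0 : A) • m + (0 : A) • δ m = 0; simp

end QA

/-- multiplication by a central element -/
def cenMul {Λ : Type*} [Ring Λ] {c : Λ} (hc : Cen c) (N : Type*) [AddCommGroup N] [Module Λ N] :
    N →ₗ[Λ] N where
  toFun n := c • n
  map_add' := smul_add c
  map_smul' r n := by simp [smul_smul, hc r]

@[simp] lemma cenMul_apply {Λ : Type*} [Ring Λ] {c : Λ} (hc : Cen c) {N : Type*} [AddCommGroup N]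
    [Module Λ N] (n : N) : cenMul hc N n = c • n := rfl

variable {F : Type*} [Field F] {B : Type*} [LieRing B] [LieAlgebra F B]

lemma mem_Y_finsupp {Λ : Type*} [Ring Λ] [Algebra F Λ]
    {κ : B →ₗ⁅F⁆ Λ} {M : Type*} [AddCommGroup M] [Module Λ M] [Module F M] [IsScalarTower F Λ M]
    {J : Type*} {a : Submodule F B} {v : J →₀ M} :
    v ∈ Y κ a (J →₀ M) ↔ ∀ j, v j ∈ Y κ a M := by
  refine ⟨fun h j => Y_lmap (Finsupp.lapply (R := Λ) j) h, fun h => ?_⟩
  rw [← v.sum_single]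
  exact Submodule.sum_mem _ fun j _ => Y_lmap (Finsupp.lsingle (R := Λ) j) (h j)

variable {A : Type u} [Ring A] [Algebra F A] {t : {t : A // Cen t}}

open QA

theorem ac_of_gd [Module.Finite F B] {n : ℕ} (m : Basis (Fin n → ℕ) F (QA t)) (w : Fin n → ℕ)
    (hw : ∀ i, 0 < w i) (hm : Hm m w) (m0 : m 0 = 1) (hB : NoPerf (⊤ : Submodule F B))
    (κ : B →ₗ⁅F⁆ A) (hreg : ∀ k, Reg κ ⊤ k A) (ht : t.1 ∈ Y κ ⊤ A)
    (N : Type u) [AddCommGroup N] [Module (QA t) N] [Module F N] [IsScalarTower F (QA t) N]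
    (hN : ∀ k, Reg (((inl F t : A →ₐ[F] QA t) : A →ₗ⁅F⁆ QA t).comp κ) ⊤ k N) :
    Ac (cenMul (s_cen t) N) (Y (((inl F t : A →ₐ[F] QA t) : A →ₗ⁅F⁆ QA t).comp κ) ⊤ N) := by
  set κ' := ((inl F t : A →ₐ[F] QA t) : A →ₗ⁅F⁆ QA t).comp κ with hκ'
  have κ'_apply : ∀ x, κ' x = inl F t (κ x) := fun x => rfl
  have hinl : ∀ a ∈ Y κ ⊤ A, inl F t a ∈ Y κ' ⊤ (QA t) := fun a ha =>
    Y_map (inl F t) (fun x hx n => by
      rw [smul_eq_mul, map_mul]; exact mem_Y (κ := κ') hx _) ha
  have hregQ : ∀ k, Reg κ' ⊤ k (QA t) := fun k => (hreg k).of_retract (I := Bool)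
    (fun i => if i then fst t else snd t)
    (fun i => if i then (inl F t).toRingHom.toAddMonoidHom else
      (AddMonoidHom.mulRight (s t)).comp (inl F t).toRingHom.toAddMonoidHom)
    (by rintro (_ | _) x m <;> simp [κ'_apply])
    (by rintro (_ | _) x m <;> simp [κ'_apply, mul_assoc])
    (fun m => ⟨Finset.univ, by ext <;> simp⟩)
  have hfree : ∀ J : Type u, Ac (cenMul (s_cen t) (J →₀ QA t)) (Y κ' ⊤ (J →₀ QA t)) := by
    intro J v hv
    refine ⟨v.mapRange (fun x => inl F t x.2) (by simp), mem_Y_finsupp.mpr fun j => ?_⟩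
    have h1 : (s t * v j).2 ∈ Y κ ⊤ A := Y_map (snd t) (fun x hx n => by
      simpa [κ'_apply] using mem_Y (κ := κ) hx n.2) (mem_Y_finsupp.mp hv j)
    convert hinl _ h1 using 1
    ext <;> simp
  revert hN
  refine gd m w hw hm m0 (fun N _ _ _ _ => (∀ k, Reg κ' ⊤ k N) → Ac (cenMul (s_cen t) N) (Y κ' ⊤ N))
    (fun N _ _ _ _ h _ v _ => ⟨0, by rw [Subsingleton.elim (_ - _) 0]; exact zero_mem _⟩) ?_ N
  intro N _ _ _ _ J π hπ ih hN v hv
  have hker := ih fun k => by
    rcases k with _ | k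
    · intro a _ _ h; omega
    · exact reg_ker hB π hπ (hN k) ((hregQ _).finsupp J)
  obtain ⟨v, rfl⟩ := hπ v
  obtain ⟨y, hy, hy'⟩ := Y_lift π hπ hv
  let ω : LinearMap.ker π := ⟨s t • v - y, by simp [hy']⟩
  obtain ⟨ω', h1⟩ := hker ω (pure hB π hπ (hN _) le_rfl (fun _ _ _ _ => trivial) le_rfl _ (by
    have := sub_mem (Y_smul (hinl _ ht) v) (Y_lmap (cenMul (s_cen t) _) hy)
    simpa [ω, smul_sub, smul_smul, s_mul_s (F := F)] using this))
  obtain ⟨f, hf⟩ := hfree J (v - ω') (by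
    have := add_mem (Y_lmap (LinearMap.ker π).subtype h1) hy
    convert this using 1
    simp [ω, smul_sub]; abel)
  exact ⟨π f, by simpa [ω'.2.out] using Y_lmap π hf⟩

theorem transfer [Module.Finite F B] {n : ℕ} (m : Basis (Fin n → ℕ) F (QA t)) (w : Fin n → ℕ)
    (hw : ∀ i, 0 < w i) (hm : Hm m w) (m0 : m 0 = 1) (hB : NoPerf (⊤ : Submodule F B))
    (κ : B →ₗ⁅F⁆ A) (hreg : ∀ k, Reg κ ⊤ k A) (ht : t.1 ∈ Y κ ⊤ A) (I : Submodule A A)
    (hbij : Function.Bijective fun b => I.mkQ (lift F κ b)) {J : Type} [Fintype J] [DecidableEq J]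
    (D : Matrix J J (U F B)) (hI : ∀ i j, ∀ v ∈ I, v * lift F κ (D i j) ∈ I)
    (hD : ∀ i j, lift F κ ((D * D) i j) - scalar J t.1 i j ∈ I) : Ex (D.map (eps F B)) := by
  let D' := D.map (lift F κ)
  let δ : (J → A ⧸ I) →ₗ[A] (J → A ⧸ I) := LinearMap.pi fun j => ∑ i,
    I.mapQ I (LinearMap.toSpanSingleton A A (D' i j)) (hI i j) ∘ₗ LinearMap.proj i
  have hδ : ∀ a : J → A, δ (I.mkQ ∘ a) = I.mkQ ∘ (a ᵥ* D') := fun a => by
    funext j
    simp [δ, vecMul, dotProduct, map_sum]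
  have hsurj : ∀ v : J → A ⧸ I, ∃ a : J → A, I.mkQ ∘ a = v := fun v =>
    ⟨fun j => (I.mkQ_surjective (v j)).choose, funext fun j => (I.mkQ_surjective (v j)).choose_spec⟩
  have hδ2 : ∀ v, δ (δ v) = t.1 • v := fun v => by
    obtain ⟨a, rfl⟩ := hsurj v
    rw [hδ, hδ, vecMul_vecMul]
    funext j
    rw [Pi.smul_apply, Function.comp_apply, Function.comp_apply, ← map_smul, Submodule.mkQ_apply,
      Submodule.mkQ_apply, Submodule.Quotient.eq]
    have h1 : (a ᵥ* (D' * D' - scalar J t.1)) j ∈ I := by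
      rw [vecMul, dotProduct]
      refine Submodule.sum_mem _ fun k _ => I.smul_mem _ ?_
      simpa [D', ← Matrix.map_mul] using hD k j
    simpa [vecMul_sub, t.2 (a j)] using h1
  let := modQ δ hδ2
  have smul_def : ∀ (x : QA t) (v : J → A ⧸ I), x • v = x.1 • v + x.2 • δ v := fun _ _ => rfl
  have : IsScalarTower F (QA t) (J → A ⧸ I) := ⟨fun c x v => by simp [smul_def]⟩
  let e0 : U F B →ₗ[F] A ⧸ I := I.mkQ.restrictScalars F ∘ₗ (lift F κ).toLinearMap
  let e : U F B ≃ₗ[F] A ⧸ I := LinearEquiv.ofBijective e0 hbij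
  have he : ∀ b, e b = I.mkQ (lift F κ b) := fun _ => rfl
  have he' : ∀ x b, e (ι F x * b) = κ x • e b := fun x b => by
    rw [he, he, map_mul, lift_ι_apply, ← map_smul, smul_eq_mul]
  have he'' : ∀ x v, e.symm (κ x • v) = ι F x * e.symm v := fun x v => by
    apply e.injective
    simp [he']
  set κ' := ((inl F t : A →ₐ[F] QA t) : A →ₗ⁅F⁆ QA t).comp κ with hκ'
  have hκ : ∀ x (v : J → A ⧸ I), κ' x • v = κ x • v := fun x v => by
    change inl F t (κ x) • v = _
    simp [smul_def]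
  have hac := ac_of_gd m w hw hm m0 hB κ hreg ht (J → A ⧸ I) fun k => (reg_U ⊤ k).of_retract
    (fun j => (e.symm.toLinearMap ∘ₗ LinearMap.proj (R := F) (φ := fun _ => A ⧸ I) j).toAddMonoidHom)
    (fun j => (LinearMap.single F (fun _ => A ⧸ I) j ∘ₗ e.toLinearMap).toAddMonoidHom)
    (fun j x v => by rw [← hκ', hκ]; simp [he''])
    (fun j x v => by rw [← hκ', hκ]; simp [he', Pi.single_smul'])
    (fun v => ⟨Finset.univ, by simpa using Finset.univ_sum_single v⟩)
  rw [← hκ'] at hac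
  have hY : ∀ b : J → U F B, e ∘ b ∈ Y κ' ⊤ (J → A ⧸ I) ↔ eps F B ∘ b = 0 := fun b => by
    constructor
    · intro h
      funext j
      have := Y_map ((eps F B).toLinearMap ∘ₗ e.symm.toLinearMap ∘ₗ
        LinearMap.proj (R := F) (φ := fun _ => A ⧸ I) j) (P := ⊥) (fun x _ v => by
          simp [hκ, he'']) h
      simpa using this
    · intro h
      rw [← Finset.univ_sum_single (e ∘ b)]
      refine Submodule.sum_mem _ fun j _ => ?_
      exact Y_map (LinearMap.single F (fun _ => A ⧸ I) j ∘ₗ e.toLinearMap) (fun x hx v => by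
        have := mem_Y (κ := κ') hx (Pi.single j (e v) : J → A ⧸ I)
        simpa [hκ, he', Pi.single_smul'] using this)
        (mem_rI_of_eps (mem_Ua_top (b j)) (congrFun h j))
  have hs : ∀ b : J → U F B, s t • (e ∘ b) = e ∘ (b ᵥ* D) := fun b => by
    have := hδ (lift F κ ∘ b)
    rw [smul_def, s_1, s_2, zero_smul, one_smul, zero_add]
    refine this.trans ?_
    funext j
    rw [Function.comp_apply, Function.comp_apply, he]
    exact congrArg _ ((lift F κ).toRingHom.map_vecMul D b j).symm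
  have key : ∀ b : J → U F B, (eps F B) ∘ (b ᵥ* D) = (eps F B ∘ b) ᵥ* D.map (eps F B) :=
    fun b => funext fun i => (eps F B).toRingHom.map_vecMul D b i
  intro v hv
  have ev : eps F B ∘ (fun j => algebraMap F (U F B) (v j)) = v := by ext; simp
  obtain ⟨m', hm'⟩ := hac (e ∘ fun j => algebraMap F _ (v j)) (by
    rw [cenMul_apply, hs, hY, key, ev, hv])
  obtain ⟨b, rfl⟩ : ∃ b : J → U F B, e ∘ b = m' := ⟨e.symm ∘ m', by ext; simp⟩
  refine ⟨eps F B ∘ b, ?_⟩
  rw [cenMul_apply, hs] at hm'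
  have := (hY ((fun j => algebraMap F _ (v j)) - b ᵥ* D)).mp (by
    convert hm' using 1
    ext; simp)
  rw [← key]
  funext j
  have := congrFun this j
  simp only [Function.comp_apply, Pi.sub_apply, map_sub, AlgHom.commutes, Algebra.algebraMap_self,
    RingHom.id_apply, Pi.zero_apply, sub_eq_zero] at this
  exact this.symm

end

end Pool.Agent.P.MP_37e2d5_al
end

-- part Pool.Agent.P.MP_37e2d5_al.HSide
section

/-! A monomial basis of the double cover attached to a central element of a Lie algebra. -/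

namespace Pool.Agent.P.MP_37e2d5_al

open UniversalEnvelopingAlgebra Module

attribute [local instance 100] LieRing.ofAssociativeRing
attribute [-simp] UniversalEnvelopingAlgebra.ι_apply

noncomputable section

universe u

variable {F : Type*} [Field F] {A : Type u} [Ring A] [Algebra F A]

open QA

lemma fil_of_sub {V I : Type*} [AddCommGroup V] [Module F V] {m : I → V} {ω : I → ℕ} {d d' : ℕ}
    {x : V} {i : I} (h : x - m i ∈ fil F m ω d) (hd : d ≤ d') (hi : ω i < d') :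
    x ∈ fil F m ω d' := by
  simpa using add_mem (fil_mono _ _ hd h) (mem_fil (F := F) m ω hi)

/-- parity splitting of exponents -/
def parE (n : ℕ) : (Fin (n + 1) → ℕ) ⊕ (Fin (n + 1) → ℕ) ≃ (Fin (n + 1) → ℕ) where
  toFun := Sum.elim (fun b => Function.update b 0 (2 * b 0))
    (fun b => Function.update b 0 (2 * b 0 + 1))
  invFun a := if a 0 % 2 = 0 then Sum.inl (Function.update a 0 (a 0 / 2))
    else Sum.inr (Function.update a 0 (a 0 / 2))
  left_inv := by
    rintro (b | b)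
    · simp
    · have : (2 * b 0 + 1) / 2 = b 0 := by omega
      simp [this]
  right_inv a := by
    dsimp only
    split_ifs with h
    · have : 2 * (a 0 / 2) = a 0 := by omega
      simp [this]
    · have : 2 * (a 0 / 2) + 1 = a 0 := by omega
      simp [this]

lemma qa_basis {n : ℕ} (pb : Basis (Fin (n + 1) → ℕ) F A)
    (hmul : ∀ a b, pb a * pb b - pb (a + b) ∈ fil F pb deg (deg a + deg b)) (h0 : pb 0 = 1)
    (t : {t : A // Cen t}) (c : F) (ht : t.1 = pb (Pi.single 0 1) - algebraMap F A c) :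
    ∃ (m : Basis (Fin (n + 1) → ℕ) F (QA t)) (w : Fin (n + 1) → ℕ),
      (∀ i, 0 < w i) ∧ Hm m w ∧ m 0 = 1 := by
  let e : (A × A) ≃ₗ[F] QA t :=
    { toFun := fun p => mk t p.1 p.2
      invFun := fun x => (x.1, x.2)
      map_add' := fun _ _ => rfl
      map_smul' := fun _ _ => rfl
      left_inv := fun _ => rfl
      right_inv := fun _ => rfl }
  let m := ((pb.prod pb).map e).reindex (parE n)
  let w : Fin (n + 1) → ℕ := Fin.cons 1 fun _ => 2
  have ml : ∀ b, m (parE n (Sum.inl b)) = inl F t (pb b) := fun b => by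
    ext <;> simp [m, e]
  have mr : ∀ b, m (parE n (Sum.inr b)) = inl F t (pb b) * s t := fun b => by
    ext <;> simp [m, e]
  have wl : ∀ b, wt w (parE n (Sum.inl b)) = 2 * deg b := fun b => by
    simp [parE, wt, deg, w, Fin.sum_univ_succ, Finset.mul_sum, mul_add]
  have wr : ∀ b, wt w (parE n (Sum.inr b)) = 2 * deg b + 1 := fun b => by
    simp [parE, wt, deg, w, Fin.sum_univ_succ, Finset.mul_sum, mul_add]; ring
  have fl : ∀ d d', 2 * d ≤ d' + 1 → ∀ u ∈ fil F pb deg d, inl F t u ∈ fil F m (wt w) d' :=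
    fun d d' h u hu => fil_map_mem (inl F t).toLinearMap (fun a ha => by
      rw [AlgHom.toLinearMap_apply, ← ml]; exact mem_fil _ _ (by rw [wl]; omega)) hu
  have fr : ∀ d d', 2 * d ≤ d' → ∀ u ∈ fil F pb deg d, inl F t u * s t ∈ fil F m (wt w) d' :=
    fun d d' h u hu => fil_map_mem (LinearMap.mulRight F (s t) ∘ₗ (inl F t).toLinearMap)
      (fun a ha => by
        rw [LinearMap.comp_apply, AlgHom.toLinearMap_apply, LinearMap.mulRight_apply, ← mr]
        exact mem_fil _ _ (by rw [wr]; omega)) hu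
  refine ⟨m, w, fun i => Fin.cases (by simp [w]) (by simp [w]) i, fun a b => ?_, ?_⟩
  · obtain ⟨a | a, rfl⟩ := (parE n).surjective a <;> obtain ⟨b | b, rfl⟩ := (parE n).surjective b
    · have : parE n (Sum.inl a) + parE n (Sum.inl b) = parE n (Sum.inl (a + b)) := by
        funext i
        refine Fin.cases ?_ (fun i => ?_) i <;> simp [parE, mul_add]
      rw [this, ml, ml, ml, wl, wl, ← map_mul, ← map_sub]
      exact fl _ _ (by omega) _ (hmul a b)
    · have : parE n (Sum.inl a) + parE n (Sum.inr b) = parE n (Sum.inr (a + b)) := by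
        funext i
        refine Fin.cases ?_ (fun i => ?_) i <;> simp [parE, mul_add, add_assoc]
      rw [this, ml, mr, mr, wl, wr, ← mul_assoc, ← map_mul, ← sub_mul, ← map_sub]
      exact fr _ _ (by omega) _ (hmul a b)
    · have : parE n (Sum.inr a) + parE n (Sum.inl b) = parE n (Sum.inr (a + b)) := by
        funext i
        refine Fin.cases ?_ (fun i => ?_) i <;> simp [parE, mul_add, add_right_comm]
      rw [this, ml, mr, mr, wl, wr, mul_assoc, ← s_cen t, ← mul_assoc, ← map_mul, ← sub_mul,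
        ← map_sub]
      exact fr _ _ (by omega) _ (hmul a b)
    · have : parE n (Sum.inr a) + parE n (Sum.inr b) =
          parE n (Sum.inl (a + b + Pi.single 0 1)) := by
        funext i
        refine Fin.cases ?_ (fun i => ?_) i <;> simp [parE, mul_add]
        ring
      rw [this, ml, mr, mr, wr, wr, mul_assoc, ← mul_assoc (s t), ← s_cen t, mul_assoc,
        s_mul_s (F := F), ← map_mul, ← map_mul, ← map_sub]
      refine fl (deg a + deg b + 1) _ (by omega) _ ?_
      have h1 : (pb a * pb b - pb (a + b)) * pb (Pi.single 0 1) ∈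
          fil F pb deg (deg a + deg b + 1) :=
        fil_map_mem (LinearMap.mulRight F (pb (Pi.single 0 1))) (fun i hi => by
          have h1 := hmul i (Pi.single 0 1)
          rw [deg_single] at h1
          exact fil_of_sub h1 (by omega) (by rw [deg_add, deg_single]; omega)) (hmul a b)
      have h2 := hmul (a + b) (Pi.single 0 1)
      rw [deg_single, deg_add] at h2
      have h3 : pb a * pb b ∈ fil F pb deg (deg a + deg b + 1) :=
        fil_of_sub (hmul a b) (by omega) (by rw [deg_add]; omega)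
      convert sub_mem (add_mem h1 h2) (Submodule.smul_mem _ c h3) using 1
      rw [ht, Algebra.smul_def, Algebra.commutes]
      noncomm_ring
  · have : (0 : Fin (n + 1) → ℕ) = parE n (Sum.inl 0) := by simp [parE]
    rw [this, ml, h0, map_one]

lemma qa_basis_of_center {H : Type*} [LieRing H] [LieAlgebra F H] [Module.Finite F H]
    (φ : U F H ≃ₐ[F] A) {z : H} (hz : z ≠ 0) (t : {t : A // Cen t}) (c : F)
    (ht : t.1 = φ (ι F z) - algebraMap F A c) :
    ∃ (n : ℕ) (m : Basis (Fin n → ℕ) F (QA t)) (w : Fin n → ℕ),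
      (∀ i, 0 < w i) ∧ Hm m w ∧ m 0 = 1 := by
  obtain ⟨n, y, rfl, h1, h2⟩ := exists_compl_family' (⊥ : Submodule F H) (x := z) (by simpa)
  let x : Basis (Fin (n + 1)) F H := Basis.mk (v := y) (Fintype.linearIndependent_iff.mpr
    fun g hg => congrFun (h1 g (by simpa))) (by simpa using h2)
  refine ⟨n + 1, qa_basis ((pbw x).map φ.toLinearEquiv) (fun a b => ?_) (by simp [pbw_apply]) t c
    (by simp [ht, pbw_single, x])⟩
  have := fil_map_mem φ.toLinearEquiv.toLinearMap
    (P := fil F ((pbw x).map φ.toLinearEquiv) deg (deg a + deg b))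
    (fun i hi => mem_fil _ _ hi) (pbw_mul x a b)
  simpa using this

end

end Pool.Agent.P.MP_37e2d5_al
end

-- part Pool.Agent.P.MP_37e2d5_al.Main
section

/-! The inequality of dimensions over an algebraically closed field. -/

namespace Pool.Agent.P.MP_37e2d5_al

open UniversalEnvelopingAlgebra Module LieAlgebra Matrix

attribute [local instance 100] LieRing.ofAssociativeRing
attribute [-simp] UniversalEnvelopingAlgebra.ι_apply

noncomputable section

variable {F : Type*} [Field F] {C L H : Type*} [LieRing C] [LieAlgebra F C] [LieRing L]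
  [LieAlgebra F L] [LieRing H] [LieAlgebra F H]

lemma noPerf_ext {s : Submodule F L} (d : ℕ → Submodule F L) (h0 : s ≤ d 0)
    (hd : ∀ k, ∀ x ∈ d k, ∀ y ∈ d k, ⁅x, y⁆ ∈ d (k + 1)) {n : ℕ} (hn : NoPerf (d n)) :
    NoPerf s := by
  classical
  intro a has ha hne
  by_cases h : a ≤ d n
  · exact hn a h ha hne
  have hex : ∃ k, ¬ a ≤ d k := ⟨n, h⟩
  have hk := Nat.find_spec hex
  obtain ⟨k, hk'⟩ : ∃ k, Nat.find hex = k + 1 := by
    refine Nat.exists_eq_succ_of_ne_zero fun hc => ?_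
    rw [hc] at hk
    exact hk (has.trans h0)
  have hk2 : a ≤ d k := not_not.mp (Nat.find_min hex (by omega))
  rw [hk'] at hk
  exact exists_hyper hk (fun x hx y hy => hd k _ (hk2 hx) _ (hk2 hy)) ha

variable [CharZero F] [IsAlgClosed F] [Module.Finite F C] [LieRing.IsNilpotent C]
  [Module.Finite F L] [Module.Finite F H] {i : C →ₗ⁅F⁆ L} {l : Ch F C →ₗ[ℚ] ℚ}

lemma noPerf_pP (h : zP i l ≤ rg i) : NoPerf (pP i l) := by
  obtain ⟨N, hN⟩ := exists_lcs (sub_top (F := F) (L := C))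
    fun x _ => LieModule.isNilpotent_toEnd_of_isNilpotent F C C x
  refine noPerf_ext (fun k => (lcs ⊤ k).map (i : C →ₗ[F] L) ⊔ nP i l) ?_ (fun k x hx y hy => ?_)
    (n := N) (by simpa [hN] using noPerf_nP le_rfl)
  · simpa [lcs, rg] using
      ((stb_top i).pP_le l).trans (sup_le_sup (inf_le_right.trans h) inf_le_right)
  · obtain ⟨_, ⟨c, -, rfl⟩, x, hx', rfl⟩ := Submodule.mem_sup.mp hx
    obtain ⟨_, ⟨c', hc', rfl⟩, y, hy', rfl⟩ := Submodule.mem_sup.mp hy
    rw [add_lie, lie_add, lie_add, add_assoc]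
    exact Submodule.add_mem_sup ⟨⁅c, c'⁆, lie_mem_lcs trivial hc', i.map_lie c c'⟩
      (add_mem (stb_WS i _ c y hy') (add_mem ((stb_WS i _ c').lie_left hx')
        (sub_nP i l x hx' y hy')))

theorem Gam.lin_ne (h0 : W i 0 ≤ rg i) (hl : Gen i l) (φ : U F H ≃ₐ[F] U F L) {x : H}
    (hx : x ≠ 0) (hz : Cen (φ (ι F x))) {γ : U F C} (hγ : Cen γ) (h : Gam i l (φ (ι F x)) γ) :
    lin γ ≠ 0 := fun hlin => by
  obtain ⟨J, _, _, D, h1, h2⟩ := nc_cen (u := γ - algebraMap F _ (eps F C γ))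
    (fun a => by rw [mul_sub, sub_mul, hγ, Algebra.commutes]) (by simp)
    (by simp [hlin, lin_algebraMap])
  let t : {t : U F L // Cen t} := ⟨φ (ι F x) - algebraMap F _ (eps F C γ),
    fun a => by rw [mul_sub, sub_mul, hz, Algebra.commutes]⟩
  obtain ⟨n, m, w, m1, m2, m3⟩ := qa_basis_of_center φ hx t _ rfl
  have hs := sub_pP i (-l)
  let j : C →ₗ⁅F⁆ hs.toLie := cod i hs.toLie fun c =>
    zP_le_pP_neg i l (W_zero_le_zP i l (i_mem_W i c))
  have hj : hs.toLie.incl.comp j = i := incl_comp_cod _ _ _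
  have hz0 : zP i (-l) ≤ rg i := WS_le fun β hβ => by
    by_cases h : W i β = ⊥
    · simp [h]
    · rwa [hl β h (by simpa using hβ)]
  have hB : NoPerf (⊤ : Submodule F hs.toLie) := fun a _ => noPerf_pP (i := j) (l := -l)
    (fun x hx => (hz0 (by
      have := WS_map hs.toLie.incl hx
      rwa [hj] at this)).imp fun c hc => Subtype.ext hc) a
    fun x _ => WS_of_map hs.incl_inj (by rw [hj]; exact x.2)
  let ρ : Ch F hs.toLie := (2 : F)⁻¹ • (TC hs.toLie.incl ⊤ (fun _ _ _ => trivial) -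
    TC hs.toLie.incl (pP i (-l)) fun b => hs b b.2)
  have ρ1 : Ch.comap j ρ = rho i l := by
    ext c
    have := trOn_sup (f := ad F L (i c)) (W := pP i (-l)) (W' := nP i l) (stb_WS i _ c)
      (stb_WS i _ c) (disjoint_pP_nP i l)
    rw [(isCompl_pP_nP i l).sup_eq_top] at this
    simp [ρ, rho, j, this]
  have ρ2 : ∀ y : hs.toLie, (y : L) ∈ nP i (-l) → ρ.1 y = 0 := fun y hy => by
    have : ∀ T : Submodule F L, Nrm (y : L) T → trOn T (ad F L y) = 0 := fun T hT => by
      obtain ⟨k, hk⟩ := nil_of_graded (sub_nP i (-l)) (stb_WS i _) (fun x h1 h2 => by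
        simp [eq_zero_of_W (by simp) h2 h1]) y hy
      exact trOn_nil hT fun v _ => ⟨k, by simp [hk]⟩
    simp [ρ, this ⊤ (fun _ _ => trivial), this _ (hs y y.2)]
  let κ := tw ((ι F).comp hs.toLie.incl) ρ
  have κ1 : ∀ b, lift F κ b = Umap hs.toLie.incl (tau ρ b) := AlgHom.congr_fun
    (U_ext (h := (Umap hs.toLie.incl).comp (tau ρ)) fun x => by simp [lift_ι_apply, κ, tw_apply])
  have κ2 : ∀ u, lift F κ (Umap j u) = Umap i (tau (rho i l) u) := fun u => by
    rw [κ1, tau_Umap, Umap_Umap, hj, ρ1]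
  obtain ⟨p, p1, p2, p3, p4⟩ := exists_proj hs.toLie.incl hs.incl_inj (sub_nP i l)
    (by rw [hs.rg_incl]; exact isCompl_pP_nP i l)
  have := transfer m w m1 m2 m3 hB κ (reg_tw _ hs.incl_inj ρ ⊤) ?_ (lI (nP i l)) ⟨?_, ?_⟩
    (D.map (Umap j)) ?_ ?_
  · refine h2 ?_
    rwa [Matrix.map_map, show eps F hs.toLie ∘ Umap j = eps F C from funext (eps_Umap j)] at this
  · have a1 : φ (ι F x) - Umap i (tau (rho i l) γ) ∈ Y κ ⊤ (U F L) :=
      Y_map (AddMonoidHom.id _) (fun y hy u => by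
        have := mem_Y (κ := κ) (a := ⊤) (x := ⟨y, nP_le_pP i _ hy⟩) trivial u
        simpa [κ, tw_apply, ρ2 ⟨y, nP_le_pP i _ hy⟩ hy] using this)
        (rI_of_lI hz (Umap_mem_zP l _) h)
    have a2 := Y_map ((lift F κ).comp (Umap j)) (P := Y κ ⊤ (U F L)) (fun y _ u => by
      simpa [lift_ι_apply] using mem_Y (κ := κ) (a := ⊤) (x := j y) trivial
        (lift F κ (Umap j u)))
      (sub_eps_mem_rI (mem_Ua_top γ))
    convert add_mem a1 a2 using 1
    simp [t, κ2]
  · intro b b' hb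
    have := p3 _ ((Submodule.Quotient.eq _).mp hb)
    rw [← map_sub, κ1, ← mul_one (Umap _ _), p1, p2, mul_one] at this
    rw [← sub_eq_zero, ← tau_neg_tau ρ (b - b'), this, map_zero]
  · intro v
    obtain ⟨u, rfl⟩ := (lI (nP i l)).mkQ_surjective v
    exact ⟨tau (-ρ) (p u), ((Submodule.Quotient.eq _).mpr (by
      rw [κ1, tau_tau_neg]; exact p4 u)).symm⟩
  · intro a b v hv
    rw [Matrix.map_apply, κ2]
    exact lI_mul_Ua (fun x hx => nrm_nP (zP_le_pP i l hx)) (Umap_mem_zP l _) hv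
  · intro a b
    rw [← Matrix.map_mul, Matrix.map_apply, κ2, h1]
    by_cases hab : a = b
    · subst hab
      convert neg_mem h using 1
      simp [t]
    · simp [hab]

theorem finrank_center_le (φ : U F H ≃ₐ[F] U F L) :
    finrank F (center F H) ≤ finrank F (center F L) := by
  obtain ⟨x0, hx0⟩ := exists_isCartanSubalgebra_engel F L
  let i := (LieSubalgebra.engel F x0).incl
  have hi : Function.Injective i := Subtype.val_injective
  have h0 : W i 0 ≤ rg i := fun x hx => by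
    have : x ∈ zeroRootSubalgebra F L (LieSubalgebra.engel F x0) :=
      (mem_zeroRootSubalgebra _ _ _ _).mpr fun y => (mem_W.mp hx y).imp fun k hk => by
        rwa [Ch.zero_val, LinearMap.zero_apply, zero_smul, sub_zero] at hk
    rw [zeroRootSubalgebra_eq_of_is_cartan] at this
    exact ⟨⟨x, this⟩, rfl⟩
  obtain ⟨l, hl⟩ := exists_gen i
  have hz : ∀ x : center F H, Cen (φ (ι F (x : H))) := fun x => (cen_of_ι fun y => by
    rw [ι_comm, x.2 y, map_zero, add_zero]).map_surj φ φ.surjective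
  let G : Submodule F (center F H × center F L) :=
    { carrier := {p | ∃ γ, Gam i l (φ (ι F (p.1 : H))) γ ∧ i (lin γ) = p.2}
      zero_mem' := ⟨0, by simp [Gam], by simp⟩
      add_mem' := by
        rintro a b ⟨γ, h1, h2⟩ ⟨γ', h3, h4⟩
        refine ⟨γ + γ', ?_, by simp [h2, h4]⟩
        rw [Gam]
        convert add_mem h1 h3 using 1
        simp only [Prod.fst_add, AddMemClass.coe_add, map_add]
        abel
      smul_mem' := by
        rintro c a ⟨γ, h1, h2⟩
        refine ⟨c • γ, ?_, by simp [h2]⟩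
        rw [Gam]
        convert lI_smul c h1 using 1
        simp [smul_sub] }
  refine (LinearMap.finrank_le_finrank_of_surjective (f := LinearMap.fst F _ _ ∘ₗ G.subtype)
    fun x => ?_).trans (LinearMap.finrank_le_finrank_of_injective
      (f := LinearMap.snd F _ _ ∘ₗ G.subtype) ((injective_iff_map_eq_zero _).mpr ?_))
  · obtain ⟨γ, h⟩ := exists_gam h0 hl (hz x)
    exact ⟨⟨(x, ⟨_, h.central hi h0 hl (hz x)⟩), γ, h, rfl⟩, rfl⟩
  · rintro ⟨⟨x, y⟩, γ, h1, h2⟩ (rfl : y = 0)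
    have : (x : H) = 0 := by
      by_contra hx
      exact h1.lin_ne h0 hl φ hx (hz x) (h1.cen hi (hz x)) (hi (h2.trans (map_zero i).symm))
    exact Subtype.ext (Prod.ext (Subtype.ext this) rfl)

end

end Pool.Agent.P.MP_37e2d5_al
end

-- part Pool.Agent.P.MP_37e2d5_al.BC
section

/-! Base change to the algebraic closure. -/

namespace Pool.Agent.P.MP_37e2d5_al

open UniversalEnvelopingAlgebra Module LieAlgebra TensorProduct

attribute [local instance 100] LieRing.ofAssociativeRing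
attribute [-simp] UniversalEnvelopingAlgebra.ι_apply

noncomputable section

variable {F : Type*} [Field F] (K : Type*) [Field K] [Algebra F K] {L H : Type*} [LieRing L]
  [LieAlgebra F L] [LieRing H] [LieAlgebra F H]

lemma finrank_center_bc [Module.Finite F L] :
    finrank K (center K (K ⊗[F] L)) = finrank F (center F L) := by
  let y := Module.finBasis F L
  let T : L →ₗ[F] (Fin (finrank F L) → L) := LinearMap.pi fun j => ad F L (y j)
  have hT : Function.Exact (center F L).toSubmodule.subtype T := fun x => by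
    refine ⟨fun h => ⟨⟨x, fun w => ?_⟩, rfl⟩, ?_⟩
    · rw [← y.sum_repr w, sum_lie]
      exact Finset.sum_eq_zero fun j _ => by rw [smul_lie, show ⁅y j, x⁆ = 0 from congrFun h j,
        smul_zero]
    · rintro ⟨x, rfl⟩
      exact funext fun j => x.2 _
  let b := (center F L).toSubmodule.subtype.baseChange K
  have hb : Function.Injective b :=
    Module.Flat.lTensor_preserves_injective_linearMap _ (Submodule.subtype_injective _)
  have hr : LinearMap.range b = (center K (K ⊗[F] L)).toSubmodule := by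
    refine le_antisymm ?_ fun x hx => (Module.Flat.lTensor_exact K hT x).mp ?_
    · rintro _ ⟨x, rfl⟩ w
      induction x with
      | zero => simp
      | add x x' h h' => rw [map_add, lie_add, h, h', add_zero]
      | tmul a x =>
        induction w with
        | zero => simp
        | add w w' h h' => rw [add_lie, h, h', add_zero]
        | tmul a' w => simp [b, x.2 w]
    · have h1 : ∀ j x, (LinearMap.proj j).lTensor K (T.lTensor K x) = ⁅(1 : K) ⊗ₜ[F] y j, x⁆ := by
        intro j x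
        induction x with
        | zero => simp
        | add x x' h h' => rw [map_add, map_add, lie_add, h, h']
        | tmul a x => simp [T]
      have h2 : ∀ w : K ⊗[F] (Fin (finrank F L) → L), w = ∑ j,
          (LinearMap.single F (fun _ => L) j).lTensor K ((LinearMap.proj j).lTensor K w) := by
        intro w
        induction w with
        | zero => simp
        | add x x' h h' => simp only [map_add, Finset.sum_add_distrib, ← h, ← h']
        | tmul a x => simp [← tmul_sum, Finset.univ_sum_single]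
      rw [h2 (T.lTensor K x)]
      exact Finset.sum_eq_zero fun j _ => by rw [h1, hx, map_zero]
  change finrank K (center K (K ⊗[F] L)).toSubmodule = _
  rw [← hr, LinearMap.finrank_range_of_inj hb, Module.finrank_baseChange]
  rfl

/-- restriction of scalars on the enveloping algebra -/
@[reducible] def algF (M : Type*) [LieRing M] [LieAlgebra F M] : Algebra F (U K (K ⊗[F] M)) :=
  Algebra.compHom _ (algebraMap F K)

attribute [local instance] algF

lemma towF (M : Type*) [LieRing M] [LieAlgebra F M] : IsScalarTower F K (U K (K ⊗[F] M)) :=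
  IsScalarTower.of_algebraMap_eq fun _ => rfl

attribute [local instance] towF

/-- the canonical map to the base change -/
def eU (M : Type*) [LieRing M] [LieAlgebra F M] : U F M →ₐ[F] U K (K ⊗[F] M) := lift F
  { toFun := fun x => ι K ((1 : K) ⊗ₜ[F] x)
    map_add' := fun x y => by rw [tmul_add, map_add]
    map_smul' := fun c x => by
      rw [tmul_smul, ← algebraMap_smul K c, map_smul, algebraMap_smul]; rfl
    map_lie' := fun {x y} => by simp [← LieHom.map_lie] }

lemma eU_ι (x : L) : eU K L (ι F x) = ι K ((1 : K) ⊗ₜ[F] x) := lift_ι_apply _ _ _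

/-- base change of a morphism of enveloping algebras -/
def bc (φ : U F H →ₐ[F] U F L) : U K (K ⊗[F] H) →ₐ[K] U K (K ⊗[F] L) := lift K
  { ((eU K L).toLinearMap ∘ₗ φ.toLinearMap ∘ₗ
      ((ι F : H →ₗ⁅F⁆ U F H) : H →ₗ[F] U F H)).liftBaseChange K with
    map_lie' := fun {x y} => by
      simp only [AddHom.toFun_eq_coe, LinearMap.coe_toAddHom]
      induction x with
      | zero => simp
      | add x x' h h' => simp only [add_lie, map_add, h, h']
      | tmul a x =>
        induction y with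
        | zero => simp
        | add y y' h h' => simp only [lie_add, map_add, h, h']
        | tmul b y =>
          simp [LieRing.of_associative_ring_bracket, smul_smul, smul_sub, mul_comm] }

lemma bc_eU (φ : U F H →ₐ[F] U F L) (u : U F H) : bc K φ (eU K H u) = eU K L (φ u) := by
  have : ((bc K φ).restrictScalars F).comp (eU K H) = (eU K L).comp φ := U_ext fun x => by
    simp only [eU_ι, bc, lift_ι_apply, AlgHom.comp_apply, AlgHom.restrictScalars_apply]
    exact one_smul K _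
  exact AlgHom.congr_fun this u

lemma bc_comp (φ : U F H →ₐ[F] U F L) (ψ : U F L →ₐ[F] U F H) (h : ∀ u, ψ (φ u) = u) :
    (bc K ψ).comp (bc K φ) = AlgHom.id K _ := U_ext fun x => by
  induction x with
  | zero => simp
  | add x x' h h' => simp only [map_add, h, h']
  | tmul a x =>
    rw [show a ⊗ₜ[F] x = a • ((1 : K) ⊗ₜ[F] x) by rw [smul_tmul', smul_eq_mul, mul_one]]
    simp only [map_smul, ← eU_ι, AlgHom.comp_apply, bc_eU, h, AlgHom.id_apply]

theorem finrank_center_eq [CharZero F] [Module.Finite F L] [Module.Finite F H]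
    (φ : U F L ≃ₐ[F] U F H) : finrank F (center F L) = finrank F (center F H) := by
  let K := AlgebraicClosure F
  let ψ : U K (K ⊗[F] L) ≃ₐ[K] U K (K ⊗[F] H) := AlgEquiv.ofAlgHom (bc K φ) (bc K φ.symm)
    (bc_comp K _ _ φ.apply_symm_apply) (bc_comp K _ _ φ.symm_apply_apply)
  rw [← finrank_center_bc K (L := L), ← finrank_center_bc K (L := H)]
  exact le_antisymm (finrank_center_le ψ) (finrank_center_le ψ.symm)

end

end Pool.Agent.P.MP_37e2d5_al
end
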